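import Mathlib

set_option autoImplicit false

/-!
# A checker for search trees on four partial matchings of the 6 x 6 grid

State: two bit vectors `Y`, `N` of length `4 * 36`; bit `36 u + 6 i + d` of `Y` (of `N`) says that
the vertex `u` is known to have (known not to have) the colour `d` in the row `i`.
-/

namespace Pool.Agent.H42.Pack6

/-- Search trees: `L p` a free permutation without threat, `R c` a required cell which is not
covered, `B a b` a covered rectangle, `S u c y n` a case distinction on one bit. -/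
inductive Tr where
  | L (p : ℕ) : Tr
  | R (c : ℕ) : Tr
  | B (a b : ℕ) : Tr
  | S (u c : ℕ) (y n : Tr) : Tr

/-- one bit -/
def tb (m n : ℕ) : Bool := Nat.beq (Nat.land (Nat.shiftRight m n) 1) 1

/-- the value at `i` of the permutation `p` -/
def dg (p i : ℕ) : ℕ := Nat.mod (Nat.shiftRight p (Nat.mul 3 i)) 8

/-- what becomes known not to hold when `u` has the cell `c` -/
def msk (u c : ℕ) : ℕ :=
  Nat.lor
    (Nat.shiftLeft (Nat.xor (Nat.lor (Nat.shiftLeft 63 (Nat.mul 6 (Nat.div c 6)))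
      (Nat.shiftLeft 1090785345 (Nat.mod c 6))) (Nat.shiftLeft 1 c)) (Nat.mul 36 u))
    (Nat.xor (Nat.shiftLeft 324518553663149093266094385266689 c)
      (Nat.shiftLeft 1 (Nat.add (Nat.mul 36 u) c)))

/-- the part of `u` -/
def prt (N u : ℕ) : ℕ := Nat.mod (Nat.shiftRight N (Nat.mul 36 u)) 68719476736

/-- cells known not to be covered by the three vertices different from `o` -/
def nt (N : ℕ) : ℕ → ℕ
  | 0 => Nat.land (prt N 1) (Nat.land (prt N 2) (prt N 3))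
  | 1 => Nat.land (prt N 0) (Nat.land (prt N 2) (prt N 3))
  | 2 => Nat.land (prt N 0) (Nat.land (prt N 1) (prt N 3))
  | _ => Nat.land (prt N 0) (Nat.land (prt N 1) (prt N 2))

/-- `u` is known to have a cell in row `i` -/
def yr (Y u i : ℕ) : Bool := !(Nat.beq (Nat.mod (Nat.shiftRight Y (Nat.add (Nat.mul 36 u) (Nat.mul 6 i))) 64) 0)

/-- all three vertices different from `o` are known to have a cell in row `i` -/
def zr (Y i : ℕ) : ℕ → Bool
  | 0 => yr Y 1 i && (yr Y 2 i && yr Y 3 i)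
  | 1 => yr Y 0 i && (yr Y 2 i && yr Y 3 i)
  | 2 => yr Y 0 i && (yr Y 1 i && yr Y 3 i)
  | _ => yr Y 0 i && (yr Y 1 i && yr Y 2 i)

def okE (p x i j l : ℕ) : Bool :=
  [0, 1, 2, 3, 4, 5].all fun d => Nat.beq (dg p i) d || (Nat.beq (dg p j) d || (Nat.beq (dg p l) d ||
    (tb x (Nat.add (Nat.mul 6 i) d) || (tb x (Nat.add (Nat.mul 6 j) d) ||
      tb x (Nat.add (Nat.mul 6 l) d)))))

def okQ (p x i j l : ℕ) : Bool :=
  [0, 1, 2, 3, 4, 5].all fun q => Nat.beq i q || (Nat.beq j q || (Nat.beq l q ||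
    (tb x (Nat.add (Nat.mul 6 q) (dg p i)) || (tb x (Nat.add (Nat.mul 6 q) (dg p j)) ||
      tb x (Nat.add (Nat.mul 6 q) (dg p l))))))

/-- the three cells of `p` in the rows `i, j, l` are not completed by `T` (without `o`) -/
def chkT (p x Y o i j l : ℕ) : Bool :=
  tb x (Nat.add (Nat.mul 6 i) (dg p j)) || (tb x (Nat.add (Nat.mul 6 i) (dg p l)) ||
  (tb x (Nat.add (Nat.mul 6 j) (dg p i)) || (tb x (Nat.add (Nat.mul 6 j) (dg p l)) ||
  (tb x (Nat.add (Nat.mul 6 l) (dg p i)) || (tb x (Nat.add (Nat.mul 6 l) (dg p j)) ||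
  (okE p x i j l && (okQ p x i j l && (zr Y i o || (zr Y j o || zr Y l o)))))))))

def trs : List (ℕ × ℕ × ℕ) :=
  [(0, 1, 2), (0, 1, 3), (0, 1, 4), (0, 1, 5), (0, 2, 3), (0, 2, 4), (0, 2, 5), (0, 3, 4),
   (0, 3, 5), (0, 4, 5), (1, 2, 3), (1, 2, 4), (1, 2, 5), (1, 3, 4), (1, 3, 5), (1, 4, 5),
   (2, 3, 4), (2, 3, 5), (2, 4, 5), (3, 4, 5)]

def isP (p : ℕ) : Bool :=
  Nat.beq (Nat.lor (Nat.shiftLeft 1 (dg p 0)) (Nat.lor (Nat.shiftLeft 1 (dg p 1))
    (Nat.lor (Nat.shiftLeft 1 (dg p 2)) (Nat.lor (Nat.shiftLeft 1 (dg p 3))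
      (Nat.lor (Nat.shiftLeft 1 (dg p 4)) (Nat.shiftLeft 1 (dg p 5))))))) 63

def leafOK (p Y N : ℕ) : Bool :=
  isP p && ([0, 1, 2, 3, 4, 5].all fun i =>
    tb (Nat.land (prt N 0) (nt N 0)) (Nat.add (Nat.mul 6 i) (dg p i))) &&
  [0, 1, 2, 3].all fun o => trs.all fun t => chkT p (nt N o) Y o t.1 t.2.1 t.2.2

/-- number of ones below 6 -/
def pc (a : ℕ) : ℕ := (if tb a 0 then 1 else 0) + ((if tb a 1 then 1 else 0) +
  ((if tb a 2 then 1 else 0) + ((if tb a 3 then 1 else 0) + ((if tb a 4 then 1 else 0) +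
    (if tb a 5 then 1 else 0)))))

def rect (a b Y : ℕ) : Bool :=
  Nat.beq (pc a + pc b) 7 && (Nat.ble 1 (pc a) &&
  [0, 1, 2, 3, 4, 5].all fun i => !(tb a i) || [0, 1, 2, 3, 4, 5].all fun d => !(tb b d) ||
    (tb Y (Nat.add (Nat.mul 6 i) d) || (tb Y (Nat.add 36 (Nat.add (Nat.mul 6 i) d)) ||
    (tb Y (Nat.add 72 (Nat.add (Nat.mul 6 i) d)) || tb Y (Nat.add 108 (Nat.add (Nat.mul 6 i) d))))))

/-- the checker -/
def chk (RT : ℕ) : Tr → ℕ → ℕ → Bool
  | .L p, Y, N => leafOK p Y N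
  | .R c, _, N => Nat.blt c 36 && (tb RT c && tb (nt N 3) c)
  | .B a b, Y, _ => rect a b Y
  | .S u c y n, Y, N =>
    Nat.blt u 4 && (Nat.blt c 36 &&
    (chk RT y (Nat.lor Y (Nat.shiftLeft 1 (Nat.add (Nat.mul 36 u) c))) (Nat.lor N (msk u c)) &&
    chk RT n Y (Nat.lor N (Nat.shiftLeft 1 (Nat.add (Nat.mul 36 u) c)))))

end Pool.Agent.H42.Pack6
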