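import Pool.Agent.H42.Pack6.Chk

set_option autoImplicit false
set_option maxRecDepth 100000

namespace Pool.Agent.H42.Pack6

def trB : Tr :=
Tr.S 0 8 (Tr.S 1 9 (Tr.S 2 6 (Tr.S 0 15 (Tr.S 1 12 (Tr.S 2 13 (Tr.S 2 32 (Tr.S 3 10 (Tr.S 3 27
  (Tr.S 0 24 (Tr.L 173832) (Tr.L 165516)) (Tr.S 3 19 (Tr.S 1 31 (Tr.S 3 5 (Tr.S 3 26 (Tr.L
  177416) (Tr.L 173832)) (Tr.L 177416)) (Tr.L 46376)) (Tr.S 1 19 (Tr.S 3 31 (Tr.S 3 20 (Tr.S 0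
  18 (Tr.L 5804) (Tr.L 173832)) (Tr.L 177416)) (Tr.L 50856)) (Tr.S 3 30 (Tr.L 115368) (Tr.S 0 18
  (Tr.L 12972) (Tr.S 3 24 (Tr.L 176268) (Tr.S 3 20 (Tr.L 176268) (Tr.S 0 30 (Tr.L 177416) (Tr.L
  12972))))))))) (Tr.S 3 5 (Tr.S 3 27 (Tr.S 0 18 (Tr.L 165516) (Tr.S 3 18 (Tr.S 1 19 (Tr.L
  116040) (Tr.L 107360)) (Tr.L 106828))) (Tr.S 3 26 (Tr.S 3 30 (Tr.L 116040) (Tr.S 3 31 (Tr.L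
  116040) (Tr.S 0 24 (Tr.L 13644) (Tr.L 165516)))) (Tr.S 3 20 (Tr.S 0 18 (Tr.S 3 24 (Tr.L 10060)
  (Tr.S 3 33 (Tr.L 10060) (Tr.L 165516))) (Tr.L 176268)) (Tr.S 3 31 (Tr.L 116040) (Tr.S 1 31
  (Tr.S 3 16 (Tr.S 0 30 (Tr.L 141128) (Tr.S 3 33 (Tr.L 13644) (Tr.L 116040))) (Tr.L 173832))
  (Tr.L 50856)))))) (Tr.S 3 27 (Tr.S 1 31 (Tr.S 3 16 (Tr.S 3 19 (Tr.L 103776) (Tr.L 169632))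
  (Tr.L 173832)) (Tr.S 3 17 (Tr.S 3 18 (Tr.L 173832) (Tr.S 0 18 (Tr.S 1 25 (Tr.S 3 19 (Tr.L
  173832) (Tr.L 173832)) (Tr.L 169632)) (Tr.L 114829))) (Tr.S 3 34 (Tr.L 42848) (Tr.S 3 22 (Tr.L
  116040) (Tr.S 3 20 (Tr.S 0 18 (Tr.S 1 19 (Tr.L 169632) (Tr.L 98981)) (Tr.L 114829)) (Tr.S 3 4
  (Tr.L 116040) (Tr.L 116040))))))) (Tr.S 3 16 (Tr.S 3 11 (Tr.S 1 34 (Tr.S 3 19 (Tr.L 46432)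
  (Tr.S 1 25 (Tr.L 176800) (Tr.S 3 25 (Tr.L 42848) (Tr.S 3 33 (Tr.L 169632) (Tr.L 169632)))))
  (Tr.S 3 33 (Tr.S 0 30 (Tr.S 3 24 (Tr.L 141128) (Tr.L 165516)) (Tr.L 18061)) (Tr.S 0 18 (Tr.S 3
  30 (Tr.L 165516) (Tr.L 18061)) (Tr.S 3 30 (Tr.L 176268) (Tr.S 0 24 (Tr.L 18061) (Tr.S 0 30
  (Tr.S 3 26 (Tr.L 165516) (Tr.L 141128)) (Tr.L 18061))))))) (Tr.S 0 18 (Tr.S 3 24 (Tr.L 18061)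
  (Tr.L 165516)) (Tr.S 3 18 (Tr.S 0 24 (Tr.L 13644) (Tr.L 165516)) (Tr.L 176268)))) (Tr.S 3 18
  (Tr.S 0 30 (Tr.S 3 11 (Tr.L 177416) (Tr.L 177416)) (Tr.S 3 11 (Tr.L 18061) (Tr.L 13581)))
  (Tr.S 0 18 (Tr.S 3 30 (Tr.S 3 20 (Tr.S 1 19 (Tr.S 3 11 (Tr.L 42848) (Tr.L 50856)) (Tr.L
  173832)) (Tr.L 177416)) (Tr.L 18061)) (Tr.S 3 31 (Tr.L 114829) (Tr.S 3 34 (Tr.L 176268) (Tr.S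
  3 33 (Tr.S 0 30 (Tr.S 1 34 (Tr.L 45221) (Tr.L 143501)) (Tr.L 18061)) (Tr.S 1 19 (Tr.L 114829)
  (Tr.S 1 25 (Tr.L 114829) (Tr.S 3 26 (Tr.L 177416) (Tr.L 173832))))))))))))) (Tr.S 3 32 (Tr.S 3
  10 (Tr.S 0 18 (Tr.S 1 19 (Tr.S 2 20 (Tr.L 42792) (Tr.L 50856)) (Tr.S 2 26 (Tr.S 3 24 (Tr.L
  177416) (Tr.L 165516)) (Tr.L 173832))) (Tr.S 1 19 (Tr.S 3 18 (Tr.L 50856) (Tr.L 50856)) (Tr.S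
  3 19 (Tr.S 1 31 (Tr.S 3 27 (Tr.L 102572) (Tr.L 176268)) (Tr.L 50856)) (Tr.L 115368)))) (Tr.S 3
  17 (Tr.S 1 19 (Tr.S 2 20 (Tr.S 0 23 (Tr.S 3 18 (Tr.L 173832) (Tr.L 173832)) (Tr.L 109320))
  (Tr.S 3 27 (Tr.L 103720) (Tr.L 177416))) (Tr.S 2 26 (Tr.S 3 25 (Tr.L 177416) (Tr.S 1 25 (Tr.S
  0 29 (Tr.S 3 27 (Tr.L 50856) (Tr.L 177416)) (Tr.L 120072)) (Tr.L 103720))) (Tr.S 3 18 (Tr.L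
  173832) (Tr.L 173832)))) (Tr.S 2 26 (Tr.S 3 4 (Tr.S 0 18 (Tr.L 116040) (Tr.S 0 30 (Tr.S 3 18
  (Tr.L 99597) (Tr.L 114829)) (Tr.L 116040))) (Tr.S 0 18 (Tr.L 116040) (Tr.S 1 19 (Tr.L 116040)
  (Tr.S 0 24 (Tr.L 116040) (Tr.S 0 30 (Tr.S 1 31 (Tr.S 3 25 (Tr.L 165516) (Tr.L 103776)) (Tr.L
  116040)) (Tr.L 116040)))))) (Tr.S 3 5 (Tr.S 2 20 (Tr.S 0 18 (Tr.L 10060) (Tr.S 1 19 (Tr.L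
  50856) (Tr.S 3 19 (Tr.S 1 25 (Tr.L 50856) (Tr.L 169632)) (Tr.L 115368)))) (Tr.S 0 30 (Tr.S 3
  24 (Tr.L 176268) (Tr.L 99660)) (Tr.L 116040))) (Tr.S 3 27 (Tr.S 3 4 (Tr.S 1 31 (Tr.L 173832)
  (Tr.L 42848)) (Tr.S 0 30 (Tr.S 1 25 (Tr.L 34469) (Tr.L 169632)) (Tr.L 10060))) (Tr.S 0 30
  (Tr.S 3 18 (Tr.S 1 19 (Tr.S 3 16 (Tr.L 42848) (Tr.L 173832)) (Tr.L 176800)) (Tr.L 114829))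
  (Tr.S 3 4 (Tr.L 9997) (Tr.L 10060)))))))) (Tr.S 3 4 (Tr.S 3 33 (Tr.S 0 30 (Tr.S 3 20 (Tr.L
  78093) (Tr.S 3 24 (Tr.L 78093) (Tr.S 3 17 (Tr.S 2 20 (Tr.S 0 23 (Tr.L 67341) (Tr.L 67341))
  (Tr.L 177416)) (Tr.L 83784)))) (Tr.S 3 19 (Tr.L 18061) (Tr.S 1 19 (Tr.S 2 20 (Tr.S 0 18 (Tr.L
  14477) (Tr.S 3 17 (Tr.L 50856) (Tr.L 83784))) (Tr.L 18061)) (Tr.L 18061)))) (Tr.S 1 19 (Tr.S 3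
  29 (Tr.L 71520) (Tr.S 3 27 (Tr.S 3 17 (Tr.L 71464) (Tr.L 71520)) (Tr.S 0 18 (Tr.S 3 25 (Tr.L
  67341) (Tr.S 3 24 (Tr.L 5797) (Tr.L 67341))) (Tr.S 3 25 (Tr.S 2 26 (Tr.S 3 20 (Tr.L 114829)
  (Tr.L 177416)) (Tr.L 173832)) (Tr.L 169632))))) (Tr.S 3 19 (Tr.S 0 18 (Tr.S 3 24 (Tr.L 18061)
  (Tr.S 2 23 (Tr.L 67341) (Tr.L 67341))) (Tr.L 114829)) (Tr.S 3 24 (Tr.L 176800) (Tr.S 0 18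
  (Tr.L 98981) (Tr.S 3 18 (Tr.S 3 26 (Tr.L 176800) (Tr.S 2 20 (Tr.L 173832) (Tr.S 0 24 (Tr.L
  18061) (Tr.L 99597)))) (Tr.L 114829))))))) (Tr.S 3 17 (Tr.S 3 33 (Tr.S 0 30 (Tr.S 1 19 (Tr.L
  50856) (Tr.S 3 24 (Tr.L 78093) (Tr.L 165516))) (Tr.S 1 25 (Tr.L 18061) (Tr.S 3 25 (Tr.S 1 19
  (Tr.S 0 18 (Tr.L 34476) (Tr.L 50856)) (Tr.L 18061)) (Tr.L 71464)))) (Tr.S 0 18 (Tr.S 3 27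
  (Tr.L 67341) (Tr.S 3 26 (Tr.L 67341) (Tr.S 3 30 (Tr.L 67341) (Tr.S 3 24 (Tr.S 1 25 (Tr.S 2 26
  (Tr.L 18061) (Tr.L 173832)) (Tr.L 71464)) (Tr.L 67341))))) (Tr.S 0 30 (Tr.S 3 22 (Tr.L 114829)
  (Tr.S 3 25 (Tr.L 67341) (Tr.S 3 26 (Tr.L 67341) (Tr.S 1 19 (Tr.L 71464) (Tr.S 3 19 (Tr.S 3 24
  (Tr.L 78093) (Tr.L 165516)) (Tr.L 115368)))))) (Tr.S 3 24 (Tr.L 78093) (Tr.S 3 20 (Tr.S 3 10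
  (Tr.L 114829) (Tr.L 114829)) (Tr.S 2 20 (Tr.S 3 26 (Tr.S 3 18 (Tr.S 1 19 (Tr.L 71464) (Tr.L
  18061)) (Tr.L 176268)) (Tr.L 173832)) (Tr.S 3 22 (Tr.L 114829) (Tr.S 3 25 (Tr.L 177416) (Tr.S
  3 34 (Tr.L 18061) (Tr.S 0 24 (Tr.S 3 27 (Tr.S 2 26 (Tr.S 1 29 (Tr.L 71464) (Tr.L 87816)) (Tr.L
  173832)) (Tr.S 3 30 (Tr.L 114829) (Tr.L 18061))) (Tr.S 3 18 (Tr.L 99597) (Tr.L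
  165516)))))))))))) (Tr.S 3 27 (Tr.S 1 19 (Tr.S 3 10 (Tr.L 71464) (Tr.S 3 11 (Tr.L 71520) (Tr.L
  71520))) (Tr.S 3 11 (Tr.S 0 18 (Tr.L 165516) (Tr.S 3 18 (Tr.S 1 25 (Tr.S 2 20 (Tr.L 107360)
  (Tr.L 116040)) (Tr.L 169632)) (Tr.L 114829))) (Tr.S 3 19 (Tr.S 0 24 (Tr.S 2 26 (Tr.S 1 29
  (Tr.L 83784) (Tr.L 118924)) (Tr.L 106828)) (Tr.L 165516)) (Tr.S 0 24 (Tr.S 3 16 (Tr.L 115368)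
  (Tr.L 83784)) (Tr.L 165516))))) (Tr.S 3 11 (Tr.S 2 20 (Tr.S 3 18 (Tr.L 83784) (Tr.S 0 18 (Tr.S
  1 19 (Tr.S 3 30 (Tr.L 47776) (Tr.L 14988)) (Tr.L 83784)) (Tr.L 83784))) (Tr.S 0 30 (Tr.L
  83784) (Tr.S 3 30 (Tr.S 0 18 (Tr.L 165516) (Tr.L 83784)) (Tr.L 18061)))) (Tr.S 1 19 (Tr.S 3 31
  (Tr.S 0 18 (Tr.S 3 10 (Tr.L 71464) (Tr.L 71520)) (Tr.L 83784)) (Tr.S 3 18 (Tr.L 83784) (Tr.S 0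
  18 (Tr.S 2 20 (Tr.S 3 29 (Tr.L 34476) (Tr.S 3 34 (Tr.L 80200) (Tr.S 3 22 (Tr.S 3 24 (Tr.L
  80648) (Tr.L 80648)) (Tr.S 3 24 (Tr.L 80200) (Tr.L 80200))))) (Tr.L 50856)) (Tr.L 83784))))
  (Tr.S 1 25 (Tr.S 3 19 (Tr.L 83784) (Tr.S 3 30 (Tr.L 83784) (Tr.S 3 10 (Tr.L 83784) (Tr.L
  83784)))) (Tr.S 3 19 (Tr.L 83784) (Tr.S 3 22 (Tr.L 83784) (Tr.S 3 31 (Tr.L 83784) (Tr.S 3 20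
  (Tr.L 83784) (Tr.S 3 34 (Tr.L 83784) (Tr.S 3 24 (Tr.L 83784) (Tr.S 3 10 (Tr.L 78632) (Tr.L
  78688)))))))))))))))) (Tr.R 13)) (Tr.R 12)) (Tr.R 15)) (Tr.R 6)) (Tr.R 9)) (Tr.S 2 8 (Tr.S 0 6
  (Tr.S 1 9 (Tr.S 0 15 (Tr.S 1 12 (Tr.S 2 13 (Tr.S 0 26 (Tr.S 3 5 (Tr.S 3 33 (Tr.S 1 31 (Tr.S 3
  19 (Tr.L 83784) (Tr.L 83784)) (Tr.L 50856)) (Tr.S 3 18 (Tr.S 2 24 (Tr.S 3 10 (Tr.L 116040)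
  (Tr.L 116040)) (Tr.L 99660)) (Tr.S 2 18 (Tr.S 3 24 (Tr.S 3 20 (Tr.S 1 19 (Tr.L 5804) (Tr.L
  83784)) (Tr.L 116040)) (Tr.L 165516)) (Tr.S 3 25 (Tr.L 176268) (Tr.S 1 31 (Tr.L 102572) (Tr.S
  3 32 (Tr.L 116040) (Tr.S 1 25 (Tr.S 3 19 (Tr.L 116040) (Tr.L 115368)) (Tr.L 102572))))))))
  (Tr.S 3 10 (Tr.S 3 33 (Tr.S 2 18 (Tr.L 18061) (Tr.S 1 19 (Tr.L 50856) (Tr.S 3 19 (Tr.L 78093)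
  (Tr.L 78632)))) (Tr.S 3 27 (Tr.S 2 18 (Tr.S 3 17 (Tr.L 165516) (Tr.L 165516)) (Tr.S 3 18 (Tr.S
  2 24 (Tr.L 18061) (Tr.L 165516)) (Tr.L 114829))) (Tr.S 2 18 (Tr.S 3 20 (Tr.S 3 24 (Tr.L 18061)
  (Tr.L 165516)) (Tr.L 177416)) (Tr.S 3 30 (Tr.L 78093) (Tr.S 3 20 (Tr.L 114829) (Tr.S 1 19
  (Tr.L 177416) (Tr.S 3 19 (Tr.L 114829) (Tr.L 115368)))))))) (Tr.S 3 33 (Tr.S 3 17 (Tr.S 2 18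
  (Tr.L 18061) (Tr.S 3 18 (Tr.S 1 19 (Tr.L 177416) (Tr.L 78632)) (Tr.L 78093))) (Tr.S 2 18 (Tr.L
  18061) (Tr.S 3 22 (Tr.L 78156) (Tr.S 2 30 (Tr.S 3 18 (Tr.L 83784) (Tr.S 1 31 (Tr.L 83784)
  (Tr.L 83784))) (Tr.S 3 20 (Tr.L 18061) (Tr.L 83784)))))) (Tr.S 3 17 (Tr.S 3 4 (Tr.S 2 29 (Tr.S
  3 18 (Tr.L 99597) (Tr.S 2 30 (Tr.L 114829) (Tr.S 3 24 (Tr.L 18061) (Tr.S 2 18 (Tr.S 3 31 (Tr.L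
  18061) (Tr.S 1 31 (Tr.S 3 19 (Tr.L 169632) (Tr.L 115368)) (Tr.L 50856))) (Tr.L 114829)))))
  (Tr.S 1 29 (Tr.S 3 25 (Tr.S 1 31 (Tr.L 115368) (Tr.L 50856)) (Tr.L 169632)) (Tr.S 3 27 (Tr.S 1
  25 (Tr.S 3 31 (Tr.L 87816) (Tr.L 50856)) (Tr.L 169632)) (Tr.S 2 18 (Tr.S 3 30 (Tr.S 1 31 (Tr.L
  87816) (Tr.L 50856)) (Tr.L 18061)) (Tr.S 3 18 (Tr.S 1 19 (Tr.L 177416) (Tr.L 119456)) (Tr.L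
  114829)))))) (Tr.S 2 18 (Tr.S 3 24 (Tr.L 18061) (Tr.L 165516)) (Tr.S 3 18 (Tr.S 2 24 (Tr.L
  18061) (Tr.L 99597)) (Tr.L 114829)))) (Tr.S 3 19 (Tr.S 1 25 (Tr.S 3 4 (Tr.L 116040) (Tr.L
  116040)) (Tr.L 103776)) (Tr.S 1 19 (Tr.S 3 25 (Tr.S 3 20 (Tr.S 2 18 (Tr.L 34469) (Tr.L 83784))
  (Tr.L 116040)) (Tr.L 169632)) (Tr.S 3 24 (Tr.L 176800) (Tr.S 2 30 (Tr.L 98981) (Tr.S 3 32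
  (Tr.L 116040) (Tr.S 2 24 (Tr.S 3 18 (Tr.L 116040) (Tr.L 114829)) (Tr.L 98981))))))))))) (Tr.S
  3 26 (Tr.S 3 4 (Tr.S 1 19 (Tr.S 0 20 (Tr.S 3 17 (Tr.L 71464) (Tr.L 71520)) (Tr.L 177416))
  (Tr.S 3 19 (Tr.S 3 17 (Tr.S 2 18 (Tr.S 0 20 (Tr.L 67341) (Tr.L 177416)) (Tr.S 1 25 (Tr.L
  50856) (Tr.L 169632))) (Tr.S 0 32 (Tr.S 1 31 (Tr.L 177416) (Tr.L 46432)) (Tr.L 83784))) (Tr.S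
  0 32 (Tr.S 3 17 (Tr.L 176800) (Tr.L 176800)) (Tr.L 176800)))) (Tr.S 3 5 (Tr.S 1 19 (Tr.S 2 18
  (Tr.S 0 20 (Tr.L 67404) (Tr.L 165516)) (Tr.S 0 32 (Tr.S 3 31 (Tr.L 116040) (Tr.L 50856)) (Tr.L
  83784))) (Tr.S 0 34 (Tr.L 83784) (Tr.S 0 32 (Tr.S 3 31 (Tr.L 116040) (Tr.S 1 31 (Tr.S 2 18
  (Tr.L 165516) (Tr.S 2 24 (Tr.S 3 33 (Tr.L 5804) (Tr.L 116040)) (Tr.L 165516))) (Tr.L 50856)))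
  (Tr.S 3 10 (Tr.L 83784) (Tr.L 83784))))) (Tr.S 3 17 (Tr.S 1 19 (Tr.S 0 20 (Tr.L 71464) (Tr.L
  177416)) (Tr.S 3 19 (Tr.S 2 24 (Tr.L 176268) (Tr.L 165516)) (Tr.S 2 18 (Tr.L 165516) (Tr.S 3
  10 (Tr.S 3 18 (Tr.S 2 24 (Tr.L 18061) (Tr.L 165516)) (Tr.L 176268)) (Tr.L 176800))))) (Tr.S 2
  24 (Tr.S 3 10 (Tr.S 0 32 (Tr.S 3 33 (Tr.L 13644) (Tr.L 116040)) (Tr.L 83784)) (Tr.S 0 32 (Tr.S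
  3 33 (Tr.L 13644) (Tr.L 116040)) (Tr.L 83784))) (Tr.S 0 32 (Tr.S 3 33 (Tr.S 3 11 (Tr.L 165516)
  (Tr.L 165516)) (Tr.L 99660)) (Tr.L 67404)))))) (Tr.S 3 10 (Tr.S 3 33 (Tr.S 1 19 (Tr.S 0 22
  (Tr.L 50856) (Tr.L 42792)) (Tr.S 2 30 (Tr.S 3 18 (Tr.S 0 20 (Tr.L 78632) (Tr.L 177416)) (Tr.L
  176268)) (Tr.S 3 17 (Tr.L 173832) (Tr.L 173832)))) (Tr.S 0 20 (Tr.S 2 18 (Tr.S 3 24 (Tr.S 1 19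
  (Tr.L 104616) (Tr.L 173832)) (Tr.S 1 19 (Tr.S 3 23 (Tr.L 108872) (Tr.L 109320)) (Tr.L
  173832))) (Tr.S 3 5 (Tr.S 3 24 (Tr.L 173832) (Tr.L 173832)) (Tr.L 173832))) (Tr.S 3 27 (Tr.S 2
  24 (Tr.S 3 18 (Tr.L 173832) (Tr.S 3 5 (Tr.L 173832) (Tr.L 173832))) (Tr.L 165516)) (Tr.S 2 30
  (Tr.S 3 5 (Tr.S 3 24 (Tr.L 173832) (Tr.L 173832)) (Tr.L 173832)) (Tr.S 3 18 (Tr.L 173832)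
  (Tr.S 3 23 (Tr.L 116040) (Tr.S 3 17 (Tr.S 2 18 (Tr.S 3 24 (Tr.L 18061) (Tr.L 165516)) (Tr.L
  173832)) (Tr.S 3 20 (Tr.S 1 19 (Tr.S 3 31 (Tr.L 10060) (Tr.L 50856)) (Tr.L 115368)) (Tr.L
  116040))))))))) (Tr.S 3 5 (Tr.S 3 27 (Tr.S 1 25 (Tr.S 3 19 (Tr.L 42848) (Tr.L 107360)) (Tr.S 2
  30 (Tr.L 169632) (Tr.S 3 30 (Tr.S 2 18 (Tr.S 0 20 (Tr.L 71520) (Tr.L 169632)) (Tr.L 169632))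
  (Tr.L 5804)))) (Tr.S 1 19 (Tr.S 3 33 (Tr.L 42848) (Tr.S 3 25 (Tr.L 42848) (Tr.S 3 31 (Tr.S 2
  18 (Tr.L 10060) (Tr.L 169632)) (Tr.L 42848)))) (Tr.S 3 31 (Tr.L 176800) (Tr.S 3 20 (Tr.L
  176800) (Tr.S 3 18 (Tr.L 176800) (Tr.S 2 18 (Tr.S 3 24 (Tr.S 1 31 (Tr.L 5804) (Tr.L 42848))
  (Tr.L 165516)) (Tr.L 176268))))))) (Tr.S 1 19 (Tr.S 3 33 (Tr.S 3 17 (Tr.L 42792) (Tr.S 3 11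
  (Tr.S 3 16 (Tr.S 0 22 (Tr.L 42848) (Tr.L 42848)) (Tr.L 42848)) (Tr.L 42848))) (Tr.S 3 16 (Tr.S
  3 25 (Tr.S 3 11 (Tr.S 0 22 (Tr.L 42848) (Tr.L 42848)) (Tr.L 42848)) (Tr.S 2 18 (Tr.S 3 30
  (Tr.L 42848) (Tr.L 10060)) (Tr.L 169632))) (Tr.S 3 25 (Tr.S 3 17 (Tr.L 42792) (Tr.L 42848))
  (Tr.S 2 18 (Tr.S 0 20 (Tr.S 3 29 (Tr.L 109320) (Tr.S 3 34 (Tr.L 9997) (Tr.S 3 23 (Tr.S 3 24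
  (Tr.L 108872) (Tr.L 108872)) (Tr.S 3 24 (Tr.L 109320) (Tr.L 109320))))) (Tr.L 169632)) (Tr.L
  169632))))) (Tr.S 3 33 (Tr.S 3 18 (Tr.S 3 11 (Tr.L 176800) (Tr.L 176800)) (Tr.S 2 30 (Tr.S 3
  17 (Tr.L 173832) (Tr.S 3 19 (Tr.S 0 32 (Tr.S 1 34 (Tr.L 46432) (Tr.L 141128)) (Tr.L 83784))
  (Tr.L 176800))) (Tr.L 18061))) (Tr.S 1 31 (Tr.S 0 32 (Tr.S 3 4 (Tr.S 3 19 (Tr.L 173832) (Tr.L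
  173832)) (Tr.S 3 22 (Tr.L 173832) (Tr.S 3 23 (Tr.L 107360) (Tr.S 3 29 (Tr.L 169632) (Tr.S 2 18
  (Tr.S 3 30 (Tr.L 165516) (Tr.L 18061)) (Tr.S 3 19 (Tr.L 102565) (Tr.S 3 24 (Tr.L 176268) (Tr.S
  3 17 (Tr.L 107304) (Tr.L 107360))))))))) (Tr.S 3 19 (Tr.S 3 16 (Tr.S 3 32 (Tr.S 2 30 (Tr.L
  169632) (Tr.L 18061)) (Tr.L 83784)) (Tr.L 173832)) (Tr.S 3 29 (Tr.L 176800) (Tr.S 3 4 (Tr.S 3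
  11 (Tr.L 173832) (Tr.L 173832)) (Tr.S 3 11 (Tr.S 3 27 (Tr.S 2 18 (Tr.L 165516) (Tr.L 169632))
  (Tr.L 176800)) (Tr.L 115368)))))) (Tr.S 3 4 (Tr.S 3 19 (Tr.L 173832) (Tr.S 3 31 (Tr.L 173832)
  (Tr.L 173832))) (Tr.S 3 17 (Tr.S 3 20 (Tr.L 107304) (Tr.L 173832)) (Tr.S 3 25 (Tr.L 176800)
  (Tr.S 3 20 (Tr.L 107360) (Tr.S 0 20 (Tr.S 3 34 (Tr.L 173832) (Tr.S 3 23 (Tr.L 115368) (Tr.S 2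
  18 (Tr.S 3 30 (Tr.L 165516) (Tr.L 18061)) (Tr.S 3 18 (Tr.S 2 24 (Tr.L 18061) (Tr.L 165516))
  (Tr.L 114829))))) (Tr.L 116040))))))))))))) (Tr.R 13)) (Tr.S 2 12 (Tr.S 1 13 (Tr.S 1 24 (Tr.S
  3 17 (Tr.S 3 33 (Tr.S 2 31 (Tr.L 18061) (Tr.L 50856)) (Tr.S 3 20 (Tr.S 0 26 (Tr.S 3 10 (Tr.S 3
  30 (Tr.L 114829) (Tr.L 18061)) (Tr.L 114829)) (Tr.L 106765)) (Tr.S 0 20 (Tr.S 3 26 (Tr.S 3 18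
  (Tr.S 2 19 (Tr.L 71464) (Tr.L 18061)) (Tr.L 114829)) (Tr.L 173832)) (Tr.S 3 25 (Tr.L 177416)
  (Tr.S 2 19 (Tr.L 103720) (Tr.S 3 31 (Tr.L 115368) (Tr.S 3 18 (Tr.L 115368) (Tr.S 2 25 (Tr.L
  114829) (Tr.L 103720))))))))) (Tr.S 3 10 (Tr.S 3 33 (Tr.S 2 19 (Tr.L 50856) (Tr.S 3 19 (Tr.S 0
  20 (Tr.L 176268) (Tr.L 13644)) (Tr.L 12972))) (Tr.S 3 30 (Tr.S 3 25 (Tr.L 176268) (Tr.S 3 26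
  (Tr.L 176268) (Tr.S 2 31 (Tr.L 102572) (Tr.L 50856)))) (Tr.S 3 18 (Tr.S 2 19 (Tr.S 3 31 (Tr.L
  5804) (Tr.S 3 27 (Tr.L 5804) (Tr.L 50856))) (Tr.L 115368)) (Tr.S 3 26 (Tr.L 176268) (Tr.S 0 26
  (Tr.S 3 5 (Tr.S 2 25 (Tr.L 22156) (Tr.S 3 27 (Tr.L 102572) (Tr.L 176268))) (Tr.L 18061)) (Tr.L
  173832)))))) (Tr.S 3 33 (Tr.S 0 26 (Tr.S 3 5 (Tr.S 3 20 (Tr.L 78156) (Tr.L 83784)) (Tr.L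
  18061)) (Tr.S 3 4 (Tr.S 3 19 (Tr.L 18061) (Tr.S 2 19 (Tr.S 3 26 (Tr.S 0 32 (Tr.L 18061) (Tr.L
  83784)) (Tr.L 173832)) (Tr.L 176800))) (Tr.S 3 29 (Tr.L 10060) (Tr.S 3 23 (Tr.L 176268) (Tr.S
  3 18 (Tr.S 2 19 (Tr.S 0 20 (Tr.L 83784) (Tr.L 46432)) (Tr.L 176800)) (Tr.S 3 11 (Tr.L 176268)
  (Tr.L 176268))))))) (Tr.S 3 5 (Tr.S 3 16 (Tr.S 0 29 (Tr.S 3 20 (Tr.L 106828) (Tr.S 0 32 (Tr.L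
  116040) (Tr.S 3 32 (Tr.L 10060) (Tr.S 3 27 (Tr.L 83784) (Tr.L 83784))))) (Tr.S 3 27 (Tr.S 2 25
  (Tr.S 3 31 (Tr.L 115368) (Tr.L 50856)) (Tr.L 169632)) (Tr.S 2 19 (Tr.S 3 25 (Tr.L 50856) (Tr.L
  169632)) (Tr.S 3 25 (Tr.L 115368) (Tr.S 2 25 (Tr.S 3 31 (Tr.L 22156) (Tr.L 54944)) (Tr.L
  169632)))))) (Tr.S 2 19 (Tr.S 3 31 (Tr.L 169632) (Tr.L 50856)) (Tr.S 3 19 (Tr.S 2 25 (Tr.L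
  50856) (Tr.L 102572)) (Tr.L 115368)))) (Tr.S 3 19 (Tr.S 2 25 (Tr.S 3 16 (Tr.L 114829) (Tr.L
  114829)) (Tr.S 3 16 (Tr.L 169632) (Tr.L 102565))) (Tr.S 2 19 (Tr.S 3 25 (Tr.S 3 18 (Tr.S 0 20
  (Tr.S 3 16 (Tr.L 42848) (Tr.L 173832)) (Tr.L 18061)) (Tr.L 114829)) (Tr.L 169632)) (Tr.S 3 26
  (Tr.L 176800) (Tr.S 3 29 (Tr.L 115368) (Tr.S 3 27 (Tr.S 2 25 (Tr.S 0 29 (Tr.L 107360) (Tr.L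
  119456)) (Tr.L 169632)) (Tr.S 0 20 (Tr.L 176800) (Tr.S 0 26 (Tr.S 3 30 (Tr.L 114829) (Tr.L
  18061)) (Tr.L 176800)))))))))))) (Tr.S 3 24 (Tr.S 3 4 (Tr.S 1 18 (Tr.S 3 19 (Tr.L 18061) (Tr.S
  2 19 (Tr.S 0 20 (Tr.L 14477) (Tr.L 18061)) (Tr.L 18061))) (Tr.S 3 32 (Tr.L 114829) (Tr.S 0 32
  (Tr.S 1 30 (Tr.S 2 34 (Tr.S 3 33 (Tr.L 173832) (Tr.L 114829)) (Tr.L 143501)) (Tr.L 18061))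
  (Tr.L 78093)))) (Tr.S 3 17 (Tr.S 1 18 (Tr.S 2 25 (Tr.S 3 19 (Tr.L 18061) (Tr.L 12972)) (Tr.L
  5804)) (Tr.S 0 20 (Tr.L 176268) (Tr.S 3 20 (Tr.S 0 26 (Tr.L 78093) (Tr.L 173832)) (Tr.L
  177416)))) (Tr.S 1 18 (Tr.S 3 10 (Tr.S 2 19 (Tr.L 5804) (Tr.S 0 20 (Tr.L 173832) (Tr.S 3 20
  (Tr.S 0 26 (Tr.L 83784) (Tr.L 173832)) (Tr.L 177416)))) (Tr.S 3 33 (Tr.S 2 31 (Tr.S 3 11 (Tr.L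
  5797) (Tr.L 5804)) (Tr.S 3 16 (Tr.S 0 26 (Tr.S 2 19 (Tr.L 71520) (Tr.L 83784)) (Tr.L 42848))
  (Tr.S 0 26 (Tr.S 3 11 (Tr.L 18061) (Tr.L 50856)) (Tr.L 42848)))) (Tr.S 2 25 (Tr.S 3 19 (Tr.S 0
  20 (Tr.L 42848) (Tr.L 116040)) (Tr.L 176800)) (Tr.S 3 11 (Tr.L 5797) (Tr.L 5804))))) (Tr.S 3 5
  (Tr.S 2 19 (Tr.L 176268) (Tr.S 0 20 (Tr.L 176268) (Tr.S 2 25 (Tr.S 0 26 (Tr.S 3 32 (Tr.L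
  50856) (Tr.L 78156)) (Tr.L 176268)) (Tr.L 176268)))) (Tr.S 2 19 (Tr.L 176268) (Tr.S 3 22 (Tr.L
  176800) (Tr.S 1 34 (Tr.L 18061) (Tr.S 2 31 (Tr.L 176268) (Tr.S 3 34 (Tr.L 114829) (Tr.S 3 10
  (Tr.S 2 25 (Tr.S 0 26 (Tr.S 3 20 (Tr.L 83784) (Tr.L 177416)) (Tr.L 176268)) (Tr.L 176268))
  (Tr.S 3 19 (Tr.S 0 26 (Tr.L 46432) (Tr.L 176268)) (Tr.L 176800)))))))))))) (Tr.S 3 10 (Tr.S 3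
  33 (Tr.S 0 32 (Tr.S 3 17 (Tr.L 165516) (Tr.S 2 19 (Tr.L 50856) (Tr.S 3 5 (Tr.S 2 31 (Tr.L
  165516) (Tr.L 165516)) (Tr.L 165516)))) (Tr.S 2 31 (Tr.S 3 19 (Tr.L 71464) (Tr.L 78632)) (Tr.S
  1 18 (Tr.S 0 20 (Tr.S 3 17 (Tr.L 67341) (Tr.L 67404)) (Tr.L 50856)) (Tr.L 50856)))) (Tr.S 1 18
  (Tr.S 0 20 (Tr.S 3 26 (Tr.S 2 19 (Tr.L 104616) (Tr.L 165516)) (Tr.S 2 19 (Tr.S 3 23 (Tr.L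
  108872) (Tr.L 109320)) (Tr.L 173832))) (Tr.S 3 17 (Tr.S 3 26 (Tr.L 165516) (Tr.L 165516))
  (Tr.L 165516))) (Tr.S 3 27 (Tr.S 0 26 (Tr.S 3 32 (Tr.L 165516) (Tr.S 3 20 (Tr.L 165516) (Tr.L
  165516))) (Tr.L 173832)) (Tr.S 1 30 (Tr.S 0 32 (Tr.L 165516) (Tr.S 3 20 (Tr.L 165516) (Tr.S 0
  26 (Tr.L 165516) (Tr.S 3 26 (Tr.S 2 19 (Tr.L 71464) (Tr.L 165516)) (Tr.L 173832))))) (Tr.S 3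
  18 (Tr.S 2 19 (Tr.S 3 31 (Tr.L 5804) (Tr.L 50856)) (Tr.L 165516)) (Tr.S 3 5 (Tr.S 2 19 (Tr.L
  176268) (Tr.L 165516)) (Tr.S 2 31 (Tr.S 3 19 (Tr.L 102572) (Tr.L 115368)) (Tr.L 114829))))))))
  (Tr.S 3 17 (Tr.S 3 27 (Tr.S 2 25 (Tr.S 3 19 (Tr.L 34469) (Tr.L 98981)) (Tr.S 0 32 (Tr.L
  169632) (Tr.S 3 32 (Tr.S 0 20 (Tr.S 1 18 (Tr.L 9997) (Tr.L 173832)) (Tr.L 169632)) (Tr.L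
  71464)))) (Tr.S 1 18 (Tr.S 0 20 (Tr.S 3 32 (Tr.L 9997) (Tr.S 3 26 (Tr.S 2 25 (Tr.S 3 19 (Tr.L
  67341) (Tr.L 176800)) (Tr.L 71464)) (Tr.L 67341))) (Tr.S 3 20 (Tr.S 3 4 (Tr.S 3 30 (Tr.S 2 31
  (Tr.L 176800) (Tr.L 50856)) (Tr.L 18061)) (Tr.L 165516)) (Tr.L 177416))) (Tr.S 3 18 (Tr.S 0 20
  (Tr.S 3 26 (Tr.L 67341) (Tr.L 173832)) (Tr.L 177416)) (Tr.S 3 31 (Tr.L 114829) (Tr.S 2 31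
  (Tr.S 3 25 (Tr.L 176800) (Tr.S 3 26 (Tr.L 169632) (Tr.L 169632))) (Tr.L 50856)))))) (Tr.S 1 18
  (Tr.S 3 33 (Tr.S 3 5 (Tr.S 0 20 (Tr.L 67404) (Tr.S 2 31 (Tr.S 3 25 (Tr.L 165516) (Tr.L
  169632)) (Tr.L 165516))) (Tr.S 2 19 (Tr.S 3 4 (Tr.L 34469) (Tr.L 34469)) (Tr.L 18061))) (Tr.S
  2 19 (Tr.S 3 31 (Tr.S 0 20 (Tr.S 3 11 (Tr.L 105120) (Tr.L 71520)) (Tr.L 169632)) (Tr.S 3 29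
  (Tr.L 34469) (Tr.S 3 4 (Tr.S 3 26 (Tr.L 34469) (Tr.L 34469)) (Tr.S 0 20 (Tr.S 3 34 (Tr.L
  67404) (Tr.S 3 25 (Tr.S 3 22 (Tr.L 109320) (Tr.L 108872)) (Tr.S 3 23 (Tr.L 104616) (Tr.L
  105120)))) (Tr.L 165516))))) (Tr.S 3 19 (Tr.S 0 26 (Tr.L 116040) (Tr.S 0 32 (Tr.L 116040)
  (Tr.S 3 34 (Tr.L 165516) (Tr.S 3 5 (Tr.L 165516) (Tr.S 0 20 (Tr.S 2 29 (Tr.L 105120) (Tr.S 3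
  26 (Tr.L 83784) (Tr.S 2 31 (Tr.S 3 16 (Tr.L 165516) (Tr.L 173832)) (Tr.L 42848)))) (Tr.L
  116040)))))) (Tr.S 3 5 (Tr.L 165516) (Tr.S 3 27 (Tr.S 0 26 (Tr.S 2 25 (Tr.L 98981) (Tr.L
  169632)) (Tr.L 107360)) (Tr.L 176800)))))) (Tr.S 3 33 (Tr.S 3 4 (Tr.S 0 20 (Tr.L 67341) (Tr.S
  3 23 (Tr.L 177416) (Tr.S 3 11 (Tr.S 0 26 (Tr.L 67341) (Tr.S 0 32 (Tr.S 2 19 (Tr.S 3 26 (Tr.L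
  177416) (Tr.L 173832)) (Tr.S 3 19 (Tr.S 2 25 (Tr.L 177416) (Tr.L 169632)) (Tr.L 176800)))
  (Tr.L 67341))) (Tr.S 2 19 (Tr.L 50856) (Tr.S 3 20 (Tr.L 176800) (Tr.L 177416)))))) (Tr.S 0 32
  (Tr.S 3 11 (Tr.L 165516) (Tr.S 3 18 (Tr.S 2 19 (Tr.L 46432) (Tr.L 176800)) (Tr.L 176268)))
  (Tr.S 3 22 (Tr.L 83784) (Tr.S 3 23 (Tr.L 83784) (Tr.S 3 11 (Tr.S 3 18 (Tr.L 83784) (Tr.L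
  83784)) (Tr.S 2 31 (Tr.S 3 19 (Tr.L 83784) (Tr.L 176800)) (Tr.L 50856))))))) (Tr.S 1 30 (Tr.S
  2 31 (Tr.S 3 16 (Tr.S 3 25 (Tr.L 165516) (Tr.L 169632)) (Tr.S 3 22 (Tr.L 165516) (Tr.S 3 23
  (Tr.L 98981) (Tr.S 3 29 (Tr.L 169632) (Tr.S 0 20 (Tr.S 3 25 (Tr.L 107360) (Tr.S 3 26 (Tr.S 3 4
  (Tr.L 169632) (Tr.L 169632)) (Tr.S 3 4 (Tr.L 173832) (Tr.L 173832)))) (Tr.S 3 19 (Tr.L 103776)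
  (Tr.S 3 26 (Tr.L 103776) (Tr.S 3 5 (Tr.L 98988) (Tr.L 98981))))))))) (Tr.S 3 31 (Tr.S 2 25
  (Tr.S 3 16 (Tr.L 165516) (Tr.S 3 22 (Tr.L 165516) (Tr.S 3 23 (Tr.L 114829) (Tr.S 3 29 (Tr.L
  176800) (Tr.S 3 5 (Tr.S 3 18 (Tr.L 98988) (Tr.L 165516)) (Tr.S 3 27 (Tr.L 98981) (Tr.L
  176800))))))) (Tr.S 3 4 (Tr.L 169632) (Tr.L 169632))) (Tr.S 3 29 (Tr.L 50856) (Tr.S 3 5 (Tr.S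
  3 19 (Tr.L 165516) (Tr.S 3 16 (Tr.S 3 26 (Tr.L 50856) (Tr.L 50856)) (Tr.L 50856))) (Tr.S 3 22
  (Tr.L 114829) (Tr.S 3 19 (Tr.S 3 4 (Tr.L 114829) (Tr.L 165516)) (Tr.S 2 19 (Tr.S 3 25 (Tr.S 3
  18 (Tr.S 3 4 (Tr.L 34469) (Tr.L 34469)) (Tr.L 114829)) (Tr.L 169632)) (Tr.S 3 27 (Tr.L 98981)
  (Tr.L 176800))))))))) (Tr.S 3 4 (Tr.S 2 19 (Tr.S 3 25 (Tr.S 3 18 (Tr.L 34469) (Tr.L 114829))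
  (Tr.L 169632)) (Tr.S 3 25 (Tr.L 176800) (Tr.S 3 18 (Tr.L 18061) (Tr.S 2 31 (Tr.L 102565) (Tr.L
  114829))))) (Tr.S 3 19 (Tr.S 2 25 (Tr.L 165516) (Tr.L 165516)) (Tr.S 2 19 (Tr.S 3 25 (Tr.S 3 5
  (Tr.L 34476) (Tr.L 34469)) (Tr.L 169632)) (Tr.S 3 29 (Tr.L 165516) (Tr.S 3 23 (Tr.L 165516)
  (Tr.S 3 30 (Tr.S 3 11 (Tr.S 2 31 (Tr.S 3 25 (Tr.L 176800) (Tr.L 169632)) (Tr.L 165516)) (Tr.L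
  165516)) (Tr.S 3 18 (Tr.S 0 20 (Tr.S 3 26 (Tr.L 165516) (Tr.L 165516)) (Tr.L 165516)) (Tr.L
  165516))))))))))))))) (Tr.R 13)) (Tr.R 12))) (Tr.R 15)) (Tr.R 9)) (Tr.S 1 6 (Tr.S 0 9 (Tr.S 1
  15 (Tr.S 2 13 (Tr.S 0 12 (Tr.S 0 26 (Tr.S 3 5 (Tr.S 3 33 (Tr.S 1 31 (Tr.L 83784) (Tr.L 50856))
  (Tr.S 3 18 (Tr.S 2 24 (Tr.S 3 10 (Tr.S 3 32 (Tr.L 116040) (Tr.L 83784)) (Tr.L 116040)) (Tr.L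
  99660)) (Tr.S 2 18 (Tr.S 3 24 (Tr.S 3 20 (Tr.S 1 19 (Tr.L 5804) (Tr.L 83784)) (Tr.L 116040))
  (Tr.L 165516)) (Tr.S 3 25 (Tr.L 176268) (Tr.S 1 19 (Tr.L 102572) (Tr.S 3 31 (Tr.L 115368)
  (Tr.S 3 20 (Tr.L 115368) (Tr.S 1 25 (Tr.L 116040) (Tr.L 102572))))))))) (Tr.S 3 10 (Tr.S 3 33
  (Tr.S 1 19 (Tr.L 50856) (Tr.S 3 19 (Tr.S 2 18 (Tr.L 177416) (Tr.L 78093)) (Tr.L 78632))) (Tr.S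
  3 32 (Tr.S 3 24 (Tr.L 177416) (Tr.S 1 31 (Tr.S 3 27 (Tr.L 103720) (Tr.L 177416)) (Tr.L
  50856))) (Tr.S 3 20 (Tr.S 1 19 (Tr.S 3 31 (Tr.L 71464) (Tr.S 3 27 (Tr.L 71464) (Tr.L 50856)))
  (Tr.L 115368)) (Tr.S 3 24 (Tr.L 177416) (Tr.S 2 24 (Tr.S 3 17 (Tr.S 1 25 (Tr.L 87816) (Tr.S 3
  27 (Tr.L 103720) (Tr.L 177416))) (Tr.L 83784)) (Tr.L 165516)))))) (Tr.S 3 33 (Tr.S 2 24 (Tr.S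
  3 17 (Tr.S 3 18 (Tr.L 13581) (Tr.L 18061)) (Tr.L 83784)) (Tr.S 3 16 (Tr.S 3 18 (Tr.L 83784)
  (Tr.S 2 18 (Tr.S 1 19 (Tr.L 18061) (Tr.L 83784)) (Tr.L 83784))) (Tr.S 3 29 (Tr.L 67341) (Tr.S
  3 23 (Tr.L 177416) (Tr.S 3 20 (Tr.S 1 19 (Tr.S 2 18 (Tr.L 18061) (Tr.L 45221)) (Tr.L 176800))
  (Tr.S 3 11 (Tr.L 177416) (Tr.L 177416))))))) (Tr.S 3 17 (Tr.S 3 19 (Tr.S 2 18 (Tr.S 3 27 (Tr.S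
  1 25 (Tr.L 50856) (Tr.L 169632)) (Tr.L 177416)) (Tr.L 114829)) (Tr.S 2 29 (Tr.S 3 18 (Tr.L
  99597) (Tr.S 2 22 (Tr.L 114829) (Tr.S 2 30 (Tr.L 114829) (Tr.S 3 24 (Tr.L 18061) (Tr.S 3 32
  (Tr.L 99597) (Tr.L 67341)))))) (Tr.S 1 23 (Tr.L 119456) (Tr.S 1 25 (Tr.L 119456) (Tr.S 3 25
  (Tr.S 3 20 (Tr.S 2 18 (Tr.L 67341) (Tr.L 114829)) (Tr.L 177416)) (Tr.L 169632)))))) (Tr.S 3 19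
  (Tr.S 1 25 (Tr.S 3 4 (Tr.L 116040) (Tr.L 116040)) (Tr.S 3 4 (Tr.L 169632) (Tr.L 103776)))
  (Tr.S 1 19 (Tr.S 3 25 (Tr.S 3 20 (Tr.S 2 18 (Tr.S 3 11 (Tr.L 34469) (Tr.L 50856)) (Tr.L
  83784)) (Tr.L 116040)) (Tr.L 169632)) (Tr.S 3 24 (Tr.L 176800) (Tr.S 3 29 (Tr.L 115368) (Tr.S
  3 27 (Tr.S 1 25 (Tr.S 2 29 (Tr.L 98981) (Tr.L 119456)) (Tr.L 169632)) (Tr.S 2 18 (Tr.L 176800)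
  (Tr.S 2 24 (Tr.S 3 32 (Tr.L 116040) (Tr.L 83784)) (Tr.L 176800)))))))))))) (Tr.S 3 26 (Tr.S 3
  4 (Tr.S 0 32 (Tr.S 1 19 (Tr.L 177416) (Tr.S 3 23 (Tr.L 176800) (Tr.S 1 31 (Tr.L 177416) (Tr.S
  3 31 (Tr.L 176800) (Tr.S 2 24 (Tr.S 3 30 (Tr.L 114829) (Tr.L 18061)) (Tr.L 177416)))))) (Tr.S
  3 33 (Tr.S 2 18 (Tr.L 67341) (Tr.S 3 17 (Tr.S 1 25 (Tr.S 3 18 (Tr.L 50856) (Tr.L 50856)) (Tr.L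
  169632)) (Tr.L 83784))) (Tr.S 1 25 (Tr.S 3 17 (Tr.S 3 19 (Tr.S 2 18 (Tr.L 67341) (Tr.L 50856))
  (Tr.L 176800)) (Tr.L 83784)) (Tr.S 2 18 (Tr.L 67341) (Tr.L 169632))))) (Tr.S 3 5 (Tr.S 1 19
  (Tr.S 2 18 (Tr.S 0 20 (Tr.L 67404) (Tr.L 165516)) (Tr.S 0 32 (Tr.S 3 31 (Tr.L 116040) (Tr.L
  50856)) (Tr.L 83784))) (Tr.S 2 18 (Tr.S 3 19 (Tr.L 165516) (Tr.L 165516)) (Tr.S 3 18 (Tr.S 2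
  24 (Tr.S 3 33 (Tr.L 12972) (Tr.L 115368)) (Tr.L 165516)) (Tr.L 176268)))) (Tr.S 3 10 (Tr.S 0
  32 (Tr.S 2 18 (Tr.L 177416) (Tr.S 1 19 (Tr.L 177416) (Tr.S 2 24 (Tr.S 3 30 (Tr.L 176268) (Tr.L
  13581)) (Tr.L 177416)))) (Tr.S 0 20 (Tr.S 2 18 (Tr.L 67341) (Tr.S 3 18 (Tr.S 2 24 (Tr.S 1 25
  (Tr.L 18061) (Tr.L 5804)) (Tr.L 67341)) (Tr.L 176268))) (Tr.S 2 24 (Tr.S 3 18 (Tr.L 13581)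
  (Tr.L 176268)) (Tr.L 177416)))) (Tr.S 0 32 (Tr.S 3 17 (Tr.S 2 24 (Tr.S 3 18 (Tr.L 13581) (Tr.L
  176268)) (Tr.L 165516)) (Tr.S 3 30 (Tr.L 116040) (Tr.S 2 30 (Tr.S 3 11 (Tr.S 1 19 (Tr.L
  169632) (Tr.S 3 19 (Tr.L 165516) (Tr.L 165516))) (Tr.L 165516)) (Tr.L 13644)))) (Tr.S 2 24
  (Tr.S 3 11 (Tr.L 83784) (Tr.S 1 25 (Tr.S 3 19 (Tr.L 50856) (Tr.L 176800)) (Tr.L 169632)))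
  (Tr.S 3 11 (Tr.L 67404) (Tr.S 1 19 (Tr.S 3 16 (Tr.L 67404) (Tr.L 71464)) (Tr.L 165516))))))))
  (Tr.S 3 5 (Tr.S 3 27 (Tr.S 1 25 (Tr.S 3 22 (Tr.L 173832) (Tr.S 2 18 (Tr.L 165516) (Tr.S 3 19
  (Tr.L 106828) (Tr.S 2 24 (Tr.L 115368) (Tr.L 165516))))) (Tr.S 2 24 (Tr.S 3 30 (Tr.L 106828)
  (Tr.L 10060)) (Tr.S 1 19 (Tr.S 0 20 (Tr.S 3 32 (Tr.L 34476) (Tr.L 67404)) (Tr.L 165516)) (Tr.L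
  165516)))) (Tr.S 1 19 (Tr.S 3 34 (Tr.L 42848) (Tr.S 0 20 (Tr.S 3 32 (Tr.S 2 18 (Tr.L 14988)
  (Tr.L 50856)) (Tr.S 2 18 (Tr.S 3 16 (Tr.L 80200) (Tr.L 80648)) (Tr.L 83784))) (Tr.S 3 32 (Tr.L
  50856) (Tr.S 3 31 (Tr.S 3 10 (Tr.S 2 18 (Tr.L 10060) (Tr.L 173832)) (Tr.L 169632)) (Tr.L
  50856))))) (Tr.S 3 19 (Tr.S 2 18 (Tr.S 3 24 (Tr.S 1 25 (Tr.L 10060) (Tr.L 10060)) (Tr.L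
  165516)) (Tr.L 176268)) (Tr.S 3 32 (Tr.L 115368) (Tr.S 0 32 (Tr.S 3 30 (Tr.L 115368) (Tr.S 2
  18 (Tr.L 10060) (Tr.S 2 24 (Tr.L 10060) (Tr.S 3 24 (Tr.L 176268) (Tr.L 165516))))) (Tr.L
  83784)))))) (Tr.S 3 16 (Tr.S 3 27 (Tr.S 2 24 (Tr.S 1 19 (Tr.L 169632) (Tr.S 3 19 (Tr.L 106828)
  (Tr.S 1 25 (Tr.L 107360) (Tr.L 169632)))) (Tr.S 1 31 (Tr.L 165516) (Tr.S 3 31 (Tr.S 2 30 (Tr.S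
  1 25 (Tr.L 107360) (Tr.L 169632)) (Tr.L 10060)) (Tr.L 34469)))) (Tr.S 2 18 (Tr.S 3 33 (Tr.L
  10060) (Tr.S 3 31 (Tr.L 10060) (Tr.S 1 19 (Tr.S 3 24 (Tr.L 42848) (Tr.L 42848)) (Tr.S 3 19
  (Tr.S 0 20 (Tr.S 3 32 (Tr.L 18061) (Tr.L 83784)) (Tr.L 116040)) (Tr.L 176800))))) (Tr.S 2 24
  (Tr.S 3 23 (Tr.L 176268) (Tr.S 3 31 (Tr.L 10060) (Tr.S 3 18 (Tr.S 1 19 (Tr.L 10060) (Tr.L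
  176800)) (Tr.S 1 31 (Tr.S 3 19 (Tr.S 3 30 (Tr.L 169632) (Tr.L 176268)) (Tr.L 176800)) (Tr.L
  176268))))) (Tr.S 3 30 (Tr.L 106828) (Tr.S 3 18 (Tr.S 1 19 (Tr.S 3 31 (Tr.L 169632) (Tr.L
  34469)) (Tr.L 176800)) (Tr.S 3 31 (Tr.L 114829) (Tr.S 1 31 (Tr.S 3 19 (Tr.S 3 11 (Tr.L 176268)
  (Tr.L 169632)) (Tr.L 176800)) (Tr.L 176268)))))))) (Tr.S 3 33 (Tr.S 3 10 (Tr.S 2 30 (Tr.S 1 19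
  (Tr.L 50856) (Tr.S 3 17 (Tr.S 1 31 (Tr.L 173832) (Tr.L 173832)) (Tr.L 173832))) (Tr.S 2 18
  (Tr.L 9997) (Tr.S 1 31 (Tr.S 3 18 (Tr.L 12972) (Tr.L 176268)) (Tr.L 50856)))) (Tr.S 2 18 (Tr.S
  3 11 (Tr.L 9997) (Tr.S 3 4 (Tr.L 9997) (Tr.L 9997))) (Tr.S 2 30 (Tr.S 3 11 (Tr.L 173832) (Tr.S
  3 17 (Tr.S 1 34 (Tr.L 173832) (Tr.L 173832)) (Tr.L 173832))) (Tr.S 3 11 (Tr.L 173832) (Tr.S 1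
  31 (Tr.S 3 19 (Tr.L 18061) (Tr.L 176800)) (Tr.L 50856)))))) (Tr.S 3 10 (Tr.S 0 20 (Tr.S 2 18
  (Tr.S 3 30 (Tr.L 67341) (Tr.L 9997)) (Tr.L 173832)) (Tr.S 3 27 (Tr.S 2 24 (Tr.S 3 18 (Tr.L
  173832) (Tr.L 173832)) (Tr.L 165516)) (Tr.S 2 24 (Tr.L 173832) (Tr.S 2 18 (Tr.S 1 19 (Tr.S 3
  31 (Tr.L 5804) (Tr.L 50856)) (Tr.L 173832)) (Tr.L 173832))))) (Tr.S 3 19 (Tr.S 1 25 (Tr.L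
  173832) (Tr.L 173832)) (Tr.S 0 20 (Tr.S 1 19 (Tr.S 3 25 (Tr.S 3 17 (Tr.L 42792) (Tr.L 42848))
  (Tr.S 2 18 (Tr.S 3 29 (Tr.L 109320) (Tr.S 3 34 (Tr.L 9997) (Tr.S 3 23 (Tr.S 3 24 (Tr.L 108872)
  (Tr.L 108872)) (Tr.S 3 24 (Tr.L 109320) (Tr.L 109320))))) (Tr.L 173832))) (Tr.S 3 11 (Tr.S 3
  32 (Tr.S 1 31 (Tr.S 3 25 (Tr.L 176800) (Tr.L 173832)) (Tr.L 173832)) (Tr.L 173832)) (Tr.L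
  173832))) (Tr.S 1 31 (Tr.S 3 25 (Tr.S 3 11 (Tr.L 176800) (Tr.L 173832)) (Tr.L 169632)) (Tr.S 3
  31 (Tr.S 1 25 (Tr.S 3 20 (Tr.S 2 18 (Tr.S 3 24 (Tr.L 173832) (Tr.L 173832)) (Tr.L 173832))
  (Tr.L 173832)) (Tr.L 169632)) (Tr.S 3 18 (Tr.L 173832) (Tr.S 2 18 (Tr.S 3 29 (Tr.L 50856)
  (Tr.S 3 20 (Tr.S 1 22 (Tr.L 173832) (Tr.S 3 24 (Tr.L 9997) (Tr.S 3 11 (Tr.L 42848) (Tr.L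
  50856)))) (Tr.S 3 27 (Tr.L 99597) (Tr.L 177416)))) (Tr.L 173832))))))))))))) (Tr.R 12)) (Tr.R
  13)) (Tr.R 15)) (Tr.R 9)) (Tr.R 6))) (Tr.R 8))

theorem chkB : chk 45902 trB 37778931863232039616514 11238170813453785718015578340154118616146109 = true := by decide +kernel

end Pool.Agent.H42.Pack6
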