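import Pool.Agent.H42.Pack6.Chk

set_option autoImplicit false
set_option maxRecDepth 100000

namespace Pool.Agent.H42.Pack6

def trC : Tr :=
Tr.S 1 8 (Tr.S 0 20 (Tr.S 2 2 (Tr.S 1 19 (Tr.S 0 1 (Tr.S 2 13 (Tr.S 1 4 (Tr.S 3 23 (Tr.S 3 31
  (Tr.S 0 17 (Tr.S 3 3 (Tr.L 18061) (Tr.L 18061)) (Tr.L 83784)) (Tr.S 3 26 (Tr.S 0 17 (Tr.S 3 3
  (Tr.L 67789) (Tr.L 166027)) (Tr.L 83784)) (Tr.S 3 25 (Tr.S 2 11 (Tr.S 3 3 (Tr.L 34973) (Tr.L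
  166027)) (Tr.L 50856)) (Tr.S 2 11 (Tr.S 3 10 (Tr.S 3 30 (Tr.L 34973) (Tr.L 18061)) (Tr.L
  169632)) (Tr.L 50856))))) (Tr.S 3 26 (Tr.S 3 5 (Tr.S 3 9 (Tr.S 2 10 (Tr.S 0 15 (Tr.S 3 22
  (Tr.L 83784) (Tr.L 83784)) (Tr.L 84680)) (Tr.L 169632)) (Tr.S 2 11 (Tr.S 3 10 (Tr.L 166027)
  (Tr.L 169632)) (Tr.S 3 34 (Tr.L 50856) (Tr.S 3 10 (Tr.L 166027) (Tr.S 2 10 (Tr.S 0 34 (Tr.S 3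
  22 (Tr.L 71464) (Tr.L 170136)) (Tr.L 136872)) (Tr.L 169632)))))) (Tr.S 3 9 (Tr.S 2 10 (Tr.S 0
  15 (Tr.S 3 22 (Tr.L 71464) (Tr.L 166027)) (Tr.L 84680)) (Tr.L 169632)) (Tr.S 2 9 (Tr.S 3 10
  (Tr.S 3 31 (Tr.S 0 15 (Tr.L 67341) (Tr.L 18061)) (Tr.L 50856)) (Tr.L 169632)) (Tr.S 3 34 (Tr.L
  51864) (Tr.S 3 16 (Tr.L 170136) (Tr.S 3 22 (Tr.S 2 10 (Tr.S 0 16 (Tr.L 132749) (Tr.L 67341))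
  (Tr.L 169632)) (Tr.S 0 16 (Tr.S 3 15 (Tr.L 83784) (Tr.L 84680)) (Tr.L 170136)))))))) (Tr.S 3
  31 (Tr.S 3 9 (Tr.S 2 10 (Tr.L 19083) (Tr.L 169632)) (Tr.S 2 9 (Tr.S 3 10 (Tr.S 3 3 (Tr.S 0 16
  (Tr.L 18061) (Tr.L 173832)) (Tr.L 19083)) (Tr.L 169632)) (Tr.S 3 16 (Tr.L 170136) (Tr.S 3 3
  (Tr.S 0 16 (Tr.L 84680) (Tr.L 9997)) (Tr.S 0 17 (Tr.L 72472) (Tr.L 19083)))))) (Tr.S 3 9 (Tr.S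
  2 10 (Tr.S 3 30 (Tr.S 3 22 (Tr.L 50856) (Tr.L 50856)) (Tr.L 19083)) (Tr.S 3 30 (Tr.L 35491)
  (Tr.S 2 11 (Tr.S 0 17 (Tr.S 3 16 (Tr.L 174280) (Tr.L 173832)) (Tr.L 19083)) (Tr.L 19083))))
  (Tr.S 3 30 (Tr.S 2 10 (Tr.L 51864) (Tr.S 2 11 (Tr.L 51864) (Tr.S 3 10 (Tr.L 50856) (Tr.S 2 9
  (Tr.S 3 5 (Tr.L 35491) (Tr.S 3 25 (Tr.S 0 15 (Tr.S 3 16 (Tr.L 83784) (Tr.L 173832)) (Tr.S 3 15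
  (Tr.S 0 16 (Tr.L 83784) (Tr.L 173832)) (Tr.L 84680))) (Tr.L 169632))) (Tr.L 51864))))) (Tr.S 3
  22 (Tr.S 0 16 (Tr.S 2 10 (Tr.L 51864) (Tr.S 3 5 (Tr.L 19083) (Tr.L 18061))) (Tr.L 173832))
  (Tr.S 2 10 (Tr.L 51864) (Tr.S 2 27 (Tr.L 51864) (Tr.S 3 3 (Tr.S 2 9 (Tr.S 3 11 (Tr.S 3 25
  (Tr.L 34469) (Tr.L 169632)) (Tr.L 50856)) (Tr.L 18061)) (Tr.S 2 9 (Tr.L 19083) (Tr.L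
  51864))))))))))) (Tr.S 3 4 (Tr.S 3 32 (Tr.S 1 3 (Tr.S 2 11 (Tr.L 18061) (Tr.S 3 9 (Tr.L 18061)
  (Tr.S 3 11 (Tr.S 2 9 (Tr.S 0 15 (Tr.L 109320) (Tr.L 18061)) (Tr.L 51864)) (Tr.S 0 15 (Tr.L
  42792) (Tr.L 50856))))) (Tr.S 2 10 (Tr.S 3 11 (Tr.L 19083) (Tr.S 3 9 (Tr.L 50856) (Tr.L
  50856))) (Tr.S 3 29 (Tr.L 169632) (Tr.S 1 5 (Tr.S 3 11 (Tr.L 19083) (Tr.S 3 17 (Tr.L 19083)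
  (Tr.S 0 17 (Tr.S 3 23 (Tr.L 173832) (Tr.L 11019)) (Tr.L 10571)))) (Tr.S 3 24 (Tr.S 0 16 (Tr.L
  18061) (Tr.L 5797)) (Tr.L 34469)))))) (Tr.S 3 31 (Tr.S 1 3 (Tr.S 2 9 (Tr.L 5797) (Tr.L 18061))
  (Tr.S 2 10 (Tr.S 3 9 (Tr.L 6315) (Tr.L 170136)) (Tr.S 3 23 (Tr.L 169632) (Tr.L 169632))))
  (Tr.S 0 16 (Tr.S 3 24 (Tr.S 2 10 (Tr.S 3 15 (Tr.L 170136) (Tr.L 174280)) (Tr.L 169632)) (Tr.S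
  3 9 (Tr.S 2 11 (Tr.S 1 3 (Tr.L 67789) (Tr.L 166027)) (Tr.L 50856)) (Tr.S 2 9 (Tr.S 3 11 (Tr.S
  3 25 (Tr.L 42848) (Tr.L 169632)) (Tr.L 50856)) (Tr.S 3 23 (Tr.S 2 11 (Tr.L 83784) (Tr.L
  83784)) (Tr.L 51864))))) (Tr.S 3 25 (Tr.S 1 3 (Tr.S 3 11 (Tr.L 67341) (Tr.L 67341)) (Tr.S 2 9
  (Tr.L 166027) (Tr.L 166027))) (Tr.S 3 23 (Tr.S 2 11 (Tr.S 1 3 (Tr.S 3 26 (Tr.L 67341) (Tr.L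
  173832)) (Tr.L 169632)) (Tr.L 71464)) (Tr.S 1 3 (Tr.S 3 24 (Tr.L 9997) (Tr.S 3 26 (Tr.S 3 30
  (Tr.S 2 34 (Tr.L 34469) (Tr.S 2 10 (Tr.S 3 9 (Tr.L 71464) (Tr.L 170136)) (Tr.L 34469))) (Tr.L
  67341)) (Tr.L 67341))) (Tr.S 3 24 (Tr.L 173832) (Tr.L 68363)))))))) (Tr.S 3 25 (Tr.S 3 23
  (Tr.S 1 3 (Tr.S 2 10 (Tr.L 165516) (Tr.S 2 9 (Tr.S 0 15 (Tr.L 47272) (Tr.L 50856)) (Tr.S 3 9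
  (Tr.L 34469) (Tr.L 165516)))) (Tr.S 2 9 (Tr.L 50856) (Tr.S 2 10 (Tr.L 50856) (Tr.S 3 3 (Tr.L
  165516) (Tr.L 166027))))) (Tr.S 1 3 (Tr.S 3 11 (Tr.S 2 9 (Tr.L 34469) (Tr.L 165516)) (Tr.S 3
  32 (Tr.S 3 22 (Tr.S 0 17 (Tr.L 165516) (Tr.S 3 5 (Tr.L 10060) (Tr.S 2 9 (Tr.L 34469) (Tr.L
  165516)))) (Tr.S 2 11 (Tr.S 3 5 (Tr.L 165516) (Tr.L 165516)) (Tr.S 0 15 (Tr.S 2 27 (Tr.L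
  101004) (Tr.L 47272)) (Tr.L 50856)))) (Tr.S 3 9 (Tr.L 165516) (Tr.S 2 9 (Tr.S 0 15 (Tr.S 3 16
  (Tr.L 80200) (Tr.L 80648)) (Tr.L 165516)) (Tr.L 165516))))) (Tr.S 1 5 (Tr.S 3 22 (Tr.S 0 16
  (Tr.S 3 3 (Tr.L 165516) (Tr.L 165516)) (Tr.L 173832)) (Tr.S 0 17 (Tr.L 165516) (Tr.S 3 15
  (Tr.L 165516) (Tr.S 3 33 (Tr.L 19083) (Tr.S 0 16 (Tr.L 165516) (Tr.S 3 3 (Tr.S 3 16 (Tr.S 3 32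
  (Tr.L 10060) (Tr.L 67404)) (Tr.L 173832)) (Tr.L 166027))))))) (Tr.S 3 15 (Tr.S 0 16 (Tr.L
  165516) (Tr.L 173832)) (Tr.S 3 9 (Tr.S 0 15 (Tr.S 3 16 (Tr.L 165516) (Tr.L 173832)) (Tr.S 3 32
  (Tr.L 10956) (Tr.L 68300))) (Tr.S 2 9 (Tr.S 3 10 (Tr.L 50856) (Tr.S 0 15 (Tr.S 3 16 (Tr.S 3 32
  (Tr.L 10060) (Tr.L 42848)) (Tr.L 173832)) (Tr.L 43744))) (Tr.L 51864))))))) (Tr.S 3 32 (Tr.S 3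
  22 (Tr.S 0 16 (Tr.S 2 34 (Tr.L 169632) (Tr.S 3 24 (Tr.S 3 17 (Tr.L 10956) (Tr.S 3 5 (Tr.L
  10060) (Tr.L 10060))) (Tr.L 165516))) (Tr.S 1 3 (Tr.S 2 9 (Tr.S 0 15 (Tr.L 109320) (Tr.L
  169632)) (Tr.L 173832)) (Tr.L 173832))) (Tr.S 1 3 (Tr.S 3 23 (Tr.S 0 17 (Tr.L 18061) (Tr.L
  10060)) (Tr.S 2 9 (Tr.S 3 11 (Tr.L 5797) (Tr.S 0 15 (Tr.L 104616) (Tr.L 50856))) (Tr.S 3 5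
  (Tr.S 3 24 (Tr.S 3 9 (Tr.S 0 15 (Tr.S 2 33 (Tr.L 14988) (Tr.L 108872)) (Tr.L 174280)) (Tr.L
  170136)) (Tr.L 165516)) (Tr.L 18061)))) (Tr.S 3 23 (Tr.S 2 9 (Tr.L 50856) (Tr.S 2 10 (Tr.L
  50856) (Tr.S 3 10 (Tr.L 170136) (Tr.L 169632)))) (Tr.S 1 5 (Tr.S 2 11 (Tr.S 3 3 (Tr.L 170136)
  (Tr.S 0 17 (Tr.S 3 16 (Tr.L 169632) (Tr.L 173832)) (Tr.L 19083))) (Tr.S 3 11 (Tr.S 2 10 (Tr.L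
  170136) (Tr.L 169632)) (Tr.L 50856))) (Tr.S 2 9 (Tr.S 3 11 (Tr.L 169632) (Tr.L 50856)) (Tr.S 3
  9 (Tr.S 2 11 (Tr.L 169632) (Tr.L 50856)) (Tr.L 51864))))))) (Tr.S 1 3 (Tr.S 3 23 (Tr.S 0 17
  (Tr.S 3 30 (Tr.S 2 29 (Tr.L 50856) (Tr.L 165516)) (Tr.L 18061)) (Tr.S 3 24 (Tr.L 10060) (Tr.L
  67404))) (Tr.S 2 9 (Tr.S 3 11 (Tr.S 0 15 (Tr.S 3 31 (Tr.L 105120) (Tr.L 71520)) (Tr.L 169632))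
  (Tr.S 3 34 (Tr.L 5804) (Tr.S 3 24 (Tr.S 3 5 (Tr.L 5804) (Tr.L 5804)) (Tr.S 0 15 (Tr.S 3 22
  (Tr.L 71464) (Tr.S 3 33 (Tr.L 47272) (Tr.L 104616))) (Tr.L 165516))))) (Tr.S 3 9 (Tr.S 0 33
  (Tr.L 84680) (Tr.S 3 30 (Tr.L 165516) (Tr.S 0 15 (Tr.S 3 29 (Tr.L 83784) (Tr.S 2 34 (Tr.L
  105120) (Tr.S 3 16 (Tr.L 83784) (Tr.S 2 11 (Tr.S 3 26 (Tr.L 165516) (Tr.L 173832)) (Tr.L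
  71464))))) (Tr.L 84680)))) (Tr.S 3 30 (Tr.L 165516) (Tr.S 3 22 (Tr.L 6812) (Tr.L 170136))))))
  (Tr.S 3 23 (Tr.S 3 24 (Tr.S 0 15 (Tr.L 83784) (Tr.S 0 16 (Tr.L 10060) (Tr.S 0 17 (Tr.S 1 5
  (Tr.S 2 11 (Tr.L 22156) (Tr.S 3 16 (Tr.L 174280) (Tr.L 173832))) (Tr.L 18061)) (Tr.L 10060))))
  (Tr.S 2 10 (Tr.L 165516) (Tr.S 0 17 (Tr.S 2 11 (Tr.L 165516) (Tr.L 165516)) (Tr.L 67404))))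
  (Tr.S 1 5 (Tr.S 2 11 (Tr.S 3 22 (Tr.S 3 24 (Tr.L 169632) (Tr.L 169632)) (Tr.S 3 24 (Tr.S 3 10
  (Tr.L 170136) (Tr.L 169632)) (Tr.L 165516))) (Tr.S 3 11 (Tr.S 2 10 (Tr.S 3 30 (Tr.S 3 3 (Tr.L
  165516) (Tr.L 165516)) (Tr.L 6812)) (Tr.S 3 24 (Tr.L 169632) (Tr.L 169632))) (Tr.S 3 34 (Tr.L
  50856) (Tr.S 3 30 (Tr.S 3 9 (Tr.L 165516) (Tr.S 3 22 (Tr.L 50856) (Tr.S 2 9 (Tr.S 3 10 (Tr.L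
  50856) (Tr.L 169632)) (Tr.L 165516)))) (Tr.S 3 27 (Tr.L 19083) (Tr.S 3 9 (Tr.S 3 24 (Tr.L
  19083) (Tr.L 165516)) (Tr.S 2 9 (Tr.S 3 10 (Tr.S 3 3 (Tr.S 1 27 (Tr.L 5804) (Tr.L 5804)) (Tr.L
  19083)) (Tr.L 169632)) (Tr.S 3 22 (Tr.L 6812) (Tr.L 170136))))))))) (Tr.S 3 24 (Tr.S 2 9 (Tr.S
  3 10 (Tr.S 3 31 (Tr.S 1 27 (Tr.L 5804) (Tr.L 5804)) (Tr.L 50856)) (Tr.L 169632)) (Tr.S 3 10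
  (Tr.L 170136) (Tr.S 3 33 (Tr.L 51864) (Tr.S 3 3 (Tr.L 6812) (Tr.S 2 11 (Tr.L 6819) (Tr.L
  19083)))))) (Tr.S 3 9 (Tr.S 2 10 (Tr.L 165516) (Tr.L 169632)) (Tr.S 2 9 (Tr.S 3 10 (Tr.S 3 31
  (Tr.L 5804) (Tr.L 50856)) (Tr.L 169632)) (Tr.S 3 34 (Tr.L 170136) (Tr.S 3 5 (Tr.S 3 22 (Tr.S 2
  10 (Tr.L 165516) (Tr.L 169632)) (Tr.L 170136)) (Tr.S 3 22 (Tr.S 2 10 (Tr.L 165516) (Tr.L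
  169632)) (Tr.L 170136)))))))))))))) (Tr.R 13)) (Tr.R 1)) (Tr.R 19)) (Tr.R 2)) (Tr.R 20)) (Tr.S
  2 8 (Tr.S 0 2 (Tr.S 1 20 (Tr.S 0 19 (Tr.S 2 13 (Tr.S 1 1 (Tr.S 0 16 (Tr.S 3 23 (Tr.S 3 31
  (Tr.S 2 5 (Tr.S 3 3 (Tr.L 83784) (Tr.L 83784)) (Tr.L 18061)) (Tr.S 3 25 (Tr.S 1 11 (Tr.S 3 15
  (Tr.L 43352) (Tr.L 174280)) (Tr.L 50856)) (Tr.S 2 4 (Tr.S 1 10 (Tr.L 50856) (Tr.S 3 10 (Tr.S 3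
  32 (Tr.L 18061) (Tr.L 83784)) (Tr.L 169632))) (Tr.S 3 27 (Tr.L 174280) (Tr.S 2 5 (Tr.S 3 30
  (Tr.L 83784) (Tr.S 3 26 (Tr.L 83784) (Tr.S 3 15 (Tr.L 10571) (Tr.L 174280)))) (Tr.S 3 24 (Tr.L
  18061) (Tr.S 1 11 (Tr.S 3 32 (Tr.L 18061) (Tr.L 83784)) (Tr.L 50856)))))))) (Tr.S 3 24 (Tr.S 3
  9 (Tr.S 1 10 (Tr.S 2 3 (Tr.S 3 22 (Tr.L 5804) (Tr.L 174280)) (Tr.L 19083)) (Tr.L 169632))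
  (Tr.S 3 11 (Tr.S 1 10 (Tr.S 3 34 (Tr.L 83784) (Tr.S 2 34 (Tr.S 3 22 (Tr.L 10060) (Tr.L
  170136)) (Tr.L 141128))) (Tr.L 169632)) (Tr.S 3 31 (Tr.S 1 11 (Tr.S 3 10 (Tr.S 3 17 (Tr.L
  174280) (Tr.L 83784)) (Tr.L 169632)) (Tr.S 1 9 (Tr.S 3 10 (Tr.S 3 15 (Tr.S 2 3 (Tr.L 10060)
  (Tr.L 83784)) (Tr.L 174280)) (Tr.L 169632)) (Tr.S 3 4 (Tr.L 170136) (Tr.S 3 17 (Tr.S 2 4 (Tr.L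
  84680) (Tr.L 84680)) (Tr.S 3 22 (Tr.L 83784) (Tr.L 83784)))))) (Tr.S 1 11 (Tr.S 3 10 (Tr.L
  51864) (Tr.L 169632)) (Tr.S 3 22 (Tr.L 50856) (Tr.S 3 10 (Tr.L 50856) (Tr.S 3 5 (Tr.L 50856)
  (Tr.L 50856)))))))) (Tr.S 3 31 (Tr.S 3 9 (Tr.S 1 10 (Tr.L 84680) (Tr.L 169632)) (Tr.S 1 9
  (Tr.S 3 10 (Tr.S 3 15 (Tr.S 2 3 (Tr.L 165516) (Tr.L 83784)) (Tr.L 84680)) (Tr.L 169632)) (Tr.S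
  3 4 (Tr.L 170136) (Tr.S 3 15 (Tr.S 2 4 (Tr.L 19083) (Tr.L 67404)) (Tr.S 2 5 (Tr.L 68300) (Tr.L
  84680)))))) (Tr.S 3 9 (Tr.S 1 10 (Tr.S 3 32 (Tr.S 3 22 (Tr.L 50856) (Tr.L 50856)) (Tr.L
  84680)) (Tr.S 3 32 (Tr.L 43744) (Tr.S 2 5 (Tr.S 3 25 (Tr.L 43744) (Tr.L 169632)) (Tr.L
  84680)))) (Tr.S 3 26 (Tr.S 3 15 (Tr.S 1 10 (Tr.L 51864) (Tr.S 1 27 (Tr.L 51864) (Tr.S 2 33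
  (Tr.L 83784) (Tr.S 3 34 (Tr.L 169632) (Tr.S 3 11 (Tr.L 169632) (Tr.S 1 11 (Tr.S 3 10 (Tr.L
  83784) (Tr.L 51864)) (Tr.L 50856))))))) (Tr.S 2 4 (Tr.L 84680) (Tr.S 2 5 (Tr.S 1 11 (Tr.S 3 10
  (Tr.L 165516) (Tr.L 169632)) (Tr.L 84680)) (Tr.L 84680)))) (Tr.S 1 27 (Tr.L 51864) (Tr.S 1 33
  (Tr.L 51864) (Tr.S 1 10 (Tr.L 51864) (Tr.S 1 11 (Tr.L 51864) (Tr.S 3 10 (Tr.L 50856) (Tr.S 1 9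
  (Tr.S 3 33 (Tr.L 84680) (Tr.S 3 29 (Tr.L 169632) (Tr.S 3 15 (Tr.S 0 27 (Tr.L 42848) (Tr.L
  42848)) (Tr.S 3 32 (Tr.S 3 22 (Tr.L 43744) (Tr.L 174280)) (Tr.L 84680))))) (Tr.L
  51864)))))))))))) (Tr.S 3 16 (Tr.S 3 30 (Tr.S 1 9 (Tr.S 0 17 (Tr.S 3 11 (Tr.L 84680) (Tr.L
  50856)) (Tr.S 2 3 (Tr.L 67404) (Tr.L 83784))) (Tr.S 0 17 (Tr.S 3 11 (Tr.L 84680) (Tr.S 1 11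
  (Tr.S 3 29 (Tr.L 169632) (Tr.S 2 29 (Tr.S 3 23 (Tr.L 34469) (Tr.L 84680)) (Tr.L 54944))) (Tr.S
  3 9 (Tr.L 50856) (Tr.L 50856)))) (Tr.S 1 11 (Tr.L 83784) (Tr.S 3 11 (Tr.S 1 10 (Tr.L 51864)
  (Tr.L 83784)) (Tr.L 83784))))) (Tr.S 3 31 (Tr.S 2 3 (Tr.S 0 15 (Tr.S 1 9 (Tr.L 71520) (Tr.L
  83784)) (Tr.S 3 23 (Tr.L 18061) (Tr.L 84680))) (Tr.S 0 15 (Tr.L 83784) (Tr.S 3 5 (Tr.L 84680)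
  (Tr.S 3 11 (Tr.L 84680) (Tr.S 1 11 (Tr.S 3 23 (Tr.L 169632) (Tr.L 169632)) (Tr.L 71912))))))
  (Tr.S 2 4 (Tr.S 3 5 (Tr.S 3 26 (Tr.L 166027) (Tr.S 1 11 (Tr.S 0 15 (Tr.L 19083) (Tr.L 174280))
  (Tr.L 50856))) (Tr.S 3 26 (Tr.S 0 15 (Tr.L 83784) (Tr.L 67789)) (Tr.S 0 15 (Tr.S 3 3 (Tr.S 1 9
  (Tr.L 42848) (Tr.L 18061)) (Tr.L 10571)) (Tr.L 10445)))) (Tr.S 3 25 (Tr.S 0 15 (Tr.S 3 11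
  (Tr.L 10060) (Tr.L 10060)) (Tr.S 2 3 (Tr.L 174280) (Tr.L 174280))) (Tr.S 3 23 (Tr.S 1 11 (Tr.S
  0 17 (Tr.L 169632) (Tr.S 3 32 (Tr.L 42848) (Tr.L 83784))) (Tr.L 5804)) (Tr.S 1 9 (Tr.S 3 11
  (Tr.S 2 3 (Tr.L 5797) (Tr.L 169632)) (Tr.L 5804)) (Tr.S 3 9 (Tr.S 1 11 (Tr.S 2 3 (Tr.S 0 15
  (Tr.S 3 32 (Tr.L 42848) (Tr.L 83784)) (Tr.L 169632)) (Tr.L 169632)) (Tr.L 5804)) (Tr.L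
  6812)))))))) (Tr.S 3 30 (Tr.S 3 22 (Tr.S 2 4 (Tr.S 3 3 (Tr.L 67341) (Tr.S 3 15 (Tr.L 68363)
  (Tr.L 68363))) (Tr.S 1 9 (Tr.S 0 15 (Tr.S 3 17 (Tr.L 34476) (Tr.L 67404)) (Tr.L 165516)) (Tr.L
  165516))) (Tr.S 1 9 (Tr.S 3 29 (Tr.L 71464) (Tr.S 3 23 (Tr.S 2 5 (Tr.L 50856) (Tr.L 67341))
  (Tr.S 2 3 (Tr.S 3 11 (Tr.L 67341) (Tr.S 0 15 (Tr.S 3 26 (Tr.L 80648) (Tr.L 109320)) (Tr.L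
  50856))) (Tr.S 3 11 (Tr.S 3 26 (Tr.L 169632) (Tr.L 173832)) (Tr.L 50856))))) (Tr.S 3 23 (Tr.S
  2 3 (Tr.L 67341) (Tr.S 1 10 (Tr.L 50856) (Tr.S 0 15 (Tr.L 83784) (Tr.S 3 26 (Tr.S 3 10 (Tr.L
  170136) (Tr.L 169632)) (Tr.L 173832))))) (Tr.S 2 5 (Tr.S 3 3 (Tr.L 165516) (Tr.L 166027))
  (Tr.S 3 15 (Tr.L 51864) (Tr.S 0 15 (Tr.S 3 17 (Tr.S 3 26 (Tr.S 3 9 (Tr.S 1 11 (Tr.L 34469)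
  (Tr.L 71464)) (Tr.L 170136)) (Tr.L 173832)) (Tr.L 83784)) (Tr.L 84680))))))) (Tr.S 3 25 (Tr.S
  3 23 (Tr.S 1 9 (Tr.S 2 3 (Tr.L 42792) (Tr.L 173832)) (Tr.S 2 3 (Tr.L 9997) (Tr.S 1 10 (Tr.L
  173832) (Tr.S 1 11 (Tr.S 2 29 (Tr.L 9997) (Tr.L 173832)) (Tr.L 173832))))) (Tr.S 2 3 (Tr.S 3 9
  (Tr.L 173832) (Tr.S 3 17 (Tr.L 9997) (Tr.S 3 4 (Tr.L 9997) (Tr.S 0 15 (Tr.L 10060) (Tr.L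
  165516))))) (Tr.S 3 3 (Tr.S 2 4 (Tr.L 173832) (Tr.L 173832)) (Tr.S 3 10 (Tr.L 173832) (Tr.S 2
  4 (Tr.L 173832) (Tr.L 173832)))))) (Tr.S 1 9 (Tr.S 3 23 (Tr.S 3 26 (Tr.S 0 27 (Tr.S 3 31 (Tr.L
  71464) (Tr.L 50856)) (Tr.L 71464)) (Tr.S 2 3 (Tr.L 9997) (Tr.L 173832))) (Tr.S 3 26 (Tr.S 3 10
  (Tr.S 0 27 (Tr.S 3 31 (Tr.L 71464) (Tr.L 50856)) (Tr.L 71464)) (Tr.S 2 3 (Tr.S 3 5 (Tr.L 5804)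
  (Tr.L 67341)) (Tr.L 169632))) (Tr.S 3 10 (Tr.S 3 32 (Tr.L 42792) (Tr.L 71464)) (Tr.S 2 3 (Tr.S
  0 15 (Tr.S 3 29 (Tr.L 9997) (Tr.S 3 34 (Tr.L 109320) (Tr.S 3 33 (Tr.S 3 4 (Tr.L 80648) (Tr.L
  80648)) (Tr.S 3 4 (Tr.L 109320) (Tr.L 109320))))) (Tr.L 169632)) (Tr.L 169632))))) (Tr.S 3 17
  (Tr.S 3 26 (Tr.S 3 10 (Tr.L 72472) (Tr.S 2 5 (Tr.S 3 3 (Tr.L 165516) (Tr.L 19083)) (Tr.L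
  67341))) (Tr.S 1 10 (Tr.L 173832) (Tr.S 3 10 (Tr.S 1 11 (Tr.L 170136) (Tr.L 173832)) (Tr.L
  173832)))) (Tr.S 3 11 (Tr.S 3 26 (Tr.S 1 10 (Tr.L 72472) (Tr.L 72472)) (Tr.S 3 4 (Tr.L 173832)
  (Tr.S 2 4 (Tr.S 3 3 (Tr.L 173832) (Tr.L 173832)) (Tr.L 173832)))) (Tr.S 3 23 (Tr.S 2 3 (Tr.S 3
  32 (Tr.L 18061) (Tr.L 18061)) (Tr.S 3 32 (Tr.S 2 4 (Tr.L 18061) (Tr.S 2 5 (Tr.S 1 11 (Tr.L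
  173832) (Tr.L 173832)) (Tr.L 9997))) (Tr.S 0 15 (Tr.L 83784) (Tr.S 3 9 (Tr.S 1 11 (Tr.L
  169632) (Tr.L 71912)) (Tr.L 170136))))) (Tr.S 1 11 (Tr.S 3 22 (Tr.S 3 26 (Tr.S 0 17 (Tr.L
  169632) (Tr.L 83784)) (Tr.L 173832)) (Tr.S 3 26 (Tr.S 0 17 (Tr.S 3 10 (Tr.L 170136) (Tr.L
  169632)) (Tr.L 83784)) (Tr.L 173832))) (Tr.S 2 5 (Tr.S 3 3 (Tr.S 3 26 (Tr.L 165516) (Tr.L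
  173832)) (Tr.L 19083)) (Tr.S 3 34 (Tr.L 71464) (Tr.S 0 15 (Tr.S 3 10 (Tr.L 170136) (Tr.S 3 26
  (Tr.S 1 27 (Tr.S 3 33 (Tr.L 51864) (Tr.L 71464)) (Tr.L 71464)) (Tr.L 173832))) (Tr.S 3 33
  (Tr.L 72472) (Tr.S 3 9 (Tr.S 2 3 (Tr.S 3 26 (Tr.L 84680) (Tr.L 173832)) (Tr.L 19083)) (Tr.S 0
  17 (Tr.S 3 27 (Tr.L 173832) (Tr.S 3 26 (Tr.S 3 5 (Tr.L 72472) (Tr.L 18061)) (Tr.S 3 15 (Tr.L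
  173832) (Tr.L 173832)))) (Tr.S 3 22 (Tr.S 3 32 (Tr.L 50856) (Tr.L 83784)) (Tr.L
  170136))))))))))))))))) (Tr.R 1)) (Tr.R 13)) (Tr.R 19)) (Tr.R 20)) (Tr.S 1 2 (Tr.S 0 20 (Tr.S
  1 19 (Tr.S 0 1 (Tr.S 2 13 (Tr.S 0 16 (Tr.S 3 30 (Tr.S 3 22 (Tr.S 2 4 (Tr.S 3 17 (Tr.L 84680)
  (Tr.L 83784)) (Tr.L 165516)) (Tr.S 3 23 (Tr.S 1 11 (Tr.S 3 9 (Tr.L 83784) (Tr.L 83784)) (Tr.L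
  50856)) (Tr.S 3 10 (Tr.S 1 11 (Tr.L 51864) (Tr.L 50856)) (Tr.S 2 4 (Tr.S 3 17 (Tr.L 84680)
  (Tr.L 83784)) (Tr.S 3 4 (Tr.S 2 3 (Tr.S 3 15 (Tr.S 1 9 (Tr.L 34469) (Tr.L 83784)) (Tr.L
  84680)) (Tr.S 3 17 (Tr.S 1 11 (Tr.L 166027) (Tr.L 50856)) (Tr.L 83784))) (Tr.L 165516))))))
  (Tr.S 3 23 (Tr.S 3 25 (Tr.S 1 11 (Tr.S 3 15 (Tr.L 43352) (Tr.L 174280)) (Tr.L 50856)) (Tr.S 3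
  31 (Tr.S 2 5 (Tr.S 3 3 (Tr.L 83784) (Tr.L 83784)) (Tr.L 18061)) (Tr.S 3 24 (Tr.S 2 5 (Tr.S 3
  15 (Tr.L 10571) (Tr.L 174280)) (Tr.L 18061)) (Tr.S 1 11 (Tr.S 3 32 (Tr.S 3 10 (Tr.L 43352)
  (Tr.L 169632)) (Tr.L 83784)) (Tr.L 50856))))) (Tr.S 3 25 (Tr.S 3 22 (Tr.S 2 34 (Tr.L 165516)
  (Tr.S 2 4 (Tr.S 3 5 (Tr.L 19083) (Tr.L 18061)) (Tr.S 3 17 (Tr.L 165516) (Tr.L 10060)))) (Tr.S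
  2 4 (Tr.S 3 5 (Tr.L 10571) (Tr.S 3 11 (Tr.L 18061) (Tr.L 18061))) (Tr.S 3 15 (Tr.S 3 4 (Tr.S 2
  5 (Tr.L 19083) (Tr.L 18061)) (Tr.L 165516)) (Tr.L 174280)))) (Tr.S 3 15 (Tr.S 2 27 (Tr.L
  19083) (Tr.S 2 33 (Tr.L 19083) (Tr.S 1 9 (Tr.S 3 10 (Tr.S 2 4 (Tr.L 6315) (Tr.L 5804)) (Tr.L
  169632)) (Tr.S 3 4 (Tr.L 170136) (Tr.S 3 34 (Tr.L 51864) (Tr.S 3 22 (Tr.S 1 10 (Tr.S 3 32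
  (Tr.L 51864) (Tr.L 83784)) (Tr.L 169632)) (Tr.S 3 32 (Tr.L 43352) (Tr.L 72024)))))))) (Tr.S 3
  11 (Tr.S 1 10 (Tr.S 3 26 (Tr.L 84680) (Tr.S 3 34 (Tr.L 83784) (Tr.S 2 34 (Tr.S 3 22 (Tr.L
  10060) (Tr.L 174280)) (Tr.L 141128)))) (Tr.L 169632)) (Tr.S 1 11 (Tr.S 3 9 (Tr.S 3 32 (Tr.L
  169632) (Tr.L 169632)) (Tr.S 3 34 (Tr.L 169632) (Tr.S 3 22 (Tr.S 3 31 (Tr.L 169632) (Tr.L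
  169632)) (Tr.S 3 26 (Tr.S 2 5 (Tr.L 170136) (Tr.L 84680)) (Tr.L 174280))))) (Tr.S 3 34 (Tr.L
  50856) (Tr.S 3 3 (Tr.S 3 26 (Tr.L 84680) (Tr.S 2 4 (Tr.S 3 31 (Tr.L 84680) (Tr.L 50856)) (Tr.L
  10956))) (Tr.S 3 32 (Tr.S 3 22 (Tr.L 50856) (Tr.L 43240)) (Tr.S 3 22 (Tr.S 1 10 (Tr.L 84680)
  (Tr.L 169632)) (Tr.L 71912))))))))))) (Tr.S 3 16 (Tr.S 3 31 (Tr.S 2 3 (Tr.S 0 17 (Tr.S 3 5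
  (Tr.L 84680) (Tr.L 18061)) (Tr.S 3 24 (Tr.L 10060) (Tr.L 67404))) (Tr.S 0 15 (Tr.L 83784)
  (Tr.S 3 5 (Tr.L 84680) (Tr.S 3 11 (Tr.L 84680) (Tr.S 1 11 (Tr.S 3 23 (Tr.L 169632) (Tr.L
  169632)) (Tr.L 71912)))))) (Tr.S 0 17 (Tr.S 3 24 (Tr.S 1 10 (Tr.S 3 9 (Tr.L 43240) (Tr.L
  170136)) (Tr.L 169632)) (Tr.S 3 9 (Tr.S 1 11 (Tr.S 2 3 (Tr.S 3 23 (Tr.L 34469) (Tr.L 165516))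
  (Tr.L 166027)) (Tr.L 50856)) (Tr.S 1 10 (Tr.S 3 11 (Tr.S 2 4 (Tr.L 51864) (Tr.L 165516)) (Tr.L
  50856)) (Tr.S 3 29 (Tr.L 169632) (Tr.S 1 9 (Tr.S 3 11 (Tr.S 3 25 (Tr.L 174280) (Tr.L 169632))
  (Tr.L 50856)) (Tr.S 3 32 (Tr.L 174280) (Tr.S 3 30 (Tr.S 3 23 (Tr.S 2 5 (Tr.L 165516) (Tr.L
  34469)) (Tr.S 2 5 (Tr.L 165516) (Tr.L 84680))) (Tr.S 3 25 (Tr.L 174280) (Tr.L 169632)))))))))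
  (Tr.S 3 24 (Tr.S 1 10 (Tr.S 3 32 (Tr.S 3 9 (Tr.S 2 4 (Tr.L 50856) (Tr.L 5804)) (Tr.L 170136))
  (Tr.L 83784)) (Tr.L 42848)) (Tr.S 1 9 (Tr.S 3 26 (Tr.L 71520) (Tr.S 3 25 (Tr.S 0 27 (Tr.S 3 11
  (Tr.L 174280) (Tr.L 50856)) (Tr.L 42848)) (Tr.L 42848))) (Tr.S 3 32 (Tr.S 2 4 (Tr.S 3 3 (Tr.L
  18061) (Tr.L 166027)) (Tr.L 165516)) (Tr.S 2 5 (Tr.L 83784) (Tr.L 83784))))))) (Tr.S 3 30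
  (Tr.S 3 22 (Tr.S 2 4 (Tr.S 3 3 (Tr.L 67341) (Tr.L 68363)) (Tr.S 1 9 (Tr.S 0 15 (Tr.S 3 17
  (Tr.L 34476) (Tr.L 67404)) (Tr.L 165516)) (Tr.L 165516))) (Tr.S 1 9 (Tr.S 3 29 (Tr.L 71464)
  (Tr.S 3 23 (Tr.S 3 25 (Tr.L 42792) (Tr.L 71464)) (Tr.S 2 3 (Tr.S 3 11 (Tr.L 34469) (Tr.S 3 4
  (Tr.L 34469) (Tr.L 34476))) (Tr.S 3 11 (Tr.S 3 26 (Tr.L 169632) (Tr.L 173832)) (Tr.L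
  50856))))) (Tr.S 3 23 (Tr.S 0 15 (Tr.L 83784) (Tr.S 2 5 (Tr.S 3 4 (Tr.L 166027) (Tr.L 165516))
  (Tr.S 3 15 (Tr.L 34973) (Tr.L 67789)))) (Tr.S 2 5 (Tr.S 3 4 (Tr.L 166027) (Tr.L 165516)) (Tr.S
  3 11 (Tr.L 34973) (Tr.S 3 3 (Tr.L 51864) (Tr.S 2 3 (Tr.S 3 4 (Tr.S 3 26 (Tr.S 1 11 (Tr.L
  34469) (Tr.L 71464)) (Tr.L 173832)) (Tr.L 165516)) (Tr.L 166027)))))))) (Tr.S 3 23 (Tr.S 3 24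
  (Tr.S 2 4 (Tr.L 173832) (Tr.S 2 3 (Tr.S 1 9 (Tr.L 9997) (Tr.L 173832)) (Tr.L 173832))) (Tr.S 1
  9 (Tr.S 3 26 (Tr.S 0 27 (Tr.S 3 31 (Tr.L 71464) (Tr.L 50856)) (Tr.L 71464)) (Tr.S 2 3 (Tr.L
  9997) (Tr.S 3 32 (Tr.L 173832) (Tr.L 173832)))) (Tr.S 3 32 (Tr.S 2 4 (Tr.L 173832) (Tr.L
  173832)) (Tr.S 2 3 (Tr.L 67341) (Tr.S 3 3 (Tr.S 2 4 (Tr.L 67341) (Tr.L 165516)) (Tr.L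
  166027)))))) (Tr.S 3 25 (Tr.S 3 3 (Tr.S 2 4 (Tr.L 173832) (Tr.L 173832)) (Tr.S 0 15 (Tr.S 2 4
  (Tr.L 173832) (Tr.S 2 3 (Tr.S 1 9 (Tr.S 3 22 (Tr.L 47776) (Tr.S 3 33 (Tr.L 80648) (Tr.L
  109320))) (Tr.L 173832)) (Tr.L 173832))) (Tr.S 2 5 (Tr.S 3 15 (Tr.L 173832) (Tr.L 173832))
  (Tr.S 3 17 (Tr.L 9997) (Tr.S 3 4 (Tr.L 9997) (Tr.S 2 4 (Tr.S 3 15 (Tr.L 173832) (Tr.L 173832))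
  (Tr.L 165516))))))) (Tr.S 1 9 (Tr.S 3 26 (Tr.S 3 10 (Tr.S 0 27 (Tr.S 3 31 (Tr.L 71464) (Tr.L
  50856)) (Tr.L 71464)) (Tr.S 2 3 (Tr.S 3 5 (Tr.L 5804) (Tr.L 67341)) (Tr.L 169632))) (Tr.S 3 10
  (Tr.S 3 32 (Tr.L 42792) (Tr.L 71464)) (Tr.S 2 3 (Tr.S 0 15 (Tr.S 3 29 (Tr.L 9997) (Tr.S 3 34
  (Tr.L 109320) (Tr.S 3 33 (Tr.S 3 4 (Tr.L 80648) (Tr.L 80648)) (Tr.S 3 4 (Tr.L 109320) (Tr.L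
  109320))))) (Tr.L 169632)) (Tr.L 169632)))) (Tr.S 1 11 (Tr.S 3 22 (Tr.S 3 26 (Tr.S 2 3 (Tr.L
  165516) (Tr.L 169632)) (Tr.L 173832)) (Tr.S 3 32 (Tr.L 173832) (Tr.S 3 10 (Tr.L 72472) (Tr.S 3
  26 (Tr.S 2 3 (Tr.S 3 4 (Tr.L 18061) (Tr.L 165516)) (Tr.L 169632)) (Tr.L 173832))))) (Tr.S 3 22
  (Tr.S 3 32 (Tr.S 2 4 (Tr.L 173832) (Tr.L 173832)) (Tr.S 3 15 (Tr.L 72472) (Tr.S 0 15 (Tr.S 3 9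
  (Tr.L 71464) (Tr.L 72472)) (Tr.L 84680)))) (Tr.S 3 32 (Tr.S 2 4 (Tr.L 173832) (Tr.L 173832))
  (Tr.S 3 3 (Tr.L 170136) (Tr.S 2 3 (Tr.S 3 5 (Tr.S 3 26 (Tr.L 165516) (Tr.L 173832)) (Tr.L
  18061)) (Tr.L 19083)))))))))))) (Tr.R 13)) (Tr.S 2 1 (Tr.S 0 13 (Tr.S 2 16 (Tr.S 3 23 (Tr.S 3
  30 (Tr.S 1 11 (Tr.S 3 9 (Tr.L 83784) (Tr.L 83784)) (Tr.L 50856)) (Tr.S 3 25 (Tr.S 1 11 (Tr.S 3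
  15 (Tr.L 43352) (Tr.L 174280)) (Tr.L 50856)) (Tr.S 3 24 (Tr.S 0 5 (Tr.S 3 15 (Tr.L 10571)
  (Tr.L 174280)) (Tr.L 18061)) (Tr.S 0 5 (Tr.S 3 32 (Tr.S 3 4 (Tr.L 10571) (Tr.L 165516)) (Tr.L
  83784)) (Tr.L 18061))))) (Tr.S 3 25 (Tr.S 3 3 (Tr.S 0 4 (Tr.S 1 9 (Tr.S 3 22 (Tr.L 34469)
  (Tr.L 174280)) (Tr.L 51864)) (Tr.L 165516)) (Tr.S 3 5 (Tr.S 0 4 (Tr.S 3 34 (Tr.L 83784) (Tr.S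
  1 34 (Tr.S 3 22 (Tr.L 42848) (Tr.L 166027)) (Tr.L 141128))) (Tr.L 165516)) (Tr.S 3 30 (Tr.S 0
  5 (Tr.S 3 4 (Tr.S 3 17 (Tr.L 174280) (Tr.L 83784)) (Tr.L 165516)) (Tr.S 0 3 (Tr.S 3 4 (Tr.S 3
  15 (Tr.S 1 9 (Tr.L 42848) (Tr.L 83784)) (Tr.L 174280)) (Tr.L 165516)) (Tr.S 3 10 (Tr.L 166027)
  (Tr.S 3 17 (Tr.S 1 10 (Tr.L 84680) (Tr.L 84680)) (Tr.S 3 22 (Tr.L 83784) (Tr.L 83784))))))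
  (Tr.S 0 5 (Tr.S 3 4 (Tr.L 19083) (Tr.L 165516)) (Tr.S 3 22 (Tr.L 18061) (Tr.S 3 34 (Tr.L
  18061) (Tr.S 3 4 (Tr.L 18061) (Tr.S 3 11 (Tr.L 18061) (Tr.L 18061))))))))) (Tr.S 3 30 (Tr.S 3
  3 (Tr.S 0 4 (Tr.L 84680) (Tr.L 165516)) (Tr.S 0 3 (Tr.S 3 4 (Tr.S 3 15 (Tr.S 1 9 (Tr.L 169632)
  (Tr.L 83784)) (Tr.L 84680)) (Tr.L 165516)) (Tr.S 3 10 (Tr.L 166027) (Tr.S 3 15 (Tr.S 1 10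
  (Tr.L 51864) (Tr.L 71520)) (Tr.S 1 11 (Tr.L 72416) (Tr.L 84680)))))) (Tr.S 3 3 (Tr.S 0 4 (Tr.S
  3 32 (Tr.S 3 22 (Tr.L 18061) (Tr.L 18061)) (Tr.L 84680)) (Tr.S 3 32 (Tr.L 10956) (Tr.S 0 5
  (Tr.S 1 11 (Tr.S 3 10 (Tr.L 170136) (Tr.L 169632)) (Tr.L 84680)) (Tr.L 84680)))) (Tr.S 3 32
  (Tr.S 0 4 (Tr.L 19083) (Tr.S 0 5 (Tr.L 19083) (Tr.S 3 4 (Tr.L 18061) (Tr.S 0 3 (Tr.S 3 17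
  (Tr.L 10956) (Tr.S 3 24 (Tr.S 1 9 (Tr.S 3 10 (Tr.L 50856) (Tr.L 169632)) (Tr.S 3 9 (Tr.S 1 10
  (Tr.L 50856) (Tr.L 169632)) (Tr.L 51864))) (Tr.L 165516))) (Tr.L 19083))))) (Tr.S 3 22 (Tr.S 1
  10 (Tr.S 0 4 (Tr.L 19083) (Tr.S 3 17 (Tr.L 84680) (Tr.L 83784))) (Tr.L 169632)) (Tr.S 0 4
  (Tr.L 19083) (Tr.S 0 27 (Tr.L 19083) (Tr.S 3 15 (Tr.S 0 3 (Tr.S 1 9 (Tr.S 3 10 (Tr.S 3 24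
  (Tr.L 10060) (Tr.L 165516)) (Tr.L 169632)) (Tr.L 83784)) (Tr.L 83784)) (Tr.S 0 5 (Tr.L 19083)
  (Tr.L 84680))))))))))) (Tr.S 3 16 (Tr.S 3 31 (Tr.S 0 3 (Tr.S 2 17 (Tr.S 3 5 (Tr.L 84680) (Tr.L
  18061)) (Tr.S 1 9 (Tr.L 71520) (Tr.L 83784))) (Tr.S 2 17 (Tr.S 3 5 (Tr.L 84680) (Tr.S 0 5
  (Tr.S 3 29 (Tr.L 165516) (Tr.S 1 29 (Tr.S 3 23 (Tr.L 5804) (Tr.L 84680)) (Tr.L 22156))) (Tr.S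
  3 3 (Tr.L 18061) (Tr.L 18061)))) (Tr.S 0 5 (Tr.L 83784) (Tr.S 3 5 (Tr.S 0 4 (Tr.L 19083) (Tr.L
  83784)) (Tr.L 83784))))) (Tr.S 3 30 (Tr.S 1 9 (Tr.S 2 15 (Tr.S 0 3 (Tr.L 67404) (Tr.L 83784))
  (Tr.S 3 23 (Tr.L 50856) (Tr.L 84680))) (Tr.S 2 15 (Tr.L 83784) (Tr.S 3 11 (Tr.L 84680) (Tr.S 3
  5 (Tr.L 84680) (Tr.S 0 5 (Tr.S 3 23 (Tr.L 165516) (Tr.L 165516)) (Tr.L 67789)))))) (Tr.S 1 10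
  (Tr.S 3 11 (Tr.S 3 26 (Tr.L 170136) (Tr.S 0 5 (Tr.S 2 15 (Tr.L 51864) (Tr.L 174280)) (Tr.L
  18061))) (Tr.S 3 26 (Tr.S 2 15 (Tr.L 83784) (Tr.L 71912)) (Tr.S 2 15 (Tr.S 3 9 (Tr.S 0 3 (Tr.L
  10060) (Tr.L 50856)) (Tr.L 43352)) (Tr.L 43240)))) (Tr.S 3 24 (Tr.S 2 15 (Tr.S 3 5 (Tr.L
  42848) (Tr.L 42848)) (Tr.S 0 3 (Tr.L 174280) (Tr.L 174280))) (Tr.S 3 23 (Tr.S 0 5 (Tr.S 2 17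
  (Tr.L 165516) (Tr.S 3 32 (Tr.L 42848) (Tr.L 83784))) (Tr.L 34469)) (Tr.S 0 3 (Tr.S 3 5 (Tr.S 1
  9 (Tr.L 34476) (Tr.L 165516)) (Tr.L 34469)) (Tr.S 3 3 (Tr.S 0 5 (Tr.S 1 9 (Tr.S 2 15 (Tr.S 3
  32 (Tr.L 10060) (Tr.L 83784)) (Tr.L 165516)) (Tr.L 165516)) (Tr.L 34469)) (Tr.L 35491))))))))
  (Tr.S 3 30 (Tr.S 3 22 (Tr.S 0 4 (Tr.S 3 3 (Tr.L 67341) (Tr.L 68363)) (Tr.S 1 9 (Tr.S 2 15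
  (Tr.S 3 11 (Tr.L 67404) (Tr.L 34476)) (Tr.L 165516)) (Tr.L 165516))) (Tr.S 1 9 (Tr.S 3 29
  (Tr.L 71464) (Tr.S 3 23 (Tr.S 3 25 (Tr.L 42792) (Tr.L 71464)) (Tr.S 0 3 (Tr.S 2 15 (Tr.S 3 26
  (Tr.L 80648) (Tr.L 109320)) (Tr.S 3 11 (Tr.S 3 26 (Tr.L 169632) (Tr.L 67341)) (Tr.L 50856)))
  (Tr.S 3 3 (Tr.S 3 11 (Tr.S 2 17 (Tr.L 84680) (Tr.L 83784)) (Tr.L 50856)) (Tr.L 166027)))))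
  (Tr.S 3 23 (Tr.S 2 15 (Tr.L 83784) (Tr.S 0 5 (Tr.S 3 3 (Tr.L 165516) (Tr.L 166027)) (Tr.S 3 15
  (Tr.L 34973) (Tr.S 1 10 (Tr.L 50856) (Tr.S 3 26 (Tr.L 67789) (Tr.L 173832)))))) (Tr.S 0 5
  (Tr.S 3 4 (Tr.L 166027) (Tr.L 165516)) (Tr.S 3 3 (Tr.L 51864) (Tr.S 0 3 (Tr.S 3 4 (Tr.S 3 26
  (Tr.S 2 27 (Tr.L 67341) (Tr.L 67341)) (Tr.L 173832)) (Tr.L 165516)) (Tr.L 166027))))))) (Tr.S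
  3 23 (Tr.S 3 24 (Tr.S 0 3 (Tr.S 1 9 (Tr.S 2 15 (Tr.L 14477) (Tr.L 18061)) (Tr.L 173832)) (Tr.S
  0 4 (Tr.L 173832) (Tr.S 3 32 (Tr.S 3 3 (Tr.S 2 15 (Tr.L 10060) (Tr.L 174280)) (Tr.L 173832))
  (Tr.L 173832)))) (Tr.S 1 9 (Tr.S 3 26 (Tr.L 71464) (Tr.S 3 31 (Tr.L 71464) (Tr.L 42792)))
  (Tr.S 3 32 (Tr.S 0 3 (Tr.L 173832) (Tr.S 0 4 (Tr.L 173832) (Tr.S 3 3 (Tr.L 165516) (Tr.L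
  173832)))) (Tr.S 0 3 (Tr.L 67341) (Tr.S 3 3 (Tr.S 0 4 (Tr.L 18061) (Tr.L 165516)) (Tr.L
  166027)))))) (Tr.S 3 25 (Tr.S 3 3 (Tr.S 0 4 (Tr.L 173832) (Tr.L 173832)) (Tr.S 2 15 (Tr.S 0 4
  (Tr.L 173832) (Tr.S 0 3 (Tr.S 1 9 (Tr.S 3 22 (Tr.L 47776) (Tr.S 3 33 (Tr.L 80648) (Tr.L
  109320))) (Tr.L 173832)) (Tr.L 173832))) (Tr.S 0 5 (Tr.S 3 15 (Tr.L 173832) (Tr.L 173832))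
  (Tr.S 3 4 (Tr.L 9997) (Tr.S 0 4 (Tr.S 3 15 (Tr.L 173832) (Tr.L 173832)) (Tr.L 165516))))))
  (Tr.S 1 9 (Tr.S 3 26 (Tr.S 2 15 (Tr.S 3 10 (Tr.S 0 27 (Tr.S 3 31 (Tr.L 104616) (Tr.L 50856))
  (Tr.L 80648)) (Tr.S 0 3 (Tr.S 3 4 (Tr.L 80648) (Tr.L 80648)) (Tr.L 169632))) (Tr.S 3 15 (Tr.S
  3 10 (Tr.S 0 4 (Tr.L 166027) (Tr.L 165516)) (Tr.L 169632)) (Tr.L 84680))) (Tr.S 3 10 (Tr.S 0 3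
  (Tr.S 3 32 (Tr.L 42792) (Tr.L 71464)) (Tr.L 173832)) (Tr.S 3 3 (Tr.L 173832) (Tr.S 0 3 (Tr.S 2
  15 (Tr.S 3 29 (Tr.L 5797) (Tr.S 3 34 (Tr.L 109320) (Tr.S 3 33 (Tr.S 3 4 (Tr.L 80648) (Tr.L
  80648)) (Tr.S 3 4 (Tr.L 109320) (Tr.L 109320))))) (Tr.L 169632)) (Tr.L 173832))))) (Tr.S 1 11
  (Tr.S 3 22 (Tr.S 3 26 (Tr.S 0 3 (Tr.L 165516) (Tr.L 169632)) (Tr.L 173832)) (Tr.S 3 32 (Tr.L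
  173832) (Tr.S 3 15 (Tr.L 170136) (Tr.S 3 3 (Tr.L 170136) (Tr.S 3 27 (Tr.L 72472) (Tr.S 3 29
  (Tr.L 173832) (Tr.S 0 5 (Tr.S 2 17 (Tr.L 87816) (Tr.L 19083)) (Tr.S 3 5 (Tr.S 2 17 (Tr.L
  84680) (Tr.L 83784)) (Tr.L 18061))))))))) (Tr.S 3 22 (Tr.S 3 24 (Tr.S 1 10 (Tr.S 3 9 (Tr.L
  173832) (Tr.S 3 11 (Tr.L 173832) (Tr.L 173832))) (Tr.L 173832)) (Tr.S 3 32 (Tr.S 0 4 (Tr.L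
  173832) (Tr.L 173832)) (Tr.S 3 15 (Tr.L 72472) (Tr.S 2 15 (Tr.S 3 9 (Tr.S 0 4 (Tr.L 19083)
  (Tr.L 165516)) (Tr.L 72472)) (Tr.L 84680))))) (Tr.S 3 32 (Tr.S 0 4 (Tr.L 173832) (Tr.L
  173832)) (Tr.S 3 3 (Tr.L 170136) (Tr.S 0 3 (Tr.S 3 5 (Tr.S 3 26 (Tr.L 165516) (Tr.L 173832))
  (Tr.L 18061)) (Tr.L 19083)))))))))))) (Tr.R 13)) (Tr.R 1))) (Tr.R 19)) (Tr.R 20)) (Tr.R 2)))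
  (Tr.R 8))

theorem chkC : chk 1847622 trC 1237940039285661749875834944 11238257229463457317516239935033364283940737 = true := by decide +kernel

end Pool.Agent.H42.Pack6
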