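import Pool.Agent.H42.Pack6.Chk

set_option autoImplicit false
set_option maxRecDepth 100000

namespace Pool.Agent.H42.Pack6

def pO1 : Tr :=
(Tr.S 3 3 (Tr.S 3 11 (Tr.S 0 18 (Tr.S 3 32 (Tr.S 3 24 (Tr.S 2 19 (Tr.L 169632) (Tr.S 1 26 (Tr.S
  2 25 (Tr.L 50520) (Tr.L 5468)) (Tr.S 1 20 (Tr.S 3 19 (Tr.L 10060) (Tr.L 9052)) (Tr.L
  181448)))) (Tr.L 18061)) (Tr.S 1 32 (Tr.S 3 24 (Tr.S 3 20 (Tr.S 2 19 (Tr.L 5797) (Tr.L 9052))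
  (Tr.L 10060)) (Tr.S 3 30 (Tr.S 3 26 (Tr.S 2 31 (Tr.S 1 23 (Tr.L 169632) (Tr.L 181448)) (Tr.L
  34021)) (Tr.S 3 19 (Tr.L 181448) (Tr.S 2 31 (Tr.L 172768) (Tr.S 2 19 (Tr.S 0 33 (Tr.L 165516)
  (Tr.L 165516)) (Tr.L 180888))))) (Tr.L 165516))) (Tr.S 2 19 (Tr.S 1 23 (Tr.S 3 20 (Tr.L 83784)
  (Tr.L 181448)) (Tr.L 84680)) (Tr.S 3 25 (Tr.L 66277) (Tr.S 2 25 (Tr.S 3 31 (Tr.S 3 24 (Tr.S 1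
  26 (Tr.S 0 27 (Tr.L 83784) (Tr.L 83784)) (Tr.L 83784)) (Tr.L 18061)) (Tr.S 3 20 (Tr.L 180888)
  (Tr.S 1 20 (Tr.S 2 23 (Tr.S 3 19 (Tr.L 83784) (Tr.L 180888)) (Tr.L 84680)) (Tr.L 181448))))
  (Tr.S 3 19 (Tr.S 1 20 (Tr.S 2 22 (Tr.L 83784) (Tr.L 83784)) (Tr.L 181448)) (Tr.L 169632)))))))
  (Tr.S 2 19 (Tr.S 3 32 (Tr.S 3 24 (Tr.L 169632) (Tr.S 3 25 (Tr.S 1 26 (Tr.S 0 24 (Tr.L 17613)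
  (Tr.L 34140)) (Tr.S 1 20 (Tr.S 0 23 (Tr.S 3 22 (Tr.L 173832) (Tr.L 174280)) (Tr.L 51864))
  (Tr.L 181448))) (Tr.S 1 26 (Tr.L 50520) (Tr.L 169632)))) (Tr.S 1 32 (Tr.S 3 20 (Tr.S 3 25
  (Tr.L 41308) (Tr.S 3 31 (Tr.S 0 30 (Tr.L 172236) (Tr.L 18061)) (Tr.L 169632))) (Tr.S 3 26
  (Tr.S 3 31 (Tr.S 0 30 (Tr.L 165068) (Tr.L 5468)) (Tr.L 169632)) (Tr.L 181448))) (Tr.S 3 24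
  (Tr.L 69980) (Tr.S 3 31 (Tr.S 0 29 (Tr.L 169632) (Tr.S 1 29 (Tr.L 169632) (Tr.S 3 20 (Tr.L
  69861) (Tr.S 1 20 (Tr.S 0 23 (Tr.S 3 18 (Tr.L 83784) (Tr.L 69980)) (Tr.L 169632)) (Tr.L
  181448))))) (Tr.S 3 26 (Tr.L 169632) (Tr.S 1 27 (Tr.L 42848) (Tr.S 0 29 (Tr.L 165516) (Tr.S 3
  25 (Tr.S 1 26 (Tr.S 3 20 (Tr.S 0 24 (Tr.L 82125) (Tr.L 165516)) (Tr.L 181448)) (Tr.S 3 18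
  (Tr.L 83784) (Tr.L 83784))) (Tr.S 3 18 (Tr.L 71520) (Tr.L 71520)))))))))) (Tr.S 3 19 (Tr.S 2
  25 (Tr.S 1 26 (Tr.S 0 29 (Tr.L 176268) (Tr.L 181448)) (Tr.S 3 32 (Tr.L 41308) (Tr.S 3 24 (Tr.L
  41308) (Tr.S 0 24 (Tr.S 1 29 (Tr.L 176268) (Tr.L 54944)) (Tr.L 165516))))) (Tr.S 1 20 (Tr.S 2
  31 (Tr.S 1 27 (Tr.L 169632) (Tr.S 3 30 (Tr.L 69861) (Tr.S 3 34 (Tr.L 69917) (Tr.S 0 27 (Tr.L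
  169632) (Tr.S 2 27 (Tr.S 0 23 (Tr.L 169632) (Tr.S 3 26 (Tr.L 69980) (Tr.L 172236))) (Tr.L
  169632)))))) (Tr.L 169632)) (Tr.S 2 31 (Tr.S 0 27 (Tr.L 169632) (Tr.S 1 27 (Tr.L 169632) (Tr.S
  3 16 (Tr.S 0 30 (Tr.S 1 33 (Tr.L 181448) (Tr.L 169632)) (Tr.S 3 30 (Tr.S 1 32 (Tr.S 0 34 (Tr.L
  181448) (Tr.L 181448)) (Tr.L 181448)) (Tr.L 168092))) (Tr.S 2 27 (Tr.S 0 24 (Tr.L 168092)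
  (Tr.S 3 24 (Tr.S 1 26 (Tr.L 169240) (Tr.L 181448)) (Tr.L 165516))) (Tr.L 177416))))) (Tr.L
  50520)))) (Tr.S 0 24 (Tr.S 1 26 (Tr.S 2 27 (Tr.S 3 20 (Tr.L 86752) (Tr.L 181448)) (Tr.L
  176800)) (Tr.S 3 18 (Tr.S 3 25 (Tr.L 8933) (Tr.S 2 25 (Tr.S 1 29 (Tr.L 176800) (Tr.L 180888))
  (Tr.L 180888))) (Tr.S 3 16 (Tr.S 3 26 (Tr.S 2 25 (Tr.S 1 29 (Tr.L 176800) (Tr.L 180888)) (Tr.L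
  180888)) (Tr.S 3 30 (Tr.S 1 32 (Tr.S 2 31 (Tr.L 172768) (Tr.L 180888)) (Tr.L 83784)) (Tr.L
  17053))) (Tr.S 3 30 (Tr.S 2 31 (Tr.S 3 25 (Tr.S 1 32 (Tr.L 172768) (Tr.L 173832)) (Tr.L
  180888)) (Tr.L 180888)) (Tr.L 17053))))) (Tr.S 3 18 (Tr.S 0 30 (Tr.S 1 20 (Tr.S 3 26 (Tr.L
  66277) (Tr.S 3 32 (Tr.S 2 23 (Tr.L 172768) (Tr.L 172768)) (Tr.L 172768))) (Tr.S 2 31 (Tr.S 3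
  25 (Tr.S 1 33 (Tr.S 3 32 (Tr.L 181448) (Tr.L 181448)) (Tr.L 165516)) (Tr.L 180888)) (Tr.S 3 31
  (Tr.S 1 32 (Tr.L 165068) (Tr.L 181448)) (Tr.L 180888)))) (Tr.S 2 25 (Tr.L 18061) (Tr.L
  165516))) (Tr.S 2 25 (Tr.S 3 31 (Tr.S 3 24 (Tr.S 1 29 (Tr.L 180888) (Tr.S 0 29 (Tr.L 180888)
  (Tr.L 180888))) (Tr.L 164508)) (Tr.S 3 20 (Tr.L 180888) (Tr.L 180888))) (Tr.S 3 25 (Tr.S 2 31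
  (Tr.S 3 30 (Tr.S 1 26 (Tr.L 82125) (Tr.L 172236)) (Tr.L 165516)) (Tr.L 165516)) (Tr.L
  180888)))))))) (Tr.S 2 25 (Tr.S 0 24 (Tr.S 3 30 (Tr.S 3 10 (Tr.S 3 19 (Tr.S 1 27 (Tr.S 2 33
  (Tr.S 1 34 (Tr.L 50856) (Tr.L 50856)) (Tr.L 50856)) (Tr.L 50856)) (Tr.L 180888)) (Tr.S 3 19
  (Tr.S 1 27 (Tr.S 3 26 (Tr.L 54944) (Tr.L 41189)) (Tr.L 50856)) (Tr.L 50856))) (Tr.S 3 22 (Tr.L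
  18061) (Tr.S 3 18 (Tr.S 1 26 (Tr.L 12972) (Tr.S 3 26 (Tr.S 1 29 (Tr.S 1 20 (Tr.L 180888) (Tr.L
  181448)) (Tr.L 22156)) (Tr.L 8940))) (Tr.S 1 27 (Tr.S 3 29 (Tr.L 18061) (Tr.L 22156)) (Tr.L
  176268))))) (Tr.S 3 29 (Tr.S 1 26 (Tr.S 3 32 (Tr.L 50520) (Tr.S 3 20 (Tr.L 82664) (Tr.L
  181448))) (Tr.S 3 31 (Tr.S 0 30 (Tr.S 1 32 (Tr.S 3 20 (Tr.L 165516) (Tr.L 181448)) (Tr.L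
  82664)) (Tr.L 165516)) (Tr.S 3 19 (Tr.S 1 20 (Tr.S 3 32 (Tr.S 0 30 (Tr.L 165516) (Tr.L
  165516)) (Tr.L 83784)) (Tr.L 181448)) (Tr.L 164508)))) (Tr.S 3 18 (Tr.S 3 32 (Tr.L 34476)
  (Tr.S 1 32 (Tr.S 3 31 (Tr.S 0 30 (Tr.L 165068) (Tr.L 165516)) (Tr.L 34476)) (Tr.L 66284)))
  (Tr.S 3 10 (Tr.S 3 26 (Tr.S 1 32 (Tr.S 3 31 (Tr.S 0 30 (Tr.L 165516) (Tr.L 165516)) (Tr.L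
  34077)) (Tr.S 1 20 (Tr.S 0 18 (Tr.S 3 19 (Tr.L 67341) (Tr.L 66284)) (Tr.L 165516)) (Tr.L
  181448))) (Tr.S 1 26 (Tr.S 3 20 (Tr.S 3 24 (Tr.L 82664) (Tr.L 66284)) (Tr.S 0 29 (Tr.L 177416)
  (Tr.L 181448))) (Tr.S 3 24 (Tr.S 0 30 (Tr.S 3 19 (Tr.L 41196) (Tr.S 3 31 (Tr.S 1 32 (Tr.L
  172236) (Tr.L 173832)) (Tr.L 180888))) (Tr.S 0 18 (Tr.S 3 31 (Tr.L 8940) (Tr.S 3 19 (Tr.S 1 27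
  (Tr.L 50856) (Tr.L 42792)) (Tr.L 50856))) (Tr.L 172236))) (Tr.S 0 18 (Tr.S 3 30 (Tr.S 3 19
  (Tr.S 1 20 (Tr.L 173832) (Tr.L 181448)) (Tr.L 50856)) (Tr.L 165516)) (Tr.L 165516))))) (Tr.S 3
  24 (Tr.S 1 26 (Tr.S 3 32 (Tr.S 3 17 (Tr.L 50408) (Tr.L 50520)) (Tr.S 3 19 (Tr.S 3 17 (Tr.L
  181448) (Tr.L 181448)) (Tr.L 82664))) (Tr.S 0 30 (Tr.S 3 19 (Tr.L 41189) (Tr.S 3 31 (Tr.S 1 29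
  (Tr.L 172768) (Tr.L 172768)) (Tr.L 180888))) (Tr.S 0 18 (Tr.S 3 31 (Tr.L 8940) (Tr.S 3 19
  (Tr.S 1 27 (Tr.L 50856) (Tr.S 2 22 (Tr.L 50856) (Tr.L 50856))) (Tr.L 50856))) (Tr.L 18061))))
  (Tr.S 0 18 (Tr.S 3 30 (Tr.S 3 19 (Tr.S 0 27 (Tr.S 1 20 (Tr.L 165516) (Tr.L 34021)) (Tr.L
  34469)) (Tr.L 50856)) (Tr.L 18061)) (Tr.S 3 23 (Tr.L 164508) (Tr.S 3 30 (Tr.L 34469) (Tr.S 0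
  30 (Tr.S 3 32 (Tr.L 34469) (Tr.S 1 20 (Tr.L 165516) (Tr.S 3 19 (Tr.L 49309) (Tr.S 3 17 (Tr.L
  164508) (Tr.L 164508))))) (Tr.L 18061)))))))))) (Tr.S 2 31 (Tr.S 3 16 (Tr.S 3 18 (Tr.S 3 25
  (Tr.S 1 22 (Tr.L 180888) (Tr.S 1 32 (Tr.L 181448) (Tr.S 0 34 (Tr.L 18061) (Tr.S 0 23 (Tr.L
  180888) (Tr.S 0 29 (Tr.L 180888) (Tr.S 2 22 (Tr.S 1 23 (Tr.L 181448) (Tr.L 180888)) (Tr.S 1 20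
  (Tr.L 180888) (Tr.L 180888)))))))) (Tr.L 180888)) (Tr.S 0 18 (Tr.S 3 25 (Tr.S 3 30 (Tr.S 1 32
  (Tr.L 172768) (Tr.L 66277)) (Tr.L 165516)) (Tr.S 3 19 (Tr.S 1 20 (Tr.S 2 22 (Tr.L 169632)
  (Tr.L 170136)) (Tr.S 3 24 (Tr.L 5468) (Tr.S 3 30 (Tr.S 1 32 (Tr.L 169184) (Tr.L 181448)) (Tr.L
  165516)))) (Tr.L 169632))) (Tr.S 3 19 (Tr.S 0 27 (Tr.L 169632) (Tr.S 1 27 (Tr.L 169632) (Tr.S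
  2 27 (Tr.S 1 20 (Tr.S 3 26 (Tr.L 69980) (Tr.S 3 32 (Tr.S 0 30 (Tr.L 168092) (Tr.L 18061))
  (Tr.L 71520))) (Tr.S 0 30 (Tr.S 1 33 (Tr.L 181448) (Tr.L 169632)) (Tr.S 3 30 (Tr.S 1 32 (Tr.L
  169184) (Tr.L 181448)) (Tr.L 168092)))) (Tr.L 176268)))) (Tr.S 3 25 (Tr.S 0 24 (Tr.S 3 30
  (Tr.S 1 34 (Tr.L 180888) (Tr.S 2 29 (Tr.L 180888) (Tr.L 180888))) (Tr.L 17053)) (Tr.L 165516))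
  (Tr.L 180888))))) (Tr.S 3 26 (Tr.S 3 18 (Tr.L 180888) (Tr.S 3 22 (Tr.L 169632) (Tr.S 3 19
  (Tr.S 1 20 (Tr.S 0 18 (Tr.L 67341) (Tr.L 69868)) (Tr.S 1 32 (Tr.S 3 30 (Tr.L 169240) (Tr.S 0
  33 (Tr.L 5356) (Tr.L 103720))) (Tr.L 181448))) (Tr.S 1 20 (Tr.L 71464) (Tr.L 180888))))) (Tr.S
  1 26 (Tr.S 3 20 (Tr.S 3 25 (Tr.S 0 24 (Tr.L 82125) (Tr.L 66284)) (Tr.L 180888)) (Tr.S 3 34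
  (Tr.L 181448) (Tr.S 3 19 (Tr.S 3 32 (Tr.S 0 30 (Tr.L 168092) (Tr.L 5405)) (Tr.L 181448)) (Tr.S
  3 25 (Tr.S 3 32 (Tr.S 2 29 (Tr.L 181448) (Tr.S 0 29 (Tr.L 181448) (Tr.L 181448))) (Tr.L
  181448)) (Tr.L 180888))))) (Tr.S 3 25 (Tr.S 0 18 (Tr.S 3 30 (Tr.S 1 32 (Tr.S 0 33 (Tr.L
  173832) (Tr.L 173832)) (Tr.L 173832)) (Tr.L 165516)) (Tr.S 3 18 (Tr.S 1 20 (Tr.S 3 32 (Tr.S 0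
  30 (Tr.L 164508) (Tr.L 8940)) (Tr.L 173832)) (Tr.L 181448)) (Tr.S 0 24 (Tr.S 3 30 (Tr.S 1 29
  (Tr.L 172236) (Tr.L 172236)) (Tr.L 172236)) (Tr.L 165516)))) (Tr.S 3 10 (Tr.S 3 19 (Tr.S 1 20
  (Tr.S 2 23 (Tr.L 173832) (Tr.S 0 23 (Tr.L 173832) (Tr.L 173832))) (Tr.L 181448)) (Tr.S 3 20
  (Tr.L 180888) (Tr.S 1 20 (Tr.S 0 18 (Tr.S 2 22 (Tr.L 180888) (Tr.L 174280)) (Tr.L 180888))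
  (Tr.L 181448)))) (Tr.S 3 19 (Tr.S 1 20 (Tr.S 2 23 (Tr.L 173832) (Tr.S 0 23 (Tr.L 173832) (Tr.L
  173832))) (Tr.L 181448)) (Tr.L 169632))))))) (Tr.S 3 19 (Tr.S 3 16 (Tr.S 1 20 (Tr.S 0 18 (Tr.L
  169632) (Tr.L 169632)) (Tr.L 50520)) (Tr.S 1 20 (Tr.S 0 18 (Tr.L 50856) (Tr.L 50856)) (Tr.L
  169240))) (Tr.S 3 26 (Tr.S 3 34 (Tr.L 169632) (Tr.S 1 32 (Tr.S 3 17 (Tr.S 2 19 (Tr.S 1 23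
  (Tr.S 2 29 (Tr.S 3 31 (Tr.S 0 24 (Tr.L 5804) (Tr.L 165068)) (Tr.L 169240)) (Tr.L 169240))
  (Tr.L 169240)) (Tr.L 180888)) (Tr.S 2 19 (Tr.S 0 22 (Tr.L 181448) (Tr.S 3 30 (Tr.L 50856)
  (Tr.S 0 30 (Tr.S 2 34 (Tr.L 165516) (Tr.L 181448)) (Tr.L 5468)))) (Tr.L 180888))) (Tr.S 2 19
  (Tr.S 0 24 (Tr.S 3 18 (Tr.S 2 27 (Tr.L 18061) (Tr.L 5804)) (Tr.L 69868)) (Tr.S 3 31 (Tr.S 0 30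
  (Tr.S 3 18 (Tr.S 2 33 (Tr.L 165516) (Tr.S 1 33 (Tr.L 165516) (Tr.L 165516))) (Tr.L 165516))
  (Tr.L 165516)) (Tr.L 34476))) (Tr.L 82664)))) (Tr.S 1 26 (Tr.S 3 31 (Tr.S 2 19 (Tr.S 3 22
  (Tr.L 71464) (Tr.S 3 23 (Tr.L 83784) (Tr.S 0 24 (Tr.S 3 18 (Tr.L 17613) (Tr.L 18061)) (Tr.S 3
  18 (Tr.S 3 17 (Tr.L 181448) (Tr.L 181448)) (Tr.S 0 18 (Tr.S 1 22 (Tr.L 84680) (Tr.L 18061))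
  (Tr.L 69868)))))) (Tr.L 180888)) (Tr.S 3 32 (Tr.S 3 16 (Tr.S 2 19 (Tr.S 1 22 (Tr.S 3 25 (Tr.S
  0 24 (Tr.L 18061) (Tr.L 34140)) (Tr.L 50856)) (Tr.L 50520)) (Tr.L 180888)) (Tr.S 2 19 (Tr.S 3
  25 (Tr.S 0 24 (Tr.L 17613) (Tr.L 34077)) (Tr.L 50856)) (Tr.L 180888))) (Tr.S 2 19 (Tr.S 3 23
  (Tr.L 83784) (Tr.S 3 29 (Tr.L 50856) (Tr.S 3 17 (Tr.S 3 25 (Tr.S 3 18 (Tr.L 181448) (Tr.S 0 27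
  (Tr.L 67341) (Tr.S 0 24 (Tr.S 2 29 (Tr.L 50856) (Tr.L 87816)) (Tr.L 67341)))) (Tr.L 50856))
  (Tr.S 3 20 (Tr.S 1 22 (Tr.L 50856) (Tr.S 0 22 (Tr.L 50856) (Tr.L 50856))) (Tr.L 83784)))))
  (Tr.L 82664)))) (Tr.S 2 19 (Tr.S 0 18 (Tr.S 3 31 (Tr.S 3 24 (Tr.S 3 20 (Tr.L 5804) (Tr.S 3 22
  (Tr.L 5804) (Tr.S 1 22 (Tr.S 3 16 (Tr.L 181448) (Tr.L 181448)) (Tr.L 18061)))) (Tr.L 165516))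
  (Tr.S 3 25 (Tr.S 3 30 (Tr.S 3 22 (Tr.L 34469) (Tr.S 1 22 (Tr.S 3 23 (Tr.L 181448) (Tr.L
  165516)) (Tr.L 50856))) (Tr.L 165516)) (Tr.L 50856))) (Tr.S 3 16 (Tr.S 3 30 (Tr.L 41308) (Tr.S
  3 18 (Tr.S 1 20 (Tr.S 3 32 (Tr.S 0 22 (Tr.L 51864) (Tr.L 50856)) (Tr.L 83784)) (Tr.L 181448))
  (Tr.S 0 30 (Tr.S 3 24 (Tr.S 3 31 (Tr.S 1 32 (Tr.L 172236) (Tr.L 83784)) (Tr.L 169632)) (Tr.L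
  165516)) (Tr.L 18061)))) (Tr.S 3 30 (Tr.L 41245) (Tr.S 3 25 (Tr.S 0 30 (Tr.S 3 18 (Tr.S 1 20
  (Tr.S 0 23 (Tr.L 173832) (Tr.L 173832)) (Tr.L 181448)) (Tr.L 165516)) (Tr.S 0 24 (Tr.S 3 18
  (Tr.S 1 20 (Tr.S 0 23 (Tr.L 173832) (Tr.L 173832)) (Tr.L 181448)) (Tr.L 18061)) (Tr.L
  165516))) (Tr.S 3 32 (Tr.L 50856) (Tr.S 1 33 (Tr.L 71464) (Tr.S 3 34 (Tr.L 169632) (Tr.S 3 31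
  (Tr.S 1 32 (Tr.S 3 20 (Tr.S 0 30 (Tr.L 172236) (Tr.L 18061)) (Tr.L 181448)) (Tr.S 3 18 (Tr.L
  173832) (Tr.L 173832))) (Tr.S 3 18 (Tr.L 42792) (Tr.L 42792)))))))))) (Tr.S 3 30 (Tr.L 50856)
  (Tr.S 3 32 (Tr.L 50856) (Tr.S 1 32 (Tr.S 3 25 (Tr.L 180888) (Tr.S 3 17 (Tr.S 3 20 (Tr.S 0 18
  (Tr.L 180888) (Tr.L 180888)) (Tr.L 181448)) (Tr.L 180888))) (Tr.L 82664))))))))))) (Tr.S 3 10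
  (Tr.S 0 30 (Tr.S 2 19 (Tr.S 3 25 (Tr.S 1 27 (Tr.L 34476) (Tr.S 1 34 (Tr.L 50856) (Tr.S 3 20
  (Tr.L 49323) (Tr.S 1 20 (Tr.S 3 18 (Tr.L 42792) (Tr.L 165516)) (Tr.L 34091))))) (Tr.S 3 32
  (Tr.L 50856) (Tr.S 3 31 (Tr.S 1 32 (Tr.S 2 34 (Tr.S 3 20 (Tr.L 173832) (Tr.L 181448)) (Tr.L
  136872)) (Tr.S 3 24 (Tr.L 69868) (Tr.S 3 18 (Tr.S 1 20 (Tr.L 71464) (Tr.L 181448)) (Tr.L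
  165516)))) (Tr.S 1 32 (Tr.S 2 34 (Tr.L 50856) (Tr.L 136872)) (Tr.L 50856))))) (Tr.S 3 19 (Tr.S
  2 25 (Tr.S 3 26 (Tr.L 34476) (Tr.S 1 26 (Tr.S 3 24 (Tr.S 0 29 (Tr.L 181448) (Tr.L 181448))
  (Tr.L 180363)) (Tr.L 41196))) (Tr.S 3 29 (Tr.L 180363) (Tr.S 1 22 (Tr.L 180363) (Tr.S 2 31
  (Tr.S 1 34 (Tr.S 3 32 (Tr.S 1 20 (Tr.L 173832) (Tr.L 181448)) (Tr.L 69868)) (Tr.L 136872))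
  (Tr.S 1 32 (Tr.L 169240) (Tr.L 50856)))))) (Tr.S 1 32 (Tr.S 2 31 (Tr.L 180888) (Tr.S 3 25
  (Tr.L 180888) (Tr.S 3 31 (Tr.S 2 33 (Tr.S 3 20 (Tr.L 173832) (Tr.L 181448)) (Tr.L 115368))
  (Tr.L 180888)))) (Tr.S 3 26 (Tr.L 66347) (Tr.S 3 32 (Tr.S 2 31 (Tr.S 1 34 (Tr.L 115368) (Tr.L
  180888)) (Tr.L 180888)) (Tr.S 1 26 (Tr.S 3 20 (Tr.S 3 24 (Tr.S 2 25 (Tr.L 82664) (Tr.L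
  180888)) (Tr.L 180363)) (Tr.L 181448)) (Tr.L 173832))))))) (Tr.S 3 31 (Tr.S 2 25 (Tr.S 1 26
  (Tr.S 3 20 (Tr.S 0 18 (Tr.S 2 22 (Tr.L 17067) (Tr.L 17067)) (Tr.L 180363)) (Tr.L 181448))
  (Tr.S 3 24 (Tr.L 8940) (Tr.S 0 24 (Tr.S 3 18 (Tr.S 3 26 (Tr.S 1 20 (Tr.L 17067) (Tr.L 17067))
  (Tr.L 8940)) (Tr.L 180363)) (Tr.L 165516)))) (Tr.S 2 19 (Tr.S 1 20 (Tr.S 3 26 (Tr.S 0 24 (Tr.S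
  3 18 (Tr.L 71464) (Tr.L 168092)) (Tr.L 165516)) (Tr.L 173832)) (Tr.S 3 26 (Tr.L 5419) (Tr.S 3
  18 (Tr.L 5419) (Tr.S 0 18 (Tr.S 3 24 (Tr.S 3 20 (Tr.S 1 26 (Tr.L 5804) (Tr.L 5804)) (Tr.L
  5419)) (Tr.L 165516)) (Tr.L 180363))))) (Tr.S 1 32 (Tr.S 3 17 (Tr.L 180888) (Tr.L 180888))
  (Tr.L 82664)))) (Tr.S 3 32 (Tr.S 2 25 (Tr.S 3 19 (Tr.S 0 22 (Tr.L 180363) (Tr.S 0 23 (Tr.L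
  49323) (Tr.S 0 24 (Tr.L 180363) (Tr.S 3 24 (Tr.S 1 27 (Tr.L 50856) (Tr.S 0 27 (Tr.L 50856)
  (Tr.L 50856))) (Tr.L 34476))))) (Tr.L 50856)) (Tr.S 1 26 (Tr.S 3 24 (Tr.L 5419) (Tr.S 0 24
  (Tr.S 3 18 (Tr.S 3 25 (Tr.S 2 29 (Tr.L 177416) (Tr.L 181448)) (Tr.L 5419)) (Tr.L 180363))
  (Tr.L 165516))) (Tr.S 1 20 (Tr.S 3 25 (Tr.S 0 24 (Tr.S 3 18 (Tr.S 2 19 (Tr.L 42792) (Tr.L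
  9003)) (Tr.L 172236)) (Tr.L 165516)) (Tr.S 2 31 (Tr.S 3 19 (Tr.S 0 33 (Tr.L 5804) (Tr.L 5804))
  (Tr.L 17067)) (Tr.L 50856))) (Tr.L 173832)))) (Tr.S 1 32 (Tr.S 3 18 (Tr.S 0 24 (Tr.S 3 26
  (Tr.S 2 25 (Tr.L 180888) (Tr.L 5419)) (Tr.L 181448)) (Tr.L 165516)) (Tr.S 2 31 (Tr.S 3 20
  (Tr.S 3 30 (Tr.S 0 33 (Tr.L 180888) (Tr.L 173832)) (Tr.L 8940)) (Tr.S 3 26 (Tr.S 0 34 (Tr.S 1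
  22 (Tr.S 3 30 (Tr.S 0 18 (Tr.L 181448) (Tr.L 181448)) (Tr.L 5419)) (Tr.L 181448)) (Tr.L
  181448)) (Tr.L 181448))) (Tr.S 3 5 (Tr.S 3 30 (Tr.S 0 24 (Tr.S 3 20 (Tr.L 41308) (Tr.S 3 26
  (Tr.S 2 25 (Tr.L 49323) (Tr.L 50856)) (Tr.L 181448))) (Tr.S 0 18 (Tr.S 3 19 (Tr.L 34091) (Tr.S
  2 19 (Tr.S 1 22 (Tr.L 165516) (Tr.L 50856)) (Tr.L 180888))) (Tr.L 180363))) (Tr.S 0 18 (Tr.S 3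
  24 (Tr.S 3 20 (Tr.S 2 19 (Tr.L 50856) (Tr.L 180888)) (Tr.L 173832)) (Tr.L 165516)) (Tr.S 3 26
  (Tr.L 180363) (Tr.L 172299)))) (Tr.S 3 30 (Tr.S 0 24 (Tr.S 3 20 (Tr.L 41196) (Tr.S 3 26 (Tr.S
  2 25 (Tr.L 49323) (Tr.L 50856)) (Tr.L 181448))) (Tr.S 3 26 (Tr.L 34091) (Tr.S 3 20 (Tr.S 2 33
  (Tr.L 173832) (Tr.L 42792)) (Tr.L 173832)))) (Tr.S 0 18 (Tr.S 3 24 (Tr.S 3 20 (Tr.S 2 19 (Tr.L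
  50856) (Tr.L 180888)) (Tr.L 173832)) (Tr.L 165516)) (Tr.L 18061)))))) (Tr.S 0 24 (Tr.S 2 25
  (Tr.S 3 19 (Tr.S 1 20 (Tr.S 3 26 (Tr.L 49323) (Tr.L 42792)) (Tr.L 181448)) (Tr.L 180888))
  (Tr.S 3 19 (Tr.L 69868) (Tr.S 2 19 (Tr.S 3 25 (Tr.S 1 26 (Tr.S 2 29 (Tr.L 50856) (Tr.L 87816))
  (Tr.L 173832)) (Tr.L 50856)) (Tr.S 2 31 (Tr.S 3 25 (Tr.S 1 26 (Tr.S 3 20 (Tr.S 2 29 (Tr.L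
  180888) (Tr.L 180888)) (Tr.L 181448)) (Tr.L 173832)) (Tr.L 71464)) (Tr.L 180888))))) (Tr.S 3
  26 (Tr.S 1 20 (Tr.S 2 19 (Tr.L 50856) (Tr.S 3 30 (Tr.S 0 18 (Tr.S 2 22 (Tr.S 3 23 (Tr.L 83784)
  (Tr.L 165516)) (Tr.L 166027)) (Tr.L 180363)) (Tr.L 165516))) (Tr.L 165131)) (Tr.S 1 26 (Tr.S 3
  19 (Tr.L 181448) (Tr.S 3 18 (Tr.L 181448) (Tr.S 3 23 (Tr.L 83784) (Tr.S 2 25 (Tr.L 180888)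
  (Tr.S 3 20 (Tr.S 2 31 (Tr.S 3 25 (Tr.L 66347) (Tr.L 180888)) (Tr.S 2 19 (Tr.S 3 25 (Tr.S 0 18
  (Tr.L 34476) (Tr.L 180363)) (Tr.L 50856)) (Tr.L 180888))) (Tr.S 3 24 (Tr.L 169240) (Tr.L
  165131))))))) (Tr.L 173832)))))))) (Tr.S 3 5 (Tr.S 0 18 (Tr.S 3 25 (Tr.S 3 33 (Tr.L 165516)
  (Tr.S 1 26 (Tr.S 3 32 (Tr.S 3 9 (Tr.L 165516) (Tr.L 165516)) (Tr.S 3 20 (Tr.S 2 19 (Tr.L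
  34476) (Tr.L 66284)) (Tr.L 83784))) (Tr.S 2 22 (Tr.L 164515) (Tr.S 3 9 (Tr.S 3 30 (Tr.S 1 20
  (Tr.L 83784) (Tr.S 3 22 (Tr.L 173832) (Tr.S 1 22 (Tr.S 2 19 (Tr.L 165516) (Tr.S 3 20 (Tr.S 2
  23 (Tr.L 165516) (Tr.L 165516)) (Tr.L 181448))) (Tr.L 174280)))) (Tr.L 165516)) (Tr.S 3 30
  (Tr.S 1 32 (Tr.S 3 22 (Tr.L 173832) (Tr.S 1 22 (Tr.S 2 23 (Tr.S 3 20 (Tr.L 180888) (Tr.L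
  181448)) (Tr.L 165516)) (Tr.L 174280))) (Tr.L 83784)) (Tr.L 165516)))))) (Tr.S 2 25 (Tr.S 3 31
  (Tr.S 3 26 (Tr.L 165516) (Tr.S 1 26 (Tr.S 3 24 (Tr.L 82664) (Tr.L 164515)) (Tr.L 9059))) (Tr.S
  3 20 (Tr.L 50856) (Tr.S 3 22 (Tr.L 50856) (Tr.S 1 20 (Tr.S 3 32 (Tr.S 2 22 (Tr.L 19083) (Tr.L
  50856)) (Tr.S 2 22 (Tr.L 84680) (Tr.L 83784))) (Tr.S 3 30 (Tr.L 34147) (Tr.S 3 24 (Tr.S 1 26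
  (Tr.S 1 22 (Tr.L 181448) (Tr.L 181448)) (Tr.L 181448)) (Tr.L 17739))))))) (Tr.S 3 24 (Tr.S 1
  26 (Tr.S 3 32 (Tr.L 5356) (Tr.S 3 20 (Tr.S 2 19 (Tr.L 5804) (Tr.L 169632)) (Tr.L 83784)))
  (Tr.S 2 19 (Tr.S 1 23 (Tr.S 3 20 (Tr.L 169632) (Tr.L 181448)) (Tr.L 169632)) (Tr.S 3 19 (Tr.S
  1 20 (Tr.S 2 22 (Tr.L 169632) (Tr.L 174280)) (Tr.L 181448)) (Tr.L 169632)))) (Tr.S 3 30 (Tr.S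
  2 31 (Tr.S 3 19 (Tr.S 1 33 (Tr.L 169632) (Tr.S 2 23 (Tr.L 169632) (Tr.L 169632))) (Tr.L
  169632)) (Tr.L 169632)) (Tr.L 165516))))) (Tr.S 3 19 (Tr.S 2 25 (Tr.S 1 26 (Tr.S 0 29 (Tr.S 3
  24 (Tr.L 181448) (Tr.L 180363)) (Tr.L 181448)) (Tr.S 3 32 (Tr.L 41315) (Tr.S 1 32 (Tr.S 3 26
  (Tr.S 0 24 (Tr.L 49323) (Tr.L 180363)) (Tr.L 181448)) (Tr.S 1 20 (Tr.S 3 26 (Tr.S 0 22 (Tr.L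
  83784) (Tr.L 82251)) (Tr.L 83784)) (Tr.L 181448))))) (Tr.S 2 31 (Tr.S 1 20 (Tr.S 3 26 (Tr.L
  69868) (Tr.S 3 32 (Tr.S 0 30 (Tr.L 168099) (Tr.L 180363)) (Tr.L 172236))) (Tr.S 0 30 (Tr.S 3
  24 (Tr.S 1 26 (Tr.S 2 29 (Tr.L 181448) (Tr.L 169184)) (Tr.L 181448)) (Tr.L 180363)) (Tr.S 3 30
  (Tr.S 1 32 (Tr.S 0 34 (Tr.L 181448) (Tr.L 181448)) (Tr.L 181448)) (Tr.L 180363)))) (Tr.S 0 24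
  (Tr.L 50856) (Tr.L 169632)))) (Tr.S 3 20 (Tr.S 2 25 (Tr.S 1 27 (Tr.L 172768) (Tr.S 3 30 (Tr.L
  50856) (Tr.S 3 33 (Tr.L 180888) (Tr.S 3 34 (Tr.L 49323) (Tr.S 3 31 (Tr.S 1 26 (Tr.S 2 22 (Tr.L
  82251) (Tr.S 1 22 (Tr.S 3 9 (Tr.S 0 27 (Tr.L 86752) (Tr.L 83784)) (Tr.L 180888)) (Tr.L
  82664))) (Tr.S 1 32 (Tr.S 0 30 (Tr.L 172236) (Tr.L 180363)) (Tr.L 83784))) (Tr.S 1 32 (Tr.L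
  172768) (Tr.L 50856))))))) (Tr.S 2 19 (Tr.S 1 32 (Tr.S 3 30 (Tr.L 41315) (Tr.S 3 31 (Tr.S 0 30
  (Tr.L 172236) (Tr.L 180363)) (Tr.L 41315))) (Tr.S 3 31 (Tr.L 69868) (Tr.S 1 26 (Tr.S 3 25
  (Tr.S 0 24 (Tr.L 82251) (Tr.L 180363)) (Tr.L 50856)) (Tr.L 83784)))) (Tr.S 3 27 (Tr.L 180888)
  (Tr.S 1 26 (Tr.S 3 25 (Tr.S 0 24 (Tr.L 82251) (Tr.L 180363)) (Tr.L 82664)) (Tr.S 1 32 (Tr.S 3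
  25 (Tr.S 0 24 (Tr.S 1 29 (Tr.L 180363) (Tr.L 172236)) (Tr.L 180363)) (Tr.L 172768)) (Tr.L
  172768)))))) (Tr.S 1 20 (Tr.S 2 25 (Tr.S 3 32 (Tr.L 50856) (Tr.S 3 31 (Tr.S 3 26 (Tr.S 0 24
  (Tr.L 17067) (Tr.L 66403)) (Tr.L 83784)) (Tr.L 50856))) (Tr.S 3 26 (Tr.S 2 19 (Tr.S 3 31 (Tr.S
  0 23 (Tr.S 3 22 (Tr.L 83784) (Tr.L 83784)) (Tr.L 84680)) (Tr.L 169632)) (Tr.L 82664)) (Tr.S 3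
  30 (Tr.L 83784) (Tr.S 3 31 (Tr.L 83784) (Tr.S 3 34 (Tr.L 173832) (Tr.S 3 32 (Tr.S 0 30 (Tr.S 3
  24 (Tr.S 2 31 (Tr.L 169632) (Tr.L 169632)) (Tr.S 3 18 (Tr.S 2 19 (Tr.L 42848) (Tr.S 2 31 (Tr.L
  164515) (Tr.L 50856))) (Tr.L 165516))) (Tr.S 3 18 (Tr.S 2 19 (Tr.L 42848) (Tr.L 9059)) (Tr.L
  172236))) (Tr.S 2 31 (Tr.L 82664) (Tr.L 83784)))))))) (Tr.S 0 30 (Tr.S 2 31 (Tr.S 3 25 (Tr.S 3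
  18 (Tr.S 1 26 (Tr.S 3 32 (Tr.L 164515) (Tr.L 181448)) (Tr.L 172768)) (Tr.L 180363)) (Tr.L
  169632)) (Tr.S 3 25 (Tr.L 34147) (Tr.S 2 19 (Tr.S 3 31 (Tr.S 1 32 (Tr.S 2 34 (Tr.L 181448)
  (Tr.L 181448)) (Tr.L 181448)) (Tr.L 169632)) (Tr.S 3 32 (Tr.L 50856) (Tr.S 1 32 (Tr.S 3 26
  (Tr.S 3 31 (Tr.L 165068) (Tr.L 164515)) (Tr.L 181448)) (Tr.L 181448)))))) (Tr.S 3 24 (Tr.L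
  180363) (Tr.S 2 19 (Tr.S 3 31 (Tr.L 5475) (Tr.S 3 25 (Tr.S 1 26 (Tr.S 3 32 (Tr.S 0 24 (Tr.L
  17739) (Tr.L 17739)) (Tr.L 181448)) (Tr.L 42848)) (Tr.L 50856))) (Tr.S 3 18 (Tr.S 0 24 (Tr.S 1
  26 (Tr.S 2 29 (Tr.S 3 25 (Tr.L 181448) (Tr.L 169632)) (Tr.L 181448)) (Tr.S 3 26 (Tr.S 1 32
  (Tr.S 2 25 (Tr.S 1 27 (Tr.L 181448) (Tr.L 176800)) (Tr.L 169632)) (Tr.L 181448)) (Tr.L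
  181448))) (Tr.L 17739)) (Tr.S 3 30 (Tr.S 1 32 (Tr.S 0 24 (Tr.S 3 26 (Tr.S 2 25 (Tr.L 50856)
  (Tr.L 169632)) (Tr.L 181448)) (Tr.L 180363)) (Tr.L 181448)) (Tr.L 180363)))))))))) (Tr.S 0 30
  (Tr.S 3 11 (Tr.S 3 25 (Tr.S 3 20 (Tr.L 180363) (Tr.S 1 32 (Tr.L 181448) (Tr.S 3 18 (Tr.S 1 26
  (Tr.S 2 31 (Tr.S 3 32 (Tr.L 164515) (Tr.L 181448)) (Tr.L 34147)) (Tr.S 1 23 (Tr.L 181448)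
  (Tr.S 2 22 (Tr.L 172768) (Tr.S 3 34 (Tr.L 173832) (Tr.S 1 20 (Tr.S 0 22 (Tr.S 2 23 (Tr.L
  180888) (Tr.S 3 16 (Tr.L 165516) (Tr.L 173832))) (Tr.L 174280)) (Tr.S 2 19 (Tr.L 181448) (Tr.L
  181448))))))) (Tr.S 2 19 (Tr.S 1 20 (Tr.L 49309) (Tr.L 180363)) (Tr.L 180363))))) (Tr.S 3 26
  (Tr.S 3 19 (Tr.L 180363) (Tr.S 2 31 (Tr.L 180888) (Tr.S 3 22 (Tr.L 165516) (Tr.S 3 18 (Tr.S 1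
  32 (Tr.S 3 31 (Tr.S 2 34 (Tr.L 116040) (Tr.L 181448)) (Tr.L 34147)) (Tr.S 1 20 (Tr.S 2 19
  (Tr.L 71520) (Tr.L 66403)) (Tr.L 181448))) (Tr.S 2 19 (Tr.L 168099) (Tr.L 180363)))))) (Tr.S 1
  26 (Tr.S 3 20 (Tr.S 3 24 (Tr.S 0 27 (Tr.L 82125) (Tr.S 2 25 (Tr.L 83784) (Tr.L 69861))) (Tr.L
  180363)) (Tr.S 2 31 (Tr.S 3 32 (Tr.S 3 19 (Tr.L 168099) (Tr.L 169632)) (Tr.L 71520)) (Tr.S 3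
  32 (Tr.S 2 25 (Tr.S 0 29 (Tr.S 3 24 (Tr.L 181448) (Tr.L 34147)) (Tr.L 54944)) (Tr.L 169632))
  (Tr.L 83784)))) (Tr.S 2 31 (Tr.S 3 19 (Tr.S 1 20 (Tr.S 3 32 (Tr.L 168099) (Tr.L 71520)) (Tr.L
  181448)) (Tr.L 180888)) (Tr.S 3 19 (Tr.L 41189) (Tr.S 2 19 (Tr.S 3 31 (Tr.S 1 32 (Tr.S 2 34
  (Tr.L 169632) (Tr.L 141128)) (Tr.L 83784)) (Tr.L 169632)) (Tr.S 2 25 (Tr.S 3 31 (Tr.S 1 32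
  (Tr.S 3 20 (Tr.S 0 29 (Tr.L 172768) (Tr.L 180363)) (Tr.L 181448)) (Tr.L 83784)) (Tr.L 42848))
  (Tr.L 180888)))))))) (Tr.S 2 19 (Tr.S 3 31 (Tr.S 3 24 (Tr.S 1 20 (Tr.L 82125) (Tr.S 1 34 (Tr.L
  69861) (Tr.S 2 34 (Tr.S 1 32 (Tr.L 169632) (Tr.L 168099)) (Tr.L 136872)))) (Tr.S 3 23 (Tr.L
  168099) (Tr.S 1 32 (Tr.S 2 34 (Tr.L 169632) (Tr.L 136872)) (Tr.S 3 18 (Tr.S 1 23 (Tr.L 169632)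
  (Tr.S 0 23 (Tr.L 169632) (Tr.L 169632))) (Tr.L 168099))))) (Tr.S 3 24 (Tr.L 169632) (Tr.S 3 26
  (Tr.L 169632) (Tr.S 3 27 (Tr.L 169632) (Tr.S 3 29 (Tr.L 169632) (Tr.S 1 27 (Tr.L 34469) (Tr.S
  1 26 (Tr.S 3 25 (Tr.S 3 20 (Tr.L 180363) (Tr.S 3 17 (Tr.L 34091) (Tr.L 34147))) (Tr.L 169632))
  (Tr.S 3 25 (Tr.S 3 18 (Tr.S 0 22 (Tr.L 34469) (Tr.S 1 22 (Tr.S 3 16 (Tr.L 181448) (Tr.L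
  181448)) (Tr.L 174280))) (Tr.L 34469)) (Tr.L 169632))))))))) (Tr.S 3 25 (Tr.S 3 23 (Tr.L
  180363) (Tr.S 1 26 (Tr.S 3 32 (Tr.S 3 22 (Tr.L 180363) (Tr.S 2 33 (Tr.L 50408) (Tr.S 1 33
  (Tr.S 2 31 (Tr.L 181448) (Tr.L 50856)) (Tr.L 115368)))) (Tr.L 66277)) (Tr.S 2 31 (Tr.S 1 23
  (Tr.L 164515) (Tr.S 3 20 (Tr.L 164515) (Tr.S 1 20 (Tr.S 3 32 (Tr.L 164515) (Tr.L 172768))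
  (Tr.L 172768)))) (Tr.L 172768)))) (Tr.S 2 25 (Tr.S 3 18 (Tr.S 3 32 (Tr.L 50856) (Tr.S 1 32
  (Tr.S 3 26 (Tr.S 3 31 (Tr.S 2 33 (Tr.L 181448) (Tr.L 115368)) (Tr.L 34469)) (Tr.L 172768))
  (Tr.L 66277))) (Tr.S 3 16 (Tr.S 3 24 (Tr.S 1 26 (Tr.S 0 27 (Tr.S 3 20 (Tr.L 83784) (Tr.L
  181448)) (Tr.L 176268)) (Tr.S 3 19 (Tr.L 41196) (Tr.S 3 31 (Tr.S 1 32 (Tr.L 172236) (Tr.L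
  83784)) (Tr.L 172768)))) (Tr.L 180363)) (Tr.S 3 29 (Tr.L 180363) (Tr.S 3 19 (Tr.S 3 26 (Tr.L
  34469) (Tr.S 1 26 (Tr.S 0 29 (Tr.S 3 24 (Tr.L 181448) (Tr.L 180363)) (Tr.L 181448)) (Tr.L
  41189))) (Tr.S 3 32 (Tr.L 50856) (Tr.S 3 33 (Tr.L 180888) (Tr.S 3 34 (Tr.L 49323) (Tr.S 3 31
  (Tr.S 1 34 (Tr.L 180363) (Tr.S 1 20 (Tr.L 82125) (Tr.S 3 26 (Tr.L 180363) (Tr.S 1 32 (Tr.L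
  172299) (Tr.L 82125))))) (Tr.S 3 9 (Tr.S 1 32 (Tr.S 2 33 (Tr.L 50856) (Tr.L 115368)) (Tr.L
  50856)) (Tr.L 180888)))))))))) (Tr.S 3 23 (Tr.L 169632) (Tr.S 3 24 (Tr.S 1 26 (Tr.S 3 20 (Tr.L
  169632) (Tr.S 3 32 (Tr.S 2 31 (Tr.L 168099) (Tr.L 169632)) (Tr.L 82125))) (Tr.S 3 19 (Tr.S 2
  31 (Tr.S 1 23 (Tr.L 168099) (Tr.S 2 23 (Tr.S 0 22 (Tr.L 180363) (Tr.L 180363)) (Tr.S 3 33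
  (Tr.L 169632) (Tr.L 169632)))) (Tr.L 169632)) (Tr.L 169632))) (Tr.S 1 32 (Tr.S 3 19 (Tr.L
  168099) (Tr.S 3 17 (Tr.L 169632) (Tr.L 169632))) (Tr.S 3 19 (Tr.S 3 17 (Tr.L 180363) (Tr.L
  180363)) (Tr.S 3 32 (Tr.L 169632) (Tr.L 169632)))))))))) (Tr.S 3 4 (Tr.S 2 19 (Tr.S 3 31 (Tr.S
  3 11 (Tr.S 0 29 (Tr.L 169632) (Tr.S 1 29 (Tr.L 169632) (Tr.S 1 20 (Tr.S 0 22 (Tr.L 169632)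
  (Tr.L 83784)) (Tr.S 3 18 (Tr.L 5475) (Tr.S 0 18 (Tr.S 1 23 (Tr.L 18061) (Tr.L 169632)) (Tr.L
  180363)))))) (Tr.S 1 20 (Tr.S 3 26 (Tr.S 3 18 (Tr.L 71464) (Tr.S 0 18 (Tr.L 166027) (Tr.L
  18061))) (Tr.L 173832)) (Tr.S 3 26 (Tr.L 5419) (Tr.S 3 18 (Tr.L 5419) (Tr.S 0 18 (Tr.S 3 20
  (Tr.S 1 22 (Tr.L 19083) (Tr.L 18061)) (Tr.L 5419)) (Tr.L 180363)))))) (Tr.S 3 29 (Tr.L 50856)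
  (Tr.S 0 18 (Tr.S 3 24 (Tr.L 5797) (Tr.S 3 30 (Tr.S 3 25 (Tr.S 1 20 (Tr.L 173832) (Tr.S 3 23
  (Tr.L 34147) (Tr.S 1 27 (Tr.L 34469) (Tr.S 1 29 (Tr.L 43744) (Tr.S 1 33 (Tr.L 34469) (Tr.S 1
  34 (Tr.L 166027) (Tr.S 3 11 (Tr.S 1 23 (Tr.L 166027) (Tr.L 51864)) (Tr.S 2 27 (Tr.L 50856)
  (Tr.L 50856))))))))) (Tr.L 34469)) (Tr.L 18061))) (Tr.S 3 24 (Tr.L 18061) (Tr.S 3 18 (Tr.S 0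
  24 (Tr.S 3 27 (Tr.L 5797) (Tr.S 2 33 (Tr.L 18061) (Tr.S 1 33 (Tr.L 18061) (Tr.S 0 22 (Tr.S 1
  23 (Tr.L 181448) (Tr.L 19083)) (Tr.S 1 22 (Tr.S 1 27 (Tr.L 181448) (Tr.L 18061)) (Tr.L
  18061)))))) (Tr.L 18061)) (Tr.S 3 30 (Tr.S 3 27 (Tr.L 49309) (Tr.S 1 20 (Tr.S 3 26 (Tr.L
  69861) (Tr.L 173832)) (Tr.S 3 20 (Tr.S 1 26 (Tr.S 0 24 (Tr.S 0 22 (Tr.L 180363) (Tr.L 180363))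
  (Tr.L 180363)) (Tr.L 41189)) (Tr.S 0 24 (Tr.S 1 32 (Tr.S 3 26 (Tr.S 3 11 (Tr.L 169632) (Tr.L
  169632)) (Tr.L 181448)) (Tr.L 181448)) (Tr.L 180363))))) (Tr.L 18061))))))) (Tr.S 3 31 (Tr.S 3
  11 (Tr.S 2 25 (Tr.S 1 32 (Tr.S 3 20 (Tr.L 9059) (Tr.S 3 26 (Tr.S 0 24 (Tr.L 17053) (Tr.L
  18061)) (Tr.L 181448))) (Tr.S 3 26 (Tr.S 1 20 (Tr.S 2 22 (Tr.S 1 27 (Tr.L 83784) (Tr.L 83784))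
  (Tr.L 82776)) (Tr.L 83784)) (Tr.S 1 26 (Tr.S 3 20 (Tr.S 0 29 (Tr.S 3 24 (Tr.L 83784) (Tr.L
  18061)) (Tr.L 180888)) (Tr.L 181448)) (Tr.L 83784)))) (Tr.S 0 18 (Tr.L 169632) (Tr.L 180888)))
  (Tr.S 1 32 (Tr.S 3 24 (Tr.L 8933) (Tr.S 3 26 (Tr.S 0 24 (Tr.S 2 25 (Tr.L 17067) (Tr.L 17067))
  (Tr.L 18061)) (Tr.L 8933))) (Tr.S 2 25 (Tr.S 3 26 (Tr.S 0 24 (Tr.L 17067) (Tr.L 18061)) (Tr.S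
  1 26 (Tr.S 3 20 (Tr.S 0 18 (Tr.S 2 22 (Tr.L 18061) (Tr.L 17067)) (Tr.L 180363)) (Tr.L 181448))
  (Tr.L 82664))) (Tr.L 82664)))) (Tr.S 2 31 (Tr.S 3 33 (Tr.S 1 32 (Tr.S 3 26 (Tr.L 169240) (Tr.S
  3 20 (Tr.L 172768) (Tr.L 181448))) (Tr.S 3 25 (Tr.S 1 26 (Tr.S 3 20 (Tr.S 0 18 (Tr.L 18061)
  (Tr.L 180363)) (Tr.L 181448)) (Tr.L 173832)) (Tr.S 3 19 (Tr.S 0 18 (Tr.S 1 20 (Tr.S 3 26 (Tr.L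
  18061) (Tr.L 173832)) (Tr.L 169240)) (Tr.L 180363)) (Tr.L 17053)))) (Tr.S 3 20 (Tr.S 3 27
  (Tr.L 180888) (Tr.S 1 32 (Tr.S 3 30 (Tr.L 172768) (Tr.L 8933)) (Tr.S 1 26 (Tr.S 3 29 (Tr.L
  82664) (Tr.S 3 24 (Tr.S 3 9 (Tr.L 169632) (Tr.L 180888)) (Tr.S 0 24 (Tr.S 2 29 (Tr.L 176800)
  (Tr.L 180363)) (Tr.L 66277)))) (Tr.L 173832)))) (Tr.S 3 18 (Tr.S 3 27 (Tr.L 180888) (Tr.S 3 29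
  (Tr.L 17067) (Tr.S 1 32 (Tr.S 3 26 (Tr.S 3 9 (Tr.L 169632) (Tr.L 180888)) (Tr.L 173832)) (Tr.S
  0 24 (Tr.S 1 33 (Tr.L 18061) (Tr.S 0 33 (Tr.S 1 27 (Tr.S 3 26 (Tr.L 18061) (Tr.L 8933)) (Tr.L
  18061)) (Tr.L 18061))) (Tr.L 18061))))) (Tr.S 0 22 (Tr.S 3 24 (Tr.L 5797) (Tr.S 3 32 (Tr.L
  18061) (Tr.S 3 30 (Tr.S 1 26 (Tr.L 82125) (Tr.S 1 33 (Tr.L 82125) (Tr.S 0 27 (Tr.L 114829)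
  (Tr.S 3 9 (Tr.S 0 33 (Tr.S 3 25 (Tr.S 1 20 (Tr.L 173832) (Tr.L 181448)) (Tr.L 169632)) (Tr.L
  114829)) (Tr.S 3 19 (Tr.S 2 23 (Tr.L 169632) (Tr.L 169632)) (Tr.L 180888)))))) (Tr.L
  180363)))) (Tr.S 0 23 (Tr.S 3 24 (Tr.L 5797) (Tr.S 3 32 (Tr.L 18061) (Tr.S 3 30 (Tr.S 1 20
  (Tr.L 82125) (Tr.S 1 32 (Tr.S 0 33 (Tr.S 3 9 (Tr.L 181448) (Tr.L 181448)) (Tr.L 114829)) (Tr.L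
  82125))) (Tr.L 180363)))) (Tr.S 0 24 (Tr.S 3 32 (Tr.L 18061) (Tr.S 3 30 (Tr.S 1 20 (Tr.L
  82125) (Tr.S 1 32 (Tr.S 0 33 (Tr.S 3 9 (Tr.L 181448) (Tr.L 181448)) (Tr.L 114829)) (Tr.L
  82125))) (Tr.L 180363))) (Tr.S 3 25 (Tr.S 1 32 (Tr.L 173832) (Tr.S 3 30 (Tr.L 66277) (Tr.L
  18061))) (Tr.S 3 11 (Tr.S 3 19 (Tr.S 1 27 (Tr.L 169632) (Tr.S 0 27 (Tr.L 169632) (Tr.S 1 33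
  (Tr.S 3 30 (Tr.L 169632) (Tr.L 5797)) (Tr.S 2 23 (Tr.S 0 29 (Tr.S 0 33 (Tr.S 1 22 (Tr.L
  136536) (Tr.L 170136)) (Tr.L 169632)) (Tr.L 169632)) (Tr.L 169632))))) (Tr.L 169632)) (Tr.S 3
  23 (Tr.L 169632) (Tr.S 1 20 (Tr.S 3 26 (Tr.S 2 23 (Tr.L 166027) (Tr.L 169632)) (Tr.S 2 23
  (Tr.L 174280) (Tr.L 173832))) (Tr.S 3 24 (Tr.L 5419) (Tr.S 0 18 (Tr.S 3 30 (Tr.S 1 32 (Tr.S 1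
  22 (Tr.L 181448) (Tr.L 181448)) (Tr.L 181448)) (Tr.L 165131)) (Tr.L 180363))))))))))))) (Tr.S
  0 18 (Tr.S 3 19 (Tr.S 1 20 (Tr.S 3 32 (Tr.L 9997) (Tr.S 3 26 (Tr.S 2 23 (Tr.L 166027) (Tr.L
  84680)) (Tr.L 173832))) (Tr.S 3 27 (Tr.L 34077) (Tr.S 3 29 (Tr.L 34147) (Tr.S 3 30 (Tr.S 2 22
  (Tr.L 34469) (Tr.L 34021)) (Tr.S 3 24 (Tr.S 1 26 (Tr.S 2 29 (Tr.L 181448) (Tr.S 1 22 (Tr.L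
  181448) (Tr.L 181448))) (Tr.L 181448)) (Tr.L 18061)))))) (Tr.S 3 26 (Tr.L 34469) (Tr.S 1 26
  (Tr.S 3 27 (Tr.L 180888) (Tr.S 3 29 (Tr.L 50856) (Tr.S 3 30 (Tr.L 34469) (Tr.S 3 11 (Tr.S 3 24
  (Tr.L 180888) (Tr.L 180888)) (Tr.L 50856))))) (Tr.L 172768)))) (Tr.S 3 24 (Tr.L 180363) (Tr.S
  3 19 (Tr.S 3 30 (Tr.S 0 24 (Tr.S 1 26 (Tr.L 181448) (Tr.S 3 26 (Tr.S 1 23 (Tr.L 180363) (Tr.S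
  1 20 (Tr.S 0 22 (Tr.L 82125) (Tr.L 82125)) (Tr.S 1 32 (Tr.S 2 23 (Tr.L 180363) (Tr.S 1 29
  (Tr.L 181448) (Tr.L 181448))) (Tr.L 181448)))) (Tr.L 41189))) (Tr.L 34469)) (Tr.L 180363))
  (Tr.S 3 27 (Tr.L 180888) (Tr.S 3 29 (Tr.L 50856) (Tr.S 3 9 (Tr.S 0 24 (Tr.S 3 25 (Tr.S 1 26
  (Tr.L 50856) (Tr.L 172768)) (Tr.L 50856)) (Tr.L 50856)) (Tr.S 3 18 (Tr.S 0 24 (Tr.S 3 25 (Tr.S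
  1 26 (Tr.L 180888) (Tr.L 172768)) (Tr.L 180888)) (Tr.L 180888)) (Tr.L 180888))))))))))) (Tr.S
  3 17 (Tr.S 3 31 (Tr.S 2 19 (Tr.S 0 29 (Tr.L 169632) (Tr.S 1 29 (Tr.L 169632) (Tr.S 1 20 (Tr.S
  3 26 (Tr.S 0 23 (Tr.S 3 18 (Tr.L 169632) (Tr.L 180363)) (Tr.L 169632)) (Tr.L 173832)) (Tr.S 3
  18 (Tr.L 5419) (Tr.S 0 18 (Tr.S 3 20 (Tr.L 5804) (Tr.L 5419)) (Tr.L 180363)))))) (Tr.S 2 25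
  (Tr.S 1 26 (Tr.S 3 20 (Tr.S 0 18 (Tr.S 2 22 (Tr.L 18061) (Tr.L 17067)) (Tr.L 180363)) (Tr.L
  181448)) (Tr.S 3 24 (Tr.L 9003) (Tr.S 0 24 (Tr.S 3 26 (Tr.L 17067) (Tr.L 9003)) (Tr.L
  165516)))) (Tr.L 17067))) (Tr.S 2 31 (Tr.S 3 20 (Tr.S 3 24 (Tr.L 169632) (Tr.S 3 27 (Tr.L
  180888) (Tr.S 3 25 (Tr.S 1 26 (Tr.S 0 24 (Tr.L 82125) (Tr.L 66347)) (Tr.S 1 32 (Tr.S 3 30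
  (Tr.L 172768) (Tr.L 8940)) (Tr.L 173832))) (Tr.S 1 26 (Tr.L 82664) (Tr.L 169632))))) (Tr.S 1
  20 (Tr.S 3 26 (Tr.S 3 19 (Tr.S 0 18 (Tr.L 67341) (Tr.L 69868)) (Tr.L 169632)) (Tr.S 3 18 (Tr.L
  9003) (Tr.S 3 33 (Tr.L 173832) (Tr.S 3 32 (Tr.S 0 18 (Tr.S 2 23 (Tr.S 3 22 (Tr.L 173832) (Tr.L
  174280)) (Tr.L 19083)) (Tr.L 180363)) (Tr.S 3 19 (Tr.L 173832) (Tr.L 173832)))))) (Tr.S 3 24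
  (Tr.L 5419) (Tr.S 3 19 (Tr.S 0 24 (Tr.S 3 30 (Tr.S 1 32 (Tr.S 1 29 (Tr.L 169632) (Tr.L
  181448)) (Tr.L 181448)) (Tr.L 180363)) (Tr.S 0 18 (Tr.S 3 30 (Tr.S 1 23 (Tr.L 165131) (Tr.L
  165131)) (Tr.L 165516)) (Tr.L 180363))) (Tr.S 3 26 (Tr.L 169632) (Tr.S 1 26 (Tr.S 3 32 (Tr.S 0
  34 (Tr.L 17067) (Tr.L 17067)) (Tr.L 181448)) (Tr.L 181448))))))) (Tr.S 0 24 (Tr.S 3 9 (Tr.S 1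
  26 (Tr.S 2 29 (Tr.L 50856) (Tr.L 54944)) (Tr.S 3 30 (Tr.S 1 32 (Tr.S 3 20 (Tr.L 41196) (Tr.S 3
  26 (Tr.S 2 25 (Tr.L 49323) (Tr.L 169632)) (Tr.L 181448))) (Tr.S 3 26 (Tr.S 2 25 (Tr.L 49323)
  (Tr.L 169632)) (Tr.L 82125))) (Tr.S 3 18 (Tr.S 2 19 (Tr.S 3 25 (Tr.S 1 27 (Tr.L 18061) (Tr.L
  9997)) (Tr.L 169632)) (Tr.L 50856)) (Tr.L 18061)))) (Tr.S 1 26 (Tr.S 2 29 (Tr.S 3 25 (Tr.L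
  50856) (Tr.L 169632)) (Tr.L 54944)) (Tr.S 3 30 (Tr.S 1 32 (Tr.S 3 20 (Tr.L 41245) (Tr.S 3 26
  (Tr.S 2 25 (Tr.L 49323) (Tr.L 169632)) (Tr.L 181448))) (Tr.S 3 26 (Tr.S 2 25 (Tr.L 49323)
  (Tr.L 169632)) (Tr.L 42792))) (Tr.S 3 18 (Tr.S 2 19 (Tr.S 3 25 (Tr.S 1 20 (Tr.L 42792) (Tr.L
  181448)) (Tr.L 169632)) (Tr.L 180888)) (Tr.L 18061))))) (Tr.S 3 9 (Tr.S 3 30 (Tr.S 0 18 (Tr.S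
  1 32 (Tr.S 3 26 (Tr.L 34091) (Tr.S 3 20 (Tr.S 2 19 (Tr.L 34476) (Tr.L 50856)) (Tr.L 173832)))
  (Tr.S 2 19 (Tr.S 3 25 (Tr.S 1 26 (Tr.S 0 27 (Tr.L 165516) (Tr.L 165516)) (Tr.L 173832)) (Tr.L
  169632)) (Tr.S 3 19 (Tr.S 1 20 (Tr.L 67341) (Tr.L 181448)) (Tr.L 50856)))) (Tr.L 49323)) (Tr.S
  3 24 (Tr.S 2 25 (Tr.S 0 18 (Tr.S 3 19 (Tr.S 1 27 (Tr.L 50856) (Tr.S 2 22 (Tr.L 50856) (Tr.L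
  50856))) (Tr.L 50856)) (Tr.L 180363)) (Tr.L 169632)) (Tr.L 18061))) (Tr.S 0 18 (Tr.S 1 20
  (Tr.S 2 23 (Tr.S 3 19 (Tr.L 50856) (Tr.L 180888)) (Tr.L 51864)) (Tr.S 3 30 (Tr.S 1 32 (Tr.S 3
  26 (Tr.L 34077) (Tr.S 3 20 (Tr.S 2 19 (Tr.L 34476) (Tr.L 180888)) (Tr.L 173832))) (Tr.S 3 20
  (Tr.S 2 19 (Tr.L 34476) (Tr.L 180888)) (Tr.L 50408))) (Tr.S 3 24 (Tr.S 2 25 (Tr.S 3 19 (Tr.S 1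
  26 (Tr.L 50408) (Tr.L 181448)) (Tr.L 180888)) (Tr.L 169632)) (Tr.L 18061)))) (Tr.S 3 30 (Tr.L
  49323) (Tr.S 3 18 (Tr.L 18061) (Tr.L 18061)))))))) (Tr.S 0 18 (Tr.S 2 19 (Tr.S 3 31 (Tr.S 3 9
  (Tr.S 3 24 (Tr.S 1 20 (Tr.L 83784) (Tr.S 3 22 (Tr.L 5475) (Tr.S 1 27 (Tr.L 5804) (Tr.S 1 33
  (Tr.L 5804) (Tr.S 1 34 (Tr.L 83784) (Tr.S 2 27 (Tr.S 1 32 (Tr.L 18061) (Tr.L 83784)) (Tr.S 3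
  23 (Tr.L 169632) (Tr.L 169632)))))))) (Tr.L 165516)) (Tr.S 3 24 (Tr.S 1 20 (Tr.L 83784) (Tr.S
  3 20 (Tr.S 1 23 (Tr.L 170136) (Tr.L 169632)) (Tr.L 5468))) (Tr.L 165516))) (Tr.S 3 26 (Tr.L
  34469) (Tr.S 3 27 (Tr.L 169632) (Tr.S 3 29 (Tr.L 169632) (Tr.S 1 26 (Tr.S 3 32 (Tr.S 3 24
  (Tr.S 3 11 (Tr.L 169632) (Tr.L 169632)) (Tr.L 18061)) (Tr.S 3 20 (Tr.S 1 23 (Tr.L 83784) (Tr.L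
  84680)) (Tr.L 83784))) (Tr.S 3 25 (Tr.S 3 30 (Tr.S 1 32 (Tr.S 3 20 (Tr.L 34469) (Tr.L 42848))
  (Tr.L 83784)) (Tr.L 18061)) (Tr.L 42848))))))) (Tr.S 3 20 (Tr.S 1 32 (Tr.S 3 31 (Tr.L 9059)
  (Tr.S 2 31 (Tr.S 3 30 (Tr.L 172768) (Tr.L 9059)) (Tr.L 172768))) (Tr.S 1 26 (Tr.S 3 25 (Tr.L
  66277) (Tr.S 3 24 (Tr.S 2 27 (Tr.L 83784) (Tr.S 1 22 (Tr.L 83784) (Tr.L 83784))) (Tr.L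
  66277))) (Tr.L 83784))) (Tr.S 1 20 (Tr.S 3 32 (Tr.S 3 19 (Tr.S 2 23 (Tr.S 2 25 (Tr.L 18061)
  (Tr.L 169632)) (Tr.L 19083)) (Tr.L 9059)) (Tr.S 3 25 (Tr.L 83784) (Tr.S 3 27 (Tr.L 83784)
  (Tr.S 3 26 (Tr.S 3 19 (Tr.S 2 22 (Tr.L 84680) (Tr.L 83784)) (Tr.L 66277)) (Tr.S 3 19 (Tr.L
  83784) (Tr.L 83784)))))) (Tr.S 3 19 (Tr.S 2 31 (Tr.S 3 33 (Tr.L 5468) (Tr.S 3 34 (Tr.L 5475)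
  (Tr.S 3 9 (Tr.S 1 27 (Tr.L 169632) (Tr.S 2 29 (Tr.L 169632) (Tr.S 3 24 (Tr.L 5356) (Tr.S 3 30
  (Tr.S 1 32 (Tr.L 169184) (Tr.L 181448)) (Tr.L 165516))))) (Tr.S 1 27 (Tr.L 169632) (Tr.S 3 24
  (Tr.L 5468) (Tr.S 3 30 (Tr.S 1 23 (Tr.L 165516) (Tr.L 165068)) (Tr.L 165516))))))) (Tr.S 3 30
  (Tr.L 34147) (Tr.S 3 24 (Tr.S 1 22 (Tr.L 17739) (Tr.L 17739)) (Tr.L 18061)))) (Tr.S 3 11 (Tr.S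
  3 16 (Tr.S 3 24 (Tr.S 2 25 (Tr.S 3 31 (Tr.S 1 32 (Tr.L 181448) (Tr.L 181448)) (Tr.L 180888))
  (Tr.L 180888)) (Tr.S 3 30 (Tr.S 1 32 (Tr.S 2 31 (Tr.S 1 22 (Tr.L 181448) (Tr.L 181448)) (Tr.L
  180888)) (Tr.L 181448)) (Tr.L 17739))) (Tr.S 1 32 (Tr.S 3 26 (Tr.S 2 25 (Tr.S 3 30 (Tr.L
  180888) (Tr.L 165516)) (Tr.L 180888)) (Tr.L 181448)) (Tr.S 3 32 (Tr.S 1 26 (Tr.S 2 31 (Tr.S 3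
  25 (Tr.L 165516) (Tr.L 180888)) (Tr.L 180888)) (Tr.L 181448)) (Tr.L 181448)))) (Tr.S 3 16
  (Tr.S 3 9 (Tr.S 3 24 (Tr.S 2 25 (Tr.S 3 31 (Tr.S 1 32 (Tr.L 181448) (Tr.L 181448)) (Tr.L
  50856)) (Tr.L 169632)) (Tr.S 3 30 (Tr.S 1 32 (Tr.S 2 31 (Tr.S 3 26 (Tr.L 169632) (Tr.L
  181448)) (Tr.L 50856)) (Tr.L 181448)) (Tr.L 17739))) (Tr.S 1 32 (Tr.S 3 26 (Tr.S 2 25 (Tr.S 3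
  31 (Tr.L 165516) (Tr.L 180888)) (Tr.L 180888)) (Tr.L 181448)) (Tr.S 3 32 (Tr.S 2 31 (Tr.S 3 25
  (Tr.L 165516) (Tr.L 180888)) (Tr.L 180888)) (Tr.L 181448)))) (Tr.S 1 26 (Tr.S 3 32 (Tr.S 2 31
  (Tr.S 3 25 (Tr.L 165516) (Tr.L 169632)) (Tr.L 50856)) (Tr.L 181448)) (Tr.S 3 26 (Tr.S 1 32
  (Tr.S 2 25 (Tr.S 3 31 (Tr.L 165516) (Tr.L 50856)) (Tr.L 169632)) (Tr.L 181448)) (Tr.L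
  181448))))))))) (Tr.S 3 24 (Tr.S 1 20 (Tr.L 18061) (Tr.S 3 20 (Tr.S 1 32 (Tr.L 180363) (Tr.L
  18061)) (Tr.L 180363))) (Tr.S 2 19 (Tr.S 3 31 (Tr.S 3 20 (Tr.L 168099) (Tr.S 1 20 (Tr.S 3 18
  (Tr.S 0 22 (Tr.L 83784) (Tr.L 83784)) (Tr.L 18061)) (Tr.L 5475))) (Tr.S 3 29 (Tr.L 50856)
  (Tr.S 0 24 (Tr.S 3 18 (Tr.S 3 27 (Tr.L 5797) (Tr.S 1 20 (Tr.S 3 26 (Tr.S 0 22 (Tr.L 83784)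
  (Tr.L 83784)) (Tr.L 42848)) (Tr.S 3 26 (Tr.L 5475) (Tr.S 1 26 (Tr.S 1 22 (Tr.L 181448) (Tr.L
  181448)) (Tr.L 181448))))) (Tr.S 3 34 (Tr.L 18061) (Tr.S 3 30 (Tr.S 1 32 (Tr.S 3 26 (Tr.S 3 11
  (Tr.L 169632) (Tr.L 169632)) (Tr.L 41189)) (Tr.S 3 26 (Tr.L 69861) (Tr.S 1 26 (Tr.S 3 20 (Tr.S
  2 29 (Tr.S 3 27 (Tr.L 83784) (Tr.L 83784)) (Tr.L 54944)) (Tr.L 181448)) (Tr.L 83784)))) (Tr.S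
  3 16 (Tr.L 18061) (Tr.L 18061))))) (Tr.S 3 30 (Tr.L 165516) (Tr.L 18061))))) (Tr.S 3 19 (Tr.S
  2 31 (Tr.S 3 32 (Tr.L 5797) (Tr.S 1 32 (Tr.S 3 30 (Tr.S 0 34 (Tr.L 181448) (Tr.L 181448))
  (Tr.L 180363)) (Tr.L 69861))) (Tr.S 0 24 (Tr.S 3 34 (Tr.L 180363) (Tr.S 3 30 (Tr.S 1 26 (Tr.L
  181448) (Tr.S 3 26 (Tr.S 1 23 (Tr.L 180363) (Tr.S 1 32 (Tr.S 2 23 (Tr.L 180363) (Tr.S 1 29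
  (Tr.L 181448) (Tr.L 181448))) (Tr.S 1 20 (Tr.S 0 22 (Tr.L 83784) (Tr.L 82251)) (Tr.L
  181448)))) (Tr.L 41189))) (Tr.S 3 16 (Tr.L 180363) (Tr.L 180363)))) (Tr.L 180363))) (Tr.S 1 20
  (Tr.S 3 32 (Tr.L 9059) (Tr.S 3 26 (Tr.S 2 22 (Tr.S 3 18 (Tr.L 83784) (Tr.L 82251)) (Tr.S 3 23
  (Tr.L 82664) (Tr.S 3 22 (Tr.S 3 30 (Tr.S 0 24 (Tr.S 0 23 (Tr.L 82251) (Tr.S 2 23 (Tr.L 180363)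
  (Tr.L 180363))) (Tr.L 180363)) (Tr.L 180363)) (Tr.S 0 22 (Tr.S 3 18 (Tr.L 83784) (Tr.S 0 24
  (Tr.S 1 27 (Tr.L 83784) (Tr.L 83784)) (Tr.L 180363))) (Tr.L 83784))))) (Tr.L 83784))) (Tr.S 3
  20 (Tr.S 0 24 (Tr.S 3 34 (Tr.L 180363) (Tr.S 1 32 (Tr.S 3 30 (Tr.S 2 31 (Tr.L 172768) (Tr.L
  172768)) (Tr.L 180363)) (Tr.S 3 30 (Tr.S 1 26 (Tr.S 3 25 (Tr.L 82251) (Tr.S 3 27 (Tr.L 82251)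
  (Tr.S 2 27 (Tr.S 3 29 (Tr.L 83784) (Tr.L 86752)) (Tr.L 83784)))) (Tr.L 83784)) (Tr.L 18061))))
  (Tr.L 180363)) (Tr.S 3 11 (Tr.S 0 24 (Tr.S 1 26 (Tr.S 2 29 (Tr.S 3 25 (Tr.L 181448) (Tr.L
  180888)) (Tr.L 181448)) (Tr.S 3 26 (Tr.S 1 32 (Tr.S 2 25 (Tr.S 1 29 (Tr.L 180888) (Tr.L
  181448)) (Tr.L 180888)) (Tr.L 181448)) (Tr.L 181448))) (Tr.S 3 18 (Tr.L 17739) (Tr.L 180363)))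
  (Tr.S 0 24 (Tr.S 1 26 (Tr.S 3 32 (Tr.S 3 18 (Tr.S 3 25 (Tr.L 17739) (Tr.S 2 31 (Tr.L 169184)
  (Tr.L 50856))) (Tr.L 180363)) (Tr.L 181448)) (Tr.S 3 26 (Tr.S 1 32 (Tr.S 2 25 (Tr.S 1 27 (Tr.L
  181448) (Tr.L 176800)) (Tr.L 169632)) (Tr.L 181448)) (Tr.L 181448))) (Tr.S 3 18 (Tr.L 17739)
  (Tr.L 180363))))))))))))))))

theorem cO1 : chk 12614 pO1
    321120921116748290203904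
    11238185536196085793747552904570339105431295 = true := by
  decide +kernel

def pO2 : Tr :=
  (Tr.R 12)

theorem cO2 : chk 12614 pO2
    321120920835273313493248
    11238173573144123729504621796913474908708607 = true := by
  decide +kernel

def pO3 : Tr :=
  (Tr.R 13)

theorem cO3 : chk 12614 pO3
    321120920835273313485056
    11238170914688132159672875989017877189521151 = true := by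
  decide +kernel

def pO4 : Tr :=
  (Tr.R 6)

theorem cO4 : chk 12614 pO4
    18889465931616019808512
    11238170893913793640407368987870885464526591 = true := by
  decide +kernel

def pO5 : Tr :=
  (Tr.R 8)

theorem cO5 : chk 12614 pO5
    18889465931616019808256
    11238170810837043903547895476479282540200383 = true := by
  decide +kernel

def pO6 : Tr :=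
  (Tr.R 2)

theorem cO6 : chk 12614 pO6
    137438953472
    11238170809518365413445833823327386708492479 = true := by
  decide +kernel

end Pool.Agent.H42.Pack6
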