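import Pool.Agent.H42.Pack6.Chk

set_option autoImplicit false
set_option maxRecDepth 100000

namespace Pool.Agent.H42.Pack6

def pO7 : Tr :=
(Tr.S 3 25 (Tr.S 0 27 (Tr.S 3 4 (Tr.S 2 30 (Tr.S 1 31 (Tr.L 107360) (Tr.L 34469)) (Tr.S 2 24
  (Tr.S 1 29 (Tr.S 1 19 (Tr.L 173832) (Tr.L 173832)) (Tr.L 173832)) (Tr.S 1 34 (Tr.L 42848)
  (Tr.S 1 31 (Tr.S 2 33 (Tr.S 3 30 (Tr.L 164515) (Tr.L 164515)) (Tr.L 107360)) (Tr.S 3 18 (Tr.L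
  18061) (Tr.L 34469)))))) (Tr.S 2 30 (Tr.S 3 5 (Tr.L 165516) (Tr.L 165516)) (Tr.S 1 31 (Tr.S 3
  34 (Tr.L 9059) (Tr.S 2 33 (Tr.S 0 34 (Tr.S 3 32 (Tr.L 172824) (Tr.L 173832)) (Tr.L 141128))
  (Tr.S 3 30 (Tr.L 173832) (Tr.L 10060)))) (Tr.S 2 29 (Tr.L 165516) (Tr.S 1 29 (Tr.S 2 24 (Tr.S
  3 30 (Tr.L 173832) (Tr.L 173832)) (Tr.L 165516)) (Tr.L 173832)))))) (Tr.S 0 29 (Tr.S 2 27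
  (Tr.S 0 20 (Tr.L 173832) (Tr.L 173832)) (Tr.S 1 27 (Tr.S 0 32 (Tr.L 173832) (Tr.S 1 19 (Tr.L
  173832) (Tr.L 173832))) (Tr.L 173832))) (Tr.S 0 20 (Tr.S 3 32 (Tr.S 3 10 (Tr.S 2 24 (Tr.L
  10060) (Tr.S 2 30 (Tr.S 2 27 (Tr.L 173832) (Tr.S 1 27 (Tr.L 173832) (Tr.L 173832))) (Tr.L
  165516))) (Tr.S 1 31 (Tr.S 2 30 (Tr.L 164515) (Tr.L 9059)) (Tr.S 2 27 (Tr.L 173832) (Tr.S 2 29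
  (Tr.L 173832) (Tr.S 1 29 (Tr.S 3 5 (Tr.L 173832) (Tr.L 173832)) (Tr.L 173832)))))) (Tr.L
  173832)) (Tr.S 0 32 (Tr.S 3 20 (Tr.S 2 27 (Tr.L 173832) (Tr.S 1 27 (Tr.L 173832) (Tr.L
  173832))) (Tr.L 173832)) (Tr.S 3 20 (Tr.S 2 24 (Tr.S 0 26 (Tr.S 1 27 (Tr.L 87816) (Tr.L
  83784)) (Tr.L 173832)) (Tr.S 0 26 (Tr.S 1 33 (Tr.L 83784) (Tr.S 2 33 (Tr.L 83784) (Tr.S 2 30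
  (Tr.S 3 4 (Tr.L 180363) (Tr.L 82251)) (Tr.S 2 27 (Tr.L 83784) (Tr.S 3 5 (Tr.L 165516) (Tr.L
  67341)))))) (Tr.L 173832))) (Tr.S 0 26 (Tr.S 2 24 (Tr.S 3 32 (Tr.S 3 18 (Tr.S 3 4 (Tr.L 17739)
  (Tr.S 1 29 (Tr.S 1 19 (Tr.L 177416) (Tr.L 180888)) (Tr.L 22156))) (Tr.L 17739)) (Tr.L 83784))
  (Tr.S 1 23 (Tr.L 165131) (Tr.S 3 30 (Tr.L 83784) (Tr.S 2 30 (Tr.S 3 32 (Tr.S 3 22 (Tr.L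
  180363) (Tr.S 3 23 (Tr.L 180363) (Tr.S 1 31 (Tr.S 0 33 (Tr.L 180888) (Tr.L 116040)) (Tr.S 3 5
  (Tr.L 34140) (Tr.L 34077))))) (Tr.L 165131)) (Tr.L 17739))))) (Tr.S 3 32 (Tr.S 2 30 (Tr.S 1 31
  (Tr.L 165131) (Tr.L 173832)) (Tr.L 17739)) (Tr.L 173832)))))))) (Tr.S 1 31 (Tr.S 3 22 (Tr.S 2
  18 (Tr.S 3 24 (Tr.L 169632) (Tr.L 169632)) (Tr.L 180888)) (Tr.S 3 23 (Tr.S 2 18 (Tr.S 0 20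
  (Tr.S 1 22 (Tr.L 180888) (Tr.L 170136)) (Tr.L 180888)) (Tr.L 180888)) (Tr.S 2 18 (Tr.S 3 4
  (Tr.S 3 19 (Tr.S 3 24 (Tr.S 0 20 (Tr.S 1 23 (Tr.L 173832) (Tr.L 173832)) (Tr.L 5405)) (Tr.S 3
  32 (Tr.L 18061) (Tr.S 0 20 (Tr.L 67341) (Tr.S 0 32 (Tr.S 1 23 (Tr.L 169632) (Tr.L 169632))
  (Tr.L 83784))))) (Tr.L 169632)) (Tr.S 3 24 (Tr.S 0 26 (Tr.S 3 20 (Tr.S 3 10 (Tr.L 180888)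
  (Tr.L 180888)) (Tr.L 5468)) (Tr.S 3 11 (Tr.S 3 19 (Tr.S 0 20 (Tr.L 10060) (Tr.L 173832)) (Tr.L
  169632)) (Tr.S 3 19 (Tr.S 0 20 (Tr.L 10060) (Tr.L 173832)) (Tr.L 172824)))) (Tr.S 3 30 (Tr.S 0
  32 (Tr.S 3 20 (Tr.S 0 23 (Tr.L 173832) (Tr.L 173832)) (Tr.L 169240)) (Tr.S 3 10 (Tr.S 3 19
  (Tr.S 0 33 (Tr.L 71464) (Tr.L 71464)) (Tr.L 71464)) (Tr.S 3 19 (Tr.S 0 20 (Tr.S 1 22 (Tr.L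
  83784) (Tr.L 83784)) (Tr.L 83784)) (Tr.L 169632)))) (Tr.S 3 29 (Tr.L 165516) (Tr.S 3 5 (Tr.S 3
  20 (Tr.L 180888) (Tr.L 165516)) (Tr.S 3 20 (Tr.L 165516) (Tr.L 165516))))))) (Tr.S 3 11 (Tr.S
  3 19 (Tr.S 3 4 (Tr.S 0 32 (Tr.S 2 33 (Tr.L 136536) (Tr.L 169632)) (Tr.S 3 30 (Tr.L 69917)
  (Tr.S 2 30 (Tr.S 0 34 (Tr.L 114829) (Tr.L 180363)) (Tr.L 180363)))) (Tr.S 0 32 (Tr.S 3 26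
  (Tr.S 2 33 (Tr.S 3 30 (Tr.L 169632) (Tr.L 180363)) (Tr.L 169632)) (Tr.L 173832)) (Tr.S 3 30
  (Tr.L 69980) (Tr.S 2 30 (Tr.S 3 32 (Tr.L 168092) (Tr.L 69980)) (Tr.L 180363))))) (Tr.L
  180888)) (Tr.S 3 19 (Tr.S 3 4 (Tr.S 0 32 (Tr.S 2 33 (Tr.L 180363) (Tr.L 169632)) (Tr.S 0 20
  (Tr.S 3 26 (Tr.L 69931) (Tr.S 3 32 (Tr.S 2 30 (Tr.L 168099) (Tr.L 180363)) (Tr.L 173832)))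
  (Tr.S 3 32 (Tr.S 2 30 (Tr.L 168099) (Tr.L 180363)) (Tr.L 169240)))) (Tr.S 0 20 (Tr.S 3 26
  (Tr.L 69980) (Tr.S 3 32 (Tr.S 2 30 (Tr.L 168092) (Tr.L 180363)) (Tr.L 173832))) (Tr.S 2 30
  (Tr.S 3 24 (Tr.S 0 33 (Tr.S 3 32 (Tr.L 180363) (Tr.L 83784)) (Tr.L 116040)) (Tr.L 180363))
  (Tr.S 3 30 (Tr.S 0 32 (Tr.S 2 33 (Tr.L 180363) (Tr.L 116040)) (Tr.L 83784)) (Tr.L 180363)))))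
  (Tr.S 3 4 (Tr.L 180888) (Tr.S 3 5 (Tr.S 3 18 (Tr.L 180888) (Tr.L 180888)) (Tr.L 180888))))))))
  (Tr.S 3 4 (Tr.S 2 18 (Tr.S 3 30 (Tr.S 1 19 (Tr.L 169632) (Tr.S 3 20 (Tr.L 180888) (Tr.S 0 20
  (Tr.S 3 19 (Tr.L 67341) (Tr.L 82776)) (Tr.L 34147)))) (Tr.S 3 26 (Tr.L 18061) (Tr.S 0 26 (Tr.S
  3 32 (Tr.S 1 25 (Tr.S 3 24 (Tr.L 50520) (Tr.L 18061)) (Tr.L 169632)) (Tr.S 3 20 (Tr.S 3 24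
  (Tr.S 0 22 (Tr.L 18061) (Tr.S 1 22 (Tr.L 18061) (Tr.L 83784))) (Tr.L 18061)) (Tr.L 83784)))
  (Tr.S 1 25 (Tr.S 3 31 (Tr.L 9059) (Tr.S 3 19 (Tr.S 0 20 (Tr.S 1 23 (Tr.L 173832) (Tr.L
  173832)) (Tr.L 173832)) (Tr.L 42848))) (Tr.S 3 31 (Tr.S 0 32 (Tr.S 1 19 (Tr.S 2 33 (Tr.L
  173832) (Tr.L 18061)) (Tr.L 180888)) (Tr.L 173832)) (Tr.L 169632)))))) (Tr.S 1 25 (Tr.S 3 19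
  (Tr.S 0 20 (Tr.S 3 32 (Tr.L 41315) (Tr.S 3 26 (Tr.S 2 24 (Tr.L 49309) (Tr.L 180363)) (Tr.L
  83784))) (Tr.S 2 24 (Tr.S 3 30 (Tr.S 0 32 (Tr.S 3 26 (Tr.L 49309) (Tr.L 50520)) (Tr.L 83784))
  (Tr.L 180363)) (Tr.S 3 24 (Tr.S 0 26 (Tr.L 50520) (Tr.L 173832)) (Tr.L 180363)))) (Tr.S 3 32
  (Tr.L 180888) (Tr.S 3 30 (Tr.L 180888) (Tr.S 0 32 (Tr.S 2 33 (Tr.L 18061) (Tr.S 2 24 (Tr.L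
  18061) (Tr.S 3 26 (Tr.S 2 29 (Tr.L 180888) (Tr.L 164515)) (Tr.S 3 20 (Tr.S 0 27 (Tr.S 3 29
  (Tr.L 173832) (Tr.L 173832)) (Tr.L 173832)) (Tr.L 173832))))) (Tr.S 2 24 (Tr.S 3 18 (Tr.S 0 27
  (Tr.S 3 26 (Tr.L 83784) (Tr.L 173832)) (Tr.L 83784)) (Tr.L 180363)) (Tr.S 3 18 (Tr.L 66403)
  (Tr.S 2 30 (Tr.S 3 24 (Tr.S 0 26 (Tr.L 82776) (Tr.L 173832)) (Tr.L 180363)) (Tr.L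
  180363)))))))) (Tr.S 2 24 (Tr.S 3 30 (Tr.L 49309) (Tr.S 3 18 (Tr.S 1 19 (Tr.S 3 31 (Tr.S 0 20
  (Tr.L 71520) (Tr.S 0 32 (Tr.L 5405) (Tr.L 83784))) (Tr.L 5797)) (Tr.L 180888)) (Tr.L 18061)))
  (Tr.S 3 24 (Tr.S 2 30 (Tr.S 0 26 (Tr.S 3 31 (Tr.L 69917) (Tr.L 49309)) (Tr.S 3 31 (Tr.S 0 32
  (Tr.S 1 33 (Tr.L 173832) (Tr.L 173832)) (Tr.L 173832)) (Tr.L 169632))) (Tr.L 18061)) (Tr.S 3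
  31 (Tr.S 1 19 (Tr.S 3 20 (Tr.L 180363) (Tr.S 3 23 (Tr.L 168099) (Tr.S 0 22 (Tr.L 169240) (Tr.S
  2 22 (Tr.S 0 20 (Tr.L 169632) (Tr.S 0 32 (Tr.S 1 33 (Tr.L 169632) (Tr.L 169632)) (Tr.L
  83784))) (Tr.L 170136))))) (Tr.L 180888)) (Tr.S 3 19 (Tr.L 180363) (Tr.L 169632))))))) (Tr.S 3
  32 (Tr.S 0 26 (Tr.S 2 34 (Tr.L 50520) (Tr.S 2 18 (Tr.S 1 25 (Tr.S 3 24 (Tr.L 50520) (Tr.L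
  165131)) (Tr.L 169240)) (Tr.S 3 5 (Tr.S 1 25 (Tr.S 3 19 (Tr.S 2 27 (Tr.L 54552) (Tr.L 50856))
  (Tr.L 180888)) (Tr.L 50856)) (Tr.S 1 25 (Tr.S 2 27 (Tr.S 3 24 (Tr.L 180363) (Tr.L 34077))
  (Tr.L 177416)) (Tr.L 169240))))) (Tr.S 3 10 (Tr.S 1 19 (Tr.L 50856) (Tr.S 3 19 (Tr.S 2 18
  (Tr.S 0 20 (Tr.L 10060) (Tr.L 173832)) (Tr.L 41308)) (Tr.L 50856))) (Tr.S 1 25 (Tr.S 3 18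
  (Tr.L 180888) (Tr.S 2 18 (Tr.S 3 24 (Tr.S 0 27 (Tr.L 42848) (Tr.L 42848)) (Tr.L 165516)) (Tr.L
  41308))) (Tr.L 169632)))) (Tr.S 0 20 (Tr.S 3 26 (Tr.S 3 31 (Tr.S 2 30 (Tr.S 3 22 (Tr.L 165516)
  (Tr.S 1 34 (Tr.L 83784) (Tr.S 3 18 (Tr.S 2 22 (Tr.L 83784) (Tr.S 1 22 (Tr.L 83784) (Tr.L
  83784))) (Tr.L 82251)))) (Tr.S 1 25 (Tr.S 2 24 (Tr.S 0 29 (Tr.L 83784) (Tr.L 180888)) (Tr.S 3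
  5 (Tr.L 165516) (Tr.L 165516))) (Tr.S 2 18 (Tr.S 3 5 (Tr.L 165516) (Tr.L 165516)) (Tr.S 3 18
  (Tr.S 2 22 (Tr.L 83784) (Tr.S 1 22 (Tr.L 83784) (Tr.L 83784))) (Tr.L 82251))))) (Tr.S 2 24
  (Tr.S 0 27 (Tr.S 1 29 (Tr.S 3 18 (Tr.L 83784) (Tr.L 83784)) (Tr.L 87816)) (Tr.S 1 27 (Tr.S 0
  29 (Tr.L 83784) (Tr.L 87816)) (Tr.L 83784))) (Tr.S 2 18 (Tr.S 3 23 (Tr.L 67341) (Tr.S 1 23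
  (Tr.S 3 22 (Tr.L 83784) (Tr.L 83784)) (Tr.L 165516))) (Tr.S 3 18 (Tr.S 2 22 (Tr.L 83784) (Tr.S
  1 22 (Tr.L 83784) (Tr.L 83784))) (Tr.L 165516))))) (Tr.L 83784)) (Tr.S 0 26 (Tr.S 3 20 (Tr.S 2
  33 (Tr.L 83784) (Tr.S 1 33 (Tr.L 83784) (Tr.S 0 33 (Tr.S 2 27 (Tr.S 3 29 (Tr.L 83784) (Tr.S 1
  29 (Tr.S 3 10 (Tr.L 71464) (Tr.L 71520)) (Tr.L 87816))) (Tr.S 1 27 (Tr.S 3 24 (Tr.L 83784)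
  (Tr.S 3 29 (Tr.L 83784) (Tr.S 3 34 (Tr.L 71520) (Tr.S 1 34 (Tr.S 0 22 (Tr.S 1 19 (Tr.L 83784)
  (Tr.S 3 31 (Tr.L 83784) (Tr.L 180888))) (Tr.L 83784)) (Tr.L 83784))))) (Tr.L 83784))) (Tr.L
  83784)))) (Tr.L 83784)) (Tr.S 3 26 (Tr.S 0 34 (Tr.L 83784) (Tr.S 0 32 (Tr.S 1 19 (Tr.S 3 30
  (Tr.L 50520) (Tr.S 2 30 (Tr.S 3 18 (Tr.S 0 23 (Tr.L 169240) (Tr.L 169240)) (Tr.L 180363))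
  (Tr.L 5468))) (Tr.S 3 19 (Tr.S 1 25 (Tr.S 0 27 (Tr.L 50520) (Tr.S 2 27 (Tr.L 34140) (Tr.L
  177416))) (Tr.L 50520)) (Tr.S 3 31 (Tr.S 2 33 (Tr.L 17739) (Tr.S 2 18 (Tr.L 165131) (Tr.S 1 27
  (Tr.L 116040) (Tr.S 1 34 (Tr.L 116040) (Tr.S 2 30 (Tr.L 132427) (Tr.S 1 33 (Tr.S 2 34 (Tr.L
  180888) (Tr.L 180888)) (Tr.L 116040))))))) (Tr.L 50520)))) (Tr.S 3 10 (Tr.S 1 25 (Tr.S 2 24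
  (Tr.L 83784) (Tr.L 165131)) (Tr.L 83784)) (Tr.L 83784)))) (Tr.S 0 33 (Tr.L 83784) (Tr.S 0 34
  (Tr.L 83784) (Tr.S 3 19 (Tr.L 50520) (Tr.S 2 24 (Tr.S 3 18 (Tr.L 17739) (Tr.S 3 30 (Tr.L
  41308) (Tr.L 10060))) (Tr.S 0 32 (Tr.S 3 18 (Tr.L 165131) (Tr.S 3 23 (Tr.L 173832) (Tr.S 3 20
  (Tr.S 2 18 (Tr.S 3 31 (Tr.S 2 33 (Tr.L 173832) (Tr.L 10060)) (Tr.S 3 10 (Tr.S 1 19 (Tr.L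
  50856) (Tr.L 180888)) (Tr.S 1 19 (Tr.L 169632) (Tr.L 180888)))) (Tr.S 3 30 (Tr.L 180363) (Tr.S
  2 30 (Tr.S 3 31 (Tr.S 1 33 (Tr.L 141128) (Tr.L 173832)) (Tr.L 41308)) (Tr.L 10060)))) (Tr.S 3
  5 (Tr.S 3 24 (Tr.L 173832) (Tr.L 173832)) (Tr.L 173832))))) (Tr.L 83784)))))))))))))

theorem cO7 : chk 12614 pO7
    10633823966280545353783318600562516032
    14069388166852924176386010469329070401249215 = true := by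
  decide +kernel

def pO8 : Tr :=
(Tr.S 3 9 (Tr.S 3 5 (Tr.S 2 18 (Tr.S 3 32 (Tr.S 3 25 (Tr.L 165516) (Tr.S 1 19 (Tr.L 169632)
  (Tr.S 3 24 (Tr.S 0 26 (Tr.S 1 25 (Tr.L 50408) (Tr.L 5475)) (Tr.S 0 20 (Tr.S 1 23 (Tr.S 3 22
  (Tr.L 173832) (Tr.L 174280)) (Tr.L 19083)) (Tr.L 181448))) (Tr.S 0 26 (Tr.L 17739) (Tr.L
  165516))))) (Tr.S 0 32 (Tr.S 3 24 (Tr.S 3 20 (Tr.S 1 19 (Tr.L 5804) (Tr.L 9059)) (Tr.L 10060))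
  (Tr.S 3 31 (Tr.L 165516) (Tr.S 3 26 (Tr.S 1 31 (Tr.S 3 30 (Tr.L 169184) (Tr.L 165516)) (Tr.L
  34147)) (Tr.S 3 30 (Tr.S 3 19 (Tr.L 181448) (Tr.S 1 22 (Tr.L 164515) (Tr.S 1 31 (Tr.L 172768)
  (Tr.S 1 33 (Tr.L 42848) (Tr.L 42848))))) (Tr.L 165516))))) (Tr.S 1 19 (Tr.S 0 23 (Tr.S 3 20
  (Tr.L 83784) (Tr.L 181448)) (Tr.L 84680)) (Tr.S 3 25 (Tr.L 66403) (Tr.S 1 25 (Tr.S 3 31 (Tr.S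
  3 24 (Tr.S 0 26 (Tr.L 82664) (Tr.L 83784)) (Tr.L 67404)) (Tr.S 3 19 (Tr.S 0 20 (Tr.S 1 22
  (Tr.L 83784) (Tr.L 83784)) (Tr.L 181448)) (Tr.L 50856))) (Tr.S 3 19 (Tr.S 0 20 (Tr.S 1 22
  (Tr.L 83784) (Tr.L 83784)) (Tr.L 181448)) (Tr.L 82664))))))) (Tr.S 3 20 (Tr.S 1 25 (Tr.S 0 27
  (Tr.L 172768) (Tr.S 2 27 (Tr.S 0 26 (Tr.L 86752) (Tr.S 0 32 (Tr.S 3 24 (Tr.S 0 29 (Tr.L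
  180363) (Tr.L 180363)) (Tr.L 180363)) (Tr.L 83784))) (Tr.L 176800))) (Tr.S 1 19 (Tr.S 0 32
  (Tr.S 3 30 (Tr.L 41315) (Tr.S 2 30 (Tr.S 3 31 (Tr.L 172236) (Tr.L 41315)) (Tr.L 180363)))
  (Tr.S 0 26 (Tr.S 3 31 (Tr.L 69868) (Tr.S 3 25 (Tr.S 2 22 (Tr.L 50856) (Tr.L 49323)) (Tr.L
  50856))) (Tr.L 172236))) (Tr.S 0 26 (Tr.S 3 25 (Tr.S 1 31 (Tr.S 2 24 (Tr.S 1 27 (Tr.L 83784)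
  (Tr.L 83784)) (Tr.L 180363)) (Tr.L 50856)) (Tr.L 82664)) (Tr.S 0 32 (Tr.S 3 31 (Tr.L 172768)
  (Tr.S 3 25 (Tr.S 2 24 (Tr.S 0 29 (Tr.L 180363) (Tr.L 172236)) (Tr.L 180363)) (Tr.L 169632)))
  (Tr.L 172768))))) (Tr.S 0 20 (Tr.S 3 18 (Tr.S 2 24 (Tr.S 3 32 (Tr.S 1 19 (Tr.L 42848) (Tr.L
  9059)) (Tr.S 2 22 (Tr.L 83784) (Tr.S 1 22 (Tr.L 83784) (Tr.L 83784)))) (Tr.S 3 26 (Tr.S 1 31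
  (Tr.L 169632) (Tr.S 1 19 (Tr.S 2 22 (Tr.L 83784) (Tr.L 83784)) (Tr.L 66284))) (Tr.S 2 33 (Tr.L
  10060) (Tr.S 1 23 (Tr.L 172768) (Tr.S 3 31 (Tr.L 83784) (Tr.S 1 19 (Tr.L 42848) (Tr.L
  172768))))))) (Tr.S 1 19 (Tr.S 3 32 (Tr.L 41315) (Tr.S 3 26 (Tr.L 69868) (Tr.L 83784))) (Tr.S
  3 19 (Tr.S 1 31 (Tr.S 3 26 (Tr.L 69868) (Tr.S 3 32 (Tr.S 2 30 (Tr.L 168099) (Tr.L 180363))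
  (Tr.L 71520))) (Tr.S 1 25 (Tr.S 3 32 (Tr.L 41315) (Tr.S 3 26 (Tr.S 2 24 (Tr.L 49323) (Tr.L
  180363)) (Tr.L 83784))) (Tr.L 169632))) (Tr.S 3 32 (Tr.S 1 31 (Tr.S 3 25 (Tr.S 2 24 (Tr.L
  180363) (Tr.L 180363)) (Tr.L 169632)) (Tr.L 50856)) (Tr.S 3 26 (Tr.S 2 24 (Tr.S 1 25 (Tr.S 3
  31 (Tr.L 180363) (Tr.L 50856)) (Tr.L 71520)) (Tr.L 180363)) (Tr.L 172768)))))) (Tr.S 2 30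
  (Tr.S 1 31 (Tr.S 0 33 (Tr.S 3 32 (Tr.S 3 18 (Tr.L 181448) (Tr.L 181448)) (Tr.L 181448)) (Tr.L
  116040)) (Tr.S 3 25 (Tr.L 34147) (Tr.S 1 25 (Tr.S 3 19 (Tr.S 3 24 (Tr.S 0 26 (Tr.L 50408)
  (Tr.L 181448)) (Tr.L 180363)) (Tr.S 3 34 (Tr.L 50408) (Tr.S 3 18 (Tr.S 2 29 (Tr.S 1 23 (Tr.S 0
  26 (Tr.L 181448) (Tr.L 165516)) (Tr.L 164515)) (Tr.L 164515)) (Tr.S 3 24 (Tr.S 0 26 (Tr.S 2 29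
  (Tr.L 181448) (Tr.L 181448)) (Tr.L 181448)) (Tr.L 180363))))) (Tr.S 3 31 (Tr.S 0 32 (Tr.S 1 34
  (Tr.L 181448) (Tr.L 181448)) (Tr.L 181448)) (Tr.L 169632))))) (Tr.S 3 18 (Tr.S 2 24 (Tr.S 3 16
  (Tr.S 1 19 (Tr.S 3 31 (Tr.L 5475) (Tr.S 3 25 (Tr.S 0 26 (Tr.L 17739) (Tr.L 181448)) (Tr.L
  50856))) (Tr.S 0 26 (Tr.S 1 29 (Tr.L 176800) (Tr.L 181448)) (Tr.S 3 26 (Tr.S 1 25 (Tr.L 17067)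
  (Tr.L 169632)) (Tr.L 181448)))) (Tr.S 1 25 (Tr.S 0 27 (Tr.L 181448) (Tr.L 177416)) (Tr.S 1 19
  (Tr.S 3 31 (Tr.L 5475) (Tr.S 3 25 (Tr.S 0 26 (Tr.L 17739) (Tr.L 181448)) (Tr.L 50856))) (Tr.S
  3 25 (Tr.S 0 26 (Tr.L 17739) (Tr.L 181448)) (Tr.L 169184))))) (Tr.L 17739)) (Tr.S 3 30 (Tr.S 0
  32 (Tr.S 2 24 (Tr.S 3 26 (Tr.S 0 29 (Tr.L 180363) (Tr.S 1 29 (Tr.L 180363) (Tr.L 181448)))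
  (Tr.L 181448)) (Tr.L 180363)) (Tr.L 181448)) (Tr.L 180363))))))) (Tr.S 2 24 (Tr.S 1 25 (Tr.S 3
  31 (Tr.S 3 4 (Tr.S 3 18 (Tr.S 0 27 (Tr.S 2 33 (Tr.S 0 34 (Tr.L 18061) (Tr.L 18061)) (Tr.L
  18061)) (Tr.L 18061)) (Tr.L 180363)) (Tr.S 3 18 (Tr.S 0 27 (Tr.S 3 26 (Tr.L 22156) (Tr.L
  8940)) (Tr.L 18061)) (Tr.L 18061))) (Tr.S 3 22 (Tr.L 50856) (Tr.S 3 19 (Tr.S 0 26 (Tr.L 45221)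
  (Tr.S 3 26 (Tr.S 0 29 (Tr.S 0 20 (Tr.L 50856) (Tr.L 181448)) (Tr.L 54944)) (Tr.L 41189)))
  (Tr.S 0 27 (Tr.S 3 29 (Tr.L 50856) (Tr.L 54944)) (Tr.L 176800))))) (Tr.S 3 29 (Tr.S 0 26 (Tr.S
  3 32 (Tr.L 17739) (Tr.S 3 20 (Tr.L 82125) (Tr.L 181448))) (Tr.S 3 16 (Tr.S 3 30 (Tr.S 1 31
  (Tr.S 3 19 (Tr.S 0 20 (Tr.L 83784) (Tr.L 181448)) (Tr.L 169632)) (Tr.L 169632)) (Tr.S 3 18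
  (Tr.S 1 27 (Tr.L 5804) (Tr.L 5804)) (Tr.L 168099))) (Tr.S 3 30 (Tr.S 1 31 (Tr.S 3 19 (Tr.S 0
  20 (Tr.L 173832) (Tr.L 181448)) (Tr.L 169632)) (Tr.L 169632)) (Tr.S 3 18 (Tr.S 0 20 (Tr.S 3 32
  (Tr.S 1 31 (Tr.L 169632) (Tr.L 169632)) (Tr.L 173832)) (Tr.L 181448)) (Tr.L 172299))))) (Tr.S
  3 19 (Tr.S 3 32 (Tr.L 5797) (Tr.S 0 32 (Tr.S 1 31 (Tr.S 3 30 (Tr.L 169184) (Tr.L 5797)) (Tr.L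
  169632)) (Tr.L 69861))) (Tr.S 3 4 (Tr.S 3 26 (Tr.S 0 32 (Tr.S 3 30 (Tr.S 1 31 (Tr.L 169632)
  (Tr.L 169632)) (Tr.L 5419)) (Tr.S 0 20 (Tr.S 1 19 (Tr.S 3 18 (Tr.L 71464) (Tr.L 69931)) (Tr.L
  169632)) (Tr.L 181448))) (Tr.S 0 26 (Tr.S 3 20 (Tr.S 3 25 (Tr.L 82125) (Tr.L 69861)) (Tr.S 1
  29 (Tr.L 177416) (Tr.L 181448))) (Tr.S 3 25 (Tr.S 1 31 (Tr.S 3 18 (Tr.L 8933) (Tr.S 3 30 (Tr.S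
  0 32 (Tr.L 172768) (Tr.L 173832)) (Tr.L 180363))) (Tr.S 1 19 (Tr.S 3 30 (Tr.L 41189) (Tr.S 3
  18 (Tr.S 0 27 (Tr.L 18061) (Tr.L 9997)) (Tr.L 18061))) (Tr.L 172768))) (Tr.S 1 19 (Tr.S 3 31
  (Tr.S 0 32 (Tr.S 3 20 (Tr.L 180363) (Tr.L 181448)) (Tr.L 173832)) (Tr.L 169632)) (Tr.L
  169632))))) (Tr.S 3 25 (Tr.S 0 26 (Tr.S 3 32 (Tr.S 3 17 (Tr.L 17613) (Tr.L 17739)) (Tr.S 3 18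
  (Tr.S 3 17 (Tr.L 181448) (Tr.L 181448)) (Tr.L 82125))) (Tr.S 1 31 (Tr.S 3 18 (Tr.L 8940) (Tr.S
  3 30 (Tr.S 0 32 (Tr.L 172768) (Tr.L 172768)) (Tr.L 180363))) (Tr.S 1 19 (Tr.S 3 30 (Tr.L
  41189) (Tr.S 3 18 (Tr.S 2 22 (Tr.L 50856) (Tr.S 0 22 (Tr.L 50856) (Tr.L 50856))) (Tr.L
  18061))) (Tr.L 50856)))) (Tr.S 1 19 (Tr.S 3 31 (Tr.S 3 18 (Tr.S 1 27 (Tr.S 0 20 (Tr.L 169632)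
  (Tr.L 5356)) (Tr.L 5804)) (Tr.L 18061)) (Tr.L 50856)) (Tr.S 3 23 (Tr.L 168099) (Tr.S 3 31
  (Tr.L 5804) (Tr.S 1 31 (Tr.S 3 32 (Tr.L 5804) (Tr.S 0 20 (Tr.L 169632) (Tr.S 3 18 (Tr.L 17067)
  (Tr.S 3 17 (Tr.L 168099) (Tr.L 168099))))) (Tr.L 50856)))))))))) (Tr.S 2 30 (Tr.S 3 16 (Tr.S 3
  20 (Tr.S 3 24 (Tr.S 1 22 (Tr.L 180363) (Tr.S 1 31 (Tr.L 169632) (Tr.S 0 33 (Tr.L 82125) (Tr.S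
  1 27 (Tr.L 169632) (Tr.S 0 26 (Tr.S 1 19 (Tr.L 69987) (Tr.L 83784)) (Tr.S 1 33 (Tr.S 0 34
  (Tr.L 172236) (Tr.L 180363)) (Tr.L 114829))))))) (Tr.L 180363)) (Tr.S 0 20 (Tr.S 3 26 (Tr.S 3
  18 (Tr.S 1 19 (Tr.S 2 22 (Tr.L 83784) (Tr.L 83784)) (Tr.L 66403)) (Tr.L 165516)) (Tr.S 3 31
  (Tr.L 83784) (Tr.S 3 32 (Tr.S 3 19 (Tr.S 2 23 (Tr.L 172236) (Tr.L 172236)) (Tr.S 1 25 (Tr.L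
  50856) (Tr.S 1 34 (Tr.L 50856) (Tr.S 0 34 (Tr.S 3 18 (Tr.S 1 31 (Tr.L 165516) (Tr.S 1 22 (Tr.L
  50856) (Tr.L 50856))) (Tr.L 172236)) (Tr.L 141128))))) (Tr.S 1 31 (Tr.S 3 19 (Tr.L 71520)
  (Tr.L 172768)) (Tr.L 83784))))) (Tr.S 1 31 (Tr.S 0 33 (Tr.L 181448) (Tr.L 116040)) (Tr.S 3 25
  (Tr.L 34147) (Tr.S 1 25 (Tr.S 3 19 (Tr.S 3 24 (Tr.S 0 26 (Tr.L 50408) (Tr.L 181448)) (Tr.L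
  180363)) (Tr.S 3 31 (Tr.S 0 32 (Tr.S 3 26 (Tr.L 165068) (Tr.L 181448)) (Tr.L 181448)) (Tr.L
  50408))) (Tr.S 3 31 (Tr.S 0 32 (Tr.S 3 26 (Tr.L 165068) (Tr.L 181448)) (Tr.L 181448)) (Tr.L
  169632))))))) (Tr.S 3 26 (Tr.S 3 19 (Tr.L 180363) (Tr.S 3 22 (Tr.L 165516) (Tr.S 3 18 (Tr.S 0
  20 (Tr.S 1 19 (Tr.L 71464) (Tr.L 66347)) (Tr.S 0 32 (Tr.S 3 31 (Tr.L 165131) (Tr.S 1 33 (Tr.L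
  34091) (Tr.L 99597))) (Tr.L 181448))) (Tr.S 0 20 (Tr.L 67341) (Tr.L 180363))))) (Tr.S 0 26
  (Tr.S 3 20 (Tr.S 3 24 (Tr.S 1 25 (Tr.L 82664) (Tr.L 69861)) (Tr.L 180363)) (Tr.S 3 34 (Tr.L
  181448) (Tr.S 3 18 (Tr.S 3 32 (Tr.S 1 31 (Tr.L 164515) (Tr.L 34091)) (Tr.L 181448)) (Tr.S 3 24
  (Tr.S 3 32 (Tr.S 2 29 (Tr.L 181448) (Tr.S 1 29 (Tr.L 181448) (Tr.L 181448))) (Tr.L 181448))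
  (Tr.L 180363))))) (Tr.S 3 24 (Tr.S 1 25 (Tr.S 3 19 (Tr.L 41189) (Tr.S 3 31 (Tr.S 0 29 (Tr.L
  172768) (Tr.L 172768)) (Tr.L 172768))) (Tr.S 0 32 (Tr.S 3 20 (Tr.S 1 33 (Tr.S 3 31 (Tr.L
  173832) (Tr.L 169632)) (Tr.L 173832)) (Tr.L 181448)) (Tr.S 3 32 (Tr.S 1 31 (Tr.L 168099) (Tr.L
  169632)) (Tr.L 173832)))) (Tr.S 3 4 (Tr.S 3 18 (Tr.S 0 20 (Tr.S 2 23 (Tr.L 173832) (Tr.S 1 23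
  (Tr.L 173832) (Tr.L 173832))) (Tr.L 181448)) (Tr.S 3 20 (Tr.L 180363) (Tr.S 0 20 (Tr.S 1 19
  (Tr.S 2 22 (Tr.L 180363) (Tr.L 174280)) (Tr.L 180363)) (Tr.L 181448)))) (Tr.S 3 18 (Tr.S 0 20
  (Tr.S 2 23 (Tr.L 173832) (Tr.S 1 23 (Tr.L 173832) (Tr.L 173832))) (Tr.L 181448)) (Tr.L
  165516))))))) (Tr.S 3 18 (Tr.S 3 16 (Tr.S 0 20 (Tr.S 1 19 (Tr.L 165516) (Tr.L 165516)) (Tr.L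
  17739)) (Tr.S 0 20 (Tr.S 1 19 (Tr.L 18061) (Tr.L 18061)) (Tr.L 165131))) (Tr.S 3 26 (Tr.S 3 34
  (Tr.L 165516) (Tr.S 0 32 (Tr.S 3 17 (Tr.S 2 18 (Tr.S 0 23 (Tr.S 2 29 (Tr.S 3 30 (Tr.S 1 25
  (Tr.L 34469) (Tr.L 169184)) (Tr.L 165131)) (Tr.L 165131)) (Tr.L 165131)) (Tr.L 180363)) (Tr.S
  2 18 (Tr.S 1 22 (Tr.L 181448) (Tr.S 3 31 (Tr.L 18061) (Tr.S 1 31 (Tr.S 2 34 (Tr.L 169632)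
  (Tr.L 181448)) (Tr.L 34147)))) (Tr.L 180363))) (Tr.S 2 18 (Tr.S 1 25 (Tr.S 3 19 (Tr.S 2 27
  (Tr.L 50856) (Tr.L 34469)) (Tr.L 66277)) (Tr.S 3 30 (Tr.S 1 31 (Tr.S 3 19 (Tr.S 2 33 (Tr.L
  169632) (Tr.S 0 33 (Tr.L 169632) (Tr.L 169632))) (Tr.L 169632)) (Tr.L 169632)) (Tr.L 5797)))
  (Tr.L 82125)))) (Tr.S 0 26 (Tr.S 3 30 (Tr.S 2 18 (Tr.S 3 22 (Tr.L 67341) (Tr.S 3 23 (Tr.L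
  83784) (Tr.S 1 31 (Tr.S 3 19 (Tr.S 3 17 (Tr.L 181448) (Tr.L 181448)) (Tr.L 66277)) (Tr.S 3 16
  (Tr.S 3 20 (Tr.S 1 19 (Tr.L 34469) (Tr.L 50856)) (Tr.L 83784)) (Tr.S 3 20 (Tr.S 1 19 (Tr.L
  34469) (Tr.L 50856)) (Tr.L 50408)))))) (Tr.L 180363)) (Tr.S 3 32 (Tr.S 3 16 (Tr.S 2 18 (Tr.S 0
  22 (Tr.S 3 24 (Tr.S 1 25 (Tr.L 50856) (Tr.L 5475)) (Tr.L 18061)) (Tr.L 17739)) (Tr.L 180363))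
  (Tr.S 2 18 (Tr.S 3 24 (Tr.S 1 25 (Tr.L 50408) (Tr.L 5419)) (Tr.L 18061)) (Tr.L 180363))) (Tr.S
  2 18 (Tr.S 3 23 (Tr.L 83784) (Tr.S 3 29 (Tr.L 18061) (Tr.S 3 17 (Tr.S 3 24 (Tr.S 3 19 (Tr.L
  181448) (Tr.S 1 27 (Tr.L 71464) (Tr.S 1 25 (Tr.S 2 29 (Tr.L 18061) (Tr.L 87816)) (Tr.L
  71464)))) (Tr.L 18061)) (Tr.S 3 20 (Tr.S 1 22 (Tr.L 18061) (Tr.S 0 22 (Tr.L 18061) (Tr.L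
  18061))) (Tr.L 83784))))) (Tr.L 82125)))) (Tr.S 2 18 (Tr.S 1 19 (Tr.S 3 31 (Tr.S 3 22 (Tr.L
  5804) (Tr.S 0 22 (Tr.S 3 23 (Tr.L 181448) (Tr.L 169632)) (Tr.L 18061))) (Tr.S 3 25 (Tr.S 3 30
  (Tr.S 3 20 (Tr.L 34469) (Tr.S 3 22 (Tr.L 34476) (Tr.S 0 22 (Tr.S 3 16 (Tr.L 181448) (Tr.L
  181448)) (Tr.L 50856)))) (Tr.L 18061)) (Tr.L 169632))) (Tr.S 3 16 (Tr.S 3 31 (Tr.L 9059) (Tr.S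
  3 19 (Tr.S 0 20 (Tr.S 3 32 (Tr.S 1 22 (Tr.L 19083) (Tr.L 18061)) (Tr.L 83784)) (Tr.L 181448))
  (Tr.S 1 31 (Tr.S 3 25 (Tr.S 3 30 (Tr.S 0 32 (Tr.L 172768) (Tr.L 83784)) (Tr.L 165516)) (Tr.L
  169632)) (Tr.L 50856)))) (Tr.S 3 31 (Tr.L 9003) (Tr.S 1 31 (Tr.S 3 25 (Tr.S 3 30 (Tr.S 0 32
  (Tr.L 172768) (Tr.L 173832)) (Tr.L 9997)) (Tr.S 3 19 (Tr.S 0 20 (Tr.S 1 23 (Tr.L 173832) (Tr.L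
  173832)) (Tr.L 181448)) (Tr.L 169632))) (Tr.S 3 22 (Tr.L 50856) (Tr.S 3 23 (Tr.L 172768) (Tr.S
  3 25 (Tr.L 50856) (Tr.S 1 25 (Tr.S 3 17 (Tr.S 3 24 (Tr.S 3 19 (Tr.S 0 20 (Tr.S 1 23 (Tr.L
  173832) (Tr.L 173832)) (Tr.L 181448)) (Tr.L 50856)) (Tr.S 3 30 (Tr.S 2 27 (Tr.L 42792) (Tr.L
  34469)) (Tr.L 18061))) (Tr.S 3 20 (Tr.L 42848) (Tr.S 0 20 (Tr.S 1 23 (Tr.L 174280) (Tr.L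
  173832)) (Tr.L 181448)))) (Tr.L 169632))))))))) (Tr.S 3 31 (Tr.L 18061) (Tr.S 3 32 (Tr.L
  18061) (Tr.S 0 32 (Tr.S 3 24 (Tr.L 180363) (Tr.S 3 17 (Tr.S 3 20 (Tr.S 1 19 (Tr.L 180363)
  (Tr.L 180363)) (Tr.L 181448)) (Tr.L 180363))) (Tr.L 82125))))))))))) (Tr.S 3 4 (Tr.S 1 31
  (Tr.S 2 18 (Tr.S 3 24 (Tr.S 0 27 (Tr.L 5797) (Tr.S 0 34 (Tr.L 18061) (Tr.S 3 20 (Tr.L 17053)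
  (Tr.S 0 20 (Tr.S 3 19 (Tr.L 9997) (Tr.L 169632)) (Tr.L 5405))))) (Tr.S 3 32 (Tr.L 18061) (Tr.S
  3 30 (Tr.S 0 32 (Tr.S 2 34 (Tr.S 3 20 (Tr.L 173832) (Tr.L 181448)) (Tr.L 132749)) (Tr.S 3 25
  (Tr.L 66277) (Tr.S 3 19 (Tr.S 0 20 (Tr.L 67341) (Tr.L 181448)) (Tr.L 169632)))) (Tr.S 0 32
  (Tr.S 2 34 (Tr.L 18061) (Tr.L 132749)) (Tr.L 18061))))) (Tr.S 3 18 (Tr.S 2 24 (Tr.S 3 26 (Tr.L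
  5797) (Tr.S 0 26 (Tr.S 3 25 (Tr.S 1 29 (Tr.L 181448) (Tr.L 181448)) (Tr.L 180888)) (Tr.L
  8933))) (Tr.S 3 29 (Tr.L 180888) (Tr.S 0 22 (Tr.L 180888) (Tr.S 3 25 (Tr.S 0 32 (Tr.L 181448)
  (Tr.S 2 30 (Tr.S 0 34 (Tr.S 3 32 (Tr.S 0 20 (Tr.L 173832) (Tr.L 181448)) (Tr.L 66277)) (Tr.L
  132749)) (Tr.L 18061))) (Tr.S 3 17 (Tr.L 180888) (Tr.L 180888)))))) (Tr.S 0 32 (Tr.S 2 30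
  (Tr.L 180363) (Tr.S 3 24 (Tr.L 180363) (Tr.S 3 30 (Tr.S 2 33 (Tr.S 3 20 (Tr.L 173832) (Tr.L
  181448)) (Tr.L 114829)) (Tr.L 180363)))) (Tr.S 3 26 (Tr.L 69917) (Tr.S 3 32 (Tr.S 2 30 (Tr.S 0
  34 (Tr.L 114829) (Tr.L 180363)) (Tr.L 180363)) (Tr.S 0 26 (Tr.S 3 20 (Tr.S 3 25 (Tr.S 2 24
  (Tr.L 82125) (Tr.L 180363)) (Tr.L 180888)) (Tr.L 181448)) (Tr.L 173832))))))) (Tr.S 3 30 (Tr.S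
  2 24 (Tr.S 0 26 (Tr.S 3 20 (Tr.S 1 19 (Tr.S 2 22 (Tr.L 49309) (Tr.L 49309)) (Tr.L 180888))
  (Tr.L 181448)) (Tr.S 3 25 (Tr.L 41189) (Tr.S 1 25 (Tr.S 3 19 (Tr.S 3 26 (Tr.S 0 20 (Tr.L
  49309) (Tr.L 49309)) (Tr.L 41189)) (Tr.L 180888)) (Tr.L 169632)))) (Tr.S 2 18 (Tr.S 0 20 (Tr.S
  3 26 (Tr.S 1 25 (Tr.S 3 19 (Tr.L 67341) (Tr.L 164515)) (Tr.L 169632)) (Tr.L 173832)) (Tr.S 3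
  26 (Tr.L 34077) (Tr.S 3 19 (Tr.L 34077) (Tr.S 1 19 (Tr.S 3 25 (Tr.S 3 20 (Tr.S 0 26 (Tr.L
  34469) (Tr.L 34469)) (Tr.L 34077)) (Tr.L 169632)) (Tr.L 180888))))) (Tr.S 0 32 (Tr.S 3 17
  (Tr.L 180363) (Tr.L 180363)) (Tr.L 82125)))) (Tr.S 3 32 (Tr.S 2 24 (Tr.S 3 18 (Tr.S 1 25 (Tr.L
  180888) (Tr.S 3 25 (Tr.S 0 27 (Tr.L 18061) (Tr.S 1 27 (Tr.L 18061) (Tr.L 18061))) (Tr.L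
  5797))) (Tr.L 18061)) (Tr.S 0 26 (Tr.S 3 25 (Tr.L 34077) (Tr.S 1 25 (Tr.S 3 19 (Tr.S 3 24
  (Tr.S 2 29 (Tr.L 177416) (Tr.L 181448)) (Tr.L 34077)) (Tr.L 180888)) (Tr.L 169632))) (Tr.S 0
  20 (Tr.S 3 24 (Tr.S 1 25 (Tr.S 3 19 (Tr.S 2 18 (Tr.L 9997) (Tr.L 41245)) (Tr.L 172768)) (Tr.L
  169632)) (Tr.S 2 30 (Tr.S 3 18 (Tr.S 1 33 (Tr.L 34469) (Tr.L 34469)) (Tr.L 49309)) (Tr.L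
  18061))) (Tr.L 173832)))) (Tr.S 0 32 (Tr.S 3 31 (Tr.S 2 30 (Tr.S 3 26 (Tr.S 1 34 (Tr.S 1 19
  (Tr.L 181448) (Tr.L 181448)) (Tr.L 181448)) (Tr.S 3 20 (Tr.S 1 33 (Tr.L 180363) (Tr.L 173832))
  (Tr.L 181448))) (Tr.S 3 11 (Tr.S 1 25 (Tr.S 3 20 (Tr.L 9059) (Tr.S 3 26 (Tr.S 2 24 (Tr.L
  17053) (Tr.L 18061)) (Tr.L 181448))) (Tr.S 1 19 (Tr.S 3 18 (Tr.L 5475) (Tr.S 2 18 (Tr.S 0 23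
  (Tr.L 18061) (Tr.L 169632)) (Tr.L 180363))) (Tr.L 180888))) (Tr.S 1 25 (Tr.S 3 20 (Tr.L 9003)
  (Tr.S 3 26 (Tr.S 2 24 (Tr.L 17067) (Tr.L 18061)) (Tr.L 181448))) (Tr.S 3 26 (Tr.L 5419) (Tr.S
  3 20 (Tr.S 2 33 (Tr.L 173832) (Tr.L 9997)) (Tr.L 173832)))))) (Tr.S 2 30 (Tr.S 3 18 (Tr.L
  34077) (Tr.S 3 24 (Tr.L 41189) (Tr.L 180363))) (Tr.S 3 11 (Tr.S 3 26 (Tr.S 1 25 (Tr.S 3 19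
  (Tr.S 2 18 (Tr.L 18061) (Tr.L 180363)) (Tr.L 180888)) (Tr.L 169632)) (Tr.S 3 20 (Tr.S 2 18
  (Tr.S 1 19 (Tr.S 3 25 (Tr.L 18061) (Tr.L 169632)) (Tr.L 172824)) (Tr.L 180363)) (Tr.L 50520)))
  (Tr.S 3 26 (Tr.S 1 25 (Tr.S 3 19 (Tr.S 2 18 (Tr.L 18061) (Tr.L 180363)) (Tr.L 180888)) (Tr.L
  169632)) (Tr.S 3 20 (Tr.S 2 18 (Tr.S 1 19 (Tr.S 3 25 (Tr.L 18061) (Tr.L 169632)) (Tr.L 50856))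
  (Tr.L 180363)) (Tr.L 50408)))))) (Tr.S 2 24 (Tr.S 3 18 (Tr.S 0 26 (Tr.L 181448) (Tr.S 3 26
  (Tr.S 1 25 (Tr.L 17053) (Tr.S 1 27 (Tr.L 18061) (Tr.L 5797))) (Tr.L 9997))) (Tr.L 18061))
  (Tr.S 3 24 (Tr.S 0 26 (Tr.S 3 19 (Tr.L 181448) (Tr.S 3 23 (Tr.L 83784) (Tr.S 3 20 (Tr.S 1 25
  (Tr.S 2 29 (Tr.L 176800) (Tr.L 87816)) (Tr.S 1 19 (Tr.S 2 18 (Tr.L 5797) (Tr.L 69917)) (Tr.L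
  180888))) (Tr.S 1 19 (Tr.L 169240) (Tr.L 181448))))) (Tr.L 173832)) (Tr.S 2 30 (Tr.S 3 19
  (Tr.L 180363) (Tr.S 3 18 (Tr.S 0 20 (Tr.S 3 26 (Tr.S 2 22 (Tr.L 67341) (Tr.S 1 22 (Tr.L
  180888) (Tr.L 166027))) (Tr.L 173832)) (Tr.L 181448)) (Tr.L 82125))) (Tr.L 18061)))))))) (Tr.S
  3 11 (Tr.S 2 18 (Tr.S 3 32 (Tr.S 3 24 (Tr.S 1 19 (Tr.L 5797) (Tr.S 0 20 (Tr.S 3 19 (Tr.L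
  10060) (Tr.L 9052)) (Tr.S 0 26 (Tr.S 1 25 (Tr.L 50520) (Tr.L 5468)) (Tr.L 10060)))) (Tr.L
  18061)) (Tr.S 0 32 (Tr.S 3 24 (Tr.S 3 20 (Tr.S 1 19 (Tr.L 5797) (Tr.L 9052)) (Tr.L 10060))
  (Tr.S 3 30 (Tr.S 3 26 (Tr.S 1 19 (Tr.L 169632) (Tr.S 1 31 (Tr.S 0 23 (Tr.L 169632) (Tr.L
  181448)) (Tr.L 34140))) (Tr.S 3 19 (Tr.L 181448) (Tr.S 1 31 (Tr.L 172768) (Tr.S 1 19 (Tr.S 2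
  33 (Tr.L 165516) (Tr.L 165516)) (Tr.L 180888))))) (Tr.L 165516))) (Tr.S 1 19 (Tr.S 0 23 (Tr.S
  3 20 (Tr.S 3 30 (Tr.L 83784) (Tr.L 83784)) (Tr.L 181448)) (Tr.L 84680)) (Tr.S 3 25 (Tr.L
  66277) (Tr.S 1 25 (Tr.S 3 31 (Tr.S 3 24 (Tr.S 0 26 (Tr.L 82776) (Tr.L 83784)) (Tr.L 18061))
  (Tr.S 3 22 (Tr.L 82776) (Tr.S 3 30 (Tr.S 3 19 (Tr.S 0 20 (Tr.S 1 22 (Tr.L 83784) (Tr.L 83784))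
  (Tr.L 181448)) (Tr.L 34469)) (Tr.S 3 24 (Tr.S 0 26 (Tr.S 3 20 (Tr.L 180888) (Tr.L 181448))
  (Tr.L 83784)) (Tr.L 18061))))) (Tr.S 3 19 (Tr.S 0 20 (Tr.S 1 22 (Tr.L 83784) (Tr.L 83784))
  (Tr.L 181448)) (Tr.L 169632))))))) (Tr.S 1 19 (Tr.S 3 24 (Tr.S 3 31 (Tr.S 2 29 (Tr.L 169632)
  (Tr.S 2 34 (Tr.L 18061) (Tr.S 0 26 (Tr.L 69861) (Tr.S 0 29 (Tr.L 169632) (Tr.L 172236)))))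
  (Tr.L 169632)) (Tr.S 2 24 (Tr.S 3 30 (Tr.S 3 26 (Tr.L 169632) (Tr.S 0 26 (Tr.S 3 25 (Tr.L
  82125) (Tr.L 71520)) (Tr.L 41308))) (Tr.S 3 20 (Tr.L 18061) (Tr.S 3 22 (Tr.L 18061) (Tr.S 0 20
  (Tr.S 3 32 (Tr.S 2 22 (Tr.L 51864) (Tr.L 18061)) (Tr.S 2 22 (Tr.L 84680) (Tr.L 83784))) (Tr.S
  3 31 (Tr.L 5468) (Tr.S 3 25 (Tr.S 0 22 (Tr.S 3 18 (Tr.L 50520) (Tr.L 18061)) (Tr.L 50520))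
  (Tr.L 50520))))))) (Tr.S 3 30 (Tr.L 165516) (Tr.S 2 30 (Tr.S 3 25 (Tr.S 3 18 (Tr.S 2 22 (Tr.L
  34469) (Tr.S 0 20 (Tr.L 174280) (Tr.L 34021))) (Tr.L 165516)) (Tr.S 3 18 (Tr.S 3 31 (Tr.S 2 23
  (Tr.L 169632) (Tr.S 0 23 (Tr.L 169632) (Tr.L 169632))) (Tr.L 169632)) (Tr.L 165516))) (Tr.L
  165516))))) (Tr.S 3 19 (Tr.S 1 31 (Tr.S 0 20 (Tr.S 3 26 (Tr.L 69980) (Tr.S 3 32 (Tr.S 2 30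
  (Tr.L 168092) (Tr.L 18061)) (Tr.L 71520))) (Tr.S 3 16 (Tr.S 2 30 (Tr.S 3 24 (Tr.S 0 26 (Tr.S 1
  29 (Tr.L 169184) (Tr.L 169184)) (Tr.L 169184)) (Tr.L 165516)) (Tr.S 3 30 (Tr.S 0 32 (Tr.L
  169184) (Tr.L 181448)) (Tr.L 168092))) (Tr.S 2 30 (Tr.S 3 24 (Tr.S 0 26 (Tr.S 1 29 (Tr.L
  169240) (Tr.L 169240)) (Tr.L 173832)) (Tr.L 165516)) (Tr.S 3 30 (Tr.S 0 32 (Tr.L 169240) (Tr.L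
  181448)) (Tr.L 168092))))) (Tr.S 1 25 (Tr.S 0 26 (Tr.S 2 29 (Tr.S 3 24 (Tr.L 181448) (Tr.L
  165516)) (Tr.L 181448)) (Tr.S 3 24 (Tr.L 41308) (Tr.S 2 24 (Tr.S 0 29 (Tr.S 3 27 (Tr.L 180363)
  (Tr.L 176268)) (Tr.L 54944)) (Tr.L 165516)))) (Tr.S 2 24 (Tr.L 168092) (Tr.L 169632)))) (Tr.S
  2 24 (Tr.S 0 26 (Tr.S 3 20 (Tr.S 3 30 (Tr.S 2 22 (Tr.L 82776) (Tr.S 0 22 (Tr.S 3 3 (Tr.S 1 27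
  (Tr.L 86752) (Tr.L 83784)) (Tr.L 180363)) (Tr.L 82125))) (Tr.L 18061)) (Tr.S 1 29 (Tr.S 3 25
  (Tr.L 181448) (Tr.L 180888)) (Tr.L 181448))) (Tr.S 3 32 (Tr.L 9052) (Tr.S 0 32 (Tr.S 3 20
  (Tr.S 3 30 (Tr.S 1 31 (Tr.L 172768) (Tr.L 180888)) (Tr.L 172236)) (Tr.S 3 26 (Tr.S 1 25 (Tr.S
  0 29 (Tr.L 180888) (Tr.L 181448)) (Tr.L 180888)) (Tr.L 181448))) (Tr.S 3 20 (Tr.L 83784) (Tr.S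
  0 20 (Tr.S 3 26 (Tr.S 1 25 (Tr.S 0 27 (Tr.L 180888) (Tr.L 176800)) (Tr.L 180888)) (Tr.L
  172768)) (Tr.L 181448)))))) (Tr.S 3 18 (Tr.S 2 30 (Tr.S 0 20 (Tr.S 3 26 (Tr.L 66277) (Tr.S 3
  32 (Tr.S 1 23 (Tr.L 172768) (Tr.L 172768)) (Tr.L 172768))) (Tr.S 1 31 (Tr.S 3 25 (Tr.S 0 26
  (Tr.S 2 29 (Tr.L 181448) (Tr.L 165068)) (Tr.L 181448)) (Tr.L 180888)) (Tr.S 3 31 (Tr.S 0 32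
  (Tr.S 1 34 (Tr.L 181448) (Tr.L 181448)) (Tr.L 181448)) (Tr.L 180888)))) (Tr.S 1 25 (Tr.L
  18061) (Tr.L 165516))) (Tr.S 3 3 (Tr.S 1 25 (Tr.S 3 31 (Tr.S 3 26 (Tr.L 165516) (Tr.S 0 27
  (Tr.L 172768) (Tr.S 2 29 (Tr.L 176800) (Tr.S 0 26 (Tr.L 86752) (Tr.S 0 32 (Tr.S 1 34 (Tr.L
  180888) (Tr.L 180888)) (Tr.L 83784)))))) (Tr.S 3 16 (Tr.L 180888) (Tr.L 180888))) (Tr.S 3 25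
  (Tr.S 1 31 (Tr.S 3 30 (Tr.S 0 26 (Tr.L 82125) (Tr.L 172236)) (Tr.L 165516)) (Tr.L 165516))
  (Tr.L 180888))) (Tr.S 3 24 (Tr.S 1 25 (Tr.S 0 29 (Tr.L 180888) (Tr.S 2 34 (Tr.L 18061) (Tr.S 3
  34 (Tr.L 180888) (Tr.S 0 20 (Tr.L 172768) (Tr.S 3 32 (Tr.L 180888) (Tr.S 0 26 (Tr.L 82776)
  (Tr.L 172768))))))) (Tr.L 180888)) (Tr.L 180363)))))))) (Tr.S 1 31 (Tr.S 3 5 (Tr.S 3 24 (Tr.S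
  3 20 (Tr.L 180888) (Tr.S 0 32 (Tr.L 181448) (Tr.S 3 19 (Tr.S 0 26 (Tr.S 2 30 (Tr.S 3 32 (Tr.L
  168092) (Tr.L 181448)) (Tr.L 5468)) (Tr.S 0 23 (Tr.L 181448) (Tr.S 2 22 (Tr.L 172236) (Tr.S 3
  34 (Tr.L 173832) (Tr.S 0 20 (Tr.S 1 22 (Tr.S 2 23 (Tr.L 180363) (Tr.S 3 16 (Tr.L 169632) (Tr.L
  173832))) (Tr.L 174280)) (Tr.S 2 18 (Tr.L 181448) (Tr.L 181448))))))) (Tr.S 2 18 (Tr.S 0 20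
  (Tr.L 17067) (Tr.L 180888)) (Tr.L 180888))))) (Tr.S 3 26 (Tr.S 3 18 (Tr.L 180888) (Tr.S 2 30
  (Tr.L 180363) (Tr.S 3 22 (Tr.L 169632) (Tr.S 3 19 (Tr.S 0 32 (Tr.S 3 30 (Tr.S 2 34 (Tr.L
  116040) (Tr.L 181448)) (Tr.L 5468)) (Tr.S 0 20 (Tr.S 2 18 (Tr.L 67404) (Tr.L 69980)) (Tr.L
  181448))) (Tr.S 2 18 (Tr.L 164508) (Tr.L 180888)))))) (Tr.S 0 26 (Tr.S 3 20 (Tr.S 3 25 (Tr.S 1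
  27 (Tr.L 82664) (Tr.S 2 24 (Tr.L 83784) (Tr.L 66284))) (Tr.L 180888)) (Tr.S 2 30 (Tr.S 3 32
  (Tr.S 3 18 (Tr.L 164508) (Tr.L 165516)) (Tr.L 67404)) (Tr.S 3 32 (Tr.S 2 24 (Tr.S 1 29 (Tr.S 3
  25 (Tr.L 181448) (Tr.L 5468)) (Tr.L 22156)) (Tr.L 165516)) (Tr.L 83784)))) (Tr.S 2 30 (Tr.S 3
  18 (Tr.S 0 20 (Tr.S 3 32 (Tr.L 164508) (Tr.L 82664)) (Tr.L 181448)) (Tr.L 180363)) (Tr.S 3 18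
  (Tr.L 8940) (Tr.S 2 18 (Tr.S 3 30 (Tr.S 0 32 (Tr.S 2 34 (Tr.L 165516) (Tr.L 141128)) (Tr.L
  83784)) (Tr.L 165516)) (Tr.S 2 24 (Tr.S 3 30 (Tr.S 0 32 (Tr.S 3 20 (Tr.S 1 29 (Tr.L 172236)
  (Tr.L 180888)) (Tr.L 181448)) (Tr.L 83784)) (Tr.L 10060)) (Tr.L 180363)))))))) (Tr.S 2 18
  (Tr.S 3 30 (Tr.S 3 25 (Tr.S 0 20 (Tr.L 82664) (Tr.S 0 34 (Tr.L 66284) (Tr.S 2 34 (Tr.S 0 32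
  (Tr.L 180888) (Tr.L 82664)) (Tr.L 132749)))) (Tr.S 3 23 (Tr.L 164508) (Tr.S 0 32 (Tr.S 2 34
  (Tr.L 165516) (Tr.L 136872)) (Tr.S 3 19 (Tr.S 1 23 (Tr.L 165516) (Tr.S 0 23 (Tr.L 165516)
  (Tr.L 165516))) (Tr.L 164508))))) (Tr.S 3 25 (Tr.L 165516) (Tr.S 3 26 (Tr.L 165516) (Tr.S 3 27
  (Tr.L 165516) (Tr.S 3 29 (Tr.L 165516) (Tr.S 0 27 (Tr.L 5804) (Tr.S 0 26 (Tr.S 3 24 (Tr.S 3 20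
  (Tr.L 180888) (Tr.S 3 17 (Tr.L 5356) (Tr.L 5468))) (Tr.L 165516)) (Tr.S 3 24 (Tr.S 3 19 (Tr.S
  1 22 (Tr.L 5804) (Tr.S 0 22 (Tr.S 3 16 (Tr.L 181448) (Tr.L 181448)) (Tr.L 174280))) (Tr.L
  5804)) (Tr.L 165516))))))))) (Tr.S 3 24 (Tr.S 3 23 (Tr.L 180888) (Tr.S 0 26 (Tr.S 3 32 (Tr.S 3
  22 (Tr.L 180888) (Tr.S 2 33 (Tr.L 17613) (Tr.S 0 33 (Tr.S 3 10 (Tr.L 169240) (Tr.L 169632))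
  (Tr.L 114829)))) (Tr.L 69868)) (Tr.S 2 30 (Tr.S 0 23 (Tr.L 168092) (Tr.S 3 20 (Tr.L 168092)
  (Tr.S 0 20 (Tr.S 3 32 (Tr.L 168092) (Tr.L 172236)) (Tr.L 172236)))) (Tr.L 172236)))) (Tr.S 2
  24 (Tr.S 3 19 (Tr.S 3 32 (Tr.L 18061) (Tr.S 0 32 (Tr.S 3 26 (Tr.S 3 30 (Tr.S 2 34 (Tr.L
  181448) (Tr.L 181448)) (Tr.L 5804)) (Tr.L 172236)) (Tr.L 69868))) (Tr.S 3 16 (Tr.S 3 25 (Tr.S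
  0 26 (Tr.S 1 27 (Tr.S 3 20 (Tr.L 83784) (Tr.L 181448)) (Tr.L 176800)) (Tr.S 3 18 (Tr.L 8940)
  (Tr.S 3 30 (Tr.S 0 32 (Tr.L 172768) (Tr.L 83784)) (Tr.L 172236)))) (Tr.L 180888)) (Tr.S 3 29
  (Tr.L 180888) (Tr.S 3 18 (Tr.S 3 26 (Tr.L 5804) (Tr.S 0 26 (Tr.S 1 29 (Tr.S 3 25 (Tr.L 181448)
  (Tr.L 180888)) (Tr.L 181448)) (Tr.L 8940))) (Tr.S 3 32 (Tr.L 18061) (Tr.S 3 33 (Tr.L 180363)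
  (Tr.S 3 34 (Tr.L 17053) (Tr.S 3 30 (Tr.S 0 34 (Tr.L 180888) (Tr.S 0 20 (Tr.L 82664) (Tr.S 3 26
  (Tr.L 180888) (Tr.S 0 32 (Tr.L 172824) (Tr.L 82664))))) (Tr.S 3 3 (Tr.S 0 32 (Tr.S 2 33 (Tr.L
  18061) (Tr.L 115368)) (Tr.L 18061)) (Tr.L 180363)))))))))) (Tr.S 3 23 (Tr.L 165516) (Tr.S 3 25
  (Tr.S 0 26 (Tr.S 3 20 (Tr.L 165516) (Tr.S 3 32 (Tr.S 2 30 (Tr.L 164508) (Tr.L 165516)) (Tr.L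
  82664))) (Tr.S 3 18 (Tr.S 2 30 (Tr.S 0 23 (Tr.L 164508) (Tr.S 3 33 (Tr.S 2 23 (Tr.L 180888)
  (Tr.L 165516)) (Tr.S 2 23 (Tr.S 1 22 (Tr.L 180888) (Tr.L 180888)) (Tr.L 165516)))) (Tr.L
  165516)) (Tr.L 165516))) (Tr.S 0 32 (Tr.S 3 18 (Tr.L 164508) (Tr.S 3 17 (Tr.L 165516) (Tr.L
  165516))) (Tr.S 3 18 (Tr.S 3 17 (Tr.L 180888) (Tr.L 180888)) (Tr.S 3 32 (Tr.L 165516) (Tr.L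
  165516)))))))))) (Tr.S 3 10 (Tr.S 2 18 (Tr.S 3 30 (Tr.S 3 5 (Tr.S 0 29 (Tr.L 165516) (Tr.S 1
  29 (Tr.L 165516) (Tr.S 0 20 (Tr.S 1 22 (Tr.L 165516) (Tr.L 83784)) (Tr.S 3 19 (Tr.L 34140)
  (Tr.S 1 19 (Tr.S 0 22 (Tr.L 165516) (Tr.L 50856)) (Tr.L 180888)))))) (Tr.S 0 20 (Tr.S 3 26
  (Tr.S 1 25 (Tr.S 3 19 (Tr.L 67341) (Tr.L 50856)) (Tr.L 71464)) (Tr.L 173832)) (Tr.S 3 26 (Tr.L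
  34077) (Tr.S 3 19 (Tr.L 34077) (Tr.S 1 19 (Tr.S 3 20 (Tr.S 0 22 (Tr.L 51864) (Tr.L 50856))
  (Tr.L 34077)) (Tr.L 180888)))))) (Tr.S 3 29 (Tr.L 18061) (Tr.S 1 19 (Tr.S 3 25 (Tr.L 34476)
  (Tr.S 3 31 (Tr.S 3 24 (Tr.S 0 20 (Tr.L 173832) (Tr.S 3 23 (Tr.L 5468) (Tr.S 0 27 (Tr.L 5804)
  (Tr.S 0 29 (Tr.L 10956) (Tr.S 0 33 (Tr.L 5804) (Tr.S 0 34 (Tr.L 170136) (Tr.S 3 5 (Tr.S 0 22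
  (Tr.L 19083) (Tr.L 170136)) (Tr.S 2 27 (Tr.L 18061) (Tr.L 18061))))))))) (Tr.L 5804)) (Tr.L
  50856))) (Tr.S 3 25 (Tr.L 50856) (Tr.S 3 19 (Tr.S 1 25 (Tr.S 3 27 (Tr.L 34476) (Tr.S 2 33
  (Tr.L 50856) (Tr.S 0 33 (Tr.L 50856) (Tr.S 1 22 (Tr.S 0 23 (Tr.L 181448) (Tr.L 51864)) (Tr.S 0
  22 (Tr.S 0 27 (Tr.L 181448) (Tr.L 50856)) (Tr.L 50856)))))) (Tr.L 50856)) (Tr.S 3 31 (Tr.S 3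
  27 (Tr.L 17067) (Tr.S 0 20 (Tr.S 3 26 (Tr.L 66284) (Tr.L 173832)) (Tr.S 3 20 (Tr.S 0 26 (Tr.S
  1 25 (Tr.S 1 22 (Tr.L 180888) (Tr.L 180888)) (Tr.L 180888)) (Tr.L 8940)) (Tr.S 1 25 (Tr.S 0 32
  (Tr.S 3 26 (Tr.S 3 5 (Tr.L 165516) (Tr.L 165516)) (Tr.L 181448)) (Tr.L 181448)) (Tr.L
  180888))))) (Tr.L 50856))))))) (Tr.S 3 30 (Tr.S 3 5 (Tr.S 2 24 (Tr.S 0 32 (Tr.S 3 20 (Tr.L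
  41308) (Tr.S 3 26 (Tr.S 1 25 (Tr.L 49323) (Tr.L 50856)) (Tr.L 181448))) (Tr.S 3 26 (Tr.S 0 20
  (Tr.S 1 25 (Tr.S 1 22 (Tr.L 180363) (Tr.L 50856)) (Tr.L 50856)) (Tr.L 83784)) (Tr.S 0 26 (Tr.S
  3 20 (Tr.S 1 19 (Tr.S 2 22 (Tr.L 50856) (Tr.L 180363)) (Tr.L 180888)) (Tr.L 181448)) (Tr.L
  83784)))) (Tr.S 1 19 (Tr.L 165516) (Tr.L 180363))) (Tr.S 0 32 (Tr.S 3 25 (Tr.L 41196) (Tr.S 3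
  26 (Tr.S 1 25 (Tr.S 2 24 (Tr.L 49309) (Tr.L 49309)) (Tr.L 50856)) (Tr.L 41196))) (Tr.S 2 24
  (Tr.S 3 26 (Tr.S 1 25 (Tr.L 49309) (Tr.L 50856)) (Tr.S 0 26 (Tr.S 3 20 (Tr.S 1 19 (Tr.S 2 22
  (Tr.L 50856) (Tr.L 49309)) (Tr.L 180888)) (Tr.L 181448)) (Tr.L 42792))) (Tr.L 82125)))) (Tr.S
  2 30 (Tr.S 3 33 (Tr.S 0 32 (Tr.S 3 26 (Tr.L 165131) (Tr.S 3 20 (Tr.L 172236) (Tr.L 181448)))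
  (Tr.S 3 17 (Tr.S 3 24 (Tr.S 1 34 (Tr.L 49309) (Tr.L 49309)) (Tr.S 3 18 (Tr.S 1 19 (Tr.S 3 25
  (Tr.S 0 20 (Tr.L 173832) (Tr.L 181448)) (Tr.L 50856)) (Tr.L 180888)) (Tr.L 49323))) (Tr.S 3 24
  (Tr.S 0 26 (Tr.S 3 20 (Tr.S 1 19 (Tr.L 50856) (Tr.L 180888)) (Tr.L 181448)) (Tr.L 173832))
  (Tr.S 3 18 (Tr.S 1 19 (Tr.S 0 20 (Tr.S 3 26 (Tr.L 50856) (Tr.L 173832)) (Tr.L 83784)) (Tr.L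
  180888)) (Tr.L 82251))))) (Tr.S 3 20 (Tr.S 3 27 (Tr.L 180363) (Tr.S 0 32 (Tr.S 3 31 (Tr.L
  172236) (Tr.L 41196)) (Tr.S 0 26 (Tr.S 3 29 (Tr.L 82125) (Tr.S 3 25 (Tr.S 3 3 (Tr.L 165516)
  (Tr.L 180363)) (Tr.S 1 25 (Tr.S 2 29 (Tr.L 176268) (Tr.L 180888)) (Tr.L 69868)))) (Tr.L
  173832)))) (Tr.S 3 19 (Tr.S 3 27 (Tr.L 180363) (Tr.S 3 29 (Tr.L 49309) (Tr.S 0 32 (Tr.S 3 26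
  (Tr.S 3 3 (Tr.L 165516) (Tr.L 180363)) (Tr.L 173832)) (Tr.S 1 25 (Tr.S 0 33 (Tr.L 50856) (Tr.S
  1 33 (Tr.S 0 27 (Tr.S 3 26 (Tr.L 50856) (Tr.L 41196)) (Tr.L 50856)) (Tr.L 50856))) (Tr.L
  50856))))) (Tr.S 1 22 (Tr.S 3 25 (Tr.L 34476) (Tr.S 3 32 (Tr.L 50856) (Tr.S 3 31 (Tr.S 0 26
  (Tr.L 82664) (Tr.S 0 33 (Tr.L 82664) (Tr.S 1 27 (Tr.L 115368) (Tr.S 3 3 (Tr.S 1 33 (Tr.S 3 24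
  (Tr.S 0 20 (Tr.L 173832) (Tr.L 181448)) (Tr.L 165516)) (Tr.L 115368)) (Tr.S 3 18 (Tr.S 2 23
  (Tr.L 165516) (Tr.L 165516)) (Tr.L 180363)))))) (Tr.L 180888)))) (Tr.S 1 23 (Tr.S 3 25 (Tr.L
  34476) (Tr.S 3 32 (Tr.L 50856) (Tr.S 3 31 (Tr.S 0 20 (Tr.L 82664) (Tr.S 0 32 (Tr.S 1 33 (Tr.S
  3 3 (Tr.L 181448) (Tr.L 181448)) (Tr.L 115368)) (Tr.L 82664))) (Tr.L 180888)))) (Tr.S 1 25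
  (Tr.S 3 32 (Tr.L 50856) (Tr.S 3 31 (Tr.S 0 20 (Tr.L 82664) (Tr.S 0 32 (Tr.S 1 33 (Tr.S 3 3
  (Tr.L 181448) (Tr.L 181448)) (Tr.L 115368)) (Tr.L 82664))) (Tr.L 180888))) (Tr.S 3 24 (Tr.S 0
  32 (Tr.L 173832) (Tr.S 3 31 (Tr.L 69868) (Tr.L 50856))) (Tr.S 3 5 (Tr.S 3 18 (Tr.S 1 27 (Tr.L
  165516) (Tr.S 0 27 (Tr.L 165516) (Tr.S 2 23 (Tr.S 0 22 (Tr.S 1 33 (Tr.L 132427) (Tr.L 165516))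
  (Tr.L 166027)) (Tr.S 0 23 (Tr.S 2 22 (Tr.L 165516) (Tr.L 181448)) (Tr.L 165516))))) (Tr.L
  165516)) (Tr.S 3 23 (Tr.L 165516) (Tr.S 0 20 (Tr.S 3 26 (Tr.S 2 23 (Tr.L 170136) (Tr.L
  165516)) (Tr.S 2 23 (Tr.L 174280) (Tr.L 173832))) (Tr.S 3 25 (Tr.L 34077) (Tr.S 1 19 (Tr.S 3
  31 (Tr.S 0 23 (Tr.S 3 18 (Tr.L 169240) (Tr.L 165516)) (Tr.L 169240)) (Tr.L 169240)) (Tr.L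
  180888))))))))))))) (Tr.S 1 19 (Tr.S 3 18 (Tr.S 0 20 (Tr.S 3 32 (Tr.L 42792) (Tr.S 3 26 (Tr.S
  2 23 (Tr.L 170136) (Tr.L 84680)) (Tr.L 173832))) (Tr.S 3 27 (Tr.L 5419) (Tr.S 3 29 (Tr.L 5468)
  (Tr.S 3 31 (Tr.S 2 22 (Tr.L 5804) (Tr.L 5356)) (Tr.S 3 25 (Tr.S 0 26 (Tr.S 2 29 (Tr.L 181448)
  (Tr.S 0 22 (Tr.L 181448) (Tr.L 181448))) (Tr.L 181448)) (Tr.L 50856)))))) (Tr.S 3 26 (Tr.L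
  5804) (Tr.S 0 26 (Tr.S 3 27 (Tr.L 180363) (Tr.S 3 29 (Tr.L 18061) (Tr.S 3 31 (Tr.L 5804) (Tr.S
  3 5 (Tr.S 3 25 (Tr.L 180363) (Tr.L 50856)) (Tr.L 18061))))) (Tr.L 172236)))) (Tr.S 3 25 (Tr.L
  180888) (Tr.S 3 19 (Tr.S 3 5 (Tr.S 1 25 (Tr.S 3 24 (Tr.S 0 20 (Tr.L 172236) (Tr.L 17739))
  (Tr.L 180363)) (Tr.L 50856)) (Tr.L 18061)) (Tr.S 3 31 (Tr.S 3 3 (Tr.S 1 25 (Tr.S 0 26 (Tr.S 3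
  20 (Tr.L 82125) (Tr.L 181448)) (Tr.S 0 32 (Tr.S 3 20 (Tr.L 172236) (Tr.S 3 26 (Tr.S 2 34 (Tr.L
  181448) (Tr.L 17613)) (Tr.L 181448))) (Tr.S 3 26 (Tr.S 2 24 (Tr.L 17053) (Tr.L 165516)) (Tr.L
  82664)))) (Tr.S 3 24 (Tr.L 18061) (Tr.L 5804))) (Tr.S 3 18 (Tr.S 1 25 (Tr.S 0 26 (Tr.L 181448)
  (Tr.S 2 24 (Tr.S 3 26 (Tr.S 0 20 (Tr.L 17067) (Tr.L 17067)) (Tr.L 8940)) (Tr.L 165516))) (Tr.L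
  5804)) (Tr.L 180363))) (Tr.L 180888)))))))) (Tr.S 3 17 (Tr.S 3 30 (Tr.S 2 18 (Tr.S 0 29 (Tr.L
  165516) (Tr.S 1 29 (Tr.L 165516) (Tr.S 0 20 (Tr.S 3 26 (Tr.S 1 25 (Tr.S 2 27 (Tr.L 165516)
  (Tr.L 165516)) (Tr.L 169632)) (Tr.L 173832)) (Tr.S 3 19 (Tr.L 34077) (Tr.S 1 19 (Tr.S 3 20
  (Tr.L 34476) (Tr.L 34077)) (Tr.L 180888)))))) (Tr.S 2 24 (Tr.S 0 26 (Tr.S 3 20 (Tr.S 1 19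
  (Tr.S 3 25 (Tr.L 82125) (Tr.L 50856)) (Tr.L 180888)) (Tr.L 181448)) (Tr.S 0 32 (Tr.S 3 20
  (Tr.L 41245) (Tr.S 3 26 (Tr.S 1 25 (Tr.L 49309) (Tr.L 169632)) (Tr.L 181448))) (Tr.S 3 26
  (Tr.S 1 25 (Tr.L 49309) (Tr.L 169632)) (Tr.L 42792)))) (Tr.L 49309))) (Tr.S 2 30 (Tr.S 3 20
  (Tr.S 3 25 (Tr.L 165516) (Tr.S 3 27 (Tr.L 180363) (Tr.S 3 24 (Tr.S 0 26 (Tr.S 1 25 (Tr.L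
  82664) (Tr.L 69868)) (Tr.S 0 32 (Tr.S 3 31 (Tr.L 172236) (Tr.L 41189)) (Tr.L 173832))) (Tr.S 0
  26 (Tr.L 82125) (Tr.L 165516))))) (Tr.S 0 20 (Tr.S 3 26 (Tr.S 3 18 (Tr.S 1 19 (Tr.L 71464)
  (Tr.L 66284)) (Tr.L 165516)) (Tr.S 3 19 (Tr.L 41245) (Tr.S 3 33 (Tr.L 173832) (Tr.S 3 32 (Tr.S
  1 19 (Tr.S 2 23 (Tr.S 3 22 (Tr.L 173832) (Tr.L 174280)) (Tr.L 51864)) (Tr.L 180888)) (Tr.S 3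
  18 (Tr.L 173832) (Tr.L 173832)))))) (Tr.S 3 25 (Tr.L 34077) (Tr.S 3 18 (Tr.S 1 19 (Tr.S 3 31
  (Tr.S 0 23 (Tr.L 169240) (Tr.L 169240)) (Tr.L 169632)) (Tr.S 1 25 (Tr.S 3 31 (Tr.S 0 32 (Tr.S
  0 29 (Tr.L 165516) (Tr.L 181448)) (Tr.L 181448)) (Tr.L 180888)) (Tr.L 180888))) (Tr.S 3 26
  (Tr.L 165516) (Tr.S 0 26 (Tr.S 3 32 (Tr.S 1 34 (Tr.L 49309) (Tr.L 49309)) (Tr.L 181448)) (Tr.L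
  181448))))))) (Tr.S 1 25 (Tr.S 3 3 (Tr.S 0 26 (Tr.S 2 29 (Tr.L 18061) (Tr.L 22156)) (Tr.S 3 31
  (Tr.S 0 32 (Tr.S 3 20 (Tr.L 8940) (Tr.S 3 26 (Tr.S 2 24 (Tr.L 17053) (Tr.L 165516)) (Tr.L
  181448))) (Tr.S 3 26 (Tr.S 2 24 (Tr.L 17053) (Tr.L 165516)) (Tr.L 82664))) (Tr.S 3 19 (Tr.S 2
  18 (Tr.S 3 24 (Tr.S 0 27 (Tr.L 50856) (Tr.L 42792)) (Tr.L 165516)) (Tr.L 18061)) (Tr.L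
  50856)))) (Tr.S 0 26 (Tr.S 2 29 (Tr.S 3 24 (Tr.L 18061) (Tr.L 165516)) (Tr.L 22156)) (Tr.S 3
  31 (Tr.S 0 32 (Tr.S 3 20 (Tr.L 9003) (Tr.S 3 26 (Tr.S 2 24 (Tr.L 17067) (Tr.L 165516)) (Tr.L
  181448))) (Tr.S 3 26 (Tr.S 2 24 (Tr.L 17067) (Tr.L 165516)) (Tr.L 82664))) (Tr.S 3 19 (Tr.S 2
  18 (Tr.S 3 24 (Tr.S 0 20 (Tr.L 9997) (Tr.L 181448)) (Tr.L 165516)) (Tr.L 180363)) (Tr.L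
  50856))))) (Tr.S 3 31 (Tr.S 1 19 (Tr.S 0 32 (Tr.S 3 26 (Tr.L 5356) (Tr.S 3 20 (Tr.S 2 18 (Tr.L
  5804) (Tr.L 18061)) (Tr.L 173832))) (Tr.S 2 18 (Tr.S 3 24 (Tr.S 0 23 (Tr.S 3 20 (Tr.L 169632)
  (Tr.L 181448)) (Tr.L 84680)) (Tr.L 165516)) (Tr.S 3 18 (Tr.S 0 20 (Tr.S 2 23 (Tr.L 169632)
  (Tr.L 84680)) (Tr.L 181448)) (Tr.L 18061)))) (Tr.L 5804)) (Tr.S 3 25 (Tr.S 2 24 (Tr.S 1 19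
  (Tr.S 3 18 (Tr.S 2 22 (Tr.L 50856) (Tr.S 0 22 (Tr.L 50856) (Tr.L 50856))) (Tr.L 18061)) (Tr.L
  180888)) (Tr.L 165516)) (Tr.L 50856)))))) (Tr.S 2 18 (Tr.S 3 30 (Tr.S 0 32 (Tr.S 3 26 (Tr.S 1
  25 (Tr.L 34140) (Tr.L 50520)) (Tr.S 3 20 (Tr.S 1 19 (Tr.L 34476) (Tr.L 180888)) (Tr.L 50520)))
  (Tr.S 1 19 (Tr.S 3 20 (Tr.L 34476) (Tr.S 0 20 (Tr.S 3 23 (Tr.L 83784) (Tr.L 165516)) (Tr.L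
  83784))) (Tr.S 3 19 (Tr.S 0 20 (Tr.S 1 22 (Tr.L 83784) (Tr.L 83784)) (Tr.L 181448)) (Tr.L
  50856)))) (Tr.S 3 29 (Tr.L 18061) (Tr.S 1 19 (Tr.S 3 26 (Tr.L 5804) (Tr.S 3 27 (Tr.L 165516)
  (Tr.S 0 26 (Tr.S 3 32 (Tr.S 3 25 (Tr.S 3 5 (Tr.L 165516) (Tr.L 165516)) (Tr.L 50856)) (Tr.S 3
  20 (Tr.S 0 23 (Tr.L 83784) (Tr.L 84680)) (Tr.L 83784))) (Tr.S 3 24 (Tr.S 3 31 (Tr.S 0 32 (Tr.S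
  3 20 (Tr.L 5804) (Tr.L 169184)) (Tr.L 83784)) (Tr.L 50856)) (Tr.L 10060))))) (Tr.S 3 25 (Tr.L
  164508) (Tr.S 1 25 (Tr.S 3 19 (Tr.S 3 27 (Tr.L 34476) (Tr.S 0 20 (Tr.S 3 26 (Tr.S 1 22 (Tr.L
  83784) (Tr.L 83784)) (Tr.L 10060)) (Tr.S 3 26 (Tr.L 34140) (Tr.S 0 26 (Tr.S 0 22 (Tr.L 181448)
  (Tr.L 181448)) (Tr.L 181448))))) (Tr.S 3 34 (Tr.L 50856) (Tr.S 3 31 (Tr.S 0 32 (Tr.S 3 26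
  (Tr.S 3 5 (Tr.L 165516) (Tr.L 165516)) (Tr.L 8940)) (Tr.S 3 26 (Tr.L 66284) (Tr.S 0 26 (Tr.S 3
  20 (Tr.S 2 29 (Tr.S 3 27 (Tr.L 83784) (Tr.L 83784)) (Tr.L 22156)) (Tr.L 181448)) (Tr.L
  83784)))) (Tr.S 3 16 (Tr.L 50856) (Tr.L 50856))))) (Tr.S 3 31 (Tr.L 169632) (Tr.L 50856)))))))
  (Tr.S 3 19 (Tr.S 1 25 (Tr.S 0 20 (Tr.S 3 32 (Tr.L 41308) (Tr.S 3 26 (Tr.S 2 22 (Tr.L 83784)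
  (Tr.S 1 22 (Tr.L 83784) (Tr.L 83784))) (Tr.L 83784))) (Tr.S 2 30 (Tr.S 3 26 (Tr.L 34140) (Tr.S
  0 26 (Tr.S 3 32 (Tr.S 3 24 (Tr.L 50520) (Tr.S 3 3 (Tr.L 165068) (Tr.L 180363))) (Tr.L 181448))
  (Tr.L 181448))) (Tr.S 3 33 (Tr.L 180363) (Tr.S 3 16 (Tr.S 3 24 (Tr.S 3 3 (Tr.L 18061) (Tr.L
  180363)) (Tr.S 1 22 (Tr.S 2 33 (Tr.L 50856) (Tr.S 0 29 (Tr.L 181448) (Tr.S 2 23 (Tr.L 181448)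
  (Tr.S 3 3 (Tr.S 0 23 (Tr.S 0 26 (Tr.L 181448) (Tr.L 181448)) (Tr.L 181448)) (Tr.L 180363)))))
  (Tr.S 2 34 (Tr.L 50856) (Tr.S 0 34 (Tr.L 50856) (Tr.S 1 34 (Tr.S 2 27 (Tr.L 50856) (Tr.S 0 27
  (Tr.L 50856) (Tr.S 3 27 (Tr.S 2 22 (Tr.L 50520) (Tr.L 180363)) (Tr.L 50856)))) (Tr.L
  181448)))))) (Tr.S 1 22 (Tr.S 0 29 (Tr.L 181448) (Tr.S 2 23 (Tr.L 181448) (Tr.S 0 23 (Tr.S 0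
  26 (Tr.L 181448) (Tr.L 181448)) (Tr.L 181448)))) (Tr.S 2 34 (Tr.L 50856) (Tr.S 0 34 (Tr.L
  50856) (Tr.S 2 22 (Tr.S 3 26 (Tr.L 50520) (Tr.L 50520)) (Tr.S 0 22 (Tr.S 1 23 (Tr.L 50856)
  (Tr.S 3 27 (Tr.L 49323) (Tr.S 0 27 (Tr.S 2 23 (Tr.L 181448) (Tr.L 181448)) (Tr.L 50856))))
  (Tr.L 181448)))))))))) (Tr.S 2 24 (Tr.L 50856) (Tr.L 169632))) (Tr.S 3 20 (Tr.S 0 32 (Tr.S 3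
  25 (Tr.L 41308) (Tr.S 3 30 (Tr.L 41308) (Tr.S 2 30 (Tr.S 3 31 (Tr.L 172236) (Tr.L 41308))
  (Tr.L 172236)))) (Tr.S 0 26 (Tr.S 0 22 (Tr.S 2 23 (Tr.S 3 27 (Tr.L 82251) (Tr.S 1 27 (Tr.S 3
  29 (Tr.L 83784) (Tr.L 86220)) (Tr.L 83784))) (Tr.S 1 23 (Tr.S 3 25 (Tr.L 50856) (Tr.L 180888))
  (Tr.L 84680))) (Tr.S 2 34 (Tr.L 83784) (Tr.S 1 34 (Tr.L 83784) (Tr.S 2 22 (Tr.S 0 23 (Tr.L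
  83784) (Tr.S 3 33 (Tr.L 50856) (Tr.S 1 23 (Tr.S 3 25 (Tr.L 50856) (Tr.L 180888)) (Tr.L
  84680)))) (Tr.S 1 22 (Tr.S 0 23 (Tr.L 83784) (Tr.S 3 25 (Tr.L 50856) (Tr.S 1 25 (Tr.S 3 27
  (Tr.L 83784) (Tr.L 83784)) (Tr.L 180888)))) (Tr.L 83784)))))) (Tr.L 83784))) (Tr.S 0 20 (Tr.S
  3 32 (Tr.S 1 19 (Tr.S 3 18 (Tr.S 2 23 (Tr.S 3 3 (Tr.L 174280) (Tr.L 50856)) (Tr.L 51864))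
  (Tr.L 41308)) (Tr.L 180888)) (Tr.S 3 24 (Tr.L 83784) (Tr.S 3 27 (Tr.L 83784) (Tr.S 3 31 (Tr.S
  3 26 (Tr.S 3 18 (Tr.S 2 34 (Tr.L 83784) (Tr.S 1 22 (Tr.L 83784) (Tr.S 2 22 (Tr.S 2 24 (Tr.L
  83784) (Tr.L 83784)) (Tr.L 83784)))) (Tr.S 1 25 (Tr.S 0 27 (Tr.L 82776) (Tr.S 2 27 (Tr.L
  66284) (Tr.L 83784))) (Tr.L 69868))) (Tr.L 83784)) (Tr.S 1 19 (Tr.S 3 26 (Tr.S 3 3 (Tr.L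
  169632) (Tr.L 169632)) (Tr.S 3 18 (Tr.L 83784) (Tr.L 83784))) (Tr.L 50856)))))) (Tr.S 1 19
  (Tr.S 3 18 (Tr.S 2 30 (Tr.S 3 33 (Tr.L 34147) (Tr.S 3 34 (Tr.L 34140) (Tr.S 3 25 (Tr.S 3 3
  (Tr.L 34021) (Tr.L 34147)) (Tr.S 3 3 (Tr.S 3 31 (Tr.S 0 32 (Tr.L 165068) (Tr.L 181448)) (Tr.L
  169632)) (Tr.S 3 31 (Tr.S 0 23 (Tr.L 169632) (Tr.L 169184)) (Tr.L 169632)))))) (Tr.S 3 31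
  (Tr.L 5468) (Tr.S 3 25 (Tr.S 0 22 (Tr.L 50520) (Tr.L 50520)) (Tr.L 50856)))) (Tr.S 3 5 (Tr.S 3
  16 (Tr.S 3 25 (Tr.S 2 24 (Tr.S 0 22 (Tr.S 0 29 (Tr.L 181448) (Tr.L 180363)) (Tr.L 50520))
  (Tr.L 180363)) (Tr.S 3 31 (Tr.S 0 32 (Tr.S 2 30 (Tr.S 0 22 (Tr.L 181448) (Tr.L 181448)) (Tr.L
  180363)) (Tr.L 181448)) (Tr.L 50520))) (Tr.S 3 25 (Tr.S 0 26 (Tr.S 3 32 (Tr.S 2 24 (Tr.L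
  180363) (Tr.L 180363)) (Tr.L 181448)) (Tr.L 181448)) (Tr.S 3 31 (Tr.S 0 32 (Tr.S 3 26 (Tr.S 2
  24 (Tr.L 180363) (Tr.L 180363)) (Tr.L 181448)) (Tr.L 181448)) (Tr.L 169240)))) (Tr.S 3 16
  (Tr.S 3 3 (Tr.S 3 31 (Tr.S 0 32 (Tr.S 2 30 (Tr.S 3 26 (Tr.L 165516) (Tr.L 181448)) (Tr.L
  18061)) (Tr.L 181448)) (Tr.S 3 25 (Tr.S 2 24 (Tr.S 3 30 (Tr.S 0 32 (Tr.L 181448) (Tr.L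
  181448)) (Tr.L 18061)) (Tr.L 165516)) (Tr.L 50520))) (Tr.S 3 31 (Tr.S 0 32 (Tr.S 2 30 (Tr.S 0
  22 (Tr.L 180363) (Tr.L 181448)) (Tr.L 180363)) (Tr.L 181448)) (Tr.S 3 25 (Tr.S 2 24 (Tr.S 3 30
  (Tr.S 0 32 (Tr.L 181448) (Tr.L 181448)) (Tr.L 180363)) (Tr.L 180363)) (Tr.L 50520)))) (Tr.S 0
  26 (Tr.S 3 32 (Tr.S 2 30 (Tr.S 3 25 (Tr.L 165516) (Tr.L 169632)) (Tr.L 18061)) (Tr.L 181448))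
  (Tr.S 3 26 (Tr.S 0 32 (Tr.S 2 24 (Tr.S 3 31 (Tr.L 18061) (Tr.L 169632)) (Tr.L 165516)) (Tr.L
  181448)) (Tr.L 181448)))))) (Tr.S 3 31 (Tr.S 0 32 (Tr.S 3 26 (Tr.S 2 34 (Tr.L 181448) (Tr.S 1
  34 (Tr.L 181448) (Tr.L 181448))) (Tr.L 181448)) (Tr.L 181448)) (Tr.L 180888)))))))))))))

theorem cO8 : chk 12614 pO8
    1218370552862118319759424
    11238185536201236861353919655973216968499135 = true := by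
  decide +kernel

end Pool.Agent.H42.Pack6
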