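import Pool.Agent.H42.Pack6.Chk

set_option autoImplicit false
set_option maxRecDepth 100000

namespace Pool.Agent.H42.Pack6

def pO9 : Tr :=
  (Tr.R 13)

theorem cO9 : chk 12614 pO9
    1218370552862118319751232
    11238172243921279012195190617902611983269823 = true := by
  decide +kernel

def pO10 : Tr :=
  (Tr.R 12)

theorem cO10 : chk 12614 pO10
    1218370552580643343040576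
    11238170914693283227279242740139280075874239 = true := by
  decide +kernel

def pO11 : Tr :=
  (Tr.R 8)

theorem cO11 : chk 12614 pO11
    9444732966014168334400
    11238170831595929200992099159084263536877503 = true := by
  decide +kernel

def pO12 : Tr :=
(Tr.S 3 26 (Tr.S 0 27 (Tr.S 3 4 (Tr.S 1 30 (Tr.S 2 32 (Tr.L 103720) (Tr.L 67341)) (Tr.S 1 24
  (Tr.S 2 29 (Tr.S 2 20 (Tr.L 169632) (Tr.L 169632)) (Tr.L 169632)) (Tr.S 2 34 (Tr.L 71464)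
  (Tr.S 2 32 (Tr.S 1 33 (Tr.S 3 30 (Tr.L 165131) (Tr.L 165131)) (Tr.L 103720)) (Tr.S 3 18 (Tr.L
  18061) (Tr.L 67341)))))) (Tr.S 1 30 (Tr.S 3 5 (Tr.L 165516) (Tr.L 165516)) (Tr.S 2 32 (Tr.S 3
  34 (Tr.L 5419) (Tr.S 1 33 (Tr.S 0 34 (Tr.S 3 31 (Tr.L 169184) (Tr.L 169632)) (Tr.L 136872))
  (Tr.S 3 30 (Tr.L 169632) (Tr.L 5804)))) (Tr.S 1 29 (Tr.L 165516) (Tr.S 2 29 (Tr.S 1 24 (Tr.S 3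
  30 (Tr.L 169632) (Tr.L 169632)) (Tr.L 165516)) (Tr.L 169632)))))) (Tr.S 0 29 (Tr.S 2 27 (Tr.S
  0 31 (Tr.L 169632) (Tr.S 2 20 (Tr.L 169632) (Tr.L 169632))) (Tr.S 1 27 (Tr.S 0 19 (Tr.L
  169632) (Tr.L 169632)) (Tr.L 169632))) (Tr.S 0 19 (Tr.S 3 31 (Tr.S 3 16 (Tr.S 1 24 (Tr.L 5804)
  (Tr.S 1 30 (Tr.S 2 27 (Tr.L 169632) (Tr.S 1 27 (Tr.L 169632) (Tr.L 169632))) (Tr.L 165516)))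
  (Tr.S 2 32 (Tr.S 1 30 (Tr.L 165131) (Tr.L 5419)) (Tr.S 1 27 (Tr.L 169632) (Tr.S 1 29 (Tr.L
  169632) (Tr.S 2 29 (Tr.S 3 5 (Tr.L 83784) (Tr.L 169632)) (Tr.L 169632)))))) (Tr.L 169632))
  (Tr.S 0 31 (Tr.S 3 19 (Tr.S 2 27 (Tr.L 169632) (Tr.S 1 27 (Tr.L 169632) (Tr.L 169632))) (Tr.L
  169632)) (Tr.S 3 19 (Tr.S 1 24 (Tr.S 0 25 (Tr.S 2 27 (Tr.L 54944) (Tr.L 50856)) (Tr.L 169632))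
  (Tr.S 0 25 (Tr.S 1 33 (Tr.L 50856) (Tr.S 2 33 (Tr.L 50856) (Tr.S 2 32 (Tr.S 3 17 (Tr.L 34091)
  (Tr.L 34147)) (Tr.S 3 17 (Tr.L 67341) (Tr.S 2 27 (Tr.L 83784) (Tr.L 83784)))))) (Tr.L
  169632))) (Tr.S 0 25 (Tr.S 1 24 (Tr.S 3 31 (Tr.S 3 18 (Tr.S 3 4 (Tr.L 17067) (Tr.S 2 29 (Tr.S
  2 20 (Tr.L 176800) (Tr.L 181448)) (Tr.L 22156))) (Tr.L 17067)) (Tr.L 50856)) (Tr.S 2 23 (Tr.L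
  164515) (Tr.S 3 30 (Tr.L 50856) (Tr.S 1 30 (Tr.S 3 31 (Tr.S 3 22 (Tr.L 180363) (Tr.S 3 23
  (Tr.L 180363) (Tr.S 2 32 (Tr.S 0 33 (Tr.L 181448) (Tr.L 115368)) (Tr.S 3 5 (Tr.L 66284) (Tr.L
  66277))))) (Tr.L 164515)) (Tr.L 17067))))) (Tr.S 3 31 (Tr.S 1 30 (Tr.S 2 32 (Tr.L 164515)
  (Tr.L 169632)) (Tr.L 17067)) (Tr.L 169632)))))))) (Tr.S 2 32 (Tr.S 3 22 (Tr.S 1 18 (Tr.S 3 24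
  (Tr.L 173832) (Tr.L 173832)) (Tr.L 181448)) (Tr.S 3 23 (Tr.S 1 18 (Tr.S 0 19 (Tr.S 2 22 (Tr.L
  181448) (Tr.L 174280)) (Tr.L 181448)) (Tr.L 181448)) (Tr.S 1 18 (Tr.S 3 4 (Tr.S 3 20 (Tr.S 3
  24 (Tr.S 0 19 (Tr.S 2 23 (Tr.L 173832) (Tr.L 173832)) (Tr.L 8933)) (Tr.S 3 31 (Tr.L 18061)
  (Tr.S 0 19 (Tr.L 34469) (Tr.S 0 31 (Tr.S 2 23 (Tr.L 173832) (Tr.L 173832)) (Tr.L 50856)))))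
  (Tr.L 173832)) (Tr.S 3 24 (Tr.S 0 25 (Tr.S 3 19 (Tr.S 3 16 (Tr.L 181448) (Tr.L 181448)) (Tr.L
  8940)) (Tr.S 3 17 (Tr.S 3 20 (Tr.S 0 19 (Tr.L 5804) (Tr.L 169632)) (Tr.L 173832)) (Tr.S 3 20
  (Tr.S 0 19 (Tr.L 5804) (Tr.L 169632)) (Tr.L 169184)))) (Tr.S 3 16 (Tr.S 3 31 (Tr.L 165516)
  (Tr.S 0 31 (Tr.S 3 20 (Tr.S 1 34 (Tr.L 165516) (Tr.L 141128)) (Tr.S 3 5 (Tr.L 181448) (Tr.L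
  181448))) (Tr.S 3 20 (Tr.S 0 19 (Tr.S 2 22 (Tr.L 50856) (Tr.L 50856)) (Tr.L 50856)) (Tr.L
  42848)))) (Tr.S 3 20 (Tr.S 2 23 (Tr.L 165516) (Tr.S 0 23 (Tr.L 165516) (Tr.L 165516))) (Tr.L
  173832))))) (Tr.S 3 17 (Tr.S 3 20 (Tr.S 3 4 (Tr.S 0 31 (Tr.S 1 33 (Tr.L 140008) (Tr.L 173832))
  (Tr.S 3 30 (Tr.L 41189) (Tr.S 1 30 (Tr.S 0 34 (Tr.L 114829) (Tr.L 180363)) (Tr.L 180363))))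
  (Tr.S 0 31 (Tr.S 1 33 (Tr.S 3 30 (Tr.L 173832) (Tr.L 180363)) (Tr.L 173832)) (Tr.S 3 30 (Tr.L
  41196) (Tr.S 1 30 (Tr.S 3 31 (Tr.L 172236) (Tr.L 41196)) (Tr.L 180363))))) (Tr.L 181448))
  (Tr.S 3 20 (Tr.S 3 4 (Tr.S 0 31 (Tr.S 1 33 (Tr.L 180363) (Tr.L 173832)) (Tr.S 3 30 (Tr.L
  41189) (Tr.S 1 30 (Tr.S 0 34 (Tr.L 114829) (Tr.L 180363)) (Tr.L 180363)))) (Tr.S 0 19 (Tr.S 3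
  25 (Tr.L 41196) (Tr.S 3 31 (Tr.S 1 30 (Tr.L 172236) (Tr.L 180363)) (Tr.L 169632))) (Tr.S 1 30
  (Tr.S 3 24 (Tr.S 0 33 (Tr.S 3 31 (Tr.L 180363) (Tr.L 50856)) (Tr.L 115368)) (Tr.L 180363))
  (Tr.S 3 30 (Tr.S 0 31 (Tr.S 1 34 (Tr.L 180363) (Tr.L 180363)) (Tr.L 50856)) (Tr.L 180363)))))
  (Tr.S 3 4 (Tr.L 181448) (Tr.S 3 5 (Tr.S 3 18 (Tr.L 181448) (Tr.L 181448)) (Tr.L 181448))))))))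
  (Tr.S 3 4 (Tr.S 1 18 (Tr.S 3 30 (Tr.S 2 20 (Tr.L 173832) (Tr.S 3 19 (Tr.L 181448) (Tr.S 0 19
  (Tr.S 3 20 (Tr.L 34469) (Tr.L 50408)) (Tr.L 66347)))) (Tr.S 3 25 (Tr.L 18061) (Tr.S 2 26 (Tr.S
  3 32 (Tr.S 2 22 (Tr.S 0 25 (Tr.L 50856) (Tr.L 5419)) (Tr.L 17613)) (Tr.S 3 20 (Tr.S 2 22 (Tr.L
  18061) (Tr.S 0 22 (Tr.L 18061) (Tr.L 18061))) (Tr.L 17613))) (Tr.S 0 19 (Tr.S 3 31 (Tr.L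
  173832) (Tr.L 169632)) (Tr.S 3 32 (Tr.S 2 20 (Tr.S 0 22 (Tr.S 3 19 (Tr.L 19083) (Tr.L 8933))
  (Tr.L 18061)) (Tr.L 181448)) (Tr.S 3 19 (Tr.L 173832) (Tr.L 173832))))))) (Tr.S 2 26 (Tr.S 3
  20 (Tr.S 0 19 (Tr.S 3 31 (Tr.L 69931) (Tr.S 3 25 (Tr.S 1 24 (Tr.L 82125) (Tr.L 180363)) (Tr.L
  50856))) (Tr.S 1 24 (Tr.S 3 30 (Tr.S 0 31 (Tr.S 3 25 (Tr.L 82125) (Tr.L 82664)) (Tr.L 50856))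
  (Tr.L 180363)) (Tr.S 3 24 (Tr.S 0 25 (Tr.L 82664) (Tr.L 169632)) (Tr.L 180363)))) (Tr.S 3 31
  (Tr.L 181448) (Tr.S 3 30 (Tr.L 181448) (Tr.S 0 31 (Tr.S 1 33 (Tr.L 18061) (Tr.S 1 24 (Tr.L
  18061) (Tr.S 3 25 (Tr.S 1 29 (Tr.L 181448) (Tr.L 165131)) (Tr.S 3 19 (Tr.S 0 27 (Tr.S 3 29
  (Tr.L 169632) (Tr.L 169632)) (Tr.L 169632)) (Tr.L 169632))))) (Tr.S 3 17 (Tr.S 1 24 (Tr.S 0 27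
  (Tr.L 54944) (Tr.L 50856)) (Tr.S 3 18 (Tr.L 34091) (Tr.S 1 30 (Tr.S 3 24 (Tr.S 0 25 (Tr.L
  50408) (Tr.L 169632)) (Tr.L 180363)) (Tr.L 180363)))) (Tr.S 3 32 (Tr.S 1 24 (Tr.S 3 18 (Tr.S 0
  27 (Tr.S 3 25 (Tr.L 181448) (Tr.L 169632)) (Tr.L 50856)) (Tr.L 180363)) (Tr.S 3 18 (Tr.L
  34147) (Tr.S 1 30 (Tr.S 3 24 (Tr.S 0 25 (Tr.L 50408) (Tr.L 169632)) (Tr.L 180363)) (Tr.L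
  180363)))) (Tr.L 83784))))))) (Tr.S 1 24 (Tr.S 3 30 (Tr.L 82125) (Tr.S 3 18 (Tr.S 2 20 (Tr.S 3
  32 (Tr.S 0 25 (Tr.L 50856) (Tr.S 0 19 (Tr.L 42792) (Tr.L 8933))) (Tr.L 9997)) (Tr.L 181448))
  (Tr.L 18061))) (Tr.S 3 24 (Tr.S 1 30 (Tr.S 3 31 (Tr.L 82125) (Tr.S 0 19 (Tr.L 169632) (Tr.S 3
  32 (Tr.S 2 20 (Tr.S 0 31 (Tr.S 2 33 (Tr.L 173832) (Tr.L 173832)) (Tr.L 41189)) (Tr.L 181448))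
  (Tr.L 82125)))) (Tr.L 18061)) (Tr.S 3 32 (Tr.S 2 20 (Tr.S 3 19 (Tr.L 180363) (Tr.S 3 23 (Tr.L
  172299) (Tr.S 0 22 (Tr.L 172768) (Tr.S 1 22 (Tr.S 0 19 (Tr.L 173832) (Tr.S 0 23 (Tr.S 3 18
  (Tr.L 173832) (Tr.L 180363)) (Tr.L 173832))) (Tr.L 174280))))) (Tr.L 181448)) (Tr.S 3 20 (Tr.L
  180363) (Tr.L 173832))))))) (Tr.S 3 31 (Tr.S 0 25 (Tr.S 1 34 (Tr.L 82664) (Tr.S 3 16 (Tr.S 2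
  20 (Tr.L 83784) (Tr.S 3 20 (Tr.S 2 26 (Tr.S 1 27 (Tr.S 2 33 (Tr.L 83784) (Tr.L 83784)) (Tr.L
  83784)) (Tr.L 83784)) (Tr.L 181448))) (Tr.S 2 26 (Tr.S 3 20 (Tr.S 1 22 (Tr.L 82664) (Tr.S 1 24
  (Tr.L 180363) (Tr.S 3 24 (Tr.S 1 18 (Tr.L 82664) (Tr.L 82664)) (Tr.L 66347)))) (Tr.L 181448))
  (Tr.S 1 24 (Tr.L 172768) (Tr.L 173832))))) (Tr.S 3 16 (Tr.S 2 20 (Tr.L 83784) (Tr.S 3 20 (Tr.S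
  1 18 (Tr.S 0 19 (Tr.L 5804) (Tr.L 169632)) (Tr.L 69868)) (Tr.L 83784))) (Tr.S 2 26 (Tr.S 3 18
  (Tr.L 181448) (Tr.S 1 18 (Tr.S 3 24 (Tr.S 0 27 (Tr.L 71464) (Tr.L 71464)) (Tr.L 165516)) (Tr.L
  69868))) (Tr.L 173832)))) (Tr.S 0 19 (Tr.S 3 25 (Tr.S 3 32 (Tr.S 1 30 (Tr.S 3 22 (Tr.L 165516)
  (Tr.S 2 34 (Tr.L 50856) (Tr.S 3 18 (Tr.S 2 22 (Tr.L 50856) (Tr.S 1 22 (Tr.L 50856) (Tr.L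
  50856))) (Tr.L 49323)))) (Tr.S 2 26 (Tr.S 1 24 (Tr.S 0 29 (Tr.L 181448) (Tr.L 181448)) (Tr.S 3
  5 (Tr.L 165516) (Tr.L 165516))) (Tr.S 2 20 (Tr.S 3 22 (Tr.L 42792) (Tr.S 1 22 (Tr.S 3 18 (Tr.L
  50856) (Tr.L 180363)) (Tr.L 50856))) (Tr.S 3 16 (Tr.L 42848) (Tr.L 173832))))) (Tr.S 2 20
  (Tr.S 3 16 (Tr.L 83784) (Tr.L 173832)) (Tr.S 3 22 (Tr.L 50408) (Tr.S 3 23 (Tr.L 83784) (Tr.S 2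
  34 (Tr.L 50856) (Tr.S 1 34 (Tr.L 50856) (Tr.S 2 22 (Tr.S 3 18 (Tr.L 50856) (Tr.S 1 23 (Tr.L
  49323) (Tr.L 84680))) (Tr.S 1 22 (Tr.S 3 20 (Tr.L 50856) (Tr.S 3 17 (Tr.L 181448) (Tr.L
  181448))) (Tr.L 50856))))))))) (Tr.L 50856)) (Tr.S 0 25 (Tr.S 3 19 (Tr.S 2 33 (Tr.L 50856)
  (Tr.S 1 33 (Tr.L 50856) (Tr.S 0 33 (Tr.S 2 27 (Tr.S 3 24 (Tr.L 50856) (Tr.S 3 29 (Tr.L 50856)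
  (Tr.S 3 34 (Tr.L 42792) (Tr.S 2 34 (Tr.S 0 22 (Tr.S 2 20 (Tr.L 50856) (Tr.S 3 32 (Tr.L 50856)
  (Tr.L 181448))) (Tr.L 50856)) (Tr.L 50856))))) (Tr.S 1 27 (Tr.S 3 29 (Tr.L 50856) (Tr.S 2 29
  (Tr.S 3 17 (Tr.L 173832) (Tr.L 42848)) (Tr.L 54944))) (Tr.L 50856))) (Tr.L 50856)))) (Tr.L
  50856)) (Tr.S 0 33 (Tr.S 3 19 (Tr.L 50856) (Tr.S 3 16 (Tr.S 2 26 (Tr.S 3 32 (Tr.S 1 30 (Tr.L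
  50408) (Tr.L 50408)) (Tr.L 83784)) (Tr.L 50856)) (Tr.L 50856))) (Tr.S 0 34 (Tr.S 3 19 (Tr.L
  50856) (Tr.L 50856)) (Tr.S 3 25 (Tr.S 0 31 (Tr.S 1 34 (Tr.S 3 32 (Tr.S 1 24 (Tr.S 2 26 (Tr.L
  181448) (Tr.L 8940)) (Tr.L 164515)) (Tr.L 82664)) (Tr.S 1 22 (Tr.S 3 20 (Tr.L 82664) (Tr.S 3
  30 (Tr.L 82664) (Tr.S 3 34 (Tr.L 82664) (Tr.S 3 5 (Tr.S 3 32 (Tr.S 1 30 (Tr.L 164515) (Tr.S 2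
  20 (Tr.L 17067) (Tr.L 17067))) (Tr.L 82664)) (Tr.S 3 32 (Tr.S 1 30 (Tr.S 2 33 (Tr.L 132749)
  (Tr.L 165516)) (Tr.S 2 20 (Tr.L 17067) (Tr.L 17067))) (Tr.L 82664)))))) (Tr.S 2 20 (Tr.S 3 34
  (Tr.L 173832) (Tr.S 3 30 (Tr.L 82664) (Tr.S 1 30 (Tr.S 2 33 (Tr.L 140008) (Tr.L 115368)) (Tr.L
  17067)))) (Tr.S 3 20 (Tr.S 2 26 (Tr.S 0 27 (Tr.L 82664) (Tr.S 1 27 (Tr.L 66284) (Tr.L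
  176800))) (Tr.L 82664)) (Tr.S 3 32 (Tr.S 1 30 (Tr.S 2 33 (Tr.L 181448) (Tr.L 115368)) (Tr.L
  17067)) (Tr.L 82664)))))) (Tr.S 3 16 (Tr.S 2 26 (Tr.S 1 24 (Tr.L 50856) (Tr.L 164515)) (Tr.L
  50856)) (Tr.L 50856))) (Tr.S 3 20 (Tr.L 82664) (Tr.S 1 24 (Tr.S 3 18 (Tr.L 17067) (Tr.S 3 30
  (Tr.L 69868) (Tr.L 5804))) (Tr.S 0 31 (Tr.S 3 18 (Tr.L 164515) (Tr.S 3 23 (Tr.L 169632) (Tr.S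
  3 19 (Tr.S 1 18 (Tr.S 3 32 (Tr.S 1 33 (Tr.L 169632) (Tr.L 5804)) (Tr.S 3 16 (Tr.S 2 20 (Tr.L
  83784) (Tr.L 181448)) (Tr.S 2 20 (Tr.L 173832) (Tr.L 181448)))) (Tr.S 3 30 (Tr.L 180363) (Tr.S
  1 30 (Tr.S 3 32 (Tr.S 2 33 (Tr.L 136872) (Tr.L 169632)) (Tr.L 69868)) (Tr.L 5804)))) (Tr.S 3 5
  (Tr.S 3 24 (Tr.L 169632) (Tr.L 169632)) (Tr.L 169632))))) (Tr.L 50856)))))))))))))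

theorem cO12 : chk 12614 pO12
    166153499473426160301408503950479616
    14069335828485136940719884802296203135414015 = true := by
  decide +kernel

end Pool.Agent.H42.Pack6
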