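import Pool.Agent.H42.Pack6.Chk

set_option autoImplicit false
set_option maxRecDepth 100000

namespace Pool.Agent.H42.Pack6

def pO13 : Tr :=
(Tr.S 3 15 (Tr.S 3 5 (Tr.S 1 18 (Tr.S 3 31 (Tr.S 3 26 (Tr.L 165516) (Tr.S 2 20 (Tr.L 173832)
  (Tr.S 3 24 (Tr.S 2 32 (Tr.S 0 19 (Tr.S 1 33 (Tr.L 173832) (Tr.L 10060)) (Tr.L 9003)) (Tr.S 2
  26 (Tr.S 0 25 (Tr.L 82776) (Tr.S 0 27 (Tr.L 83784) (Tr.L 71464))) (Tr.L 173832))) (Tr.S 0 25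
  (Tr.L 17067) (Tr.L 165516))))) (Tr.S 0 31 (Tr.S 3 24 (Tr.S 3 19 (Tr.S 2 20 (Tr.L 10060) (Tr.L
  5419)) (Tr.L 5804)) (Tr.S 3 32 (Tr.L 165516) (Tr.S 2 32 (Tr.S 3 26 (Tr.S 3 30 (Tr.L 169240)
  (Tr.L 165516)) (Tr.S 3 20 (Tr.S 2 23 (Tr.L 173832) (Tr.L 173832)) (Tr.L 173832))) (Tr.S 3 25
  (Tr.L 66347) (Tr.S 3 19 (Tr.S 2 20 (Tr.L 67404) (Tr.L 83784)) (Tr.L 71464)))))) (Tr.S 2 20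
  (Tr.S 0 23 (Tr.S 3 19 (Tr.L 50856) (Tr.L 180888)) (Tr.L 51864)) (Tr.S 3 26 (Tr.L 34091) (Tr.S
  2 26 (Tr.S 3 32 (Tr.S 3 24 (Tr.S 0 25 (Tr.L 50520) (Tr.L 50856)) (Tr.L 34476)) (Tr.S 3 20
  (Tr.S 0 19 (Tr.S 2 22 (Tr.L 50856) (Tr.L 83784)) (Tr.L 180888)) (Tr.L 83784))) (Tr.S 3 20
  (Tr.S 2 32 (Tr.S 0 19 (Tr.S 2 22 (Tr.L 173832) (Tr.L 50856)) (Tr.L 180888)) (Tr.L 173832))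
  (Tr.L 50520))))))) (Tr.S 3 19 (Tr.S 0 25 (Tr.S 2 26 (Tr.S 1 27 (Tr.L 54552) (Tr.L 50856))
  (Tr.S 3 32 (Tr.L 41308) (Tr.S 2 33 (Tr.L 50856) (Tr.S 3 24 (Tr.L 41308) (Tr.S 1 24 (Tr.S 2 29
  (Tr.L 176268) (Tr.L 180363)) (Tr.L 180363)))))) (Tr.S 0 31 (Tr.S 2 20 (Tr.S 3 26 (Tr.L 69931)
  (Tr.S 3 32 (Tr.S 1 30 (Tr.L 168092) (Tr.L 180363)) (Tr.L 173832))) (Tr.S 3 32 (Tr.S 1 30 (Tr.L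
  168092) (Tr.L 180363)) (Tr.S 2 32 (Tr.S 3 26 (Tr.S 1 24 (Tr.S 0 29 (Tr.L 180363) (Tr.L
  168092)) (Tr.L 180363)) (Tr.L 173832)) (Tr.L 82251)))) (Tr.L 168092))) (Tr.S 0 19 (Tr.S 3 18
  (Tr.S 1 24 (Tr.S 2 20 (Tr.S 3 26 (Tr.L 71464) (Tr.S 1 23 (Tr.L 173832) (Tr.L 173832))) (Tr.S 3
  31 (Tr.L 5419) (Tr.S 3 25 (Tr.S 2 22 (Tr.L 50856) (Tr.L 50520)) (Tr.L 50856)))) (Tr.S 3 25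
  (Tr.S 2 26 (Tr.L 34140) (Tr.S 2 20 (Tr.S 1 23 (Tr.L 173832) (Tr.L 173832)) (Tr.L 173832)))
  (Tr.S 1 33 (Tr.L 5804) (Tr.S 2 23 (Tr.L 169240) (Tr.S 3 32 (Tr.L 50856) (Tr.S 2 20 (Tr.L
  71464) (Tr.L 169240))))))) (Tr.S 2 20 (Tr.S 3 32 (Tr.L 41308) (Tr.S 3 26 (Tr.L 69931) (Tr.L
  173832))) (Tr.S 3 20 (Tr.S 2 32 (Tr.S 3 25 (Tr.L 41308) (Tr.S 3 31 (Tr.S 1 30 (Tr.L 172299)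
  (Tr.L 180363)) (Tr.L 42792))) (Tr.S 2 26 (Tr.S 3 31 (Tr.L 69931) (Tr.S 3 25 (Tr.S 1 24 (Tr.L
  82251) (Tr.L 180363)) (Tr.L 50856))) (Tr.L 173832))) (Tr.S 3 25 (Tr.S 1 24 (Tr.S 2 26 (Tr.S 3
  32 (Tr.L 180363) (Tr.L 83784)) (Tr.L 50520)) (Tr.L 180363)) (Tr.S 3 31 (Tr.S 2 32 (Tr.S 3 26
  (Tr.S 1 24 (Tr.L 180363) (Tr.L 180363)) (Tr.L 173832)) (Tr.L 83784)) (Tr.L 169240)))))) (Tr.S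
  1 30 (Tr.S 2 32 (Tr.S 0 33 (Tr.S 3 31 (Tr.S 3 18 (Tr.L 180888) (Tr.L 180888)) (Tr.L 180888))
  (Tr.L 115368)) (Tr.S 3 26 (Tr.L 66347) (Tr.S 2 26 (Tr.S 3 20 (Tr.S 3 24 (Tr.S 0 25 (Tr.L
  82776) (Tr.L 180888)) (Tr.L 180363)) (Tr.S 3 34 (Tr.L 82776) (Tr.S 3 18 (Tr.S 1 29 (Tr.S 2 23
  (Tr.S 0 25 (Tr.L 180888) (Tr.L 165516)) (Tr.L 165131)) (Tr.L 165131)) (Tr.S 3 24 (Tr.S 0 25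
  (Tr.S 3 32 (Tr.L 180888) (Tr.L 83784)) (Tr.L 180888)) (Tr.L 180363))))) (Tr.S 3 32 (Tr.S 0 31
  (Tr.S 2 34 (Tr.L 180888) (Tr.L 180888)) (Tr.L 180888)) (Tr.L 173832))))) (Tr.S 3 18 (Tr.S 1 24
  (Tr.S 2 20 (Tr.S 3 32 (Tr.L 9003) (Tr.S 3 26 (Tr.S 0 25 (Tr.L 17067) (Tr.L 180888)) (Tr.L
  83784))) (Tr.S 0 25 (Tr.S 2 29 (Tr.L 177416) (Tr.L 180888)) (Tr.S 3 25 (Tr.S 2 26 (Tr.L 17739)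
  (Tr.L 173832)) (Tr.L 180888)))) (Tr.L 17067)) (Tr.S 3 30 (Tr.S 0 31 (Tr.S 1 24 (Tr.S 3 25
  (Tr.S 2 34 (Tr.L 180888) (Tr.S 0 29 (Tr.L 180888) (Tr.L 180888))) (Tr.L 180888)) (Tr.L
  180363)) (Tr.L 180888)) (Tr.L 180363))))))) (Tr.S 1 30 (Tr.S 0 31 (Tr.S 3 25 (Tr.S 3 22 (Tr.L
  180363) (Tr.S 3 23 (Tr.L 180363) (Tr.S 3 34 (Tr.L 164515) (Tr.S 2 34 (Tr.S 3 11 (Tr.L 98981)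
  (Tr.L 115368)) (Tr.L 180888))))) (Tr.S 3 22 (Tr.L 180888) (Tr.S 3 23 (Tr.L 180888) (Tr.S 3 18
  (Tr.S 3 10 (Tr.L 180888) (Tr.L 180888)) (Tr.S 2 33 (Tr.S 3 34 (Tr.L 83784) (Tr.L 180363))
  (Tr.L 114829)))))) (Tr.S 3 19 (Tr.S 3 24 (Tr.S 0 25 (Tr.S 2 26 (Tr.L 50520) (Tr.L 41245))
  (Tr.L 49309)) (Tr.L 180363)) (Tr.S 3 34 (Tr.S 0 22 (Tr.L 180888) (Tr.S 0 23 (Tr.L 180888)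
  (Tr.S 0 25 (Tr.L 180888) (Tr.S 3 26 (Tr.L 169632) (Tr.S 0 19 (Tr.S 3 25 (Tr.S 3 18 (Tr.S 2 20
  (Tr.L 173832) (Tr.L 34147)) (Tr.L 165516)) (Tr.L 169632)) (Tr.L 180888)))))) (Tr.S 3 25 (Tr.S
  3 20 (Tr.L 180363) (Tr.S 2 20 (Tr.S 3 32 (Tr.S 3 18 (Tr.S 1 23 (Tr.L 173832) (Tr.S 0 23 (Tr.L
  173832) (Tr.L 173832))) (Tr.L 172299)) (Tr.L 173832)) (Tr.L 34077))) (Tr.S 0 25 (Tr.S 3 10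
  (Tr.S 3 31 (Tr.S 2 32 (Tr.S 0 33 (Tr.L 180888) (Tr.L 115368)) (Tr.S 3 18 (Tr.L 66347) (Tr.S 3
  24 (Tr.S 2 26 (Tr.L 82776) (Tr.L 173832)) (Tr.L 180363)))) (Tr.L 180888)) (Tr.S 3 18 (Tr.S 3
  31 (Tr.S 2 32 (Tr.L 165131) (Tr.L 66403)) (Tr.L 180888)) (Tr.S 3 24 (Tr.S 3 31 (Tr.S 2 29
  (Tr.L 180888) (Tr.S 1 29 (Tr.L 180888) (Tr.L 180888))) (Tr.L 180888)) (Tr.L 180363)))) (Tr.S 3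
  4 (Tr.S 0 19 (Tr.S 3 32 (Tr.L 169632) (Tr.S 2 32 (Tr.S 3 26 (Tr.S 0 33 (Tr.L 132749) (Tr.L
  169632)) (Tr.S 0 33 (Tr.L 141128) (Tr.L 173832))) (Tr.S 3 24 (Tr.L 69917) (Tr.S 3 18 (Tr.S 2
  20 (Tr.L 71520) (Tr.L 83784)) (Tr.L 67341))))) (Tr.L 180888)) (Tr.S 3 31 (Tr.S 2 32 (Tr.S 3 20
  (Tr.L 172299) (Tr.S 0 33 (Tr.L 169240) (Tr.L 116040))) (Tr.S 3 24 (Tr.L 69980) (Tr.S 3 18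
  (Tr.S 2 33 (Tr.L 67341) (Tr.L 67341)) (Tr.L 165516)))) (Tr.S 3 18 (Tr.S 3 10 (Tr.S 2 32 (Tr.L
  169240) (Tr.L 50856)) (Tr.L 169632)) (Tr.L 168092))))))))) (Tr.S 1 24 (Tr.S 2 26 (Tr.S 3 32
  (Tr.S 3 4 (Tr.S 3 18 (Tr.S 0 27 (Tr.S 1 33 (Tr.S 0 34 (Tr.L 18061) (Tr.L 18061)) (Tr.L 18061))
  (Tr.L 18061)) (Tr.L 180363)) (Tr.S 3 18 (Tr.S 0 27 (Tr.S 3 25 (Tr.L 22156) (Tr.L 5468)) (Tr.L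
  18061)) (Tr.L 18061))) (Tr.S 3 22 (Tr.L 83784) (Tr.S 3 20 (Tr.S 0 25 (Tr.L 78093) (Tr.S 3 25
  (Tr.S 0 29 (Tr.S 3 10 (Tr.L 176268) (Tr.L 83784)) (Tr.L 87816)) (Tr.L 69917))) (Tr.S 0 27
  (Tr.S 3 29 (Tr.L 83784) (Tr.L 87816)) (Tr.L 177416))))) (Tr.S 3 29 (Tr.S 0 25 (Tr.S 3 31 (Tr.L
  17067) (Tr.S 3 19 (Tr.L 49309) (Tr.L 180888))) (Tr.S 3 10 (Tr.S 3 30 (Tr.S 2 32 (Tr.S 3 20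
  (Tr.S 0 19 (Tr.L 50856) (Tr.L 180888)) (Tr.L 173832)) (Tr.L 173832)) (Tr.S 3 18 (Tr.S 2 27
  (Tr.L 10060) (Tr.L 10060)) (Tr.L 172299))) (Tr.S 3 30 (Tr.S 2 32 (Tr.S 3 20 (Tr.S 0 19 (Tr.L
  169632) (Tr.L 180888)) (Tr.L 173832)) (Tr.L 173832)) (Tr.S 3 18 (Tr.S 0 19 (Tr.S 3 31 (Tr.S 2
  32 (Tr.L 173832) (Tr.L 173832)) (Tr.L 169632)) (Tr.L 180888)) (Tr.L 172299))))) (Tr.S 3 20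
  (Tr.S 3 31 (Tr.L 9997) (Tr.S 0 31 (Tr.S 2 32 (Tr.S 3 30 (Tr.L 172824) (Tr.L 9997)) (Tr.L
  173832)) (Tr.L 41245))) (Tr.S 3 4 (Tr.S 3 26 (Tr.S 2 32 (Tr.S 3 18 (Tr.S 0 25 (Tr.S 2 29 (Tr.L
  180888) (Tr.L 180888)) (Tr.L 5405)) (Tr.S 3 30 (Tr.S 0 31 (Tr.L 169240) (Tr.S 0 25 (Tr.L
  49309) (Tr.L 169632))) (Tr.L 180363))) (Tr.S 2 20 (Tr.S 0 25 (Tr.S 2 29 (Tr.S 3 30 (Tr.L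
  83784) (Tr.L 83784)) (Tr.L 87816)) (Tr.S 3 30 (Tr.L 69917) (Tr.S 3 18 (Tr.S 0 27 (Tr.L 18061)
  (Tr.L 5797)) (Tr.L 18061)))) (Tr.S 0 25 (Tr.L 83784) (Tr.L 169240)))) (Tr.S 2 20 (Tr.S 3 32
  (Tr.S 3 18 (Tr.S 0 19 (Tr.L 42848) (Tr.L 9059)) (Tr.L 18061)) (Tr.L 83784)) (Tr.S 3 23 (Tr.L
  172299) (Tr.S 0 25 (Tr.S 3 31 (Tr.L 17739) (Tr.L 42848)) (Tr.S 3 25 (Tr.S 0 31 (Tr.S 3 30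
  (Tr.S 3 11 (Tr.L 173832) (Tr.L 173832)) (Tr.L 17739)) (Tr.L 173832)) (Tr.L 173832)))))) (Tr.S
  3 26 (Tr.S 2 32 (Tr.S 3 11 (Tr.S 3 18 (Tr.S 0 25 (Tr.L 17053) (Tr.L 5475)) (Tr.S 3 30 (Tr.S 2
  29 (Tr.L 180363) (Tr.S 0 29 (Tr.L 180363) (Tr.L 180363))) (Tr.L 180363))) (Tr.S 0 25 (Tr.S 2
  27 (Tr.S 3 19 (Tr.L 50856) (Tr.L 180888)) (Tr.L 177416)) (Tr.S 3 18 (Tr.L 5419) (Tr.S 3 30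
  (Tr.S 0 31 (Tr.L 169240) (Tr.L 50856)) (Tr.L 180363))))) (Tr.S 2 20 (Tr.S 0 25 (Tr.S 2 29
  (Tr.S 3 31 (Tr.L 83784) (Tr.L 83784)) (Tr.L 87816)) (Tr.S 3 30 (Tr.L 69917) (Tr.S 3 18 (Tr.S 1
  22 (Tr.L 83784) (Tr.S 0 22 (Tr.L 83784) (Tr.L 83784))) (Tr.L 18061)))) (Tr.S 3 10 (Tr.S 0 25
  (Tr.L 83784) (Tr.L 83784)) (Tr.L 83784)))) (Tr.S 2 20 (Tr.S 3 32 (Tr.S 3 18 (Tr.S 2 27 (Tr.S 0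
  19 (Tr.L 173832) (Tr.L 9052)) (Tr.L 10060)) (Tr.L 18061)) (Tr.L 83784)) (Tr.S 3 23 (Tr.L
  172299) (Tr.S 3 31 (Tr.L 10060) (Tr.S 3 32 (Tr.L 10060) (Tr.S 2 32 (Tr.S 0 19 (Tr.L 173832)
  (Tr.S 3 18 (Tr.L 17739) (Tr.S 3 11 (Tr.L 172299) (Tr.L 172299)))) (Tr.L 83784))))))))))) (Tr.S
  3 18 (Tr.S 3 10 (Tr.S 2 20 (Tr.S 3 26 (Tr.L 18061) (Tr.L 165516)) (Tr.L 165131)) (Tr.S 0 19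
  (Tr.S 2 20 (Tr.L 18061) (Tr.L 18061)) (Tr.L 164515))) (Tr.S 3 25 (Tr.S 3 34 (Tr.L 165516)
  (Tr.S 0 31 (Tr.S 3 11 (Tr.S 1 18 (Tr.S 0 23 (Tr.S 1 29 (Tr.S 3 30 (Tr.S 2 26 (Tr.L 67341)
  (Tr.L 172824)) (Tr.L 164515)) (Tr.L 164515)) (Tr.L 164515)) (Tr.L 180363)) (Tr.S 1 18 (Tr.S 2
  22 (Tr.L 180888) (Tr.S 3 32 (Tr.L 18061) (Tr.S 2 32 (Tr.S 1 33 (Tr.L 180888) (Tr.L 173832))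
  (Tr.L 66347)))) (Tr.L 180363))) (Tr.S 1 18 (Tr.S 2 26 (Tr.S 3 20 (Tr.S 1 27 (Tr.L 83784) (Tr.L
  67341)) (Tr.L 34077)) (Tr.S 3 30 (Tr.S 2 32 (Tr.S 3 20 (Tr.S 1 33 (Tr.L 173832) (Tr.S 0 33
  (Tr.L 173832) (Tr.L 173832))) (Tr.L 173832)) (Tr.L 173832)) (Tr.L 9997))) (Tr.L 49309))))
  (Tr.S 0 25 (Tr.S 3 30 (Tr.S 1 18 (Tr.S 3 22 (Tr.L 34469) (Tr.S 3 23 (Tr.L 50856) (Tr.S 2 32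
  (Tr.S 3 20 (Tr.S 3 11 (Tr.L 180888) (Tr.L 180888)) (Tr.L 34077)) (Tr.S 3 10 (Tr.S 3 19 (Tr.S 2
  20 (Tr.L 67341) (Tr.L 83784)) (Tr.L 50856)) (Tr.S 3 19 (Tr.S 2 20 (Tr.L 67341) (Tr.L 83784))
  (Tr.L 82776)))))) (Tr.L 180363)) (Tr.S 3 31 (Tr.S 3 10 (Tr.S 1 18 (Tr.S 0 22 (Tr.S 3 24 (Tr.S
  2 26 (Tr.L 83784) (Tr.L 9003)) (Tr.L 18061)) (Tr.L 17067)) (Tr.L 180363)) (Tr.S 1 18 (Tr.S 3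
  24 (Tr.S 2 26 (Tr.L 82776) (Tr.L 9059)) (Tr.L 18061)) (Tr.L 180363))) (Tr.S 1 18 (Tr.S 3 23
  (Tr.L 50856) (Tr.S 3 29 (Tr.L 18061) (Tr.S 3 24 (Tr.S 2 26 (Tr.S 3 20 (Tr.L 82776) (Tr.S 1 27
  (Tr.L 18061) (Tr.L 18061))) (Tr.S 3 22 (Tr.L 42848) (Tr.S 3 4 (Tr.S 3 19 (Tr.S 2 20 (Tr.L
  9997) (Tr.L 173832)) (Tr.L 42848)) (Tr.S 2 34 (Tr.L 18061) (Tr.S 0 34 (Tr.L 18061) (Tr.S 2 22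
  (Tr.S 3 20 (Tr.L 18061) (Tr.L 173832)) (Tr.S 1 27 (Tr.L 18061) (Tr.L 18061)))))))) (Tr.S 3 4
  (Tr.L 18061) (Tr.L 18061))))) (Tr.L 49309)))) (Tr.S 1 18 (Tr.S 0 19 (Tr.S 3 31 (Tr.S 3 24
  (Tr.S 2 20 (Tr.L 173832) (Tr.S 3 22 (Tr.L 5475) (Tr.S 2 22 (Tr.S 3 23 (Tr.L 18061) (Tr.L
  19083)) (Tr.L 18061)))) (Tr.L 18061)) (Tr.S 3 10 (Tr.S 3 20 (Tr.L 50856) (Tr.L 50856)) (Tr.S 3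
  20 (Tr.L 169632) (Tr.L 169632)))) (Tr.S 3 22 (Tr.L 169632) (Tr.S 3 30 (Tr.S 2 32 (Tr.S 3 23
  (Tr.L 180888) (Tr.S 3 20 (Tr.S 3 10 (Tr.L 180888) (Tr.L 180888)) (Tr.S 0 31 (Tr.L 169240)
  (Tr.L 169240)))) (Tr.S 3 23 (Tr.L 71464) (Tr.S 3 11 (Tr.S 3 19 (Tr.S 2 20 (Tr.L 67341) (Tr.L
  83784)) (Tr.L 169632)) (Tr.S 0 31 (Tr.S 3 19 (Tr.S 2 20 (Tr.L 67341) (Tr.L 83784)) (Tr.L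
  71464)) (Tr.L 50856))))) (Tr.S 3 4 (Tr.S 3 19 (Tr.S 2 32 (Tr.L 5405) (Tr.S 2 22 (Tr.L 18061)
  (Tr.S 0 22 (Tr.L 18061) (Tr.L 18061)))) (Tr.L 169632)) (Tr.S 3 24 (Tr.S 3 23 (Tr.L 5804) (Tr.S
  2 26 (Tr.S 3 32 (Tr.L 5468) (Tr.S 3 20 (Tr.S 3 10 (Tr.L 180888) (Tr.L 180888)) (Tr.L 83784)))
  (Tr.S 3 11 (Tr.S 3 19 (Tr.S 2 20 (Tr.L 10060) (Tr.L 173832)) (Tr.L 169632)) (Tr.S 3 19 (Tr.S 2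
  20 (Tr.L 10060) (Tr.L 173832)) (Tr.L 172824))))) (Tr.L 165516)))))) (Tr.S 3 32 (Tr.L 18061)
  (Tr.S 3 31 (Tr.L 18061) (Tr.S 0 31 (Tr.S 3 24 (Tr.L 180363) (Tr.S 3 11 (Tr.S 3 19 (Tr.S 2 20
  (Tr.L 180363) (Tr.L 180363)) (Tr.L 180888)) (Tr.L 180363))) (Tr.L 49309))))))))))) (Tr.S 3 4
  (Tr.S 0 31 (Tr.S 3 26 (Tr.S 3 19 (Tr.S 1 30 (Tr.L 180363) (Tr.S 2 20 (Tr.S 1 18 (Tr.L 67341)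
  (Tr.L 69917)) (Tr.S 2 32 (Tr.S 3 30 (Tr.L 169240) (Tr.L 5405)) (Tr.L 169240)))) (Tr.L 169632))
  (Tr.S 3 18 (Tr.S 3 25 (Tr.S 2 22 (Tr.L 180888) (Tr.S 2 32 (Tr.L 181448) (Tr.S 2 20 (Tr.S 0 23
  (Tr.L 172768) (Tr.L 172768)) (Tr.S 2 26 (Tr.S 3 32 (Tr.S 2 34 (Tr.L 180888) (Tr.S 1 34 (Tr.L
  181448) (Tr.L 181448))) (Tr.L 181448)) (Tr.L 181448))))) (Tr.L 180888)) (Tr.S 1 18 (Tr.S 3 25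
  (Tr.S 3 32 (Tr.L 18061) (Tr.S 2 32 (Tr.S 3 30 (Tr.L 172768) (Tr.L 164515)) (Tr.L 66277)))
  (Tr.S 3 19 (Tr.S 2 32 (Tr.L 173832) (Tr.S 2 20 (Tr.S 0 23 (Tr.L 173832) (Tr.L 173832)) (Tr.S 3
  32 (Tr.L 5405) (Tr.L 181448)))) (Tr.L 169632))) (Tr.S 2 32 (Tr.S 3 19 (Tr.L 173832) (Tr.S 3 20
  (Tr.S 3 25 (Tr.S 1 34 (Tr.S 3 30 (Tr.L 173832) (Tr.L 180363)) (Tr.L 180888)) (Tr.L 180888))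
  (Tr.L 181448))) (Tr.S 3 32 (Tr.S 1 30 (Tr.S 2 34 (Tr.L 114829) (Tr.L 180363)) (Tr.L 18061))
  (Tr.S 2 26 (Tr.S 3 20 (Tr.S 3 25 (Tr.S 1 24 (Tr.L 82125) (Tr.L 180363)) (Tr.L 180888)) (Tr.L
  181448)) (Tr.L 173832))))))) (Tr.S 3 32 (Tr.S 1 24 (Tr.S 3 18 (Tr.S 0 25 (Tr.L 180888) (Tr.S 3
  25 (Tr.S 2 26 (Tr.L 17613) (Tr.S 2 27 (Tr.L 18061) (Tr.L 9997))) (Tr.L 5797))) (Tr.L 18061))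
  (Tr.S 2 26 (Tr.S 3 18 (Tr.L 34077) (Tr.S 3 25 (Tr.L 34077) (Tr.S 0 25 (Tr.S 3 19 (Tr.S 3 24
  (Tr.S 1 27 (Tr.L 54944) (Tr.L 177416)) (Tr.L 34077)) (Tr.L 180888)) (Tr.L 169632)))) (Tr.S 2
  20 (Tr.S 3 24 (Tr.S 0 25 (Tr.S 3 19 (Tr.S 1 18 (Tr.L 9997) (Tr.L 41189)) (Tr.L 172768)) (Tr.L
  169632)) (Tr.S 1 30 (Tr.S 3 18 (Tr.S 0 33 (Tr.L 34469) (Tr.L 34469)) (Tr.L 49309)) (Tr.L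
  18061))) (Tr.L 173832)))) (Tr.S 2 32 (Tr.S 3 31 (Tr.S 1 24 (Tr.S 3 18 (Tr.S 3 26 (Tr.S 0 25
  (Tr.S 2 29 (Tr.L 181448) (Tr.L 181448)) (Tr.L 5405)) (Tr.L 9997)) (Tr.L 180363)) (Tr.S 3 24
  (Tr.S 3 11 (Tr.S 3 20 (Tr.S 0 27 (Tr.L 173832) (Tr.S 1 33 (Tr.L 18061) (Tr.S 1 30 (Tr.S 0 34
  (Tr.L 114829) (Tr.L 180363)) (Tr.L 9997)))) (Tr.L 173832)) (Tr.S 3 20 (Tr.S 1 33 (Tr.L 173832)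
  (Tr.S 0 33 (Tr.S 0 19 (Tr.L 173832) (Tr.L 173832)) (Tr.L 173832))) (Tr.L 173832))) (Tr.S 1 30
  (Tr.S 3 18 (Tr.S 0 34 (Tr.S 0 19 (Tr.L 181448) (Tr.L 181448)) (Tr.L 132749)) (Tr.L 180363))
  (Tr.L 18061)))) (Tr.S 1 30 (Tr.S 3 18 (Tr.L 34077) (Tr.S 3 24 (Tr.L 41189) (Tr.L 180363)))
  (Tr.S 3 20 (Tr.S 0 19 (Tr.S 3 25 (Tr.S 1 18 (Tr.L 34469) (Tr.L 41189)) (Tr.L 169632)) (Tr.L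
  180888)) (Tr.S 3 24 (Tr.L 173832) (Tr.S 3 25 (Tr.L 173832) (Tr.S 0 25 (Tr.S 3 19 (Tr.S 1 24
  (Tr.S 3 26 (Tr.L 49309) (Tr.L 181448)) (Tr.L 34077)) (Tr.L 180888)) (Tr.L 169632))))))) (Tr.S
  1 24 (Tr.S 0 25 (Tr.S 3 18 (Tr.S 3 29 (Tr.L 17067) (Tr.S 2 29 (Tr.S 3 26 (Tr.L 180888) (Tr.L
  173832)) (Tr.L 180888))) (Tr.S 3 30 (Tr.S 3 19 (Tr.S 2 20 (Tr.S 1 22 (Tr.L 82125) (Tr.L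
  82125)) (Tr.L 181448)) (Tr.L 180888)) (Tr.L 180363))) (Tr.S 3 19 (Tr.L 49309) (Tr.S 3 18 (Tr.S
  2 22 (Tr.L 181448) (Tr.S 2 23 (Tr.L 17613) (Tr.S 2 26 (Tr.L 181448) (Tr.S 3 26 (Tr.S 0 27
  (Tr.L 18061) (Tr.L 5797)) (Tr.L 173832))))) (Tr.S 3 30 (Tr.S 0 19 (Tr.S 1 22 (Tr.S 3 25 (Tr.S
  2 26 (Tr.L 82125) (Tr.L 173832)) (Tr.L 49309)) (Tr.L 49309)) (Tr.L 180888)) (Tr.L 18061)))))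
  (Tr.S 3 31 (Tr.S 0 25 (Tr.S 3 26 (Tr.L 66333) (Tr.S 2 26 (Tr.S 3 20 (Tr.S 3 24 (Tr.S 1 29
  (Tr.L 176800) (Tr.L 180888)) (Tr.L 66277)) (Tr.L 181448)) (Tr.L 173832))) (Tr.S 0 19 (Tr.S 2
  20 (Tr.S 3 26 (Tr.S 1 30 (Tr.S 2 33 (Tr.L 67341) (Tr.L 67341)) (Tr.L 18061)) (Tr.L 173832))
  (Tr.S 3 20 (Tr.S 1 18 (Tr.L 5797) (Tr.L 69917)) (Tr.L 169240))) (Tr.L 169632))) (Tr.S 3 17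
  (Tr.S 2 26 (Tr.S 3 24 (Tr.S 0 25 (Tr.S 3 20 (Tr.L 180888) (Tr.L 181448)) (Tr.L 169632)) (Tr.S
  3 20 (Tr.S 0 19 (Tr.S 1 18 (Tr.L 34469) (Tr.L 180363)) (Tr.L 180888)) (Tr.L 50408))) (Tr.S 3
  26 (Tr.S 0 25 (Tr.S 2 20 (Tr.S 3 19 (Tr.S 1 18 (Tr.L 67341) (Tr.L 180363)) (Tr.L 50856)) (Tr.L
  181448)) (Tr.L 169632)) (Tr.L 173832))) (Tr.S 3 11 (Tr.S 2 26 (Tr.S 3 20 (Tr.S 0 25 (Tr.L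
  180888) (Tr.S 3 25 (Tr.S 1 27 (Tr.L 83784) (Tr.L 67341)) (Tr.L 169632))) (Tr.L 83784)) (Tr.S 3
  26 (Tr.S 0 25 (Tr.S 2 20 (Tr.S 3 19 (Tr.S 1 18 (Tr.L 67341) (Tr.L 180363)) (Tr.L 82776)) (Tr.L
  181448)) (Tr.L 169632)) (Tr.L 173832))) (Tr.S 2 26 (Tr.S 3 20 (Tr.S 0 25 (Tr.L 180888) (Tr.S 3
  25 (Tr.S 1 27 (Tr.L 83784) (Tr.L 67341)) (Tr.L 169632))) (Tr.L 83784)) (Tr.S 3 26 (Tr.S 0 25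
  (Tr.S 2 20 (Tr.S 3 19 (Tr.S 1 18 (Tr.L 67341) (Tr.L 180363)) (Tr.L 50856)) (Tr.L 181448))
  (Tr.L 169632)) (Tr.L 173832)))))))))) (Tr.S 3 11 (Tr.S 1 18 (Tr.S 3 25 (Tr.S 3 30 (Tr.S 2 29
  (Tr.L 165516) (Tr.S 2 32 (Tr.S 3 20 (Tr.S 2 23 (Tr.L 165516) (Tr.S 0 23 (Tr.L 180888) (Tr.L
  165516))) (Tr.L 165068)) (Tr.S 0 19 (Tr.S 2 23 (Tr.S 3 20 (Tr.L 83784) (Tr.L 181448)) (Tr.L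
  165516)) (Tr.L 66277)))) (Tr.L 165516)) (Tr.S 0 25 (Tr.S 3 30 (Tr.S 3 19 (Tr.S 0 22 (Tr.L
  34469) (Tr.S 0 23 (Tr.L 34469) (Tr.S 2 23 (Tr.L 181448) (Tr.L 51864)))) (Tr.L 34469)) (Tr.S 3
  24 (Tr.S 3 31 (Tr.S 2 26 (Tr.S 1 27 (Tr.L 83784) (Tr.L 83784)) (Tr.L 9052)) (Tr.S 3 20 (Tr.L
  180888) (Tr.S 2 26 (Tr.L 50520) (Tr.S 2 20 (Tr.S 3 19 (Tr.L 10060) (Tr.L 172768)) (Tr.L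
  181448))))) (Tr.L 18061))) (Tr.S 2 20 (Tr.S 0 19 (Tr.L 169632) (Tr.S 3 19 (Tr.S 0 22 (Tr.S 3
  24 (Tr.L 169632) (Tr.L 169632)) (Tr.L 170136)) (Tr.L 169632))) (Tr.S 3 32 (Tr.L 5468) (Tr.S 2
  32 (Tr.S 3 26 (Tr.S 2 23 (Tr.S 1 29 (Tr.S 2 27 (Tr.L 165516) (Tr.L 165516)) (Tr.L 165516))
  (Tr.L 165068)) (Tr.S 3 20 (Tr.S 0 19 (Tr.S 2 23 (Tr.L 169632) (Tr.L 169632)) (Tr.L 180888))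
  (Tr.L 169184))) (Tr.S 3 20 (Tr.S 0 19 (Tr.S 2 23 (Tr.L 169632) (Tr.L 169632)) (Tr.L 180888))
  (Tr.L 83784))))))) (Tr.S 0 19 (Tr.S 3 24 (Tr.S 1 23 (Tr.S 0 29 (Tr.S 1 27 (Tr.L 169632) (Tr.L
  169632)) (Tr.L 169632)) (Tr.L 168092)) (Tr.S 1 24 (Tr.S 3 30 (Tr.S 3 26 (Tr.L 169632) (Tr.S 2
  26 (Tr.S 3 25 (Tr.L 82125) (Tr.L 71520)) (Tr.L 41308))) (Tr.S 3 20 (Tr.L 18061) (Tr.S 3 22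
  (Tr.L 18061) (Tr.S 2 20 (Tr.S 3 32 (Tr.S 1 22 (Tr.L 51864) (Tr.L 18061)) (Tr.S 1 22 (Tr.L
  84680) (Tr.L 83784))) (Tr.S 3 31 (Tr.L 5468) (Tr.S 3 25 (Tr.S 2 22 (Tr.S 3 18 (Tr.L 50520)
  (Tr.L 18061)) (Tr.L 50520)) (Tr.L 50520))))))) (Tr.S 3 30 (Tr.L 165516) (Tr.S 1 30 (Tr.S 3 25
  (Tr.S 3 18 (Tr.S 1 22 (Tr.L 34469) (Tr.S 2 22 (Tr.L 50520) (Tr.L 34973))) (Tr.L 165516)) (Tr.S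
  3 18 (Tr.S 3 31 (Tr.S 2 23 (Tr.L 169632) (Tr.S 1 23 (Tr.L 169632) (Tr.L 169632))) (Tr.L
  169632)) (Tr.L 165516))) (Tr.L 165516))))) (Tr.S 3 19 (Tr.S 0 31 (Tr.S 2 20 (Tr.S 3 30 (Tr.L
  69861) (Tr.S 1 30 (Tr.S 3 24 (Tr.S 3 32 (Tr.L 168092) (Tr.L 71520)) (Tr.L 165516)) (Tr.L
  168092))) (Tr.S 3 16 (Tr.S 1 30 (Tr.S 3 24 (Tr.S 2 26 (Tr.S 0 29 (Tr.L 169184) (Tr.L 169184))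
  (Tr.L 169184)) (Tr.L 165516)) (Tr.S 3 30 (Tr.S 2 32 (Tr.L 169184) (Tr.L 181448)) (Tr.L
  168092))) (Tr.S 1 30 (Tr.S 3 24 (Tr.S 2 26 (Tr.S 0 29 (Tr.L 169240) (Tr.L 169240)) (Tr.L
  173832)) (Tr.L 165516)) (Tr.S 3 30 (Tr.S 2 32 (Tr.L 169240) (Tr.L 181448)) (Tr.L 168092)))))
  (Tr.S 0 25 (Tr.S 2 26 (Tr.S 1 29 (Tr.S 3 24 (Tr.L 181448) (Tr.L 165516)) (Tr.L 181448)) (Tr.S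
  3 24 (Tr.L 41308) (Tr.S 1 24 (Tr.S 2 29 (Tr.S 3 27 (Tr.L 180363) (Tr.L 176268)) (Tr.L 54944))
  (Tr.L 165516)))) (Tr.L 168092))) (Tr.S 1 24 (Tr.S 2 26 (Tr.S 0 25 (Tr.L 180888) (Tr.S 3 25
  (Tr.S 0 27 (Tr.L 180888) (Tr.L 176800)) (Tr.L 180888))) (Tr.S 3 32 (Tr.L 9052) (Tr.S 2 32
  (Tr.S 3 20 (Tr.S 2 29 (Tr.S 1 23 (Tr.S 3 25 (Tr.L 180888) (Tr.L 172768)) (Tr.L 172236)) (Tr.L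
  172236)) (Tr.S 3 26 (Tr.S 0 25 (Tr.S 2 29 (Tr.L 180888) (Tr.L 181448)) (Tr.L 180888)) (Tr.L
  181448))) (Tr.S 3 20 (Tr.L 83784) (Tr.S 2 20 (Tr.S 3 27 (Tr.L 83784) (Tr.S 3 18 (Tr.S 3 26
  (Tr.S 0 25 (Tr.S 0 22 (Tr.L 83784) (Tr.L 180888)) (Tr.L 180888)) (Tr.L 83784)) (Tr.S 3 30
  (Tr.S 3 26 (Tr.S 0 25 (Tr.L 180888) (Tr.L 180888)) (Tr.L 83784)) (Tr.L 18061)))) (Tr.L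
  181448)))))) (Tr.S 3 18 (Tr.S 1 30 (Tr.S 2 20 (Tr.S 3 26 (Tr.L 66277) (Tr.S 3 32 (Tr.S 0 23
  (Tr.L 172768) (Tr.L 172768)) (Tr.L 172768))) (Tr.S 0 31 (Tr.S 3 25 (Tr.S 2 26 (Tr.S 1 29 (Tr.L
  181448) (Tr.L 165068)) (Tr.L 181448)) (Tr.L 180888)) (Tr.S 3 31 (Tr.S 2 32 (Tr.L 165068) (Tr.L
  181448)) (Tr.L 180888)))) (Tr.S 0 25 (Tr.L 18061) (Tr.L 165516))) (Tr.S 3 3 (Tr.S 2 20 (Tr.S 3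
  26 (Tr.L 165516) (Tr.S 3 32 (Tr.S 3 24 (Tr.S 0 25 (Tr.L 180888) (Tr.L 180888)) (Tr.L 165516))
  (Tr.L 172768))) (Tr.S 3 20 (Tr.S 2 26 (Tr.S 3 24 (Tr.S 0 25 (Tr.S 1 27 (Tr.L 83784) (Tr.L
  83784)) (Tr.L 180888)) (Tr.L 82125)) (Tr.S 2 32 (Tr.S 3 24 (Tr.S 0 25 (Tr.S 2 29 (Tr.L 180888)
  (Tr.L 172768)) (Tr.L 180888)) (Tr.L 172236)) (Tr.L 172768))) (Tr.S 1 30 (Tr.S 0 31 (Tr.S 3 25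
  (Tr.L 165516) (Tr.L 180888)) (Tr.S 3 31 (Tr.S 2 32 (Tr.S 3 26 (Tr.L 165516) (Tr.L 181448))
  (Tr.L 181448)) (Tr.L 180888))) (Tr.S 3 16 (Tr.S 3 25 (Tr.S 0 31 (Tr.S 3 30 (Tr.S 2 32 (Tr.L
  181448) (Tr.L 181448)) (Tr.L 165516)) (Tr.L 180888)) (Tr.S 0 25 (Tr.S 3 31 (Tr.S 2 32 (Tr.S 3
  24 (Tr.L 181448) (Tr.L 165516)) (Tr.L 181448)) (Tr.L 180888)) (Tr.L 180888))) (Tr.S 3 30 (Tr.S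
  2 32 (Tr.S 3 26 (Tr.S 0 25 (Tr.L 180888) (Tr.L 180888)) (Tr.L 181448)) (Tr.L 181448)) (Tr.L
  17613)))))) (Tr.S 3 24 (Tr.S 0 25 (Tr.S 2 29 (Tr.L 180888) (Tr.S 1 29 (Tr.L 180888) (Tr.L
  180888))) (Tr.L 180888)) (Tr.L 180363)))))))) (Tr.S 0 31 (Tr.S 3 5 (Tr.S 3 26 (Tr.S 3 18 (Tr.L
  180888) (Tr.S 1 30 (Tr.L 180363) (Tr.S 3 22 (Tr.L 169632) (Tr.S 3 19 (Tr.S 2 32 (Tr.S 3 30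
  (Tr.S 1 33 (Tr.L 136872) (Tr.L 116040)) (Tr.L 5468)) (Tr.S 2 20 (Tr.S 1 18 (Tr.L 67404) (Tr.L
  69868)) (Tr.L 181448))) (Tr.S 2 20 (Tr.L 82664) (Tr.L 180888)))))) (Tr.S 2 26 (Tr.S 3 20 (Tr.S
  3 25 (Tr.S 0 27 (Tr.L 82664) (Tr.S 1 24 (Tr.L 176268) (Tr.L 66284))) (Tr.L 180888)) (Tr.S 3 19
  (Tr.S 3 32 (Tr.S 1 30 (Tr.L 168092) (Tr.L 5468)) (Tr.L 181448)) (Tr.S 3 32 (Tr.S 3 25 (Tr.S 2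
  34 (Tr.L 180888) (Tr.S 1 34 (Tr.L 180888) (Tr.L 180888))) (Tr.L 180888)) (Tr.L 181448))))
  (Tr.S 3 32 (Tr.S 2 23 (Tr.L 181448) (Tr.S 2 20 (Tr.S 3 25 (Tr.S 1 30 (Tr.S 0 23 (Tr.L 165516)
  (Tr.L 180888)) (Tr.L 9052)) (Tr.S 3 18 (Tr.L 180888) (Tr.S 1 22 (Tr.L 172236) (Tr.S 1 30 (Tr.L
  168092) (Tr.S 1 33 (Tr.L 5804) (Tr.L 5804)))))) (Tr.S 1 30 (Tr.L 181448) (Tr.L 181448))))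
  (Tr.S 2 32 (Tr.S 3 20 (Tr.S 3 25 (Tr.S 1 30 (Tr.L 180363) (Tr.S 3 30 (Tr.S 1 34 (Tr.L 115368)
  (Tr.L 180888)) (Tr.L 8940))) (Tr.L 180888)) (Tr.L 181448)) (Tr.S 3 16 (Tr.S 1 30 (Tr.S 2 34
  (Tr.L 83784) (Tr.L 141128)) (Tr.L 83784)) (Tr.L 173832)))))) (Tr.S 3 16 (Tr.S 3 18 (Tr.S 3 25
  (Tr.S 2 22 (Tr.L 180888) (Tr.S 2 32 (Tr.L 181448) (Tr.S 2 26 (Tr.S 3 32 (Tr.S 1 22 (Tr.L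
  180888) (Tr.S 0 29 (Tr.L 181448) (Tr.L 181448))) (Tr.L 181448)) (Tr.S 2 20 (Tr.S 3 32 (Tr.S 1
  30 (Tr.S 0 22 (Tr.L 180888) (Tr.L 180888)) (Tr.L 9052)) (Tr.L 82664)) (Tr.L 181448))))) (Tr.L
  180888)) (Tr.S 1 18 (Tr.S 3 25 (Tr.S 3 30 (Tr.S 2 32 (Tr.L 172768) (Tr.L 66277)) (Tr.L
  165516)) (Tr.S 3 19 (Tr.S 2 20 (Tr.S 0 22 (Tr.S 3 24 (Tr.L 169632) (Tr.L 169632)) (Tr.L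
  170136)) (Tr.S 3 24 (Tr.L 5468) (Tr.S 3 30 (Tr.S 2 32 (Tr.L 169184) (Tr.L 181448)) (Tr.L
  165516)))) (Tr.L 169632))) (Tr.S 3 19 (Tr.S 2 20 (Tr.S 3 26 (Tr.L 69980) (Tr.S 3 32 (Tr.S 1 30
  (Tr.L 168092) (Tr.L 18061)) (Tr.L 71520))) (Tr.S 1 30 (Tr.S 3 24 (Tr.S 2 34 (Tr.S 3 32 (Tr.L
  181448) (Tr.L 181448)) (Tr.L 181448)) (Tr.L 165516)) (Tr.S 3 30 (Tr.S 2 32 (Tr.L 169184) (Tr.L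
  181448)) (Tr.L 168092)))) (Tr.S 3 25 (Tr.S 1 24 (Tr.S 2 29 (Tr.L 172236) (Tr.S 3 32 (Tr.L
  18061) (Tr.S 2 26 (Tr.L 82125) (Tr.L 172236)))) (Tr.L 165516)) (Tr.L 180888))))) (Tr.S 3 26
  (Tr.S 3 18 (Tr.L 180888) (Tr.S 1 30 (Tr.L 165516) (Tr.S 3 22 (Tr.L 169632) (Tr.S 3 19 (Tr.S 2
  32 (Tr.S 1 23 (Tr.L 169240) (Tr.S 1 29 (Tr.L 169240) (Tr.S 3 33 (Tr.L 5419) (Tr.S 1 27 (Tr.L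
  103720) (Tr.S 2 23 (Tr.S 0 22 (Tr.L 181448) (Tr.L 181448)) (Tr.S 3 34 (Tr.L 181448) (Tr.L
  181448))))))) (Tr.S 2 20 (Tr.S 1 18 (Tr.L 67341) (Tr.L 69868)) (Tr.L 181448))) (Tr.S 2 20
  (Tr.L 82664) (Tr.L 180888)))))) (Tr.S 2 26 (Tr.S 3 20 (Tr.S 3 25 (Tr.S 0 27 (Tr.L 82664) (Tr.S
  1 24 (Tr.L 176268) (Tr.L 66284))) (Tr.L 180888)) (Tr.S 3 34 (Tr.L 181448) (Tr.S 3 19 (Tr.S 3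
  32 (Tr.S 1 23 (Tr.L 169240) (Tr.S 2 22 (Tr.L 181448) (Tr.S 1 18 (Tr.L 17613) (Tr.S 0 23 (Tr.L
  181448) (Tr.L 168092))))) (Tr.L 181448)) (Tr.S 3 25 (Tr.S 3 32 (Tr.S 1 29 (Tr.L 181448) (Tr.S
  0 29 (Tr.L 181448) (Tr.L 181448))) (Tr.L 181448)) (Tr.L 180888))))) (Tr.S 3 25 (Tr.S 1 18
  (Tr.S 3 30 (Tr.S 2 32 (Tr.S 1 33 (Tr.L 173832) (Tr.L 173832)) (Tr.L 173832)) (Tr.L 165516))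
  (Tr.S 3 18 (Tr.S 2 20 (Tr.S 3 32 (Tr.S 1 30 (Tr.S 0 22 (Tr.L 180888) (Tr.L 180888)) (Tr.L
  8940)) (Tr.L 82664)) (Tr.L 181448)) (Tr.S 1 24 (Tr.S 3 30 (Tr.S 2 29 (Tr.L 172236) (Tr.L
  172236)) (Tr.L 172236)) (Tr.L 165516)))) (Tr.S 3 18 (Tr.L 180888) (Tr.S 3 20 (Tr.L 180888)
  (Tr.S 2 20 (Tr.S 3 22 (Tr.L 169632) (Tr.S 3 23 (Tr.L 172824) (Tr.S 3 33 (Tr.L 173832) (Tr.S 3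
  19 (Tr.S 1 23 (Tr.L 173832) (Tr.S 1 24 (Tr.L 172236) (Tr.S 3 30 (Tr.L 173832) (Tr.S 1 18 (Tr.L
  9997) (Tr.L 172236))))) (Tr.S 1 18 (Tr.S 0 22 (Tr.L 180888) (Tr.L 174280)) (Tr.L 180888))))))
  (Tr.L 181448))))))))) (Tr.S 3 10 (Tr.S 3 32 (Tr.S 1 30 (Tr.S 3 5 (Tr.S 2 26 (Tr.S 3 18 (Tr.L
  34091) (Tr.S 3 24 (Tr.S 0 25 (Tr.L 50520) (Tr.L 50856)) (Tr.L 180363))) (Tr.S 2 20 (Tr.S 3 24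
  (Tr.L 41308) (Tr.S 3 18 (Tr.S 0 19 (Tr.L 42792) (Tr.L 180888)) (Tr.L 165516))) (Tr.L 50520)))
  (Tr.S 2 26 (Tr.S 3 18 (Tr.L 34077) (Tr.S 3 24 (Tr.S 0 25 (Tr.L 50408) (Tr.L 50856)) (Tr.L
  49309))) (Tr.S 2 20 (Tr.S 3 24 (Tr.L 41196) (Tr.S 3 18 (Tr.S 0 19 (Tr.L 42792) (Tr.L 180888))
  (Tr.L 165516))) (Tr.L 181448)))) (Tr.S 1 18 (Tr.S 2 20 (Tr.S 0 22 (Tr.S 3 19 (Tr.L 173832)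
  (Tr.L 180888)) (Tr.L 50856)) (Tr.S 2 26 (Tr.S 3 27 (Tr.L 34476) (Tr.S 3 29 (Tr.L 18061) (Tr.S
  0 23 (Tr.L 181448) (Tr.S 0 19 (Tr.S 2 22 (Tr.S 3 25 (Tr.L 34028) (Tr.L 50856)) (Tr.L 50856))
  (Tr.S 3 19 (Tr.S 2 23 (Tr.S 0 22 (Tr.L 181448) (Tr.L 181448)) (Tr.L 181448)) (Tr.L
  180888)))))) (Tr.L 173832))) (Tr.S 2 20 (Tr.S 3 19 (Tr.L 172236) (Tr.S 0 19 (Tr.S 1 22 (Tr.S 3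
  18 (Tr.L 173832) (Tr.L 172236)) (Tr.L 50856)) (Tr.L 180888))) (Tr.S 2 26 (Tr.S 3 23 (Tr.L
  18061) (Tr.S 3 3 (Tr.S 3 18 (Tr.S 0 19 (Tr.S 2 22 (Tr.L 50856) (Tr.L 50408)) (Tr.L 180888))
  (Tr.L 18061)) (Tr.S 3 19 (Tr.L 180363) (Tr.S 0 19 (Tr.S 3 18 (Tr.S 2 22 (Tr.L 50856) (Tr.L
  50408)) (Tr.L 180363)) (Tr.L 180888))))) (Tr.L 181448))))) (Tr.S 1 18 (Tr.S 3 30 (Tr.S 2 20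
  (Tr.S 0 19 (Tr.L 50856) (Tr.S 3 19 (Tr.S 0 23 (Tr.L 50856) (Tr.L 165516)) (Tr.L 50856))) (Tr.S
  3 23 (Tr.L 34077) (Tr.S 2 32 (Tr.S 3 5 (Tr.S 3 26 (Tr.L 34091) (Tr.S 3 20 (Tr.S 0 19 (Tr.L
  34476) (Tr.L 180888)) (Tr.L 173832))) (Tr.S 3 26 (Tr.L 34077) (Tr.S 3 20 (Tr.S 0 33 (Tr.L
  173832) (Tr.L 42792)) (Tr.L 173832)))) (Tr.S 3 5 (Tr.S 3 20 (Tr.S 0 19 (Tr.L 34476) (Tr.L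
  180888)) (Tr.L 83784)) (Tr.S 3 20 (Tr.S 2 26 (Tr.S 0 19 (Tr.S 2 22 (Tr.L 50856) (Tr.L 50856))
  (Tr.L 180888)) (Tr.L 173832)) (Tr.L 67341)))))) (Tr.S 3 29 (Tr.L 18061) (Tr.S 0 19 (Tr.S 3 26
  (Tr.L 5804) (Tr.S 2 20 (Tr.L 174280) (Tr.S 3 27 (Tr.L 165516) (Tr.S 3 31 (Tr.S 3 24 (Tr.S 3 20
  (Tr.L 5804) (Tr.S 2 26 (Tr.L 169240) (Tr.L 173832))) (Tr.L 5804)) (Tr.S 2 22 (Tr.S 3 25 (Tr.S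
  3 20 (Tr.L 165516) (Tr.L 34028)) (Tr.L 50856)) (Tr.L 50856)))))) (Tr.S 3 25 (Tr.L 50856) (Tr.S
  3 19 (Tr.S 0 25 (Tr.S 2 26 (Tr.L 181448) (Tr.S 3 27 (Tr.L 165516) (Tr.S 2 33 (Tr.L 50856)
  (Tr.S 1 33 (Tr.L 50856) (Tr.S 2 27 (Tr.S 2 22 (Tr.L 181448) (Tr.S 0 22 (Tr.S 2 20 (Tr.L 50856)
  (Tr.L 181448)) (Tr.L 50856))) (Tr.S 0 22 (Tr.L 50856) (Tr.L 50856))))))) (Tr.L 50856)) (Tr.S 3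
  31 (Tr.S 0 25 (Tr.S 3 27 (Tr.L 17067) (Tr.S 2 20 (Tr.S 3 26 (Tr.L 66284) (Tr.L 82664)) (Tr.S 3
  20 (Tr.S 2 26 (Tr.S 0 22 (Tr.L 180888) (Tr.L 180888)) (Tr.L 8940)) (Tr.S 2 32 (Tr.S 3 26 (Tr.S
  3 5 (Tr.L 165516) (Tr.L 165516)) (Tr.L 181448)) (Tr.L 181448))))) (Tr.L 5804)) (Tr.L
  50856))))))) (Tr.S 3 31 (Tr.S 0 19 (Tr.S 2 32 (Tr.S 3 18 (Tr.S 3 29 (Tr.L 181448) (Tr.S 1 34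
  (Tr.L 181448) (Tr.S 0 33 (Tr.L 136872) (Tr.S 1 30 (Tr.L 165516) (Tr.S 2 22 (Tr.L 181448) (Tr.L
  181448)))))) (Tr.S 1 30 (Tr.S 0 34 (Tr.S 3 20 (Tr.L 173832) (Tr.L 181448)) (Tr.L 136872))
  (Tr.L 5804))) (Tr.S 3 24 (Tr.L 69868) (Tr.S 3 20 (Tr.L 69868) (Tr.S 3 18 (Tr.S 1 33 (Tr.L
  71464) (Tr.S 2 20 (Tr.S 1 23 (Tr.S 1 24 (Tr.L 170136) (Tr.L 165516)) (Tr.L 84680)) (Tr.S 3 3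
  (Tr.L 181448) (Tr.L 181448)))) (Tr.L 69868))))) (Tr.S 3 18 (Tr.S 2 26 (Tr.L 82664) (Tr.S 0 25
  (Tr.S 1 30 (Tr.S 2 34 (Tr.L 66284) (Tr.S 2 32 (Tr.S 0 33 (Tr.L 181448) (Tr.L 165516)) (Tr.L
  66284))) (Tr.S 3 26 (Tr.S 2 23 (Tr.L 180888) (Tr.S 1 29 (Tr.L 180888) (Tr.S 2 29 (Tr.S 2 32
  (Tr.L 180888) (Tr.L 180888)) (Tr.L 22156)))) (Tr.L 8940))) (Tr.S 1 30 (Tr.S 2 32 (Tr.L 180888)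
  (Tr.S 3 5 (Tr.L 180888) (Tr.L 180888))) (Tr.L 5804)))) (Tr.S 0 29 (Tr.L 168092) (Tr.S 2 32
  (Tr.S 0 25 (Tr.S 1 30 (Tr.S 0 33 (Tr.S 3 26 (Tr.L 181448) (Tr.L 173832)) (Tr.L 115368)) (Tr.S
  3 3 (Tr.S 3 24 (Tr.L 18061) (Tr.L 18061)) (Tr.L 180363))) (Tr.S 3 20 (Tr.L 168092) (Tr.L
  180888))) (Tr.S 0 25 (Tr.S 3 3 (Tr.S 1 30 (Tr.S 3 24 (Tr.S 2 26 (Tr.L 82664) (Tr.L 173832))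
  (Tr.L 164508)) (Tr.L 18061)) (Tr.S 1 30 (Tr.S 3 24 (Tr.S 2 26 (Tr.L 82664) (Tr.L 173832))
  (Tr.L 180363)) (Tr.L 180363))) (Tr.L 180888)))))) (Tr.S 2 32 (Tr.S 3 24 (Tr.L 41196) (Tr.S 3
  20 (Tr.L 41196) (Tr.S 3 25 (Tr.L 50408) (Tr.S 3 29 (Tr.L 181448) (Tr.S 0 25 (Tr.S 3 19 (Tr.S 3
  26 (Tr.S 1 33 (Tr.L 50856) (Tr.S 2 29 (Tr.L 50408) (Tr.S 1 29 (Tr.S 3 3 (Tr.L 165516) (Tr.L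
  180363)) (Tr.L 54552)))) (Tr.L 50408)) (Tr.L 180888)) (Tr.S 3 18 (Tr.S 3 5 (Tr.L 50520) (Tr.L
  169240)) (Tr.L 169240))))))) (Tr.S 3 5 (Tr.S 1 24 (Tr.S 3 26 (Tr.S 2 20 (Tr.S 0 25 (Tr.S 2 27
  (Tr.L 50856) (Tr.L 83784)) (Tr.L 50856)) (Tr.L 83784)) (Tr.S 2 26 (Tr.S 3 20 (Tr.S 0 19 (Tr.S
  1 22 (Tr.L 50856) (Tr.L 180363)) (Tr.L 180888)) (Tr.L 181448)) (Tr.L 83784))) (Tr.S 1 30 (Tr.S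
  3 26 (Tr.S 2 20 (Tr.S 0 25 (Tr.S 3 19 (Tr.L 180363) (Tr.L 180888)) (Tr.L 50856)) (Tr.L 83784))
  (Tr.S 2 26 (Tr.S 3 20 (Tr.S 0 19 (Tr.S 3 24 (Tr.L 50856) (Tr.L 180363)) (Tr.L 180888)) (Tr.L
  83784)) (Tr.L 173832))) (Tr.S 3 30 (Tr.L 82251) (Tr.S 3 24 (Tr.S 2 26 (Tr.S 3 20 (Tr.S 0 19
  (Tr.L 50856) (Tr.L 180888)) (Tr.L 181448)) (Tr.L 173832)) (Tr.L 67404))))) (Tr.S 3 17 (Tr.S 3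
  18 (Tr.S 0 19 (Tr.S 3 25 (Tr.S 2 20 (Tr.S 3 3 (Tr.L 173832) (Tr.L 173832)) (Tr.L 181448))
  (Tr.L 50856)) (Tr.L 180888)) (Tr.S 3 26 (Tr.S 1 24 (Tr.S 0 25 (Tr.L 49309) (Tr.L 50856)) (Tr.L
  165516)) (Tr.S 2 26 (Tr.S 3 20 (Tr.S 0 19 (Tr.S 3 25 (Tr.S 1 24 (Tr.L 82125) (Tr.L 165516))
  (Tr.L 50856)) (Tr.L 180888)) (Tr.L 181448)) (Tr.L 42792)))) (Tr.S 0 19 (Tr.S 3 25 (Tr.S 2 26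
  (Tr.S 3 20 (Tr.S 1 24 (Tr.L 82125) (Tr.L 165516)) (Tr.L 181448)) (Tr.S 3 18 (Tr.S 3 3 (Tr.L
  173832) (Tr.L 173832)) (Tr.L 173832))) (Tr.S 3 18 (Tr.L 50856) (Tr.L 50856))) (Tr.S 3 19 (Tr.S
  2 20 (Tr.S 0 25 (Tr.S 3 26 (Tr.S 1 24 (Tr.L 49309) (Tr.L 165516)) (Tr.L 83784)) (Tr.L 50856))
  (Tr.L 83784)) (Tr.L 180888))))))))) (Tr.S 3 17 (Tr.S 3 30 (Tr.S 1 18 (Tr.S 2 20 (Tr.S 3 26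
  (Tr.S 0 25 (Tr.S 1 27 (Tr.L 165516) (Tr.L 165516)) (Tr.L 169632)) (Tr.L 173832)) (Tr.S 3 19
  (Tr.L 34077) (Tr.S 0 19 (Tr.S 3 20 (Tr.L 34469) (Tr.L 34077)) (Tr.L 180888)))) (Tr.S 1 24
  (Tr.S 2 26 (Tr.S 3 20 (Tr.S 0 19 (Tr.S 3 25 (Tr.L 82125) (Tr.L 50856)) (Tr.L 180888)) (Tr.L
  181448)) (Tr.S 2 32 (Tr.S 3 20 (Tr.L 41196) (Tr.S 3 26 (Tr.S 0 25 (Tr.L 49309) (Tr.L 169632))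
  (Tr.L 181448))) (Tr.S 3 26 (Tr.S 0 25 (Tr.L 49309) (Tr.L 169632)) (Tr.L 42792)))) (Tr.L
  49309))) (Tr.S 1 30 (Tr.S 3 31 (Tr.S 2 32 (Tr.S 3 20 (Tr.S 0 19 (Tr.L 172236) (Tr.L 172236))
  (Tr.S 3 26 (Tr.S 0 34 (Tr.L 165516) (Tr.L 181448)) (Tr.L 181448))) (Tr.S 0 25 (Tr.S 2 23 (Tr.L
  180888) (Tr.S 0 22 (Tr.L 180888) (Tr.S 3 18 (Tr.L 66277) (Tr.S 3 24 (Tr.S 2 26 (Tr.L 82664)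
  (Tr.L 173832)) (Tr.L 164508))))) (Tr.S 0 19 (Tr.S 3 24 (Tr.L 69868) (Tr.S 3 18 (Tr.S 2 33
  (Tr.L 165516) (Tr.L 67341)) (Tr.L 165516))) (Tr.L 180888)))) (Tr.S 2 32 (Tr.S 3 26 (Tr.L
  34077) (Tr.S 3 20 (Tr.L 41189) (Tr.L 181448))) (Tr.S 3 32 (Tr.S 2 26 (Tr.S 3 18 (Tr.L 34077)
  (Tr.S 3 24 (Tr.S 0 25 (Tr.L 50408) (Tr.L 169632)) (Tr.L 165068))) (Tr.S 2 20 (Tr.S 3 19 (Tr.L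
  41245) (Tr.S 0 19 (Tr.S 3 18 (Tr.L 42792) (Tr.L 41196)) (Tr.L 180888))) (Tr.L 181448))) (Tr.S
  3 3 (Tr.S 3 18 (Tr.S 2 33 (Tr.L 34469) (Tr.L 67341)) (Tr.S 3 24 (Tr.S 2 26 (Tr.S 3 20 (Tr.S 0
  19 (Tr.L 169632) (Tr.L 180888)) (Tr.L 181448)) (Tr.L 173832)) (Tr.L 82125))) (Tr.S 2 20 (Tr.S
  3 26 (Tr.S 0 25 (Tr.S 3 19 (Tr.L 180363) (Tr.L 180888)) (Tr.L 169632)) (Tr.L 173832)) (Tr.S 3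
  20 (Tr.S 2 26 (Tr.S 0 19 (Tr.S 3 25 (Tr.L 180363) (Tr.L 169632)) (Tr.L 180888)) (Tr.L 173832))
  (Tr.L 181448))))))) (Tr.S 0 25 (Tr.S 3 3 (Tr.S 2 26 (Tr.S 1 29 (Tr.L 18061) (Tr.L 22156))
  (Tr.S 3 20 (Tr.L 8940) (Tr.S 2 20 (Tr.S 3 32 (Tr.S 3 19 (Tr.S 1 18 (Tr.L 9997) (Tr.L 18061))
  (Tr.L 50856)) (Tr.S 3 26 (Tr.S 1 24 (Tr.S 3 18 (Tr.L 17053) (Tr.L 18061)) (Tr.L 165516)) (Tr.L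
  9997))) (Tr.S 3 26 (Tr.S 1 24 (Tr.S 3 18 (Tr.L 17053) (Tr.L 18061)) (Tr.L 165516)) (Tr.L
  181448))))) (Tr.S 2 26 (Tr.S 1 29 (Tr.S 3 24 (Tr.L 18061) (Tr.L 165516)) (Tr.L 22156)) (Tr.S 3
  31 (Tr.S 3 24 (Tr.L 9003) (Tr.S 1 24 (Tr.S 3 26 (Tr.L 17067) (Tr.L 9003)) (Tr.L 165516)))
  (Tr.S 3 19 (Tr.S 1 18 (Tr.S 3 24 (Tr.S 2 20 (Tr.L 9997) (Tr.L 181448)) (Tr.L 165516)) (Tr.L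
  180363)) (Tr.L 50856))))) (Tr.S 3 31 (Tr.S 0 19 (Tr.S 2 32 (Tr.S 3 26 (Tr.L 5356) (Tr.S 3 20
  (Tr.S 1 18 (Tr.L 5804) (Tr.L 18061)) (Tr.L 173832))) (Tr.S 1 18 (Tr.S 2 23 (Tr.S 3 20 (Tr.L
  169632) (Tr.L 181448)) (Tr.L 169632)) (Tr.S 3 18 (Tr.S 2 20 (Tr.L 71464) (Tr.L 181448)) (Tr.L
  18061)))) (Tr.L 5804)) (Tr.S 3 25 (Tr.S 1 24 (Tr.S 0 19 (Tr.S 3 18 (Tr.S 2 22 (Tr.L 50856)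
  (Tr.S 1 22 (Tr.L 50856) (Tr.L 50856))) (Tr.L 18061)) (Tr.L 180888)) (Tr.L 165516)) (Tr.L
  50856)))))) (Tr.S 1 18 (Tr.S 3 30 (Tr.S 3 25 (Tr.S 0 22 (Tr.L 164508) (Tr.S 2 20 (Tr.L 42848)
  (Tr.S 3 22 (Tr.L 34140) (Tr.S 2 34 (Tr.L 50856) (Tr.S 1 33 (Tr.L 50856) (Tr.S 0 19 (Tr.S 3 23
  (Tr.L 34469) (Tr.S 2 29 (Tr.L 165516) (Tr.S 2 22 (Tr.L 165516) (Tr.S 2 26 (Tr.L 50856) (Tr.L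
  50856))))) (Tr.S 2 26 (Tr.L 50856) (Tr.L 180888)))))))) (Tr.S 0 19 (Tr.L 50856) (Tr.S 3 19
  (Tr.S 2 20 (Tr.L 67404) (Tr.S 3 3 (Tr.L 34140) (Tr.L 34147))) (Tr.L 50856)))) (Tr.S 3 29 (Tr.L
  18061) (Tr.S 0 19 (Tr.S 3 26 (Tr.L 5804) (Tr.S 3 27 (Tr.L 165516) (Tr.S 2 26 (Tr.S 3 32 (Tr.S
  3 25 (Tr.L 34140) (Tr.L 169632)) (Tr.S 3 20 (Tr.S 2 23 (Tr.L 83784) (Tr.L 84680)) (Tr.L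
  83784))) (Tr.S 3 25 (Tr.L 10060) (Tr.S 3 31 (Tr.S 2 32 (Tr.S 3 20 (Tr.L 5804) (Tr.L 169184))
  (Tr.L 83784)) (Tr.L 169632)))))) (Tr.S 3 16 (Tr.S 3 19 (Tr.S 0 25 (Tr.S 2 20 (Tr.S 0 23 (Tr.L
  50856) (Tr.L 51864)) (Tr.S 3 27 (Tr.L 17739) (Tr.S 2 33 (Tr.L 50856) (Tr.S 1 33 (Tr.L 50856)
  (Tr.S 2 27 (Tr.S 3 26 (Tr.L 50856) (Tr.L 181448)) (Tr.S 0 22 (Tr.L 50856) (Tr.L 50856)))))))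
  (Tr.L 50856)) (Tr.S 3 31 (Tr.S 0 25 (Tr.S 3 27 (Tr.L 17067) (Tr.S 2 32 (Tr.S 3 26 (Tr.S 3 5
  (Tr.L 165516) (Tr.L 165516)) (Tr.L 8940)) (Tr.S 2 20 (Tr.S 3 26 (Tr.L 67404) (Tr.L 83784))
  (Tr.S 3 20 (Tr.S 2 26 (Tr.S 2 22 (Tr.L 83784) (Tr.L 83784)) (Tr.L 83784)) (Tr.L 181448)))))
  (Tr.L 169632)) (Tr.S 3 25 (Tr.S 3 5 (Tr.L 165516) (Tr.L 165516)) (Tr.L 50856)))) (Tr.S 3 25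
  (Tr.L 50856) (Tr.S 0 25 (Tr.S 3 31 (Tr.S 2 23 (Tr.L 180888) (Tr.S 3 27 (Tr.L 17067) (Tr.S 2 32
  (Tr.S 3 26 (Tr.S 3 5 (Tr.L 165516) (Tr.L 165516)) (Tr.L 8940)) (Tr.S 2 20 (Tr.S 3 26 (Tr.S 3 5
  (Tr.L 165516) (Tr.L 165516)) (Tr.L 83784)) (Tr.S 3 20 (Tr.S 0 23 (Tr.S 2 22 (Tr.L 83784) (Tr.L
  83784)) (Tr.L 180888)) (Tr.L 181448)))))) (Tr.S 3 19 (Tr.S 3 27 (Tr.L 34476) (Tr.S 2 33 (Tr.L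
  50856) (Tr.S 1 33 (Tr.L 50856) (Tr.S 2 27 (Tr.S 2 22 (Tr.L 181448) (Tr.S 0 22 (Tr.S 2 20 (Tr.L
  51864) (Tr.L 181448)) (Tr.L 50856))) (Tr.S 0 22 (Tr.L 50856) (Tr.L 50856)))))) (Tr.L 50856)))
  (Tr.S 3 31 (Tr.L 169632) (Tr.L 50856)))))))) (Tr.S 3 19 (Tr.S 0 25 (Tr.S 2 20 (Tr.S 3 32 (Tr.L
  41308) (Tr.S 3 26 (Tr.S 1 22 (Tr.L 83784) (Tr.S 0 22 (Tr.L 83784) (Tr.L 83784))) (Tr.L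
  83784))) (Tr.S 1 30 (Tr.S 3 27 (Tr.L 180363) (Tr.S 3 29 (Tr.L 165068) (Tr.S 2 32 (Tr.S 3 26
  (Tr.S 3 3 (Tr.L 165516) (Tr.L 180363)) (Tr.L 181448)) (Tr.S 3 32 (Tr.S 2 26 (Tr.S 1 29 (Tr.L
  50856) (Tr.L 181448)) (Tr.L 181448)) (Tr.L 181448))))) (Tr.S 3 33 (Tr.L 180363) (Tr.S 3 16
  (Tr.S 3 26 (Tr.S 2 32 (Tr.S 0 34 (Tr.S 2 22 (Tr.L 50856) (Tr.L 181448)) (Tr.L 50520)) (Tr.L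
  181448)) (Tr.S 2 26 (Tr.S 3 32 (Tr.S 3 3 (Tr.L 17613) (Tr.L 180363)) (Tr.L 181448)) (Tr.L
  181448))) (Tr.S 0 22 (Tr.S 2 29 (Tr.L 181448) (Tr.S 3 26 (Tr.L 181448) (Tr.S 2 26 (Tr.S 2 23
  (Tr.L 181448) (Tr.L 181448)) (Tr.L 181448)))) (Tr.S 2 34 (Tr.L 50856) (Tr.S 1 34 (Tr.L 50856)
  (Tr.S 2 22 (Tr.S 0 23 (Tr.L 50856) (Tr.S 3 27 (Tr.L 49323) (Tr.S 2 27 (Tr.S 1 23 (Tr.L 181448)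
  (Tr.L 181448)) (Tr.L 50856)))) (Tr.S 3 26 (Tr.L 50520) (Tr.L 50520)))))))))) (Tr.L 168092))
  (Tr.S 3 20 (Tr.S 2 32 (Tr.S 3 25 (Tr.L 41308) (Tr.S 3 30 (Tr.L 41308) (Tr.S 3 31 (Tr.S 1 24
  (Tr.L 172236) (Tr.S 3 24 (Tr.S 0 23 (Tr.L 172236) (Tr.S 0 29 (Tr.L 172236) (Tr.S 3 5 (Tr.S 1
  30 (Tr.S 1 23 (Tr.L 180363) (Tr.L 180363)) (Tr.L 180363)) (Tr.S 1 30 (Tr.S 0 34 (Tr.L 114829)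
  (Tr.L 141128)) (Tr.L 18061))))) (Tr.L 172236))) (Tr.L 41308)))) (Tr.S 2 26 (Tr.S 1 22 (Tr.S 2
  23 (Tr.L 83784) (Tr.S 0 23 (Tr.S 3 25 (Tr.L 50856) (Tr.L 180888)) (Tr.L 84680))) (Tr.S 2 22
  (Tr.S 1 23 (Tr.S 0 19 (Tr.S 3 25 (Tr.L 83784) (Tr.L 83784)) (Tr.L 180888)) (Tr.S 0 23 (Tr.S 3
  25 (Tr.L 50856) (Tr.L 180888)) (Tr.L 84680))) (Tr.S 0 22 (Tr.S 2 23 (Tr.L 83784) (Tr.S 1 23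
  (Tr.L 180888) (Tr.L 180888))) (Tr.L 83784)))) (Tr.L 83784))) (Tr.S 2 20 (Tr.S 3 32 (Tr.S 0 19
  (Tr.S 3 18 (Tr.S 1 22 (Tr.L 51864) (Tr.L 50856)) (Tr.L 41308)) (Tr.L 180888)) (Tr.S 3 24 (Tr.L
  83784) (Tr.S 3 27 (Tr.L 83784) (Tr.S 3 31 (Tr.S 0 19 (Tr.S 3 18 (Tr.S 1 23 (Tr.S 3 3 (Tr.L
  170136) (Tr.L 83784)) (Tr.L 84680)) (Tr.L 69868)) (Tr.S 1 34 (Tr.L 82664) (Tr.S 3 29 (Tr.L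
  172768) (Tr.S 0 25 (Tr.S 3 18 (Tr.S 1 23 (Tr.L 180888) (Tr.S 0 23 (Tr.S 1 22 (Tr.L 82664)
  (Tr.L 180888)) (Tr.L 180888))) (Tr.S 3 26 (Tr.S 2 27 (Tr.L 82664) (Tr.S 1 27 (Tr.S 2 33 (Tr.L
  83784) (Tr.L 83784)) (Tr.L 83784))) (Tr.L 83784))) (Tr.S 3 5 (Tr.L 180888) (Tr.L 180888))))))
  (Tr.S 0 19 (Tr.S 3 26 (Tr.S 3 3 (Tr.L 169632) (Tr.L 169632)) (Tr.S 3 3 (Tr.L 83784) (Tr.L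
  83784))) (Tr.L 50856)))))) (Tr.S 0 19 (Tr.S 3 18 (Tr.S 1 30 (Tr.S 3 25 (Tr.S 2 22 (Tr.L 50520)
  (Tr.L 50520)) (Tr.S 3 31 (Tr.S 2 32 (Tr.L 165068) (Tr.L 181448)) (Tr.L 50520))) (Tr.S 3 31
  (Tr.L 5468) (Tr.S 3 25 (Tr.S 2 22 (Tr.L 50520) (Tr.L 50520)) (Tr.L 50856)))) (Tr.S 3 5 (Tr.S 3
  16 (Tr.S 3 25 (Tr.S 1 24 (Tr.S 2 22 (Tr.S 2 29 (Tr.L 181448) (Tr.L 180363)) (Tr.L 50520))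
  (Tr.L 180363)) (Tr.S 3 31 (Tr.S 2 32 (Tr.S 1 30 (Tr.S 2 22 (Tr.L 181448) (Tr.L 181448)) (Tr.L
  180363)) (Tr.L 181448)) (Tr.L 50520))) (Tr.S 3 25 (Tr.S 1 24 (Tr.S 2 26 (Tr.S 2 23 (Tr.L
  180363) (Tr.L 181448)) (Tr.L 181448)) (Tr.L 180363)) (Tr.S 3 31 (Tr.S 2 32 (Tr.S 3 26 (Tr.S 1
  24 (Tr.L 180363) (Tr.L 180363)) (Tr.L 181448)) (Tr.L 181448)) (Tr.L 169240)))) (Tr.S 3 16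
  (Tr.S 3 3 (Tr.S 3 25 (Tr.S 1 24 (Tr.S 3 30 (Tr.S 2 32 (Tr.L 181448) (Tr.L 181448)) (Tr.L
  18061)) (Tr.L 165516)) (Tr.S 3 31 (Tr.S 2 32 (Tr.S 3 26 (Tr.S 1 24 (Tr.L 18061) (Tr.L 165516))
  (Tr.L 181448)) (Tr.L 181448)) (Tr.L 50520))) (Tr.S 3 25 (Tr.S 1 24 (Tr.S 3 30 (Tr.S 2 32 (Tr.L
  181448) (Tr.L 181448)) (Tr.L 180363)) (Tr.L 180363)) (Tr.S 3 31 (Tr.S 2 32 (Tr.S 3 26 (Tr.S 1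
  24 (Tr.L 180363) (Tr.L 180363)) (Tr.L 181448)) (Tr.L 181448)) (Tr.L 50520)))) (Tr.S 2 26 (Tr.S
  3 32 (Tr.S 1 30 (Tr.S 3 25 (Tr.L 165516) (Tr.L 169632)) (Tr.L 18061)) (Tr.L 181448)) (Tr.S 3
  26 (Tr.S 2 32 (Tr.S 1 24 (Tr.S 3 31 (Tr.L 18061) (Tr.L 169632)) (Tr.L 165516)) (Tr.L 181448))
  (Tr.L 181448)))))) (Tr.S 3 31 (Tr.S 2 32 (Tr.S 0 25 (Tr.S 1 34 (Tr.L 181448) (Tr.S 3 24 (Tr.L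
  181448) (Tr.S 1 30 (Tr.L 165068) (Tr.S 0 34 (Tr.L 181448) (Tr.L 181448))))) (Tr.S 3 5 (Tr.L
  180888) (Tr.L 180888))) (Tr.L 181448)) (Tr.L 180888)))))))))))))

theorem cO13 : chk 12614 pO13
    311676188432621415436544
    11238175068515316850537790458862748533518079 = true := by
  decide +kernel

def pO14 : Tr :=
  (Tr.R 13)

theorem cO14 : chk 12614 pO14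
    311676187869671462015232
    11238172243905825807591410607248700786339583 = true := by
  decide +kernel

end Pool.Agent.H42.Pack6
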