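import Pool.Agent.H42.Pack6.Chk

set_option autoImplicit false
set_option maxRecDepth 100000

namespace Pool.Agent.H42.Pack6

def pO15 : Tr :=
(Tr.S 1 12 (Tr.S 0 13 (Tr.S 3 15 (Tr.S 3 5 (Tr.S 0 18 (Tr.S 3 32 (Tr.S 3 25 (Tr.L 165516) (Tr.S
  1 19 (Tr.L 50856) (Tr.S 3 24 (Tr.S 2 20 (Tr.S 1 23 (Tr.S 3 19 (Tr.L 10060) (Tr.L 9003)) (Tr.L
  173832)) (Tr.S 2 26 (Tr.S 1 25 (Tr.L 50520) (Tr.L 5419)) (Tr.L 173832))) (Tr.S 2 26 (Tr.L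
  165131) (Tr.L 165516))))) (Tr.S 2 32 (Tr.S 3 26 (Tr.S 2 23 (Tr.S 0 29 (Tr.S 2 27 (Tr.L 165516)
  (Tr.L 165516)) (Tr.L 165516)) (Tr.L 165131)) (Tr.S 3 24 (Tr.S 3 20 (Tr.S 0 33 (Tr.S 2 23 (Tr.L
  173832) (Tr.L 173832)) (Tr.L 10060)) (Tr.L 173832)) (Tr.S 3 20 (Tr.S 3 30 (Tr.S 1 33 (Tr.L
  173832) (Tr.S 2 23 (Tr.L 173832) (Tr.L 173832))) (Tr.L 165516)) (Tr.L 173832)))) (Tr.S 3 30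
  (Tr.S 1 31 (Tr.S 3 25 (Tr.L 66347) (Tr.S 3 19 (Tr.S 2 20 (Tr.L 67404) (Tr.L 83784)) (Tr.L
  71464))) (Tr.S 2 20 (Tr.S 3 26 (Tr.S 1 23 (Tr.S 3 19 (Tr.L 83784) (Tr.L 180888)) (Tr.L
  165516)) (Tr.L 173832)) (Tr.S 3 20 (Tr.S 2 26 (Tr.S 1 19 (Tr.S 2 22 (Tr.L 83784) (Tr.L 83784))
  (Tr.L 180888)) (Tr.L 173832)) (Tr.L 83784)))) (Tr.S 3 24 (Tr.S 2 26 (Tr.S 3 20 (Tr.S 1 27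
  (Tr.L 83784) (Tr.S 2 22 (Tr.L 83784) (Tr.L 83784))) (Tr.L 83784)) (Tr.L 173832)) (Tr.S 1 23
  (Tr.S 3 19 (Tr.S 1 25 (Tr.L 34476) (Tr.L 165516)) (Tr.L 17067)) (Tr.L 67404)))))) (Tr.S 3 19
  (Tr.S 1 25 (Tr.S 2 26 (Tr.S 0 27 (Tr.L 54552) (Tr.L 50856)) (Tr.S 2 20 (Tr.S 3 32 (Tr.L 41308)
  (Tr.S 3 26 (Tr.S 0 22 (Tr.L 83784) (Tr.L 82251)) (Tr.L 83784))) (Tr.S 3 26 (Tr.S 2 32 (Tr.S 0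
  24 (Tr.S 2 27 (Tr.L 50856) (Tr.L 50856)) (Tr.L 180363)) (Tr.L 83784)) (Tr.L 50520)))) (Tr.S 1
  31 (Tr.S 2 20 (Tr.S 3 26 (Tr.L 69931) (Tr.S 3 32 (Tr.S 0 30 (Tr.L 168092) (Tr.L 180363)) (Tr.L
  173832))) (Tr.S 3 32 (Tr.S 0 30 (Tr.L 168092) (Tr.L 180363)) (Tr.S 2 32 (Tr.S 3 26 (Tr.S 0 24
  (Tr.S 1 29 (Tr.L 180363) (Tr.L 168092)) (Tr.L 180363)) (Tr.L 173832)) (Tr.L 169240)))) (Tr.L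
  168092))) (Tr.S 1 19 (Tr.S 3 26 (Tr.S 3 30 (Tr.L 50856) (Tr.S 3 34 (Tr.L 169632) (Tr.S 3 31
  (Tr.S 2 20 (Tr.S 3 18 (Tr.L 71464) (Tr.L 69931)) (Tr.S 2 32 (Tr.S 0 30 (Tr.L 165131) (Tr.L
  5419)) (Tr.L 83784))) (Tr.S 2 32 (Tr.L 169240) (Tr.L 50856))))) (Tr.S 2 26 (Tr.S 3 32 (Tr.S 3
  25 (Tr.S 1 27 (Tr.L 50520) (Tr.S 0 27 (Tr.L 165131) (Tr.L 50856))) (Tr.L 50856)) (Tr.S 3 24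
  (Tr.L 69931) (Tr.S 3 22 (Tr.L 83784) (Tr.S 3 20 (Tr.S 0 24 (Tr.S 0 22 (Tr.L 180363) (Tr.L
  180363)) (Tr.L 180363)) (Tr.S 3 25 (Tr.L 83784) (Tr.L 83784)))))) (Tr.S 3 25 (Tr.S 3 20 (Tr.L
  41308) (Tr.S 2 20 (Tr.S 3 32 (Tr.S 0 23 (Tr.S 3 22 (Tr.L 50856) (Tr.L 50856)) (Tr.L 51864))
  (Tr.L 173832)) (Tr.L 50520))) (Tr.S 3 31 (Tr.S 2 32 (Tr.S 3 20 (Tr.S 0 30 (Tr.L 172299) (Tr.L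
  180363)) (Tr.L 173832)) (Tr.L 173832)) (Tr.S 3 10 (Tr.S 0 22 (Tr.S 1 34 (Tr.S 0 33 (Tr.S 3 20
  (Tr.L 50856) (Tr.L 50856)) (Tr.L 42792)) (Tr.L 42792)) (Tr.L 42792)) (Tr.L 169632)))))) (Tr.S
  0 30 (Tr.S 2 32 (Tr.S 1 33 (Tr.S 3 31 (Tr.L 180888) (Tr.L 180888)) (Tr.L 115368)) (Tr.S 3 26
  (Tr.L 66347) (Tr.S 2 26 (Tr.S 3 20 (Tr.S 3 24 (Tr.S 1 25 (Tr.S 0 27 (Tr.L 83784) (Tr.L 83784))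
  (Tr.L 180888)) (Tr.L 180363)) (Tr.S 3 31 (Tr.L 83784) (Tr.S 1 31 (Tr.S 2 33 (Tr.S 3 32 (Tr.L
  180888) (Tr.L 83784)) (Tr.L 116040)) (Tr.L 180888)))) (Tr.S 3 32 (Tr.S 1 31 (Tr.S 2 34 (Tr.L
  173832) (Tr.L 180888)) (Tr.L 180888)) (Tr.L 173832))))) (Tr.S 3 24 (Tr.L 180363) (Tr.S 3 18
  (Tr.S 0 24 (Tr.S 2 20 (Tr.S 3 32 (Tr.L 9003) (Tr.S 3 26 (Tr.S 1 25 (Tr.L 17067) (Tr.L 180888))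
  (Tr.L 83784))) (Tr.S 1 25 (Tr.S 2 29 (Tr.L 177416) (Tr.L 180888)) (Tr.S 3 25 (Tr.S 2 26 (Tr.S
  1 27 (Tr.L 180888) (Tr.L 177416)) (Tr.L 173832)) (Tr.L 180888)))) (Tr.L 17067)) (Tr.S 3 30
  (Tr.S 1 31 (Tr.S 0 24 (Tr.S 3 25 (Tr.S 2 34 (Tr.L 180888) (Tr.S 1 29 (Tr.L 180888) (Tr.L
  180888))) (Tr.L 180888)) (Tr.L 180363)) (Tr.L 180888)) (Tr.L 180363)))))))) (Tr.S 0 30 (Tr.S 1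
  31 (Tr.S 3 25 (Tr.S 3 22 (Tr.L 180363) (Tr.S 3 23 (Tr.L 180363) (Tr.S 2 32 (Tr.L 173832) (Tr.S
  3 20 (Tr.L 67341) (Tr.S 3 34 (Tr.L 164515) (Tr.S 2 34 (Tr.S 3 11 (Tr.L 98981) (Tr.L 115368))
  (Tr.L 180888))))))) (Tr.S 3 22 (Tr.L 180888) (Tr.S 3 23 (Tr.L 180888) (Tr.S 3 18 (Tr.S 3 10
  (Tr.L 180888) (Tr.L 180888)) (Tr.S 2 33 (Tr.S 3 34 (Tr.L 83784) (Tr.L 180363)) (Tr.L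
  114829)))))) (Tr.S 3 19 (Tr.S 3 24 (Tr.S 1 25 (Tr.S 0 27 (Tr.L 49309) (Tr.S 2 26 (Tr.L 177416)
  (Tr.L 41245))) (Tr.L 49309)) (Tr.L 180363)) (Tr.S 3 34 (Tr.S 1 22 (Tr.L 180888) (Tr.S 1 23
  (Tr.L 180888) (Tr.S 1 25 (Tr.L 180888) (Tr.S 3 26 (Tr.L 169632) (Tr.S 1 19 (Tr.S 3 25 (Tr.S 3
  18 (Tr.S 2 20 (Tr.L 173832) (Tr.L 34147)) (Tr.L 165516)) (Tr.L 169632)) (Tr.L 180888))))))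
  (Tr.S 3 25 (Tr.S 3 20 (Tr.L 180363) (Tr.S 2 20 (Tr.S 3 32 (Tr.S 3 18 (Tr.S 1 23 (Tr.L 173832)
  (Tr.S 0 23 (Tr.L 173832) (Tr.L 173832))) (Tr.L 172299)) (Tr.L 173832)) (Tr.L 34077))) (Tr.S 1
  25 (Tr.S 3 10 (Tr.S 3 31 (Tr.S 2 32 (Tr.S 1 33 (Tr.L 180888) (Tr.L 115368)) (Tr.S 3 18 (Tr.L
  66347) (Tr.S 3 24 (Tr.S 2 34 (Tr.L 180363) (Tr.L 82251)) (Tr.L 180363)))) (Tr.L 180888)) (Tr.S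
  3 18 (Tr.S 3 31 (Tr.S 1 33 (Tr.L 164515) (Tr.S 2 33 (Tr.L 67341) (Tr.L 98981))) (Tr.L 180888))
  (Tr.S 3 24 (Tr.S 3 31 (Tr.S 2 29 (Tr.L 180888) (Tr.S 0 29 (Tr.L 180888) (Tr.L 180888))) (Tr.L
  180888)) (Tr.L 180363)))) (Tr.S 3 11 (Tr.S 1 19 (Tr.S 3 32 (Tr.L 169632) (Tr.S 2 32 (Tr.S 3 26
  (Tr.S 1 33 (Tr.L 132749) (Tr.L 169632)) (Tr.S 1 33 (Tr.L 141128) (Tr.L 173832))) (Tr.S 3 24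
  (Tr.L 69917) (Tr.S 3 18 (Tr.S 2 20 (Tr.L 71520) (Tr.L 83784)) (Tr.L 168099))))) (Tr.L 180888))
  (Tr.S 1 19 (Tr.S 3 32 (Tr.L 50856) (Tr.S 3 31 (Tr.S 2 32 (Tr.S 3 26 (Tr.L 165131) (Tr.S 3 20
  (Tr.L 172299) (Tr.L 173832))) (Tr.S 3 20 (Tr.L 69917) (Tr.S 2 20 (Tr.S 3 18 (Tr.L 71464) (Tr.L
  69917)) (Tr.L 71464)))) (Tr.S 2 32 (Tr.S 3 18 (Tr.L 169240) (Tr.L 49309)) (Tr.L 50856))))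
  (Tr.L 180888)))))))) (Tr.S 0 24 (Tr.S 2 26 (Tr.S 3 32 (Tr.S 1 22 (Tr.L 17739) (Tr.S 3 19 (Tr.L
  17739) (Tr.S 3 18 (Tr.S 1 27 (Tr.S 3 29 (Tr.L 18061) (Tr.L 21771)) (Tr.L 13581)) (Tr.L
  17739)))) (Tr.S 3 19 (Tr.L 83784) (Tr.S 3 22 (Tr.L 83784) (Tr.S 1 25 (Tr.L 83784) (Tr.S 3 20
  (Tr.S 1 27 (Tr.S 3 29 (Tr.L 83784) (Tr.L 87816)) (Tr.L 78093)) (Tr.S 3 25 (Tr.L 83784) (Tr.L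
  83784))))))) (Tr.S 3 29 (Tr.S 1 25 (Tr.S 3 31 (Tr.L 17067) (Tr.S 3 19 (Tr.L 49309) (Tr.L
  180888))) (Tr.S 3 10 (Tr.S 3 18 (Tr.S 2 27 (Tr.L 10060) (Tr.L 10060)) (Tr.S 3 30 (Tr.S 2 32
  (Tr.S 3 20 (Tr.S 1 19 (Tr.L 50856) (Tr.L 180888)) (Tr.L 173832)) (Tr.L 173832)) (Tr.L
  172299))) (Tr.S 3 18 (Tr.S 1 19 (Tr.S 3 31 (Tr.S 2 32 (Tr.L 173832) (Tr.L 173832)) (Tr.L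
  169632)) (Tr.L 180888)) (Tr.S 3 30 (Tr.S 2 32 (Tr.S 3 20 (Tr.S 1 19 (Tr.L 169632) (Tr.L
  180888)) (Tr.L 173832)) (Tr.L 173832)) (Tr.L 172299))))) (Tr.S 3 32 (Tr.S 3 18 (Tr.S 2 20
  (Tr.S 1 25 (Tr.S 3 11 (Tr.L 180888) (Tr.L 180888)) (Tr.S 1 23 (Tr.L 173832) (Tr.S 0 23 (Tr.S 1
  22 (Tr.L 9997) (Tr.L 9997)) (Tr.L 11019)))) (Tr.L 17739)) (Tr.L 9997)) (Tr.S 2 32 (Tr.S 3 20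
  (Tr.S 3 31 (Tr.L 172299) (Tr.S 1 31 (Tr.S 2 27 (Tr.L 173832) (Tr.L 173832)) (Tr.L 41245)))
  (Tr.S 3 19 (Tr.S 3 34 (Tr.L 180363) (Tr.S 1 33 (Tr.L 50520) (Tr.S 3 26 (Tr.S 1 25 (Tr.L 49309)
  (Tr.S 0 33 (Tr.S 1 31 (Tr.L 136536) (Tr.L 169240)) (Tr.L 116040))) (Tr.S 1 25 (Tr.L 50520)
  (Tr.L 173832))))) (Tr.S 3 25 (Tr.L 173832) (Tr.S 1 31 (Tr.L 169240) (Tr.S 3 26 (Tr.S 1 25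
  (Tr.S 2 27 (Tr.L 180888) (Tr.L 177416)) (Tr.S 1 19 (Tr.S 3 31 (Tr.S 3 4 (Tr.L 5405) (Tr.L
  5468)) (Tr.L 169240)) (Tr.L 169240))) (Tr.S 3 30 (Tr.L 50520) (Tr.L 17739))))))) (Tr.S 3 25
  (Tr.L 173832) (Tr.S 3 26 (Tr.S 2 20 (Tr.S 1 25 (Tr.S 2 29 (Tr.L 83784) (Tr.L 87816)) (Tr.S 3
  30 (Tr.L 69917) (Tr.S 3 18 (Tr.S 1 22 (Tr.L 83784) (Tr.S 0 22 (Tr.L 83784) (Tr.L 83784)))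
  (Tr.L 18061)))) (Tr.S 1 25 (Tr.L 83784) (Tr.L 169240))) (Tr.L 83784))))))) (Tr.S 3 18 (Tr.S 2
  20 (Tr.S 3 32 (Tr.S 3 4 (Tr.S 1 19 (Tr.L 18061) (Tr.L 164515)) (Tr.L 165516)) (Tr.L 67341))
  (Tr.S 3 11 (Tr.L 17739) (Tr.L 165131))) (Tr.S 3 25 (Tr.S 3 34 (Tr.L 165516) (Tr.S 1 31 (Tr.S 3
  11 (Tr.S 0 18 (Tr.S 1 23 (Tr.S 0 29 (Tr.S 3 30 (Tr.S 2 26 (Tr.L 67341) (Tr.L 172824)) (Tr.L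
  164515)) (Tr.L 164515)) (Tr.L 164515)) (Tr.L 180363)) (Tr.S 0 18 (Tr.S 2 22 (Tr.L 180888)
  (Tr.S 3 32 (Tr.L 18061) (Tr.S 2 32 (Tr.S 0 33 (Tr.L 180888) (Tr.L 173832)) (Tr.L 66347))))
  (Tr.L 180363))) (Tr.S 0 18 (Tr.S 2 26 (Tr.S 3 20 (Tr.S 0 27 (Tr.L 83784) (Tr.L 67341)) (Tr.L
  34077)) (Tr.S 3 30 (Tr.S 2 32 (Tr.S 3 20 (Tr.S 1 33 (Tr.L 173832) (Tr.S 2 23 (Tr.L 173832)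
  (Tr.L 173832))) (Tr.L 173832)) (Tr.L 173832)) (Tr.L 9997))) (Tr.L 49309)))) (Tr.S 1 25 (Tr.S 3
  30 (Tr.S 0 18 (Tr.S 3 22 (Tr.L 34469) (Tr.S 3 23 (Tr.L 50856) (Tr.S 2 32 (Tr.S 3 20 (Tr.S 3 11
  (Tr.L 180888) (Tr.L 180888)) (Tr.L 34077)) (Tr.S 3 10 (Tr.S 3 19 (Tr.S 2 20 (Tr.L 67341) (Tr.L
  83784)) (Tr.L 50856)) (Tr.S 3 19 (Tr.S 2 20 (Tr.L 67341) (Tr.L 83784)) (Tr.L 82776)))))) (Tr.L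
  180363)) (Tr.S 3 31 (Tr.S 3 10 (Tr.S 0 18 (Tr.S 1 22 (Tr.S 3 24 (Tr.S 2 26 (Tr.L 83784) (Tr.L
  9003)) (Tr.L 18061)) (Tr.L 17067)) (Tr.L 180363)) (Tr.S 0 18 (Tr.S 3 24 (Tr.S 2 26 (Tr.S 0 27
  (Tr.L 83784) (Tr.L 83784)) (Tr.L 9059)) (Tr.L 18061)) (Tr.L 180363))) (Tr.S 0 18 (Tr.S 3 22
  (Tr.L 17053) (Tr.S 3 23 (Tr.L 50856) (Tr.S 3 29 (Tr.L 18061) (Tr.S 3 24 (Tr.S 2 26 (Tr.S 0 27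
  (Tr.S 3 32 (Tr.L 18061) (Tr.L 83784)) (Tr.L 18061)) (Tr.S 3 4 (Tr.S 3 19 (Tr.S 2 20 (Tr.L
  9997) (Tr.L 173832)) (Tr.L 42848)) (Tr.S 2 34 (Tr.L 18061) (Tr.S 1 34 (Tr.L 18061) (Tr.S 2 22
  (Tr.S 3 20 (Tr.L 18061) (Tr.L 173832)) (Tr.S 0 27 (Tr.L 18061) (Tr.L 18061))))))) (Tr.S 3 4
  (Tr.L 18061) (Tr.L 18061)))))) (Tr.L 49309)))) (Tr.S 0 18 (Tr.S 1 19 (Tr.S 3 31 (Tr.S 3 24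
  (Tr.S 2 20 (Tr.L 173832) (Tr.S 3 22 (Tr.L 5468) (Tr.S 2 22 (Tr.S 3 23 (Tr.L 18061) (Tr.L
  19083)) (Tr.L 18061)))) (Tr.L 18061)) (Tr.S 3 22 (Tr.L 169632) (Tr.S 2 22 (Tr.S 3 23 (Tr.L
  50856) (Tr.L 51864)) (Tr.L 170136)))) (Tr.S 3 22 (Tr.L 169632) (Tr.S 3 4 (Tr.S 3 19 (Tr.S 1 31
  (Tr.S 3 24 (Tr.S 2 20 (Tr.S 1 23 (Tr.L 173832) (Tr.L 173832)) (Tr.L 5405)) (Tr.S 3 32 (Tr.L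
  18061) (Tr.S 2 20 (Tr.L 67341) (Tr.S 2 32 (Tr.S 1 23 (Tr.L 169632) (Tr.L 169632)) (Tr.L
  83784))))) (Tr.S 2 20 (Tr.L 169632) (Tr.L 169632))) (Tr.L 169632)) (Tr.S 3 30 (Tr.S 3 23 (Tr.L
  164508) (Tr.S 2 29 (Tr.L 165516) (Tr.S 1 29 (Tr.L 165516) (Tr.S 2 23 (Tr.S 3 19 (Tr.L 165516)
  (Tr.S 3 10 (Tr.L 180888) (Tr.L 180888))) (Tr.S 1 23 (Tr.S 3 19 (Tr.L 165516) (Tr.S 3 10 (Tr.L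
  164508) (Tr.L 169632))) (Tr.L 165516)))))) (Tr.S 3 24 (Tr.S 3 23 (Tr.L 5804) (Tr.S 2 26 (Tr.S
  3 32 (Tr.L 5468) (Tr.S 3 20 (Tr.S 3 10 (Tr.L 180888) (Tr.L 180888)) (Tr.L 83784))) (Tr.S 3 11
  (Tr.S 3 19 (Tr.S 2 20 (Tr.L 10060) (Tr.L 173832)) (Tr.L 169632)) (Tr.S 3 19 (Tr.S 2 20 (Tr.L
  10060) (Tr.L 173832)) (Tr.L 172824))))) (Tr.L 165516)))))) (Tr.S 3 32 (Tr.L 18061) (Tr.S 3 4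
  (Tr.S 3 30 (Tr.S 2 32 (Tr.S 1 31 (Tr.L 180363) (Tr.L 180363)) (Tr.L 67341)) (Tr.L 168099))
  (Tr.S 3 24 (Tr.L 168092) (Tr.L 165516))))))))))) (Tr.S 3 10 (Tr.S 2 20 (Tr.S 3 5 (Tr.S 3 24
  (Tr.S 3 32 (Tr.S 1 19 (Tr.L 50856) (Tr.S 0 22 (Tr.L 172236) (Tr.S 1 34 (Tr.L 50856) (Tr.S 1 22
  (Tr.S 0 18 (Tr.L 173832) (Tr.S 0 23 (Tr.S 2 29 (Tr.S 0 27 (Tr.L 173832) (Tr.L 173832)) (Tr.L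
  172236)) (Tr.L 172236))) (Tr.S 1 31 (Tr.L 170136) (Tr.L 50856)))))) (Tr.L 173832)) (Tr.S 0 24
  (Tr.S 3 32 (Tr.S 3 18 (Tr.S 1 19 (Tr.L 42792) (Tr.L 9052)) (Tr.L 10060)) (Tr.S 3 26 (Tr.S 1 25
  (Tr.S 2 29 (Tr.L 83784) (Tr.L 87816)) (Tr.S 3 19 (Tr.L 69931) (Tr.S 1 19 (Tr.S 0 22 (Tr.L
  84680) (Tr.L 83784)) (Tr.L 82664)))) (Tr.L 83784))) (Tr.S 1 19 (Tr.S 0 22 (Tr.L 165516) (Tr.L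
  166027)) (Tr.S 3 26 (Tr.S 3 18 (Tr.L 66347) (Tr.S 0 18 (Tr.S 1 23 (Tr.L 166027) (Tr.L 165516))
  (Tr.L 180363))) (Tr.S 3 32 (Tr.S 0 30 (Tr.S 3 18 (Tr.S 1 23 (Tr.L 173832) (Tr.L 172824)) (Tr.L
  180363)) (Tr.L 165516)) (Tr.L 173832)))))) (Tr.S 3 30 (Tr.S 3 25 (Tr.L 173832) (Tr.S 1 19
  (Tr.L 50856) (Tr.S 3 29 (Tr.L 83784) (Tr.S 3 26 (Tr.S 1 25 (Tr.S 3 19 (Tr.S 0 18 (Tr.L 67341)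
  (Tr.S 0 24 (Tr.L 49309) (Tr.L 165516))) (Tr.L 50856)) (Tr.S 3 19 (Tr.S 0 18 (Tr.L 67341) (Tr.L
  69868)) (Tr.L 82664))) (Tr.S 0 24 (Tr.L 172236) (Tr.L 173832)))))) (Tr.S 0 30 (Tr.S 3 26 (Tr.S
  3 18 (Tr.S 0 22 (Tr.L 67341) (Tr.S 1 22 (Tr.L 82664) (Tr.L 67789))) (Tr.L 165516)) (Tr.S 3 33
  (Tr.L 173832) (Tr.S 3 24 (Tr.S 3 32 (Tr.S 2 33 (Tr.L 172236) (Tr.S 1 33 (Tr.L 49309) (Tr.L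
  173832))) (Tr.L 173832)) (Tr.S 3 18 (Tr.S 3 32 (Tr.S 1 23 (Tr.L 173832) (Tr.S 0 23 (Tr.L
  173832) (Tr.L 173832))) (Tr.L 173832)) (Tr.L 165516))))) (Tr.S 3 32 (Tr.S 0 24 (Tr.S 3 18
  (Tr.S 1 19 (Tr.S 0 23 (Tr.L 173832) (Tr.L 173832)) (Tr.L 8940)) (Tr.L 18061)) (Tr.S 3 24 (Tr.S
  0 18 (Tr.S 1 22 (Tr.S 3 23 (Tr.L 173832) (Tr.L 173832)) (Tr.L 174280)) (Tr.L 172236)) (Tr.L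
  165516))) (Tr.S 3 24 (Tr.L 173832) (Tr.S 0 24 (Tr.S 3 18 (Tr.S 3 25 (Tr.L 173832) (Tr.S 3 27
  (Tr.L 9997) (Tr.S 1 29 (Tr.L 5804) (Tr.S 3 29 (Tr.L 83784) (Tr.S 2 29 (Tr.S 1 27 (Tr.S 3 26
  (Tr.L 18061) (Tr.L 173832)) (Tr.L 18061)) (Tr.L 87816)))))) (Tr.L 18061)) (Tr.L 165516)))))))
  (Tr.S 1 31 (Tr.S 3 19 (Tr.S 3 17 (Tr.S 0 18 (Tr.S 3 32 (Tr.L 5356) (Tr.S 2 32 (Tr.S 2 22 (Tr.L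
  181448) (Tr.L 181448)) (Tr.L 181448))) (Tr.S 3 30 (Tr.S 2 32 (Tr.L 169240) (Tr.L 181448))
  (Tr.S 0 30 (Tr.S 3 24 (Tr.S 2 26 (Tr.S 1 29 (Tr.L 181448) (Tr.L 169240)) (Tr.L 181448)) (Tr.L
  165516)) (Tr.L 168092)))) (Tr.S 0 30 (Tr.S 2 34 (Tr.S 3 32 (Tr.L 181448) (Tr.L 181448)) (Tr.L
  181448)) (Tr.S 3 24 (Tr.L 5468) (Tr.S 3 32 (Tr.L 5468) (Tr.S 2 32 (Tr.S 3 26 (Tr.S 0 34 (Tr.S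
  3 30 (Tr.L 116040) (Tr.L 5468)) (Tr.L 181448)) (Tr.L 181448)) (Tr.L 181448)))))) (Tr.S 3 29
  (Tr.L 180888) (Tr.S 3 17 (Tr.S 3 26 (Tr.L 180888) (Tr.S 2 26 (Tr.S 3 20 (Tr.S 3 25 (Tr.S 2 34
  (Tr.S 1 29 (Tr.L 180888) (Tr.L 180888)) (Tr.L 82664)) (Tr.L 180888)) (Tr.S 3 25 (Tr.S 3 32
  (Tr.S 1 29 (Tr.L 181448) (Tr.S 0 29 (Tr.L 181448) (Tr.L 181448))) (Tr.L 181448)) (Tr.L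
  180888))) (Tr.S 3 20 (Tr.S 2 32 (Tr.S 3 25 (Tr.S 0 34 (Tr.S 3 30 (Tr.L 115368) (Tr.L 8940))
  (Tr.L 180888)) (Tr.L 180888)) (Tr.L 82664)) (Tr.L 181448)))) (Tr.S 3 24 (Tr.L 180888) (Tr.S 3
  20 (Tr.S 3 25 (Tr.S 2 22 (Tr.L 180888) (Tr.S 2 33 (Tr.L 82664) (Tr.S 0 22 (Tr.L 180888) (Tr.S
  1 22 (Tr.S 2 29 (Tr.L 180888) (Tr.S 0 23 (Tr.L 180888) (Tr.S 2 23 (Tr.S 2 34 (Tr.L 180888)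
  (Tr.L 180888)) (Tr.L 180888)))) (Tr.L 180888))))) (Tr.L 180888)) (Tr.S 0 24 (Tr.S 3 25 (Tr.S 2
  26 (Tr.S 3 32 (Tr.S 1 29 (Tr.L 181448) (Tr.L 181448)) (Tr.L 181448)) (Tr.S 3 18 (Tr.L 181448)
  (Tr.L 181448))) (Tr.S 3 5 (Tr.L 180888) (Tr.L 180888))) (Tr.S 3 3 (Tr.S 3 25 (Tr.S 2 26 (Tr.S
  3 32 (Tr.S 0 30 (Tr.L 164508) (Tr.L 165516)) (Tr.L 181448)) (Tr.L 181448)) (Tr.L 180888))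
  (Tr.S 3 25 (Tr.S 2 26 (Tr.S 3 32 (Tr.S 0 29 (Tr.L 165131) (Tr.L 165131)) (Tr.L 181448)) (Tr.L
  173832)) (Tr.S 3 5 (Tr.L 180888) (Tr.L 180888)))))))))) (Tr.S 3 32 (Tr.S 2 26 (Tr.S 3 5 (Tr.S
  0 30 (Tr.S 3 18 (Tr.L 34091) (Tr.S 3 24 (Tr.S 1 25 (Tr.L 50520) (Tr.L 50856)) (Tr.L 180363)))
  (Tr.S 3 24 (Tr.S 1 25 (Tr.L 50520) (Tr.L 50856)) (Tr.S 0 24 (Tr.S 3 18 (Tr.S 1 29 (Tr.S 3 25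
  (Tr.L 181448) (Tr.L 50856)) (Tr.L 181448)) (Tr.L 180363)) (Tr.L 17739)))) (Tr.S 0 18 (Tr.S 3
  24 (Tr.S 1 25 (Tr.S 2 22 (Tr.L 50856) (Tr.L 181448)) (Tr.L 50856)) (Tr.L 18061)) (Tr.S 3 18
  (Tr.S 1 19 (Tr.S 3 25 (Tr.S 0 24 (Tr.S 2 22 (Tr.L 181448) (Tr.L 181448)) (Tr.L 34077)) (Tr.L
  50856)) (Tr.L 180888)) (Tr.S 0 30 (Tr.S 3 24 (Tr.S 1 25 (Tr.L 50408) (Tr.L 50856)) (Tr.L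
  49309)) (Tr.L 18061))))) (Tr.L 50408)) (Tr.S 3 19 (Tr.S 1 27 (Tr.L 169240) (Tr.S 1 29 (Tr.L
  169240) (Tr.S 3 17 (Tr.S 1 25 (Tr.S 2 26 (Tr.L 181448) (Tr.S 3 26 (Tr.S 0 24 (Tr.L 49309)
  (Tr.L 34077)) (Tr.L 181448))) (Tr.L 169240)) (Tr.S 2 32 (Tr.S 1 25 (Tr.S 3 26 (Tr.S 1 34 (Tr.S
  2 22 (Tr.S 1 23 (Tr.L 181448) (Tr.L 181448)) (Tr.L 50520)) (Tr.L 50520)) (Tr.L 181448)) (Tr.L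
  169240)) (Tr.L 83784))))) (Tr.S 1 19 (Tr.S 3 24 (Tr.S 3 31 (Tr.S 2 32 (Tr.S 0 30 (Tr.L 172236)
  (Tr.S 3 20 (Tr.S 0 18 (Tr.L 5804) (Tr.L 172236)) (Tr.L 173832))) (Tr.S 0 18 (Tr.S 3 20 (Tr.L
  5804) (Tr.L 169240)) (Tr.L 69868))) (Tr.S 0 30 (Tr.L 168092) (Tr.L 50856))) (Tr.S 3 23 (Tr.S 0
  30 (Tr.L 165516) (Tr.S 3 31 (Tr.L 5468) (Tr.S 2 22 (Tr.L 50856) (Tr.L 50520)))) (Tr.S 3 26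
  (Tr.S 2 32 (Tr.S 3 30 (Tr.L 50856) (Tr.S 3 31 (Tr.S 0 29 (Tr.L 169240) (Tr.S 0 18 (Tr.L 5804)
  (Tr.S 0 34 (Tr.L 181448) (Tr.S 1 34 (Tr.S 3 3 (Tr.L 181448) (Tr.L 181448)) (Tr.L 136872)))))
  (Tr.L 169240))) (Tr.L 71464)) (Tr.S 2 32 (Tr.S 3 25 (Tr.S 3 18 (Tr.L 50408) (Tr.S 0 18 (Tr.S 2
  22 (Tr.L 173832) (Tr.L 50856)) (Tr.L 41196))) (Tr.S 3 30 (Tr.L 50856) (Tr.S 3 33 (Tr.L 42792)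
  (Tr.S 0 18 (Tr.L 5804) (Tr.S 3 20 (Tr.S 0 24 (Tr.L 172236) (Tr.L 172236)) (Tr.S 3 3 (Tr.L
  181448) (Tr.L 181448))))))) (Tr.S 3 25 (Tr.S 3 17 (Tr.S 3 18 (Tr.L 181448) (Tr.S 0 23 (Tr.L
  49309) (Tr.S 2 23 (Tr.S 0 22 (Tr.S 3 20 (Tr.L 50856) (Tr.L 181448)) (Tr.L 50856)) (Tr.L
  84680)))) (Tr.S 3 20 (Tr.S 2 22 (Tr.L 50856) (Tr.S 0 22 (Tr.L 50856) (Tr.L 50856))) (Tr.L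
  83784))) (Tr.S 3 18 (Tr.L 71464) (Tr.S 3 31 (Tr.S 0 18 (Tr.L 5804) (Tr.L 69868)) (Tr.L
  50856)))))))) (Tr.S 3 30 (Tr.L 50856) (Tr.S 3 31 (Tr.S 0 30 (Tr.S 1 25 (Tr.S 3 18 (Tr.S 2 32
  (Tr.S 1 33 (Tr.L 181448) (Tr.L 165516)) (Tr.L 82664)) (Tr.S 3 27 (Tr.L 180363) (Tr.S 3 29
  (Tr.L 164508) (Tr.S 2 32 (Tr.S 1 33 (Tr.L 180888) (Tr.L 115368)) (Tr.S 3 20 (Tr.S 2 26 (Tr.S 0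
  29 (Tr.L 176268) (Tr.L 180888)) (Tr.L 173832)) (Tr.L 82664)))))) (Tr.S 2 32 (Tr.L 180888)
  (Tr.L 82664))) (Tr.S 1 25 (Tr.S 3 3 (Tr.S 2 26 (Tr.S 3 20 (Tr.S 2 22 (Tr.L 17053) (Tr.S 1 22
  (Tr.S 2 34 (Tr.L 17053) (Tr.L 82664)) (Tr.L 82664))) (Tr.L 181448)) (Tr.S 3 20 (Tr.L 8940)
  (Tr.S 2 32 (Tr.S 3 26 (Tr.S 0 34 (Tr.L 181448) (Tr.L 17613)) (Tr.L 181448)) (Tr.L 181448))))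
  (Tr.S 2 26 (Tr.S 3 20 (Tr.S 0 18 (Tr.S 1 22 (Tr.L 17067) (Tr.L 17067)) (Tr.L 180363)) (Tr.L
  181448)) (Tr.S 3 20 (Tr.L 8940) (Tr.S 2 32 (Tr.S 3 26 (Tr.S 0 24 (Tr.L 17067) (Tr.L 165516))
  (Tr.L 181448)) (Tr.L 181448))))) (Tr.L 5804))) (Tr.L 180888)))))))) (Tr.S 3 4 (Tr.S 2 32 (Tr.S
  3 17 (Tr.S 3 25 (Tr.S 3 20 (Tr.S 0 30 (Tr.L 180363) (Tr.S 1 19 (Tr.S 0 18 (Tr.L 34469) (Tr.L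
  41189)) (Tr.S 1 31 (Tr.S 3 30 (Tr.L 172768) (Tr.L 8933)) (Tr.L 172768)))) (Tr.L 173832)) (Tr.S
  1 25 (Tr.S 3 20 (Tr.S 2 29 (Tr.S 1 23 (Tr.S 3 31 (Tr.S 0 18 (Tr.L 17067) (Tr.L 172299)) (Tr.L
  172768)) (Tr.L 172768)) (Tr.L 172768)) (Tr.S 3 26 (Tr.S 3 19 (Tr.S 0 30 (Tr.L 180363) (Tr.S 0
  24 (Tr.S 2 27 (Tr.L 181448) (Tr.L 50856)) (Tr.L 34021))) (Tr.S 3 30 (Tr.L 50856) (Tr.S 0 24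
  (Tr.L 17067) (Tr.S 0 30 (Tr.S 2 29 (Tr.L 181448) (Tr.L 181448)) (Tr.L 18061))))) (Tr.L
  181448))) (Tr.S 0 30 (Tr.S 1 34 (Tr.S 3 31 (Tr.L 169632) (Tr.L 169632)) (Tr.L 136872)) (Tr.S 3
  18 (Tr.L 5419) (Tr.S 3 26 (Tr.S 0 22 (Tr.L 181448) (Tr.S 3 31 (Tr.L 5419) (Tr.S 1 31 (Tr.S 0
  34 (Tr.S 3 33 (Tr.L 169632) (Tr.L 169632)) (Tr.L 136872)) (Tr.L 169632)))) (Tr.S 3 20 (Tr.S 1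
  19 (Tr.S 3 31 (Tr.S 0 33 (Tr.L 173832) (Tr.L 9997)) (Tr.L 169632)) (Tr.L 169632)) (Tr.L
  173832))))))) (Tr.S 3 25 (Tr.S 3 18 (Tr.L 181448) (Tr.S 0 30 (Tr.L 180363) (Tr.S 3 23 (Tr.L
  173832) (Tr.S 3 20 (Tr.S 3 9 (Tr.S 1 34 (Tr.L 42848) (Tr.S 0 22 (Tr.L 180363) (Tr.S 0 34 (Tr.S
  1 31 (Tr.L 173832) (Tr.S 1 19 (Tr.S 0 24 (Tr.L 49323) (Tr.L 50856)) (Tr.L 172768))) (Tr.S 1 31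
  (Tr.L 141128) (Tr.L 50856))))) (Tr.S 1 19 (Tr.S 0 18 (Tr.L 34469) (Tr.L 41315)) (Tr.S 1 31
  (Tr.S 3 30 (Tr.L 172768) (Tr.L 9059)) (Tr.L 172768)))) (Tr.S 1 19 (Tr.L 173832) (Tr.L
  181448)))))) (Tr.S 3 24 (Tr.S 3 19 (Tr.L 181448) (Tr.S 1 31 (Tr.L 172768) (Tr.S 3 23 (Tr.L
  173832) (Tr.S 3 20 (Tr.S 3 9 (Tr.S 1 27 (Tr.L 173832) (Tr.S 0 33 (Tr.L 18061) (Tr.S 0 29 (Tr.L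
  173832) (Tr.S 2 27 (Tr.S 1 29 (Tr.L 173832) (Tr.L 173832)) (Tr.S 1 19 (Tr.L 173832) (Tr.L
  173832)))))) (Tr.S 1 19 (Tr.S 3 31 (Tr.S 2 23 (Tr.L 169632) (Tr.S 0 23 (Tr.L 169632) (Tr.L
  173832))) (Tr.L 169632)) (Tr.S 1 25 (Tr.S 2 29 (Tr.L 180888) (Tr.L 172768)) (Tr.L 180888))))
  (Tr.S 0 18 (Tr.L 17739) (Tr.L 181448)))))) (Tr.S 0 18 (Tr.S 3 31 (Tr.L 18061) (Tr.S 1 19 (Tr.L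
  34469) (Tr.S 3 30 (Tr.S 3 26 (Tr.S 1 31 (Tr.S 0 34 (Tr.L 181448) (Tr.L 181448)) (Tr.L 34147))
  (Tr.S 3 20 (Tr.S 1 25 (Tr.L 172768) (Tr.L 172768)) (Tr.L 181448))) (Tr.S 3 20 (Tr.L 164515)
  (Tr.L 165131))))) (Tr.S 3 18 (Tr.S 0 24 (Tr.S 3 26 (Tr.S 0 34 (Tr.S 2 22 (Tr.S 0 23 (Tr.L
  181448) (Tr.L 181448)) (Tr.L 17739)) (Tr.L 17739)) (Tr.L 181448)) (Tr.S 3 26 (Tr.S 0 30 (Tr.S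
  1 34 (Tr.S 3 31 (Tr.L 116040) (Tr.L 34147)) (Tr.L 181448)) (Tr.L 165131)) (Tr.L 181448)))
  (Tr.S 1 31 (Tr.S 3 20 (Tr.L 172768) (Tr.S 3 26 (Tr.S 0 34 (Tr.S 3 30 (Tr.L 181448) (Tr.L
  180363)) (Tr.L 181448)) (Tr.L 181448))) (Tr.S 3 20 (Tr.S 3 31 (Tr.S 0 30 (Tr.L 180363) (Tr.L
  180363)) (Tr.L 41189)) (Tr.S 0 24 (Tr.S 3 30 (Tr.S 3 26 (Tr.S 1 34 (Tr.L 181448) (Tr.S 2 29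
  (Tr.L 181448) (Tr.L 181448))) (Tr.L 181448)) (Tr.L 180363)) (Tr.S 3 31 (Tr.L 180363) (Tr.L
  180363)))))))))) (Tr.S 1 19 (Tr.S 3 31 (Tr.S 3 26 (Tr.S 0 18 (Tr.L 18061) (Tr.S 3 23 (Tr.L
  69931) (Tr.S 0 24 (Tr.S 3 18 (Tr.S 2 22 (Tr.L 17613) (Tr.S 0 23 (Tr.L 169632) (Tr.S 2 23 (Tr.L
  17613) (Tr.L 169632)))) (Tr.L 18061)) (Tr.S 2 20 (Tr.S 0 23 (Tr.L 166027) (Tr.L 169632)) (Tr.L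
  165131))))) (Tr.S 3 9 (Tr.S 2 26 (Tr.S 3 20 (Tr.S 0 18 (Tr.L 5797) (Tr.L 69931)) (Tr.L 71464))
  (Tr.L 173832)) (Tr.S 2 26 (Tr.S 3 18 (Tr.L 181448) (Tr.S 0 18 (Tr.S 3 20 (Tr.L 5797) (Tr.L
  169240)) (Tr.L 69917))) (Tr.L 173832)))) (Tr.S 3 29 (Tr.L 50856) (Tr.S 0 18 (Tr.S 3 26 (Tr.L
  34469) (Tr.S 2 20 (Tr.L 174280) (Tr.S 3 27 (Tr.L 169632) (Tr.S 3 30 (Tr.S 3 20 (Tr.L 34469)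
  (Tr.L 165131)) (Tr.S 2 22 (Tr.S 3 24 (Tr.S 3 11 (Tr.L 169632) (Tr.L 169632)) (Tr.L 18061))
  (Tr.L 18061)))))) (Tr.S 3 11 (Tr.S 3 24 (Tr.L 169632) (Tr.S 3 26 (Tr.L 169632) (Tr.S 3 25
  (Tr.S 2 26 (Tr.S 3 32 (Tr.S 0 24 (Tr.L 17739) (Tr.L 34147)) (Tr.S 3 20 (Tr.S 0 24 (Tr.L 82251)
  (Tr.L 180363)) (Tr.L 181448))) (Tr.S 3 32 (Tr.S 2 20 (Tr.S 0 23 (Tr.L 174280) (Tr.L 173832))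
  (Tr.L 181448)) (Tr.L 173832))) (Tr.S 0 24 (Tr.S 3 32 (Tr.L 5797) (Tr.L 71520)) (Tr.L
  169632))))) (Tr.S 3 25 (Tr.S 2 26 (Tr.S 3 32 (Tr.S 1 29 (Tr.L 181448) (Tr.S 0 29 (Tr.L 181448)
  (Tr.L 181448))) (Tr.S 3 20 (Tr.S 0 24 (Tr.L 82125) (Tr.L 180363)) (Tr.L 181448))) (Tr.S 3 30
  (Tr.L 82125) (Tr.S 0 34 (Tr.L 50856) (Tr.S 3 33 (Tr.L 173832) (Tr.S 3 20 (Tr.L 82125) (Tr.S 2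
  20 (Tr.S 0 22 (Tr.S 3 23 (Tr.L 173832) (Tr.L 173832)) (Tr.L 174280)) (Tr.L 181448))))))) (Tr.L
  50856)))))) (Tr.S 3 31 (Tr.S 0 24 (Tr.S 3 18 (Tr.S 2 26 (Tr.L 17613) (Tr.S 3 26 (Tr.S 2 27
  (Tr.L 18061) (Tr.S 1 27 (Tr.L 18061) (Tr.L 18061))) (Tr.L 172768))) (Tr.L 180363)) (Tr.S 3 26
  (Tr.L 66277) (Tr.S 2 26 (Tr.S 3 24 (Tr.S 3 23 (Tr.L 181448) (Tr.S 3 11 (Tr.S 3 20 (Tr.S 1 25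
  (Tr.S 0 27 (Tr.L 180888) (Tr.L 83784)) (Tr.L 180888)) (Tr.L 181448)) (Tr.S 3 20 (Tr.S 1 25
  (Tr.S 0 29 (Tr.L 176800) (Tr.L 87816)) (Tr.L 169632)) (Tr.L 181448)))) (Tr.L 66277)) (Tr.L
  173832)))) (Tr.S 1 31 (Tr.S 3 33 (Tr.S 0 30 (Tr.S 3 18 (Tr.L 66277) (Tr.S 3 24 (Tr.L 69917)
  (Tr.L 180363))) (Tr.S 3 25 (Tr.S 2 26 (Tr.S 3 20 (Tr.S 0 18 (Tr.L 18061) (Tr.L 180363)) (Tr.L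
  181448)) (Tr.L 173832)) (Tr.S 3 19 (Tr.S 0 18 (Tr.S 2 20 (Tr.S 3 26 (Tr.L 18061) (Tr.L
  173832)) (Tr.L 169240)) (Tr.L 180363)) (Tr.L 17053)))) (Tr.S 3 20 (Tr.S 2 26 (Tr.S 3 27 (Tr.L
  180888) (Tr.S 3 29 (Tr.L 82664) (Tr.S 0 30 (Tr.S 2 34 (Tr.L 114829) (Tr.L 180363)) (Tr.S 3 24
  (Tr.S 3 9 (Tr.L 169632) (Tr.L 180888)) (Tr.S 0 24 (Tr.S 1 29 (Tr.L 176800) (Tr.L 180363))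
  (Tr.L 66277)))))) (Tr.L 173832)) (Tr.S 3 18 (Tr.S 3 27 (Tr.L 180888) (Tr.S 0 30 (Tr.S 2 34
  (Tr.L 98981) (Tr.L 132749)) (Tr.S 0 24 (Tr.S 3 29 (Tr.L 17067) (Tr.S 2 33 (Tr.L 18061) (Tr.S 0
  33 (Tr.S 2 27 (Tr.S 3 26 (Tr.L 18061) (Tr.L 8933)) (Tr.L 18061)) (Tr.L 18061)))) (Tr.L
  18061)))) (Tr.S 0 22 (Tr.S 3 9 (Tr.S 3 26 (Tr.L 69931) (Tr.S 2 20 (Tr.S 3 32 (Tr.S 3 23 (Tr.L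
  180363) (Tr.L 172299)) (Tr.L 173832)) (Tr.S 2 26 (Tr.S 3 32 (Tr.S 2 34 (Tr.S 0 30 (Tr.L
  181448) (Tr.L 180363)) (Tr.L 181448)) (Tr.L 181448)) (Tr.L 181448)))) (Tr.S 3 19 (Tr.S 2 34
  (Tr.S 0 33 (Tr.S 3 30 (Tr.L 180363) (Tr.L 18061)) (Tr.L 114829)) (Tr.L 135325)) (Tr.L
  180888))) (Tr.S 0 23 (Tr.S 3 19 (Tr.S 3 32 (Tr.S 0 30 (Tr.S 3 9 (Tr.L 169632) (Tr.L 169632))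
  (Tr.L 18061)) (Tr.S 2 20 (Tr.S 1 22 (Tr.L 169632) (Tr.L 180363)) (Tr.L 82125))) (Tr.S 3 27
  (Tr.L 180888) (Tr.S 3 29 (Tr.L 168099) (Tr.S 3 9 (Tr.S 2 26 (Tr.L 181448) (Tr.S 3 26 (Tr.L
  169632) (Tr.L 172768))) (Tr.S 1 22 (Tr.S 3 25 (Tr.S 2 20 (Tr.L 172768) (Tr.L 181448)) (Tr.L
  180888)) (Tr.L 180888)))))) (Tr.S 0 24 (Tr.S 3 30 (Tr.S 2 22 (Tr.L 82125) (Tr.L 82125)) (Tr.L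
  18061)) (Tr.S 3 24 (Tr.S 3 9 (Tr.S 3 19 (Tr.S 2 22 (Tr.L 181448) (Tr.S 2 27 (Tr.L 169632)
  (Tr.S 1 29 (Tr.L 169632) (Tr.S 2 26 (Tr.L 181448) (Tr.S 2 20 (Tr.S 1 23 (Tr.L 173832) (Tr.L
  173832)) (Tr.L 181448)))))) (Tr.L 169632)) (Tr.S 3 19 (Tr.S 2 27 (Tr.L 169632) (Tr.S 1 29
  (Tr.L 169632) (Tr.S 2 26 (Tr.L 169240) (Tr.S 2 20 (Tr.S 1 23 (Tr.L 173832) (Tr.L 173832))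
  (Tr.L 173832))))) (Tr.L 169632))) (Tr.S 0 18 (Tr.S 3 30 (Tr.S 3 19 (Tr.S 2 20 (Tr.S 1 23 (Tr.L
  169632) (Tr.L 169632)) (Tr.L 165131)) (Tr.L 66277)) (Tr.L 18061)) (Tr.S 3 32 (Tr.S 3 11 (Tr.L
  180363) (Tr.L 180363)) (Tr.L 82125)))))))))) (Tr.S 0 18 (Tr.S 3 25 (Tr.L 34469) (Tr.S 3 19
  (Tr.S 2 20 (Tr.S 1 29 (Tr.L 169632) (Tr.S 3 26 (Tr.S 1 23 (Tr.L 166027) (Tr.L 84680)) (Tr.S 1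
  23 (Tr.L 173832) (Tr.L 173832)))) (Tr.S 3 30 (Tr.L 181448) (Tr.S 3 24 (Tr.S 2 26 (Tr.S 1 29
  (Tr.L 181448) (Tr.S 2 22 (Tr.L 181448) (Tr.L 181448))) (Tr.L 181448)) (Tr.L 18061)))) (Tr.S 3
  30 (Tr.L 34469) (Tr.S 3 11 (Tr.S 2 20 (Tr.S 1 22 (Tr.L 180888) (Tr.L 18061)) (Tr.L 180888))
  (Tr.L 50856))))) (Tr.S 3 19 (Tr.S 2 20 (Tr.S 3 32 (Tr.L 41189) (Tr.S 3 26 (Tr.S 0 22 (Tr.L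
  82125) (Tr.L 82125)) (Tr.L 82125))) (Tr.S 3 32 (Tr.S 0 30 (Tr.S 2 26 (Tr.S 3 24 (Tr.S 1 29
  (Tr.L 181448) (Tr.S 0 29 (Tr.L 181448) (Tr.L 181448))) (Tr.L 180363)) (Tr.L 181448)) (Tr.L
  180363)) (Tr.L 181448))) (Tr.S 3 27 (Tr.L 180888) (Tr.S 3 29 (Tr.L 50856) (Tr.S 3 32 (Tr.S 2
  26 (Tr.S 1 23 (Tr.L 181448) (Tr.S 0 23 (Tr.L 181448) (Tr.S 1 29 (Tr.S 3 24 (Tr.L 181448) (Tr.S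
  0 27 (Tr.L 165131) (Tr.L 177416))) (Tr.S 0 29 (Tr.S 3 24 (Tr.L 181448) (Tr.L 164515)) (Tr.L
  181448))))) (Tr.L 172768)) (Tr.S 3 18 (Tr.S 0 24 (Tr.S 3 11 (Tr.S 3 25 (Tr.S 2 20 (Tr.L
  173832) (Tr.L 181448)) (Tr.L 180888)) (Tr.L 50856)) (Tr.L 164515)) (Tr.S 3 9 (Tr.S 3 25 (Tr.L
  82664) (Tr.L 50856)) (Tr.L 180888)))))))))))) (Tr.S 3 5 (Tr.S 0 18 (Tr.S 3 32 (Tr.S 3 25 (Tr.L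
  165516) (Tr.S 1 19 (Tr.L 169632) (Tr.S 3 24 (Tr.S 2 26 (Tr.S 0 27 (Tr.L 17739) (Tr.S 0 29
  (Tr.L 181448) (Tr.S 1 29 (Tr.L 181448) (Tr.L 181448)))) (Tr.S 2 20 (Tr.S 1 23 (Tr.S 3 22 (Tr.L
  173832) (Tr.L 174280)) (Tr.L 19083)) (Tr.L 181448))) (Tr.S 2 26 (Tr.L 17739) (Tr.L 165516)))))
  (Tr.S 2 32 (Tr.S 3 24 (Tr.S 3 19 (Tr.L 181448) (Tr.S 1 19 (Tr.S 3 20 (Tr.L 5804) (Tr.L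
  169184)) (Tr.L 9059))) (Tr.S 3 31 (Tr.L 165516) (Tr.S 3 33 (Tr.L 165516) (Tr.S 3 26 (Tr.S 1 31
  (Tr.S 3 19 (Tr.S 1 23 (Tr.L 169632) (Tr.L 169632)) (Tr.L 169632)) (Tr.L 34147)) (Tr.S 3 19
  (Tr.L 181448) (Tr.S 1 22 (Tr.L 164515) (Tr.S 3 30 (Tr.S 3 22 (Tr.L 173832) (Tr.S 2 22 (Tr.S 1
  23 (Tr.S 3 20 (Tr.L 165516) (Tr.L 181448)) (Tr.L 165516)) (Tr.L 174280))) (Tr.L 165516))))))))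
  (Tr.S 1 19 (Tr.S 2 23 (Tr.S 3 20 (Tr.L 83784) (Tr.L 181448)) (Tr.L 84680)) (Tr.S 3 30 (Tr.S 3
  20 (Tr.L 66284) (Tr.S 2 20 (Tr.S 1 23 (Tr.S 3 22 (Tr.L 83784) (Tr.L 83784)) (Tr.L 84680))
  (Tr.L 181448))) (Tr.S 3 25 (Tr.L 165516) (Tr.S 3 24 (Tr.S 2 26 (Tr.S 3 20 (Tr.S 1 25 (Tr.L
  82664) (Tr.L 169632)) (Tr.L 181448)) (Tr.S 3 19 (Tr.L 83784) (Tr.L 83784))) (Tr.S 3 19 (Tr.L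
  67404) (Tr.L 67404)))))))) (Tr.S 3 19 (Tr.S 1 25 (Tr.S 2 26 (Tr.S 0 29 (Tr.S 3 24 (Tr.L
  181448) (Tr.L 180363)) (Tr.L 181448)) (Tr.S 3 32 (Tr.L 41315) (Tr.S 2 32 (Tr.S 3 26 (Tr.S 0 24
  (Tr.S 2 27 (Tr.L 181448) (Tr.L 50856)) (Tr.L 180363)) (Tr.L 181448)) (Tr.S 2 20 (Tr.S 3 26
  (Tr.S 0 24 (Tr.S 1 22 (Tr.L 83784) (Tr.L 50856)) (Tr.L 180363)) (Tr.L 83784)) (Tr.L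
  181448))))) (Tr.S 1 31 (Tr.S 2 20 (Tr.S 3 26 (Tr.L 69868) (Tr.S 3 32 (Tr.S 0 30 (Tr.L 168099)
  (Tr.L 180363)) (Tr.L 172236))) (Tr.S 0 30 (Tr.S 3 24 (Tr.S 2 26 (Tr.S 1 29 (Tr.L 181448) (Tr.L
  169184)) (Tr.L 181448)) (Tr.L 180363)) (Tr.S 3 30 (Tr.S 2 32 (Tr.S 0 34 (Tr.L 181448) (Tr.L
  181448)) (Tr.L 181448)) (Tr.L 180363)))) (Tr.L 168099))) (Tr.S 3 20 (Tr.S 1 25 (Tr.S 2 27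
  (Tr.L 172768) (Tr.S 3 30 (Tr.L 50856) (Tr.S 0 24 (Tr.L 180363) (Tr.S 3 24 (Tr.S 0 27 (Tr.S 2
  26 (Tr.L 83784) (Tr.S 2 29 (Tr.L 180363) (Tr.L 180363))) (Tr.L 176800)) (Tr.L 180363)))))
  (Tr.S 1 19 (Tr.S 2 32 (Tr.S 3 30 (Tr.L 41315) (Tr.S 0 30 (Tr.S 3 31 (Tr.L 172236) (Tr.L
  41315)) (Tr.L 180363))) (Tr.S 2 26 (Tr.S 3 31 (Tr.L 69868) (Tr.S 3 25 (Tr.S 0 22 (Tr.L 50856)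
  (Tr.L 49323)) (Tr.L 50856))) (Tr.L 172236))) (Tr.S 3 27 (Tr.L 180888) (Tr.S 2 26 (Tr.S 3 25
  (Tr.S 1 31 (Tr.S 0 24 (Tr.S 1 27 (Tr.L 83784) (Tr.L 83784)) (Tr.L 180363)) (Tr.L 50856)) (Tr.L
  82664)) (Tr.S 2 32 (Tr.S 3 25 (Tr.S 0 24 (Tr.S 2 29 (Tr.L 180363) (Tr.L 172236)) (Tr.L
  180363)) (Tr.L 172768)) (Tr.L 172768)))))) (Tr.S 2 20 (Tr.S 1 25 (Tr.S 3 32 (Tr.L 50856) (Tr.S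
  3 31 (Tr.S 3 26 (Tr.S 2 27 (Tr.L 82664) (Tr.S 0 27 (Tr.L 164515) (Tr.L 83784))) (Tr.L 83784))
  (Tr.L 50856))) (Tr.S 3 26 (Tr.S 1 19 (Tr.S 3 31 (Tr.S 0 23 (Tr.S 3 22 (Tr.L 83784) (Tr.L
  83784)) (Tr.L 84680)) (Tr.L 169632)) (Tr.L 82664)) (Tr.S 3 30 (Tr.L 83784) (Tr.S 3 31 (Tr.L
  83784) (Tr.S 3 34 (Tr.L 173832) (Tr.S 3 32 (Tr.S 0 30 (Tr.S 3 24 (Tr.S 1 31 (Tr.L 169632)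
  (Tr.L 169632)) (Tr.S 3 18 (Tr.S 1 19 (Tr.L 42848) (Tr.S 1 31 (Tr.L 164515) (Tr.L 50856)))
  (Tr.L 165516))) (Tr.S 3 18 (Tr.S 1 19 (Tr.L 42848) (Tr.L 9059)) (Tr.L 172236))) (Tr.S 1 31
  (Tr.L 82664) (Tr.L 83784)))))))) (Tr.S 0 30 (Tr.S 1 31 (Tr.S 3 25 (Tr.S 3 18 (Tr.S 2 26 (Tr.S
  3 32 (Tr.L 164515) (Tr.L 181448)) (Tr.L 172768)) (Tr.L 180363)) (Tr.L 169632)) (Tr.S 3 25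
  (Tr.L 34147) (Tr.S 1 19 (Tr.S 3 31 (Tr.S 2 32 (Tr.S 1 34 (Tr.L 181448) (Tr.L 181448)) (Tr.L
  181448)) (Tr.L 169632)) (Tr.S 3 32 (Tr.L 50856) (Tr.S 2 32 (Tr.S 3 26 (Tr.S 3 31 (Tr.L 165068)
  (Tr.L 164515)) (Tr.L 181448)) (Tr.L 181448)))))) (Tr.S 3 24 (Tr.L 180363) (Tr.S 1 19 (Tr.S 3
  31 (Tr.S 3 9 (Tr.L 5475) (Tr.L 5468)) (Tr.S 3 25 (Tr.S 2 26 (Tr.S 3 32 (Tr.S 0 24 (Tr.L 17739)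
  (Tr.L 17739)) (Tr.L 181448)) (Tr.L 42848)) (Tr.L 50856))) (Tr.S 3 18 (Tr.S 0 24 (Tr.S 2 26
  (Tr.S 1 29 (Tr.S 3 25 (Tr.L 181448) (Tr.L 169632)) (Tr.L 181448)) (Tr.S 3 26 (Tr.S 2 32 (Tr.S
  1 25 (Tr.S 2 27 (Tr.L 181448) (Tr.L 176800)) (Tr.L 169632)) (Tr.L 181448)) (Tr.L 181448)))
  (Tr.L 17739)) (Tr.S 3 30 (Tr.S 2 32 (Tr.S 0 24 (Tr.S 3 26 (Tr.S 1 25 (Tr.L 50856) (Tr.L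
  169632)) (Tr.L 181448)) (Tr.L 180363)) (Tr.L 181448)) (Tr.L 180363)))))))))) (Tr.S 0 30 (Tr.S
  3 17 (Tr.S 3 19 (Tr.S 3 26 (Tr.L 165516) (Tr.S 2 32 (Tr.L 181448) (Tr.S 3 27 (Tr.L 180363)
  (Tr.S 3 24 (Tr.S 2 26 (Tr.S 3 32 (Tr.S 1 29 (Tr.L 181448) (Tr.S 0 29 (Tr.L 181448) (Tr.L
  181448))) (Tr.L 181448)) (Tr.S 2 20 (Tr.S 0 23 (Tr.L 173832) (Tr.L 172236)) (Tr.L 181448)))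
  (Tr.S 1 25 (Tr.L 34469) (Tr.L 165516)))))) (Tr.S 1 19 (Tr.S 3 25 (Tr.S 3 18 (Tr.S 0 22 (Tr.L
  34469) (Tr.S 2 20 (Tr.L 50856) (Tr.L 34021))) (Tr.L 165516)) (Tr.S 3 18 (Tr.S 3 31 (Tr.S 2 33
  (Tr.L 165516) (Tr.S 0 23 (Tr.L 165516) (Tr.L 165516))) (Tr.L 169632)) (Tr.S 3 24 (Tr.S 3 31
  (Tr.S 2 32 (Tr.L 172236) (Tr.L 69868)) (Tr.L 169632)) (Tr.L 165516)))) (Tr.S 2 32 (Tr.S 3 26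
  (Tr.S 3 18 (Tr.S 1 27 (Tr.L 169184) (Tr.S 1 29 (Tr.L 169632) (Tr.S 1 31 (Tr.L 169632) (Tr.S 3
  31 (Tr.S 2 29 (Tr.L 165516) (Tr.L 181448)) (Tr.L 50408))))) (Tr.L 165516)) (Tr.S 3 20 (Tr.S 3
  24 (Tr.S 1 25 (Tr.S 2 29 (Tr.L 172768) (Tr.L 172768)) (Tr.L 169632)) (Tr.L 165516)) (Tr.L
  181448))) (Tr.S 3 26 (Tr.L 66277) (Tr.S 2 26 (Tr.S 0 29 (Tr.S 3 20 (Tr.S 3 24 (Tr.L 82125)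
  (Tr.L 82125)) (Tr.S 2 23 (Tr.S 3 32 (Tr.S 2 34 (Tr.S 3 18 (Tr.L 181448) (Tr.L 181448)) (Tr.L
  181448)) (Tr.L 181448)) (Tr.L 181448))) (Tr.S 3 20 (Tr.S 3 24 (Tr.S 1 25 (Tr.L 87816) (Tr.L
  169632)) (Tr.L 82125)) (Tr.S 1 29 (Tr.S 3 25 (Tr.L 181448) (Tr.L 169632)) (Tr.L 181448))))
  (Tr.S 3 32 (Tr.S 2 20 (Tr.S 1 31 (Tr.S 3 25 (Tr.S 0 23 (Tr.L 172768) (Tr.L 165516)) (Tr.L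
  169632)) (Tr.L 50856)) (Tr.L 181448)) (Tr.L 82664))))))) (Tr.S 1 31 (Tr.S 3 19 (Tr.S 3 27
  (Tr.L 180363) (Tr.S 3 29 (Tr.L 165516) (Tr.S 3 33 (Tr.L 168092) (Tr.S 2 33 (Tr.S 3 34 (Tr.L
  83784) (Tr.S 3 11 (Tr.L 135325) (Tr.L 136872))) (Tr.L 169632))))) (Tr.S 3 27 (Tr.L 180888)
  (Tr.S 3 29 (Tr.L 169632) (Tr.S 3 24 (Tr.S 3 9 (Tr.L 169632) (Tr.L 180888)) (Tr.S 3 18 (Tr.S 3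
  33 (Tr.L 164515) (Tr.S 2 33 (Tr.S 3 32 (Tr.L 132749) (Tr.L 66277)) (Tr.L 165516))) (Tr.L
  165516)))))) (Tr.S 3 19 (Tr.S 3 26 (Tr.L 165516) (Tr.S 2 26 (Tr.S 3 32 (Tr.S 3 24 (Tr.S 1 29
  (Tr.L 181448) (Tr.S 0 29 (Tr.L 181448) (Tr.L 181448))) (Tr.L 165068)) (Tr.L 181448)) (Tr.L
  41189))) (Tr.S 1 19 (Tr.S 3 24 (Tr.S 3 33 (Tr.L 169632) (Tr.S 2 26 (Tr.S 3 11 (Tr.S 3 31 (Tr.L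
  69861) (Tr.L 169632)) (Tr.S 3 31 (Tr.L 69868) (Tr.L 169632))) (Tr.S 3 31 (Tr.S 2 32 (Tr.S 1 34
  (Tr.L 169632) (Tr.L 141128)) (Tr.L 172236)) (Tr.L 42848)))) (Tr.S 3 9 (Tr.S 3 18 (Tr.S 2 20
  (Tr.S 0 22 (Tr.L 165516) (Tr.L 166027)) (Tr.S 3 25 (Tr.L 34147) (Tr.S 3 31 (Tr.S 2 32 (Tr.L
  165068) (Tr.L 181448)) (Tr.L 169632)))) (Tr.L 165516)) (Tr.S 3 23 (Tr.L 165516) (Tr.S 3 25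
  (Tr.S 3 18 (Tr.S 0 22 (Tr.L 34469) (Tr.S 2 22 (Tr.L 50520) (Tr.L 34973))) (Tr.L 165516)) (Tr.S
  3 18 (Tr.S 3 31 (Tr.S 2 23 (Tr.L 169632) (Tr.S 0 23 (Tr.L 169632) (Tr.L 169632))) (Tr.L
  169632)) (Tr.L 165516)))))) (Tr.S 3 25 (Tr.L 34469) (Tr.S 3 11 (Tr.S 1 25 (Tr.S 3 32 (Tr.L
  180888) (Tr.S 3 34 (Tr.L 180888) (Tr.S 2 32 (Tr.S 3 20 (Tr.S 3 24 (Tr.S 2 29 (Tr.L 180888)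
  (Tr.L 172768)) (Tr.L 165516)) (Tr.S 3 26 (Tr.S 2 29 (Tr.L 181448) (Tr.L 181448)) (Tr.L
  181448))) (Tr.S 3 18 (Tr.L 66277) (Tr.S 3 24 (Tr.S 2 26 (Tr.S 0 27 (Tr.L 83784) (Tr.L 83784))
  (Tr.L 83784)) (Tr.L 164508)))))) (Tr.L 180888)) (Tr.S 1 25 (Tr.S 3 32 (Tr.L 50856) (Tr.S 3 31
  (Tr.S 2 32 (Tr.S 3 20 (Tr.L 172236) (Tr.S 3 26 (Tr.L 165068) (Tr.L 181448))) (Tr.S 3 26 (Tr.L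
  66277) (Tr.S 2 26 (Tr.S 3 24 (Tr.L 82664) (Tr.L 66277)) (Tr.L 82664)))) (Tr.S 2 32 (Tr.S 3 24
  (Tr.L 172768) (Tr.L 34469)) (Tr.L 50856)))) (Tr.L 169632)))))))) (Tr.S 3 3 (Tr.S 1 25 (Tr.S 3
  31 (Tr.S 2 32 (Tr.S 3 24 (Tr.L 8933) (Tr.S 3 26 (Tr.S 0 24 (Tr.S 2 27 (Tr.L 181448) (Tr.L
  18061)) (Tr.L 18061)) (Tr.L 8933))) (Tr.S 2 26 (Tr.S 0 27 (Tr.S 3 24 (Tr.L 180888) (Tr.L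
  165516)) (Tr.L 18061)) (Tr.S 3 24 (Tr.L 172768) (Tr.S 0 24 (Tr.S 3 18 (Tr.S 2 27 (Tr.S 3 26
  (Tr.L 180888) (Tr.L 172768)) (Tr.L 18061)) (Tr.L 18061)) (Tr.L 165516))))) (Tr.S 3 16 (Tr.S 3
  26 (Tr.S 3 18 (Tr.L 180888) (Tr.S 3 23 (Tr.L 50856) (Tr.S 0 27 (Tr.L 34469) (Tr.S 0 24 (Tr.S 2
  29 (Tr.L 176268) (Tr.L 54944)) (Tr.L 34469))))) (Tr.S 3 18 (Tr.L 180888) (Tr.S 3 20 (Tr.L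
  180888) (Tr.S 2 32 (Tr.L 181448) (Tr.S 3 23 (Tr.L 50856) (Tr.S 3 19 (Tr.S 3 32 (Tr.S 0 24
  (Tr.L 18061) (Tr.S 3 24 (Tr.S 2 26 (Tr.L 50520) (Tr.S 2 20 (Tr.S 0 18 (Tr.L 10060) (Tr.L
  18061)) (Tr.L 181448))) (Tr.L 18061))) (Tr.S 2 20 (Tr.L 83784) (Tr.L 181448))) (Tr.S 0 18
  (Tr.S 2 20 (Tr.L 172768) (Tr.L 180888)) (Tr.L 180888)))))))) (Tr.S 3 18 (Tr.L 180888) (Tr.S 3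
  20 (Tr.L 180888) (Tr.S 3 23 (Tr.L 50856) (Tr.S 3 19 (Tr.S 2 20 (Tr.S 3 32 (Tr.S 0 18 (Tr.S 1
  23 (Tr.L 173832) (Tr.L 173832)) (Tr.L 18061)) (Tr.S 0 22 (Tr.L 82125) (Tr.S 0 24 (Tr.L 82125)
  (Tr.S 3 26 (Tr.S 0 18 (Tr.L 67341) (Tr.L 165516)) (Tr.L 173832))))) (Tr.S 0 24 (Tr.S 3 30
  (Tr.S 2 27 (Tr.S 3 26 (Tr.L 181448) (Tr.L 181448)) (Tr.L 177416)) (Tr.L 18061)) (Tr.S 3 30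
  (Tr.L 34077) (Tr.S 3 24 (Tr.S 2 26 (Tr.S 0 29 (Tr.L 181448) (Tr.L 181448)) (Tr.L 181448))
  (Tr.L 18061))))) (Tr.S 0 18 (Tr.S 3 30 (Tr.L 34469) (Tr.L 17053)) (Tr.L 180888)))))))) (Tr.S 3
  31 (Tr.S 1 19 (Tr.S 3 11 (Tr.S 2 32 (Tr.S 3 26 (Tr.L 5468) (Tr.S 3 20 (Tr.S 0 18 (Tr.L 5797)
  (Tr.L 18061)) (Tr.L 169184))) (Tr.S 0 18 (Tr.S 2 23 (Tr.S 3 20 (Tr.L 83784) (Tr.L 181448))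
  (Tr.L 169632)) (Tr.S 3 18 (Tr.S 2 20 (Tr.S 0 22 (Tr.L 83784) (Tr.L 83784)) (Tr.L 181448))
  (Tr.L 18061)))) (Tr.S 2 32 (Tr.S 3 22 (Tr.L 5405) (Tr.S 3 23 (Tr.L 5468) (Tr.S 3 26 (Tr.S 3 17
  (Tr.L 5356) (Tr.L 5468)) (Tr.S 2 29 (Tr.L 169632) (Tr.S 0 29 (Tr.L 169632) (Tr.S 2 23 (Tr.S 1
  33 (Tr.L 169632) (Tr.L 169632)) (Tr.S 0 23 (Tr.S 3 18 (Tr.L 169632) (Tr.L 18061)) (Tr.L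
  169632)))))))) (Tr.S 3 16 (Tr.S 0 18 (Tr.S 3 24 (Tr.S 2 22 (Tr.S 3 20 (Tr.L 83784) (Tr.L
  181448)) (Tr.L 83784)) (Tr.L 165516)) (Tr.S 3 18 (Tr.S 2 20 (Tr.S 0 22 (Tr.L 83784) (Tr.L
  83784)) (Tr.L 181448)) (Tr.L 18061))) (Tr.S 0 18 (Tr.S 3 24 (Tr.S 2 26 (Tr.S 3 20 (Tr.L 5804)
  (Tr.L 169240)) (Tr.L 71464)) (Tr.L 165516)) (Tr.S 3 18 (Tr.S 2 20 (Tr.S 0 23 (Tr.L 169632)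
  (Tr.L 169632)) (Tr.L 181448)) (Tr.L 18061)))))) (Tr.L 5797)) (Tr.S 3 24 (Tr.S 0 22 (Tr.L
  168092) (Tr.S 0 23 (Tr.L 168092) (Tr.S 3 11 (Tr.S 0 18 (Tr.S 1 19 (Tr.L 169632) (Tr.S 3 19
  (Tr.S 2 20 (Tr.L 10060) (Tr.L 5468)) (Tr.L 169632))) (Tr.L 168092)) (Tr.S 1 31 (Tr.S 0 18
  (Tr.S 3 19 (Tr.S 0 33 (Tr.S 1 27 (Tr.S 1 23 (Tr.L 169632) (Tr.L 169632)) (Tr.L 5804)) (Tr.L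
  5804)) (Tr.L 169632)) (Tr.L 168092)) (Tr.L 50856))))) (Tr.S 0 24 (Tr.S 3 20 (Tr.S 3 30 (Tr.S 2
  26 (Tr.S 3 25 (Tr.L 82125) (Tr.S 1 19 (Tr.L 168092) (Tr.L 180888))) (Tr.S 2 32 (Tr.S 1 31
  (Tr.L 172768) (Tr.L 41189)) (Tr.L 82125))) (Tr.S 2 32 (Tr.L 172236) (Tr.L 18061))) (Tr.S 3 29
  (Tr.S 2 32 (Tr.L 181448) (Tr.S 3 30 (Tr.L 69868) (Tr.S 1 27 (Tr.L 18061) (Tr.L 5804)))) (Tr.S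
  3 19 (Tr.S 1 31 (Tr.S 3 32 (Tr.L 18061) (Tr.S 3 30 (Tr.S 2 23 (Tr.L 168092) (Tr.S 2 26 (Tr.L
  82125) (Tr.S 2 33 (Tr.L 169632) (Tr.S 0 33 (Tr.S 3 11 (Tr.L 169632) (Tr.L 169632)) (Tr.L
  114829))))) (Tr.L 168092))) (Tr.L 49309)) (Tr.S 3 11 (Tr.S 2 20 (Tr.S 3 32 (Tr.S 3 18 (Tr.S 2
  27 (Tr.S 0 22 (Tr.L 18061) (Tr.L 18061)) (Tr.L 10060)) (Tr.L 18061)) (Tr.S 3 16 (Tr.S 3 26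
  (Tr.S 1 19 (Tr.L 169632) (Tr.L 180888)) (Tr.S 3 18 (Tr.L 83784) (Tr.L 83784))) (Tr.S 3 26
  (Tr.S 1 19 (Tr.L 169632) (Tr.L 180888)) (Tr.L 173832)))) (Tr.S 1 19 (Tr.S 3 25 (Tr.S 2 26
  (Tr.S 1 29 (Tr.L 181448) (Tr.L 181448)) (Tr.L 181448)) (Tr.L 50520)) (Tr.S 1 31 (Tr.S 3 25
  (Tr.S 2 26 (Tr.S 1 29 (Tr.L 181448) (Tr.L 181448)) (Tr.L 181448)) (Tr.L 180888)) (Tr.L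
  180888)))) (Tr.S 1 19 (Tr.S 2 26 (Tr.S 1 29 (Tr.S 3 32 (Tr.L 18061) (Tr.L 181448)) (Tr.L
  181448)) (Tr.S 3 25 (Tr.S 3 18 (Tr.S 2 22 (Tr.L 50856) (Tr.S 0 22 (Tr.L 50856) (Tr.L 50856)))
  (Tr.L 41189)) (Tr.L 169632))) (Tr.S 3 26 (Tr.L 169632) (Tr.S 2 32 (Tr.L 172768) (Tr.S 1 34
  (Tr.L 50856) (Tr.S 3 25 (Tr.S 1 31 (Tr.S 2 26 (Tr.S 1 27 (Tr.L 181448) (Tr.L 176800)) (Tr.S 3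
  32 (Tr.L 8940) (Tr.L 172768))) (Tr.S 2 26 (Tr.L 50856) (Tr.L 180888))) (Tr.S 3 32 (Tr.L 5804)
  (Tr.L 180888))))))))))) (Tr.S 3 32 (Tr.L 18061) (Tr.S 3 30 (Tr.S 2 32 (Tr.S 3 26 (Tr.S 0 18
  (Tr.S 1 31 (Tr.S 0 34 (Tr.L 181448) (Tr.L 181448)) (Tr.L 34469)) (Tr.L 168092)) (Tr.S 3 22
  (Tr.L 173832) (Tr.S 3 23 (Tr.L 165068) (Tr.S 0 23 (Tr.L 172236) (Tr.S 3 17 (Tr.S 0 18 (Tr.S 3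
  20 (Tr.S 1 33 (Tr.L 173832) (Tr.S 2 23 (Tr.L 173832) (Tr.L 173832))) (Tr.L 173832)) (Tr.L
  165516)) (Tr.S 3 19 (Tr.L 181448) (Tr.S 1 22 (Tr.L 180888) (Tr.S 1 31 (Tr.L 172768) (Tr.S 1 19
  (Tr.S 0 33 (Tr.L 165516) (Tr.L 165516)) (Tr.L 180888)))))))))) (Tr.S 0 18 (Tr.S 3 16 (Tr.S 1
  19 (Tr.S 3 25 (Tr.S 2 26 (Tr.S 3 20 (Tr.L 34469) (Tr.L 83784)) (Tr.L 42848)) (Tr.L 169632))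
  (Tr.S 3 25 (Tr.L 66277) (Tr.S 3 19 (Tr.S 2 20 (Tr.S 1 22 (Tr.L 83784) (Tr.L 83784)) (Tr.L
  181448)) (Tr.L 169632)))) (Tr.S 1 19 (Tr.S 3 25 (Tr.S 2 26 (Tr.S 3 20 (Tr.L 34469) (Tr.L
  67341)) (Tr.L 173832)) (Tr.L 169632)) (Tr.S 3 20 (Tr.L 66277) (Tr.S 2 20 (Tr.S 3 19 (Tr.L
  67341) (Tr.L 66277)) (Tr.L 181448))))) (Tr.L 82125))) (Tr.L 165516))))))) (Tr.S 3 17 (Tr.S 3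
  31 (Tr.S 1 19 (Tr.S 2 20 (Tr.S 3 26 (Tr.S 0 23 (Tr.S 3 18 (Tr.L 169632) (Tr.L 180363)) (Tr.L
  169632)) (Tr.L 173832)) (Tr.S 3 18 (Tr.L 5419) (Tr.S 0 18 (Tr.S 3 20 (Tr.L 5804) (Tr.L 5419))
  (Tr.L 180363)))) (Tr.S 1 25 (Tr.S 2 26 (Tr.S 3 20 (Tr.S 0 18 (Tr.S 1 22 (Tr.L 18061) (Tr.L
  17067)) (Tr.L 180363)) (Tr.L 181448)) (Tr.S 3 24 (Tr.L 9003) (Tr.S 0 24 (Tr.S 3 26 (Tr.L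
  17067) (Tr.L 9003)) (Tr.L 165516)))) (Tr.L 17067))) (Tr.S 1 31 (Tr.S 3 20 (Tr.S 3 24 (Tr.L
  169632) (Tr.S 3 27 (Tr.L 180888) (Tr.S 3 25 (Tr.S 2 26 (Tr.S 0 24 (Tr.L 82125) (Tr.L 66347))
  (Tr.S 2 32 (Tr.S 3 30 (Tr.L 172768) (Tr.L 8940)) (Tr.L 173832))) (Tr.S 2 26 (Tr.L 82664) (Tr.L
  169632))))) (Tr.S 2 20 (Tr.S 3 26 (Tr.S 3 19 (Tr.S 1 22 (Tr.L 71464) (Tr.S 0 22 (Tr.L 82125)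
  (Tr.L 71912))) (Tr.L 169632)) (Tr.S 3 18 (Tr.L 9003) (Tr.S 3 33 (Tr.L 173832) (Tr.S 3 32 (Tr.S
  0 18 (Tr.S 1 23 (Tr.S 3 22 (Tr.L 173832) (Tr.L 18061)) (Tr.L 19083)) (Tr.L 180363)) (Tr.S 3 19
  (Tr.L 173832) (Tr.L 173832)))))) (Tr.S 3 19 (Tr.S 3 24 (Tr.L 5419) (Tr.S 0 24 (Tr.S 3 30 (Tr.S
  2 32 (Tr.S 2 29 (Tr.L 169632) (Tr.L 181448)) (Tr.L 181448)) (Tr.L 180363)) (Tr.S 0 18 (Tr.S 3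
  30 (Tr.S 2 32 (Tr.L 169184) (Tr.L 181448)) (Tr.L 165516)) (Tr.L 180363)))) (Tr.S 3 9 (Tr.S 3
  25 (Tr.S 2 26 (Tr.S 3 32 (Tr.S 0 24 (Tr.L 17613) (Tr.L 165516)) (Tr.L 181448)) (Tr.L 181448))
  (Tr.S 0 33 (Tr.S 1 27 (Tr.S 0 29 (Tr.S 3 26 (Tr.L 169632) (Tr.L 169632)) (Tr.L 169184)) (Tr.L
  169184)) (Tr.L 169184))) (Tr.S 3 25 (Tr.S 2 26 (Tr.S 3 32 (Tr.S 0 24 (Tr.L 17613) (Tr.L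
  165516)) (Tr.L 181448)) (Tr.L 181448)) (Tr.L 180888)))))) (Tr.S 0 24 (Tr.S 3 9 (Tr.S 2 26
  (Tr.S 1 29 (Tr.L 50856) (Tr.L 54944)) (Tr.S 3 30 (Tr.S 3 25 (Tr.L 41189) (Tr.S 1 25 (Tr.S 2 27
  (Tr.L 54944) (Tr.L 50856)) (Tr.L 169632))) (Tr.S 3 18 (Tr.S 1 19 (Tr.S 3 25 (Tr.S 2 27 (Tr.L
  18061) (Tr.L 9997)) (Tr.L 169632)) (Tr.L 50856)) (Tr.L 18061)))) (Tr.S 2 26 (Tr.S 1 29 (Tr.S 3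
  25 (Tr.L 50856) (Tr.L 169632)) (Tr.L 54944)) (Tr.S 3 30 (Tr.S 2 32 (Tr.S 3 20 (Tr.L 41245)
  (Tr.S 3 26 (Tr.S 1 25 (Tr.L 49323) (Tr.L 169632)) (Tr.L 181448))) (Tr.S 3 26 (Tr.S 1 25 (Tr.L
  49323) (Tr.L 169632)) (Tr.L 42792))) (Tr.S 3 18 (Tr.S 1 19 (Tr.S 3 25 (Tr.S 2 20 (Tr.L 42792)
  (Tr.L 181448)) (Tr.L 169632)) (Tr.L 180888)) (Tr.L 18061))))) (Tr.S 3 9 (Tr.S 3 30 (Tr.S 0 18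
  (Tr.S 2 32 (Tr.S 3 26 (Tr.L 34091) (Tr.S 3 20 (Tr.S 1 19 (Tr.L 34476) (Tr.L 50856)) (Tr.L
  173832))) (Tr.S 1 19 (Tr.S 3 25 (Tr.S 2 23 (Tr.S 3 20 (Tr.L 50856) (Tr.L 181448)) (Tr.L
  165516)) (Tr.L 169632)) (Tr.S 3 19 (Tr.S 2 20 (Tr.S 1 23 (Tr.L 50856) (Tr.L 165516)) (Tr.L
  181448)) (Tr.L 50856)))) (Tr.L 49323)) (Tr.S 3 24 (Tr.S 1 25 (Tr.S 0 18 (Tr.S 3 19 (Tr.S 2 27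
  (Tr.L 50856) (Tr.S 1 22 (Tr.L 50856) (Tr.L 50856))) (Tr.L 50856)) (Tr.L 180363)) (Tr.L
  169632)) (Tr.L 18061))) (Tr.S 0 18 (Tr.S 2 20 (Tr.S 1 23 (Tr.S 3 19 (Tr.L 50856) (Tr.L
  180888)) (Tr.L 51864)) (Tr.S 3 30 (Tr.S 2 32 (Tr.S 3 26 (Tr.L 34077) (Tr.S 3 20 (Tr.S 1 19
  (Tr.L 34476) (Tr.L 180888)) (Tr.L 173832))) (Tr.S 3 20 (Tr.S 1 19 (Tr.L 34476) (Tr.L 180888))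
  (Tr.L 50408))) (Tr.S 3 24 (Tr.S 1 25 (Tr.S 3 19 (Tr.S 2 26 (Tr.L 50408) (Tr.L 181448)) (Tr.L
  180888)) (Tr.L 169632)) (Tr.L 18061)))) (Tr.S 3 30 (Tr.L 49323) (Tr.S 3 18 (Tr.L 18061) (Tr.L
  18061)))))))) (Tr.S 0 18 (Tr.S 3 25 (Tr.S 3 32 (Tr.L 18061) (Tr.S 2 20 (Tr.L 83784) (Tr.S 3 33
  (Tr.L 165516) (Tr.S 3 30 (Tr.S 2 26 (Tr.S 1 19 (Tr.S 3 20 (Tr.L 34469) (Tr.L 83784)) (Tr.L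
  66277)) (Tr.S 3 23 (Tr.L 165068) (Tr.S 1 22 (Tr.L 164515) (Tr.S 2 33 (Tr.L 83784) (Tr.S 1 34
  (Tr.L 42848) (Tr.S 3 20 (Tr.S 2 22 (Tr.S 1 19 (Tr.L 165516) (Tr.S 1 23 (Tr.L 172768) (Tr.L
  172768))) (Tr.L 174280)) (Tr.S 1 19 (Tr.L 42848) (Tr.L 181448)))))))) (Tr.S 1 31 (Tr.L 165516)
  (Tr.L 165516)))))) (Tr.S 3 26 (Tr.S 3 31 (Tr.L 18061) (Tr.S 1 19 (Tr.L 34469) (Tr.S 3 33 (Tr.L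
  165516) (Tr.S 3 30 (Tr.S 2 32 (Tr.S 1 31 (Tr.S 0 34 (Tr.L 181448) (Tr.L 181448)) (Tr.L 34147))
  (Tr.S 2 20 (Tr.S 3 19 (Tr.S 1 22 (Tr.L 84680) (Tr.L 83784)) (Tr.L 66277)) (Tr.L 181448)))
  (Tr.S 2 32 (Tr.L 17739) (Tr.L 18061)))))) (Tr.S 2 20 (Tr.S 3 31 (Tr.L 83784) (Tr.S 3 32 (Tr.S
  3 24 (Tr.S 1 19 (Tr.L 42848) (Tr.S 3 19 (Tr.S 1 22 (Tr.L 19083) (Tr.L 18061)) (Tr.L 9059)))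
  (Tr.L 18061)) (Tr.L 83784))) (Tr.S 3 32 (Tr.S 2 26 (Tr.S 3 24 (Tr.S 0 27 (Tr.L 17739) (Tr.S 0
  29 (Tr.L 17739) (Tr.S 1 29 (Tr.L 18061) (Tr.L 21708)))) (Tr.L 18061)) (Tr.L 17739)) (Tr.S 2 26
  (Tr.S 3 20 (Tr.S 1 19 (Tr.S 2 23 (Tr.L 83784) (Tr.L 169632)) (Tr.S 3 24 (Tr.S 1 27 (Tr.L
  83784) (Tr.S 2 22 (Tr.L 83784) (Tr.L 83784))) (Tr.L 66277))) (Tr.L 83784)) (Tr.S 3 19 (Tr.L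
  181448) (Tr.S 1 31 (Tr.L 172768) (Tr.S 2 33 (Tr.L 83784) (Tr.S 3 20 (Tr.S 2 32 (Tr.S 3 9 (Tr.S
  1 19 (Tr.S 2 23 (Tr.L 169632) (Tr.L 169632)) (Tr.S 3 31 (Tr.L 9059) (Tr.L 50856))) (Tr.S 1 25
  (Tr.S 3 31 (Tr.L 9059) (Tr.L 180888)) (Tr.S 1 19 (Tr.S 2 23 (Tr.L 169632) (Tr.L 169632)) (Tr.L
  180888)))) (Tr.S 1 19 (Tr.L 83784) (Tr.L 83784))) (Tr.S 3 30 (Tr.L 42848) (Tr.L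
  17739))))))))))) (Tr.S 3 24 (Tr.S 1 25 (Tr.S 2 26 (Tr.L 180363) (Tr.L 180363)) (Tr.L 168099))
  (Tr.S 3 32 (Tr.S 3 18 (Tr.S 2 20 (Tr.S 1 19 (Tr.L 42848) (Tr.L 9059)) (Tr.S 2 26 (Tr.S 0 24
  (Tr.S 3 25 (Tr.L 17739) (Tr.S 3 27 (Tr.L 17739) (Tr.S 3 29 (Tr.L 17739) (Tr.S 1 29 (Tr.L
  13644) (Tr.L 21708))))) (Tr.L 17739)) (Tr.L 17739))) (Tr.L 18061)) (Tr.S 2 32 (Tr.S 3 20 (Tr.S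
  3 30 (Tr.S 1 31 (Tr.L 172768) (Tr.L 41189)) (Tr.L 180363)) (Tr.S 3 25 (Tr.L 181448) (Tr.S 3 29
  (Tr.L 181448) (Tr.S 3 18 (Tr.S 3 26 (Tr.S 0 24 (Tr.S 2 27 (Tr.L 17739) (Tr.S 2 29 (Tr.L 17739)
  (Tr.S 1 29 (Tr.L 13644) (Tr.L 181448)))) (Tr.L 17739)) (Tr.L 181448)) (Tr.S 3 30 (Tr.S 3 26
  (Tr.S 1 34 (Tr.L 181448) (Tr.S 0 34 (Tr.L 181448) (Tr.L 181448))) (Tr.L 181448)) (Tr.L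
  180363)))))) (Tr.S 3 30 (Tr.S 0 24 (Tr.S 1 31 (Tr.S 3 29 (Tr.L 69868) (Tr.S 3 19 (Tr.S 3 11
  (Tr.L 69861) (Tr.L 69868)) (Tr.S 3 27 (Tr.L 180888) (Tr.S 3 16 (Tr.S 2 23 (Tr.L 180363) (Tr.S
  1 23 (Tr.L 180363) (Tr.S 2 29 (Tr.S 3 26 (Tr.L 180363) (Tr.L 83784)) (Tr.S 0 34 (Tr.L 180363)
  (Tr.L 180363))))) (Tr.S 2 23 (Tr.L 180363) (Tr.S 1 23 (Tr.L 180363) (Tr.S 2 29 (Tr.S 3 26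
  (Tr.L 180363) (Tr.L 173832)) (Tr.S 0 34 (Tr.L 180363) (Tr.L 180363))))))))) (Tr.S 3 9 (Tr.S 2
  26 (Tr.S 3 20 (Tr.S 1 27 (Tr.S 3 25 (Tr.L 83784) (Tr.L 169632)) (Tr.L 83784)) (Tr.L 181448))
  (Tr.S 3 26 (Tr.S 2 20 (Tr.S 1 25 (Tr.S 2 27 (Tr.L 83784) (Tr.L 83784)) (Tr.L 169632)) (Tr.L
  181448)) (Tr.L 83784))) (Tr.S 2 26 (Tr.S 3 20 (Tr.S 2 22 (Tr.L 49309) (Tr.S 0 22 (Tr.S 3 27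
  (Tr.L 83784) (Tr.L 83784)) (Tr.L 82125))) (Tr.L 181448)) (Tr.S 3 26 (Tr.S 2 20 (Tr.S 1 25
  (Tr.S 2 29 (Tr.L 83784) (Tr.L 180363)) (Tr.L 169632)) (Tr.L 181448)) (Tr.L 83784))))) (Tr.L
  82251)) (Tr.S 3 18 (Tr.S 2 20 (Tr.S 1 22 (Tr.L 83784) (Tr.S 0 22 (Tr.L 83784) (Tr.L 83784)))
  (Tr.L 181448)) (Tr.L 18061)))))))))))))) (Tr.R 13)) (Tr.R 12))

theorem cO15 : chk 12614 pO15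
    311676187869671462011136
    11238170914677830022675537702597214484848383 = true := by
  decide +kernel

def pO16 : Tr :=
  (Tr.R 8)

theorem cO16 : chk 12614 pO16
    311676187869671462010880
    11238170831601080286118295646109268854194687 = true := by
  decide +kernel

def pO17 : Tr :=
  (Tr.R 6)

theorem cO17 : chk 12614 pO17
    9444732966014168334336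
    11238170810826741765643862825347647954501887 = true := by
  decide +kernel

def pO18 : Tr :=
  (Tr.R 2)

theorem cO18 : chk 12614 pO18
    9444732965739290427392
    11238170809528667550707624631659001347588287 = true := by
  decide +kernel

def pO19 : Tr :=
  (Tr.R 1)

theorem cO19 : chk 12614 pO19
    0
    11238170808869328306109940987438264494342335 = true := by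
  decide +kernel

end Pool.Agent.H42.Pack6
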