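import Pool.Agent.H42.Pack6.DO1
import Pool.Agent.H42.Pack6.DO2
import Pool.Agent.H42.Pack6.DO3
import Pool.Agent.H42.Pack6.DO4
import Pool.Agent.H42.Pack6.DO5
import Pool.Agent.H42.Pack6.DO6

set_option autoImplicit false

namespace Pool.Agent.H42.Pack6

lemma chk_S {RT u c Y N Y1 N1 N2 : ℕ} {y n : Tr} (hu : Nat.blt u 4 = true)
    (hc : Nat.blt c 36 = true)
    (h1 : Nat.lor Y (Nat.shiftLeft 1 (Nat.add (Nat.mul 36 u) c)) = Y1)
    (h2 : Nat.lor N (msk u c) = N1)
    (h3 : Nat.lor N (Nat.shiftLeft 1 (Nat.add (Nat.mul 36 u) c)) = N2)
    (hy : chk RT y Y1 N1 = true) (hn : chk RT n Y N2 = true) :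
    chk RT (.S u c y n) Y N = true := by
  subst h1 h2 h3
  unfold chk
  rw [hu, hc, hy, hn]
  rfl

def trO : Tr :=
  (Tr.S 1 1 (Tr.S 2 2 (Tr.S 0 8 (Tr.S 2 6 (Tr.S 0 13 (Tr.S 1 12 (Tr.S 3 15 pO0 pO1) pO2) pO3) pO4) pO5) pO6) (Tr.S 2 1 (Tr.S 1 2 (Tr.S 0 6 (Tr.S 2 8 (Tr.S 1 12 (Tr.S 0 13 (Tr.S 3 15 pO7 pO8) pO9) pO10) pO11) (Tr.S 2 6 (Tr.S 0 8 (Tr.S 0 12 (Tr.S 1 13 (Tr.S 3 9 pO12 pO13) pO14) pO15) pO16) pO17)) pO18) pO19))

theorem chkO : chk 12614 trO 0 11238170808869328306100496254472387764961471 = true :=
  (chk_S (Y1 := 137438953472) (N1 := 11238170809518365413426944357395908127637695) (N2 := 11238170808869328306100496254472525203914943) (by decide) (by decide) (by decide +kernel)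
  (by decide +kernel) (by decide +kernel) (chk_S (Y1 := 18889465931616019808256) (N1 := 11238170810837043903547895476479282540200127) (N2 := 11238170809518365413445833823327386708492479) (by decide) (by decide) (by decide +kernel)
  (by decide +kernel) (by decide +kernel) (chk_S (Y1 := 18889465931616019808512) (N1 := 11238170893913793640105137532967228170850047) (N2 := 11238170810837043903547895476479282540200383) (by decide) (by decide) (by decide +kernel)
  (by decide +kernel) (by decide +kernel) (chk_S (Y1 := 321120920835273313485056) (N1 := 11238170914688132159672875989017877189512959) (N2 := 11238170893913793640407368987870885464526591) (by decide) (by decide) (by decide +kernel)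
  (by decide +kernel) (by decide +kernel) (chk_S (Y1 := 321120920835273313493248) (N1 := 11238173573144123729504621796631999931997951) (N2 := 11238170914688132159672875989017877189521151) (by decide) (by decide) (by decide +kernel)
  (by decide +kernel) (by decide +kernel) (chk_S (Y1 := 321120921116748290203904) (N1 := 11238174902372119514420569674113856862674687) (N2 := 11238173573144123729504621796913474908708607) (by decide) (by decide) (by decide +kernel)
  (by decide +kernel) (by decide +kernel) (chk_S (Y1 := 10633823966279648104151573230532960512) (N1 := 14069388166847773108779643717926192538181375) (N2 := 11238185536196085793747552904570339105431295) (by decide) (by decide) (by decide +kernel)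
  (by decide +kernel) (by decide +kernel) cO0 cO1) cO2) cO3) cO4) cO5) cO6) (chk_S (Y1 := 9444732965739290427392) (N1 := 11238170809528667550707624631658726469681343) (N2 := 11238170808869328306109940987438264494342335) (by decide) (by decide) (by decide +kernel)
  (by decide +kernel) (by decide +kernel) (chk_S (Y1 := 9444732966014168334336) (N1 := 11238170810826741765341631370443990660825279) (N2 := 11238170809528667550707624631659001347588287) (by decide) (by decide) (by decide +kernel)
  (by decide +kernel) (by decide +kernel) (chk_S (Y1 := 9444732966014168334400) (N1 := 11238170831595929199783173339469634362171327) (N2 := 11238170810826741765341631370443990660825343) (by decide) (by decide) (by decide +kernel)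
  (by decide +kernel) (by decide +kernel) (chk_S (Y1 := 1218370552580643343040576) (N1 := 11238170914693283227279242739857805099163583) (N2 := 11238170831595929200992099159084263536877503) (by decide) (by decide) (by decide +kernel)
  (by decide +kernel) (by decide +kernel) (chk_S (Y1 := 1218370552862118319751232) (N1 := 11238172243921279012195190617902611983261631) (N2 := 11238170914693283227279242740139280075874239) (by decide) (by decide) (by decide +kernel)
  (by decide +kernel) (by decide +kernel) (chk_S (Y1 := 1218370552862118319759424) (N1 := 11238174902377270582026936425516734725742527) (N2 := 11238172243921279012195190617902611983269823) (by decide) (by decide) (by decide +kernel)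
  (by decide +kernel) (by decide +kernel) (chk_S (Y1 := 10633823966280545353783318600562516032) (N1 := 14069388166852924176386010469329070401249215) (N2 := 11238185536201236861353919655973216968499135) (by decide) (by decide) (by decide +kernel)
  (by decide +kernel) (by decide +kernel) cO7 cO8) cO9) cO10) cO11) (chk_S (Y1 := 311676187869671462010880) (N1 := 11238170831601080286118295646109268854194431) (N2 := 11238170810826741765643862825347647954501887) (by decide) (by decide) (by decide +kernel)
  (by decide +kernel) (by decide +kernel) (chk_S (Y1 := 311676187869671462011136) (N1 := 11238170914677830022675537702597214484844287) (N2 := 11238170831601080286118295646109268854194687) (by decide) (by decide) (by decide +kernel)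
  (by decide +kernel) (by decide +kernel) (chk_S (Y1 := 311676187869671462015232) (N1 := 11238172243905825807591410606685750832918271) (N2 := 11238170914677830022675537702597214484848383) (by decide) (by decide) (by decide +kernel)
  (by decide +kernel) (by decide +kernel) (chk_S (Y1 := 311676188432621415436544) (N1 := 11238174902361817377423306345886865998475007) (N2 := 11238172243905825807591410607248700786339583) (by decide) (by decide) (by decide +kernel)
  (by decide +kernel) (by decide +kernel) (chk_S (Y1 := 166153499473426160301408503950479616) (N1 := 14069335828485136940719884802296203135414015) (N2 := 11238175068515316850537790458862748533518079) (by decide) (by decide) (by decide +kernel)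
  (by decide +kernel) (by decide +kernel) cO12 cO13) cO14) cO15) cO16) cO17)) cO18) cO19))

end Pool.Agent.H42.Pack6
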