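import Pool.Agent.H42.Pack6.Chk

set_option autoImplicit false
set_option maxRecDepth 100000

namespace Pool.Agent.H42.Pack6

def pO0 : Tr :=
(Tr.S 3 24 (Tr.S 1 27 (Tr.S 3 4 (Tr.S 2 31 (Tr.L 169632) (Tr.S 2 29 (Tr.L 169632) (Tr.S 0 29
  (Tr.S 2 19 (Tr.L 169632) (Tr.S 0 34 (Tr.L 18061) (Tr.S 2 25 (Tr.S 3 31 (Tr.S 0 33 (Tr.L
  173832) (Tr.L 173832)) (Tr.L 42848)) (Tr.S 3 19 (Tr.L 169632) (Tr.L 169632))))) (Tr.L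
  173832)))) (Tr.S 0 30 (Tr.S 2 31 (Tr.L 106828) (Tr.S 3 32 (Tr.L 41308) (Tr.S 1 32 (Tr.S 2 29
  (Tr.L 173832) (Tr.L 173832)) (Tr.L 173832)))) (Tr.S 2 25 (Tr.S 0 29 (Tr.S 3 31 (Tr.L 173832)
  (Tr.L 173832)) (Tr.L 173832)) (Tr.S 0 18 (Tr.S 0 33 (Tr.S 3 23 (Tr.L 5804) (Tr.S 1 20 (Tr.L
  173832) (Tr.S 0 29 (Tr.L 173832) (Tr.L 173832)))) (Tr.L 10060)) (Tr.L 10060))))) (Tr.S 1 29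
  (Tr.S 2 27 (Tr.S 1 20 (Tr.L 173832) (Tr.L 173832)) (Tr.S 0 27 (Tr.S 1 32 (Tr.L 173832) (Tr.S 0
  18 (Tr.L 173832) (Tr.L 173832))) (Tr.L 173832))) (Tr.S 1 20 (Tr.S 3 32 (Tr.S 3 11 (Tr.S 2 25
  (Tr.L 42848) (Tr.S 2 31 (Tr.S 2 23 (Tr.L 173832) (Tr.S 0 23 (Tr.L 173832) (Tr.L 173832)))
  (Tr.L 169632))) (Tr.S 0 33 (Tr.L 173832) (Tr.S 2 25 (Tr.S 0 29 (Tr.L 173832) (Tr.L 173832))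
  (Tr.S 0 30 (Tr.S 2 33 (Tr.L 173832) (Tr.S 0 27 (Tr.L 172299) (Tr.S 2 29 (Tr.L 172299) (Tr.S 3
  5 (Tr.S 0 29 (Tr.L 172299) (Tr.L 173832)) (Tr.L 173832))))) (Tr.S 2 27 (Tr.L 173832) (Tr.S 0
  27 (Tr.L 173832) (Tr.L 173832))))))) (Tr.L 173832)) (Tr.S 1 32 (Tr.S 3 20 (Tr.S 2 27 (Tr.L
  173832) (Tr.S 0 27 (Tr.L 173832) (Tr.L 173832))) (Tr.L 173832)) (Tr.S 3 20 (Tr.S 2 25 (Tr.S 1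
  26 (Tr.S 0 27 (Tr.L 87816) (Tr.L 83784)) (Tr.L 173832)) (Tr.S 1 26 (Tr.S 0 33 (Tr.L 83784)
  (Tr.S 2 33 (Tr.L 83784) (Tr.S 0 30 (Tr.S 3 4 (Tr.L 69917) (Tr.L 69980)) (Tr.S 2 27 (Tr.L
  83784) (Tr.S 0 27 (Tr.L 83784) (Tr.L 83784)))))) (Tr.L 173832))) (Tr.S 1 26 (Tr.S 2 25 (Tr.S 3
  32 (Tr.S 3 19 (Tr.S 3 4 (Tr.S 0 27 (Tr.L 54944) (Tr.L 177416)) (Tr.L 50520)) (Tr.L 50520))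
  (Tr.L 83784)) (Tr.S 0 23 (Tr.L 169240) (Tr.S 3 31 (Tr.L 83784) (Tr.S 2 31 (Tr.S 3 32 (Tr.S 3
  22 (Tr.L 180888) (Tr.S 3 23 (Tr.L 180888) (Tr.S 3 11 (Tr.S 2 29 (Tr.L 169632) (Tr.L 169240))
  (Tr.S 0 30 (Tr.S 1 33 (Tr.L 180363) (Tr.L 116040)) (Tr.L 5419))))) (Tr.L 169240)) (Tr.L
  50520))))) (Tr.S 3 32 (Tr.S 2 31 (Tr.S 0 30 (Tr.L 169240) (Tr.L 173832)) (Tr.L 50520)) (Tr.L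
  173832)))))))) (Tr.S 0 30 (Tr.S 3 22 (Tr.S 2 19 (Tr.S 3 25 (Tr.L 165516) (Tr.L 165516)) (Tr.L
  180363)) (Tr.S 3 23 (Tr.S 2 19 (Tr.S 1 20 (Tr.S 0 22 (Tr.L 180363) (Tr.L 166027)) (Tr.L
  180363)) (Tr.L 180363)) (Tr.S 2 19 (Tr.S 3 10 (Tr.S 3 18 (Tr.S 3 25 (Tr.S 1 20 (Tr.S 0 23
  (Tr.L 173832) (Tr.L 173832)) (Tr.L 34091)) (Tr.S 3 32 (Tr.L 50856) (Tr.S 1 20 (Tr.L 71464)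
  (Tr.S 1 32 (Tr.S 0 23 (Tr.L 165516) (Tr.L 165516)) (Tr.L 83784))))) (Tr.L 165516)) (Tr.S 3 25
  (Tr.S 1 26 (Tr.S 3 20 (Tr.S 3 4 (Tr.L 180363) (Tr.L 180363)) (Tr.L 34147)) (Tr.S 1 32 (Tr.S 3
  20 (Tr.S 1 23 (Tr.L 173832) (Tr.L 173832)) (Tr.L 173832)) (Tr.S 3 32 (Tr.S 1 20 (Tr.S 0 23
  (Tr.L 166027) (Tr.L 173832)) (Tr.L 173832)) (Tr.L 173832)))) (Tr.S 3 31 (Tr.S 1 32 (Tr.S 3 20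
  (Tr.S 1 23 (Tr.L 173832) (Tr.L 173832)) (Tr.L 165131)) (Tr.S 3 4 (Tr.S 3 18 (Tr.S 1 33 (Tr.L
  67341) (Tr.L 67341)) (Tr.L 67341)) (Tr.S 3 18 (Tr.S 1 20 (Tr.S 0 22 (Tr.L 83784) (Tr.L 83784))
  (Tr.L 83784)) (Tr.L 165516)))) (Tr.S 3 29 (Tr.L 169632) (Tr.S 3 4 (Tr.S 3 20 (Tr.L 169632)
  (Tr.L 169632)) (Tr.S 3 20 (Tr.L 169632) (Tr.L 169632))))))) (Tr.S 3 10 (Tr.S 3 18 (Tr.S 1 32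
  (Tr.S 2 33 (Tr.L 132427) (Tr.L 165516)) (Tr.S 3 31 (Tr.L 66347) (Tr.S 2 31 (Tr.S 1 34 (Tr.L
  115368) (Tr.L 180888)) (Tr.L 180888)))) (Tr.L 180363)) (Tr.S 3 20 (Tr.L 164515) (Tr.S 1 20
  (Tr.S 3 26 (Tr.S 3 19 (Tr.S 3 4 (Tr.S 3 11 (Tr.L 180363) (Tr.L 180363)) (Tr.L 82251)) (Tr.L
  66403)) (Tr.S 3 32 (Tr.S 2 31 (Tr.S 1 34 (Tr.L 173832) (Tr.L 141128)) (Tr.S 3 19 (Tr.S 3 4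
  (Tr.L 180363) (Tr.L 180363)) (Tr.L 180888))) (Tr.L 173832))) (Tr.S 2 31 (Tr.S 1 33 (Tr.S 3 32
  (Tr.L 132427) (Tr.L 83784)) (Tr.L 116040)) (Tr.S 3 19 (Tr.L 165131) (Tr.S 3 31 (Tr.S 1 32
  (Tr.S 2 33 (Tr.L 180888) (Tr.L 116040)) (Tr.L 83784)) (Tr.L 180888)))))))))) (Tr.S 3 4 (Tr.S 3
  31 (Tr.S 0 18 (Tr.L 18061) (Tr.S 3 18 (Tr.S 1 26 (Tr.L 83784) (Tr.S 1 20 (Tr.S 0 24 (Tr.S 3 26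
  (Tr.S 2 22 (Tr.L 83784) (Tr.S 0 22 (Tr.L 83784) (Tr.L 83784))) (Tr.L 83784)) (Tr.L 18061))
  (Tr.S 1 32 (Tr.S 0 34 (Tr.L 17739) (Tr.L 17739)) (Tr.L 83784)))) (Tr.L 18061))) (Tr.S 2 25
  (Tr.S 3 20 (Tr.L 180888) (Tr.S 3 18 (Tr.L 180888) (Tr.S 3 23 (Tr.L 50856) (Tr.S 3 19 (Tr.S 1
  20 (Tr.S 3 32 (Tr.S 0 18 (Tr.L 18061) (Tr.L 180363)) (Tr.S 3 26 (Tr.S 0 24 (Tr.L 49309) (Tr.S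
  0 18 (Tr.L 67341) (Tr.L 180363))) (Tr.L 83784))) (Tr.S 0 29 (Tr.L 34469) (Tr.S 0 24 (Tr.S 3 30
  (Tr.S 1 27 (Tr.S 3 26 (Tr.L 180363) (Tr.L 173832)) (Tr.L 177416)) (Tr.L 180363)) (Tr.S 3 30
  (Tr.L 34147) (Tr.L 18061))))) (Tr.S 0 18 (Tr.S 1 20 (Tr.L 164515) (Tr.L 180888)) (Tr.L
  180888)))))) (Tr.S 3 26 (Tr.S 2 19 (Tr.L 169632) (Tr.S 3 19 (Tr.S 1 20 (Tr.S 0 18 (Tr.L 67341)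
  (Tr.L 69987)) (Tr.S 1 32 (Tr.S 2 31 (Tr.S 0 33 (Tr.L 136536) (Tr.L 169632)) (Tr.L 169632))
  (Tr.L 169240))) (Tr.L 169632))) (Tr.S 1 26 (Tr.S 3 32 (Tr.S 0 18 (Tr.L 18061) (Tr.S 3 18 (Tr.S
  0 24 (Tr.S 2 27 (Tr.S 0 33 (Tr.S 2 34 (Tr.L 18061) (Tr.L 18061)) (Tr.L 18061)) (Tr.L 18061))
  (Tr.L 18061)) (Tr.L 180363))) (Tr.S 3 20 (Tr.S 2 33 (Tr.L 83784) (Tr.S 0 29 (Tr.L 67341) (Tr.S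
  0 33 (Tr.L 83784) (Tr.S 1 33 (Tr.S 2 22 (Tr.L 83784) (Tr.S 0 22 (Tr.L 83784) (Tr.S 1 22 (Tr.S
  0 18 (Tr.L 67341) (Tr.S 2 31 (Tr.L 180888) (Tr.L 49309))) (Tr.L 83784)))) (Tr.L 83784)))))
  (Tr.L 83784))) (Tr.S 3 25 (Tr.S 0 24 (Tr.S 2 19 (Tr.S 3 30 (Tr.L 41315) (Tr.S 3 18 (Tr.S 1 20
  (Tr.L 42848) (Tr.L 173832)) (Tr.L 18061))) (Tr.S 2 31 (Tr.S 3 18 (Tr.L 9059) (Tr.S 3 30 (Tr.S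
  1 29 (Tr.L 180363) (Tr.L 172299)) (Tr.L 180363))) (Tr.L 42848))) (Tr.S 2 31 (Tr.S 3 30 (Tr.S 1
  32 (Tr.S 0 33 (Tr.L 173832) (Tr.L 173832)) (Tr.L 173832)) (Tr.L 164515)) (Tr.S 2 19 (Tr.S 3 18
  (Tr.L 34469) (Tr.S 3 30 (Tr.S 1 32 (Tr.S 2 33 (Tr.L 173832) (Tr.L 42848)) (Tr.L 173832)) (Tr.L
  18061))) (Tr.L 42848)))) (Tr.S 2 31 (Tr.S 3 19 (Tr.S 1 20 (Tr.S 3 32 (Tr.S 0 18 (Tr.L 18061)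
  (Tr.L 180363)) (Tr.L 173832)) (Tr.L 173832)) (Tr.L 169632)) (Tr.L 169632))))))) (Tr.S 0 18
  (Tr.S 3 30 (Tr.S 1 32 (Tr.S 3 26 (Tr.S 2 34 (Tr.L 50520) (Tr.S 2 31 (Tr.S 0 33 (Tr.L 165516)
  (Tr.L 165516)) (Tr.L 50520))) (Tr.S 2 33 (Tr.L 173832) (Tr.S 3 23 (Tr.L 173832) (Tr.S 3 5
  (Tr.S 0 33 (Tr.L 173832) (Tr.L 173832)) (Tr.S 0 33 (Tr.L 173832) (Tr.L 173832)))))) (Tr.S 3 5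
  (Tr.S 2 31 (Tr.S 3 25 (Tr.L 66347) (Tr.S 3 19 (Tr.S 1 20 (Tr.L 67404) (Tr.L 83784)) (Tr.L
  71464))) (Tr.S 1 20 (Tr.S 3 26 (Tr.S 2 23 (Tr.S 3 19 (Tr.L 83784) (Tr.L 180888)) (Tr.L
  165516)) (Tr.L 173832)) (Tr.S 3 20 (Tr.S 2 19 (Tr.L 34476) (Tr.L 180888)) (Tr.L 83784))))
  (Tr.S 2 31 (Tr.S 3 25 (Tr.L 66333) (Tr.S 3 20 (Tr.L 66333) (Tr.S 1 20 (Tr.S 3 26 (Tr.S 3 19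
  (Tr.L 67404) (Tr.S 3 10 (Tr.L 71464) (Tr.L 169632))) (Tr.L 173832)) (Tr.L 83784)))) (Tr.S 3 10
  (Tr.S 1 20 (Tr.S 3 26 (Tr.S 2 22 (Tr.S 3 19 (Tr.L 83784) (Tr.L 180888)) (Tr.L 83784)) (Tr.L
  173832)) (Tr.S 3 20 (Tr.S 2 19 (Tr.L 34476) (Tr.L 180888)) (Tr.L 83784))) (Tr.S 1 20 (Tr.S 3
  26 (Tr.S 2 25 (Tr.S 3 19 (Tr.L 67404) (Tr.L 82776)) (Tr.L 169632)) (Tr.L 173832)) (Tr.S 3 20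
  (Tr.S 2 19 (Tr.L 34469) (Tr.L 180888)) (Tr.L 83784))))))) (Tr.S 3 19 (Tr.S 3 5 (Tr.S 2 25
  (Tr.L 34476) (Tr.L 165516)) (Tr.S 2 25 (Tr.L 18061) (Tr.L 165516))) (Tr.S 3 5 (Tr.S 2 25 (Tr.L
  17067) (Tr.L 165516)) (Tr.S 2 25 (Tr.L 18061) (Tr.L 165516))))) (Tr.S 2 19 (Tr.S 3 31 (Tr.S 3
  20 (Tr.L 180363) (Tr.S 1 20 (Tr.S 3 26 (Tr.S 3 18 (Tr.S 0 22 (Tr.L 83784) (Tr.L 83784)) (Tr.L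
  82251)) (Tr.L 173832)) (Tr.L 5468))) (Tr.S 0 24 (Tr.S 3 18 (Tr.S 1 22 (Tr.L 50520) (Tr.S 3 29
  (Tr.L 50856) (Tr.S 1 26 (Tr.L 50520) (Tr.S 1 32 (Tr.L 50520) (Tr.S 3 32 (Tr.S 1 20 (Tr.S 0 23
  (Tr.L 173832) (Tr.L 173832)) (Tr.L 173832)) (Tr.S 3 26 (Tr.S 1 27 (Tr.L 83784) (Tr.L 83784))
  (Tr.L 173832))))))) (Tr.S 3 26 (Tr.L 168092) (Tr.S 1 20 (Tr.L 41308) (Tr.S 3 25 (Tr.S 1 32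
  (Tr.L 41308) (Tr.S 3 32 (Tr.L 17739) (Tr.S 1 26 (Tr.S 2 27 (Tr.L 83784) (Tr.L 83784)) (Tr.L
  173832)))) (Tr.L 168092))))) (Tr.S 3 18 (Tr.S 1 20 (Tr.L 165516) (Tr.L 165516)) (Tr.L
  165516)))) (Tr.S 3 20 (Tr.S 3 11 (Tr.S 0 24 (Tr.S 3 30 (Tr.S 2 31 (Tr.S 3 25 (Tr.S 1 34 (Tr.L
  180888) (Tr.S 2 29 (Tr.L 180888) (Tr.L 180888))) (Tr.L 180888)) (Tr.L 180888)) (Tr.L 180363))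
  (Tr.L 180363)) (Tr.S 3 30 (Tr.S 2 31 (Tr.S 0 24 (Tr.S 3 25 (Tr.S 1 34 (Tr.L 180888) (Tr.S 2 29
  (Tr.L 180888) (Tr.L 180888))) (Tr.L 180888)) (Tr.L 180363)) (Tr.L 180888)) (Tr.L 180363)))
  (Tr.S 3 22 (Tr.S 0 24 (Tr.S 3 30 (Tr.S 2 31 (Tr.S 3 25 (Tr.S 1 34 (Tr.L 180888) (Tr.S 2 29
  (Tr.L 180888) (Tr.L 180888))) (Tr.L 180888)) (Tr.L 180888)) (Tr.L 180363)) (Tr.L 180363))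
  (Tr.S 3 23 (Tr.S 3 30 (Tr.S 2 31 (Tr.S 0 24 (Tr.S 3 25 (Tr.S 1 34 (Tr.L 180888) (Tr.S 2 29
  (Tr.L 180888) (Tr.L 180888))) (Tr.L 180888)) (Tr.L 180363)) (Tr.L 180888)) (Tr.L 180363))
  (Tr.S 3 31 (Tr.S 1 26 (Tr.L 83784) (Tr.S 3 29 (Tr.L 9003) (Tr.S 3 10 (Tr.S 3 18 (Tr.S 2 25
  (Tr.S 0 24 (Tr.S 1 29 (Tr.L 12972) (Tr.L 180888)) (Tr.L 17067)) (Tr.L 180888)) (Tr.L 180363))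
  (Tr.S 2 25 (Tr.S 3 18 (Tr.S 0 24 (Tr.S 1 29 (Tr.L 176800) (Tr.L 180888)) (Tr.L 164515)) (Tr.L
  180363)) (Tr.L 180888))))) (Tr.S 2 31 (Tr.S 1 26 (Tr.S 3 32 (Tr.S 3 25 (Tr.S 0 24 (Tr.S 2 27
  (Tr.L 180888) (Tr.L 177416)) (Tr.L 165131)) (Tr.L 5468)) (Tr.L 83784)) (Tr.S 3 26 (Tr.S 1 32
  (Tr.S 0 33 (Tr.S 3 30 (Tr.L 180363) (Tr.L 5468)) (Tr.L 116040)) (Tr.S 1 20 (Tr.S 3 18 (Tr.S 3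
  10 (Tr.L 180888) (Tr.L 180888)) (Tr.L 69980)) (Tr.L 83784))) (Tr.S 1 20 (Tr.S 3 32 (Tr.S 0 24
  (Tr.S 3 19 (Tr.L 180363) (Tr.S 3 10 (Tr.L 9003) (Tr.L 9059))) (Tr.L 10060)) (Tr.L 83784))
  (Tr.S 3 29 (Tr.L 173832) (Tr.S 3 34 (Tr.L 173832) (Tr.S 3 19 (Tr.L 169240) (Tr.S 3 10 (Tr.S 3
  30 (Tr.L 173832) (Tr.L 173832)) (Tr.S 3 25 (Tr.S 3 30 (Tr.S 3 5 (Tr.L 173832) (Tr.L 173832))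
  (Tr.L 17739)) (Tr.L 169632))))))))) (Tr.S 3 18 (Tr.S 3 11 (Tr.L 180888) (Tr.L 180888)) (Tr.S 0
  24 (Tr.S 3 34 (Tr.L 180363) (Tr.S 3 5 (Tr.S 3 19 (Tr.S 2 25 (Tr.S 1 27 (Tr.L 53404) (Tr.L
  50856)) (Tr.L 50856)) (Tr.L 180888)) (Tr.S 3 30 (Tr.S 3 19 (Tr.S 2 25 (Tr.S 1 27 (Tr.S 3 26
  (Tr.L 180363) (Tr.L 41308)) (Tr.L 176268)) (Tr.L 168092)) (Tr.L 49309)) (Tr.L 18061)))) (Tr.L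
  180363)))))))))))))

theorem cO0 : chk 12614 pO0
    10633823966279648104151573230532960512
    14069388166847773108779643717926192538181375 = true := by
  decide +kernel

end Pool.Agent.H42.Pack6
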