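import Pool.Agent.H42.Pack.Decomp

set_option autoImplicit false

/-!
# Definitions for the bound `6` for treewidth `4`
-/

namespace Pool.Agent.H42.Pack6

open Finset Function

/-- The vertices of `T` cover a rectangle `S x D` with `|S| + |D| = k + 1`. -/
def CovS {V : Type*} {k : ℕ} (c : V → Fin k → ℕ) (T : Finset V) : Prop :=
  ∃ S : Finset (Fin k), ∃ D : Finset ℕ, S.Nonempty ∧ S.card + D.card = k + 1 ∧
    ∀ i ∈ S, ∀ d ∈ D, ∃ u ∈ T, c u i = d

/-- The extension property: a packing on at most `t` vertices without covered rectangle extends to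
one more vertex such that no new covered rectangle on at most `t` vertices arises. -/
def Ext (V : Type*) (t k : ℕ) : Prop :=
  ∀ (Q : Finset V) (c : V → Fin k → ℕ), Q.card ≤ t → (∀ u ∈ Q, Injective (c u)) →
    (∀ u ∈ Q, ∀ u' ∈ Q, u ≠ u' → ∀ i, c u i ≠ c u' i) → ¬ CovS c Q →
    ∀ L : Finset ℕ, L.card = k → ∃ w : Fin k → ℕ, Injective w ∧ (∀ i, w i ∈ L) ∧
      (∀ u ∈ Q, ∀ i, w i ≠ c u i) ∧ ∀ T ⊆ Q, T.card < t →
        ∀ (S : Finset (Fin k)) (D : Finset ℕ), S.Nonempty → S.card + D.card = k + 1 →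
          ¬ ∀ i ∈ S, ∀ d ∈ D, w i = d ∨ ∃ u ∈ T, c u i = d

/-- Four partial packings of the rows `Fin 6`: `P u i d` says that `u` has the colour `d` in the
row `i`. -/
structure Part (P : Fin 4 → Fin 6 → ℕ → Prop) : Prop where
  fn : ∀ u i d d', P u i d → P u i d' → d = d'
  inj : ∀ u i i' d, P u i d → P u i' d → i = i'
  dis : ∀ u v i d, P u i d → P v i d → u = v
  good : ∀ (S : Finset (Fin 6)) (D : Finset ℕ), S.Nonempty → S.card + D.card = 7 →
    ¬ ∀ i ∈ S, ∀ d ∈ D, ∃ u, P u i d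

end Pool.Agent.H42.Pack6
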