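import Pool.Agent.H42.Pack6.Defs

set_option autoImplicit false

/-!
# Hall's condition, and the reduction of the extension property to numbered partial packings
-/

namespace Pool.Agent.H42.Pack6

open Finset Function

/-- A packing without covered rectangle leaves a system of distinct free colours. -/
lemma hall6 {P : Fin 4 → Fin 6 → ℕ → Prop} (hP : Part P) (L : Finset ℕ) (hL : L.card = 6) :
    ∃ w : Fin 6 → ℕ, Injective w ∧ (∀ i, w i ∈ L) ∧ ∀ u i, ¬ P u i (w i) := by
  classical
  let N : Fin 6 → Finset ℕ := fun i => L.filter (fun d => ∀ u, ¬ P u i d)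
  have key : ∃ f : Fin 6 → ℕ, Injective f ∧ ∀ i, f i ∈ N i := by
    rw [← Finset.all_card_le_biUnion_card_iff_exists_injective]
    intro s
    by_contra hs
    push Not at hs
    have hsne : s.Nonempty := by
      rw [Finset.nonempty_iff_ne_empty]
      rintro rfl
      simp at hs
    have hsk : s.card ≤ 6 := by
      have := Finset.card_le_univ s
      simpa using this
    set D := L \ s.biUnion N with hD
    have hDcard : 7 ≤ D.card + s.card := by
      have h1 : L.card - (s.biUnion N).card ≤ D.card := Finset.le_card_sdiff _ _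
      omega
    have hcov : ∀ i ∈ s, ∀ d ∈ D, ∃ u, P u i d := by
      intro i hi d hd
      rw [hD, Finset.mem_sdiff] at hd
      by_contra hcon
      push Not at hcon
      apply hd.2
      rw [Finset.mem_biUnion]
      exact ⟨i, hi, Finset.mem_filter.2 ⟨hd.1, hcon⟩⟩
    obtain ⟨D', hD', hc⟩ := Finset.exists_subset_card_eq (s := D) (n := 7 - s.card) (by omega)
    exact hP.good s D' hsne (by omega) (fun i hi d hd => hcov i hi d (hD' hd))
  obtain ⟨f, hf, hfN⟩ := key
  exact ⟨f, hf, fun i => (Finset.mem_filter.1 (hfN i)).1,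
    fun u i => (Finset.mem_filter.1 (hfN i)).2 u⟩

/-- The extension property follows from its version for numbered partial packings. -/
theorem ext_of_part (h : ∀ P : Fin 4 → Fin 6 → ℕ → Prop, Part P → ∀ L : Finset ℕ, L.card = 6 →
    ∃ w : Fin 6 → ℕ, Injective w ∧ (∀ i, w i ∈ L) ∧ (∀ u i, ¬ P u i (w i)) ∧
      ∀ o : Fin 4, ∀ (S : Finset (Fin 6)) (D : Finset ℕ), S.Nonempty → S.card + D.card = 7 →
        ¬ ∀ i ∈ S, ∀ d ∈ D, w i = d ∨ ∃ u, u ≠ o ∧ P u i d) (V : Type*) : Ext V 4 6 := by
  classical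
  intro Q c hQ hinj hconf hcov L hL
  obtain ⟨num⟩ : Nonempty (Q ↪ Fin 4) :=
    Function.Embedding.nonempty_of_card_le (by simpa using hQ)
  let P : Fin 4 → Fin 6 → ℕ → Prop := fun u i d => ∃ v : Q, num v = u ∧ c v i = d
  have hP : Part P := by
    refine ⟨?_, ?_, ?_, ?_⟩
    · rintro u i d d' ⟨v, hv, hd⟩ ⟨v', hv', hd'⟩
      have : v = v' := num.injective (hv.trans hv'.symm)
      rw [← hd, ← hd', this]
    · rintro u i i' d ⟨v, hv, hd⟩ ⟨v', hv', hd'⟩
      have : v = v' := num.injective (hv.trans hv'.symm)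
      subst this
      exact hinj v v.2 (hd.trans hd'.symm)
    · rintro u u' i d ⟨v, hv, hd⟩ ⟨v', hv', hd'⟩
      by_contra hne
      have hvv : (v : V) ≠ v' := by
        intro he
        apply hne
        rw [← hv, ← hv', Subtype.ext he]
      exact hconf v v.2 v' v'.2 hvv i (hd.trans hd'.symm)
    · intro S D hS hSD hall
      apply hcov
      refine ⟨S, D, hS, hSD, fun i hi d hd => ?_⟩
      obtain ⟨u, v, _, hv⟩ := hall i hi d hd
      exact ⟨v, v.2, hv⟩
  obtain ⟨w, hwi, hwL, hwP, hwo⟩ := h P hP L hL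
  refine ⟨w, hwi, hwL, fun u hu i he => hwP (num ⟨u, hu⟩) i ⟨⟨u, hu⟩, rfl, he.symm⟩, ?_⟩
  intro T hT hT4 S D hS hSD hall
  obtain ⟨o, ho⟩ : ∃ o, o ∉ (T.attach.image (fun v : T => num ⟨v.1, hT v.2⟩)) := by
    by_contra hcon
    push Not at hcon
    have h1 : (T.attach.image (fun v : T => num ⟨v.1, hT v.2⟩)) = univ :=
      Finset.eq_univ_iff_forall.2 hcon
    have h2 : (T.attach.image (fun v : T => num ⟨v.1, hT v.2⟩)).card ≤ T.attach.card :=
      Finset.card_image_le
    rw [h1, Finset.card_attach] at h2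
    simp at h2
    omega
  refine hwo o S D hS hSD (fun i hi d hd => ?_)
  rcases hall i hi d hd with h1 | ⟨u, hu, h1⟩
  · exact Or.inl h1
  · refine Or.inr ⟨num ⟨u, hT hu⟩, ?_, ⟨u, hT hu⟩, rfl, h1⟩
    intro he
    apply ho
    rw [← he, Finset.mem_image]
    exact ⟨⟨u, hu⟩, Finset.mem_attach _ _, rfl⟩

end Pool.Agent.H42.Pack6
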