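import Pool.Agent.H42.Pack6.Defs

set_option autoImplicit false

/-!
# Packings along a tree decomposition, from an extension property
-/

namespace Pool.Agent.H42.Pack6

open Finset Function

variable {V : Type*} [DecidableEq V]

/-- The invariant on a bag: pairwise conflict-free injective rows and no covered rectangle on at
most `t` vertices. -/
structure Good {V : Type*} {k : ℕ} (t : ℕ) (c : V → Fin k → ℕ) (B : Finset V) : Prop where
  inj : ∀ u ∈ B, Injective (c u)
  conf : ∀ u ∈ B, ∀ u' ∈ B, u ≠ u' → ∀ i, c u i ≠ c u' i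
  blk : ∀ T ⊆ B, T.card ≤ t → ¬ CovS c T

lemma Good.mono {k t : ℕ} {c : V → Fin k → ℕ} {A B : Finset V} (h : Good t c B) (hAB : A ⊆ B) :
    Good t c A :=
  ⟨fun u hu => h.inj u (hAB hu), fun u hu u' hu' => h.conf u (hAB hu) u' (hAB hu'),
    fun T hT => h.blk T (hT.trans hAB)⟩

lemma CovS.congr {k : ℕ} {c c' : V → Fin k → ℕ} {T : Finset V} (h : CovS c' T)
    (hcc : ∀ u ∈ T, c' u = c u) : CovS c T := by
  obtain ⟨S, D, hS, hSD, hcov⟩ := h
  refine ⟨S, D, hS, hSD, fun i hi d hd => ?_⟩
  obtain ⟨u, hu, hud⟩ := hcov i hi d hd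
  exact ⟨u, hu, by rw [← hcc u hu]; exact hud⟩

lemma Good.congr {k t : ℕ} {c c' : V → Fin k → ℕ} {B : Finset V} (h : Good t c B)
    (hcc : ∀ u ∈ B, c' u = c u) : Good t c' B := by
  refine ⟨fun u hu => by rw [hcc u hu]; exact h.inj u hu, ?_, ?_⟩
  · intro u hu u' hu' hne i
    rw [hcc u hu, hcc u' hu']
    exact h.conf u hu u' hu' hne i
  · intro T hT hTc hcov
    exact h.blk T hT hTc (hcov.congr fun u hu => hcc u (hT hu))

lemma not_covS_empty {k : ℕ} (c : V → Fin k → ℕ) : ¬ CovS c ∅ := by
  rintro ⟨S, D, ⟨i, hi⟩, hSD, hcov⟩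
  have h1 : S.card ≤ k := by
    have := Finset.card_le_univ S
    simpa using this
  have h2 : D.Nonempty := by
    rw [← Finset.card_pos]; omega
  obtain ⟨d, hd⟩ := h2
  obtain ⟨u, hu, -⟩ := hcov i hi d hd
  simp at hu

lemma good_empty {k t : ℕ} (c : V → Fin k → ℕ) : Good t c ∅ := by
  refine ⟨fun u hu => by simp at hu, fun u hu => by simp at hu, ?_⟩
  intro T hT _
  rw [Finset.subset_empty] at hT
  rw [hT]
  exact not_covS_empty c

/-- One new vertex. -/
lemma good_insert {t k : ℕ} (hext : Ext V t k) {Q : Finset V} (hQ : Q.card ≤ t)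
    {c : V → Fin k → ℕ} (h : Good t c Q) {a : V} (ha : a ∉ Q) {L : Finset ℕ} (hL : L.card = k) :
    ∃ w : Fin k → ℕ, (∀ i, w i ∈ L) ∧ Good t (update c a w) (insert a Q) := by
  obtain ⟨w, hwi, hwL, hwc, hwT⟩ := hext Q c hQ h.inj h.conf
    (h.blk Q (Finset.Subset.refl _) hQ) L hL
  have hupd : ∀ u ∈ Q, update c a w u = c u := fun u hu =>
    update_of_ne (by rintro rfl; exact ha hu) _ _
  refine ⟨w, hwL, ?_, ?_, ?_⟩
  · intro u hu
    rcases Finset.mem_insert.1 hu with rfl | hu
    · rw [update_self]; exact hwi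
    · rw [hupd u hu]; exact h.inj u hu
  · intro u hu u' hu' hne i
    rcases Finset.mem_insert.1 hu with h1 | h1 <;> rcases Finset.mem_insert.1 hu' with h2 | h2
    · exact absurd (h1.trans h2.symm) hne
    · rw [h1, update_self, hupd u' h2]
      exact hwc u' h2 i
    · rw [h2, update_self, hupd u h1]
      exact (hwc u h1 i).symm
    · rw [hupd u h1, hupd u' h2]
      exact h.conf u h1 u' h2 hne i
  · intro T hT hTc hcov
    by_cases haT : a ∈ T
    · have h1 : T.erase a ⊆ Q := by
        intro x hx
        rw [Finset.mem_erase] at hx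
        exact (Finset.mem_insert.1 (hT hx.2)).resolve_left hx.1
      have h2 : (T.erase a).card < t := by
        have := Finset.card_erase_add_one haT
        omega
      obtain ⟨S, D, hS, hSD, hcov⟩ := hcov
      apply hwT _ h1 h2 S D hS hSD
      intro i hi d hd
      obtain ⟨u, hu, hud⟩ := hcov i hi d hd
      by_cases hua : u = a
      · left
        rw [hua, update_self] at hud
        exact hud
      · right
        have hue : u ∈ T.erase a := Finset.mem_erase.2 ⟨hua, hu⟩
        exact ⟨u, hue, by rw [← hupd u (h1 hue)]; exact hud⟩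
    · have h1 : T ⊆ Q := by
        intro x hx
        exact (Finset.mem_insert.1 (hT hx)).resolve_left (fun he => haT (he ▸ hx))
      exact h.blk T h1 hTc (hcov.congr fun u hu => hupd u (h1 hu))

/-- Many new vertices inside one bag. -/
lemma good_extend {t k : ℕ} (hext : Ext V t k) {W : Finset V}
    {c : V → Fin k → ℕ} (h : Good t c W) {L : V → Finset ℕ} (hL : ∀ v, (L v).card = k) :
    ∀ X : Finset V, Disjoint X W → (X ∪ W).card ≤ t + 1 →
      ∃ c' : V → Fin k → ℕ, (∀ v, v ∉ X → c' v = c v) ∧ (∀ v ∈ X, ∀ i, c' v i ∈ L v) ∧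
        Good t c' (X ∪ W) := by
  intro X
  induction X using Finset.induction_on with
  | empty =>
    intro _ _
    exact ⟨c, fun _ _ => rfl, fun v hv => by simp at hv, by simpa using h⟩
  | insert a X haX ih =>
    intro hdis hcard
    rw [Finset.disjoint_insert_left] at hdis
    have haXW : a ∉ X ∪ W := by
      rw [Finset.mem_union]
      rintro (h1 | h1)
      · exact haX h1
      · exact hdis.1 h1
    rw [Finset.insert_union, Finset.card_insert_of_notMem haXW] at hcard
    obtain ⟨c', hc1, hc2, hc3⟩ := ih hdis.2 (by omega)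
    obtain ⟨w, hwL, hw⟩ := good_insert hext (by omega) hc3 haXW (hL a)
    refine ⟨update c' a w, ?_, ?_, ?_⟩
    · intro v hv
      rw [Finset.mem_insert] at hv
      push Not at hv
      rw [update_of_ne hv.1]
      exact hc1 v hv.2
    · intro v hv i
      by_cases hva : v = a
      · subst hva
        rw [update_self]; exact hwL i
      · rw [update_of_ne hva]
        exact hc2 v ((Finset.mem_insert.1 hv).resolve_left hva) i
    · rw [Finset.insert_union]
      exact hw

lemma good_bag {t k : ℕ} (hext : Ext V t k) {W B : Finset V} (hWB : W ⊆ B)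
    (hB : B.card ≤ t + 1)
    {c : V → Fin k → ℕ} (h : Good t c W) {L : V → Finset ℕ} (hL : ∀ v, (L v).card = k) :
      ∃ c' : V → Fin k → ℕ, (∀ v, v ∉ B \ W → c' v = c v) ∧ (∀ v ∈ B \ W, ∀ i, c' v i ∈ L v) ∧
        Good t c' B := by
  have h1 : (B \ W) ∪ W = B := by
    rw [Finset.sdiff_union_of_subset hWB]
  obtain ⟨c', h2, h3, h4⟩ := good_extend hext h hL (B \ W) Finset.sdiff_disjoint
    (by rw [h1]; exact hB)
  exact ⟨c', h2, h3, by rwa [h1] at h4⟩

/-- Packings along a tree of bags. -/
lemma good_tree {t k : ℕ} (hext : Ext V t k) {L : V → Finset ℕ}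
    (hL : ∀ v, (L v).card = k) :
    ∀ (n : ℕ) (ι : Type) (_ : Fintype ι) (T : SimpleGraph ι) (_ : T.IsTree) (bag : ι → Finset V),
      (∀ v, (T.induce {i | v ∈ bag i}).Preconnected) → (∀ i, (bag i).card ≤ t + 1) →
      Fintype.card ι = n + 1 →
      ∃ c : V → Fin k → ℕ, (∀ v i, c v i ∈ L v) ∧ ∀ j, Good t c (bag j) := by
  classical
  have base : ∃ c : V → Fin k → ℕ, ∀ v i, c v i ∈ L v := by
    have : ∀ v, ∃ f : Fin k → ℕ, ∀ i, f i ∈ L v := by
      intro v
      exact ⟨fun i => ((L v).equivFinOfCardEq (hL v)).symm i, fun i => Subtype.coe_prop _⟩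
    choose c hc using this
    exact ⟨c, hc⟩
  obtain ⟨c0, hc0⟩ := base
  intro n
  induction n with
  | zero =>
    intro ι _ T hT bag hconn hcard hn
    obtain ⟨i0, hi0⟩ := Fintype.card_eq_one_iff.1 hn
    obtain ⟨c', h1, h2, h3⟩ := good_bag hext (Finset.empty_subset (bag i0)) (hcard i0)
      (good_empty c0) hL
    refine ⟨c', ?_, ?_⟩
    · intro v i
      by_cases hv : v ∈ bag i0 \ ∅
      · exact h2 v hv i
      · rw [h1 v hv]; exact hc0 v i
    · intro j
      rw [hi0 j]
      exact h3
  | succ n ih =>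
    intro ι _ T hT bag hconn hcard hn
    have hnt : Nontrivial ι := Fintype.one_lt_card_iff_nontrivial.1 (by omega)
    obtain ⟨l, hl⟩ := hT.exists_vert_degree_one_of_nontrivial
    obtain ⟨m, hlm, hm⟩ := SimpleGraph.degree_eq_one_iff_existsUnique_adj.1 hl
    have hml : m ≠ l := hlm.ne'
    -- the smaller tree
    let T' : SimpleGraph ↥({l}ᶜ : Set ι) := T.induce {l}ᶜ
    have hT' : T'.IsTree :=
      ⟨hT.connected.induce_compl_singleton_of_degree_eq_one hl, hT.isAcyclic.induce _⟩
    have hcard' : Fintype.card ↥({l}ᶜ : Set ι) = n + 1 := by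
      have h1 := Fintype.card_compl_set ({l} : Set ι)
      simp only [Set.card_singleton] at h1
      omega
    -- a vertex in the leaf bag and in another bag is in the neighbouring bag
    have hrun : ∀ v j, j ≠ l → v ∈ bag l → v ∈ bag j → v ∈ bag m := by
      intro v j hj hvl hvj
      have h1 := hconn v ⟨l, hvl⟩ ⟨j, hvj⟩
      rw [SimpleGraph.reachable_iff_reflTransGen] at h1
      rcases h1.cases_head with h2 | ⟨b, hb, -⟩
      · exact absurd (congrArg Subtype.val h2).symm hj
      · have h3 : T.Adj l b.1 := hb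
        have h4 := hm b.1 h3
        have h5 := b.2
        rw [Set.mem_ofPred_eq, h4] at h5
        exact h5
    have hconn' : ∀ v, (T'.induce {j | v ∈ bag j.1}).Preconnected := by
      intro v j1 j2
      let mk : (j : ι) → (hj : j ≠ l) → (hv : v ∈ bag j) →
          ↥{j : ↥({l}ᶜ : Set ι) | v ∈ bag j.1} := fun j hj hv =>
          ⟨⟨j, hj⟩, (show v ∈ bag j from hv)⟩
      have hreach : ∀ a : ↥{i | v ∈ bag i}, Relation.ReflTransGen
          (T.induce {i | v ∈ bag i}).Adj ⟨j1.1.1, j1.2⟩ a →
          (∀ (hal : a.1 ≠ l), (T'.induce {j | v ∈ bag j.1}).Reachable j1 (mk a.1 hal a.2)) ∧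
          (a.1 = l → ∃ (hvm : v ∈ bag m),
            (T'.induce {j | v ∈ bag j.1}).Reachable j1 (mk m hml hvm)) := by
        intro a ha
        induction ha with
        | refl =>
          exact ⟨fun _ => SimpleGraph.Reachable.refl _, fun h => absurd h j1.1.2⟩
        | @tail a b hja hab ih2 =>
          have hab' : T.Adj a.1 b.1 := hab
          constructor
          · intro hbl
            by_cases hal : a.1 = l
            · obtain ⟨hvm, hr⟩ := ih2.2 hal
              have h1 : b.1 = m := hm b.1 (hal ▸ hab')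
              have h2 : mk b.1 hbl b.2 = mk m hml hvm := by
                apply Subtype.ext; apply Subtype.ext; exact h1
              rw [h2]; exact hr
            · refine (ih2.1 hal).trans ?_
              apply SimpleGraph.Adj.reachable
              exact hab'
          · intro hbl
            have h1 : a.1 = m := hm a.1 (by rw [← hbl]; exact hab'.symm)
            have hal : a.1 ≠ l := fun h => hml (h1.symm.trans h)
            have hvm : v ∈ bag m := by
              have := a.2
              rw [Set.mem_ofPred_eq, h1] at this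
              exact this
            refine ⟨hvm, ?_⟩
            have h2 : mk a.1 hal a.2 = mk m hml hvm := by
              apply Subtype.ext; apply Subtype.ext; exact h1
            rw [← h2]; exact ih2.1 hal
      have h1 := hconn v ⟨j1.1.1, j1.2⟩ ⟨j2.1.1, j2.2⟩
      rw [SimpleGraph.reachable_iff_reflTransGen] at h1
      exact (hreach _ h1).1 j2.1.2
    obtain ⟨c, hcL, hcG⟩ := ih ↥({l}ᶜ : Set ι) inferInstance T' hT' (fun j => bag j.1) hconn'
      (fun j => hcard j.1) hcard'
    have hW : Good t c (bag l ∩ bag m) := (hcG ⟨m, hml⟩).mono Finset.inter_subset_right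
    obtain ⟨c', h1, h2, h3⟩ := good_bag hext Finset.inter_subset_left (hcard l) hW hL
    refine ⟨c', ?_, ?_⟩
    · intro v i
      by_cases hv : v ∈ bag l \ (bag l ∩ bag m)
      · exact h2 v hv i
      · rw [h1 v hv]; exact hcL v i
    · intro j
      by_cases hj : j = l
      · rw [hj]; exact h3
      · apply (hcG ⟨j, hj⟩).congr
        intro u hu
        apply h1
        rw [Finset.mem_sdiff, Finset.mem_inter]
        rintro ⟨hul, hum⟩
        exact hum ⟨hul, hrun u j hj hul hu⟩

/-- The extension property gives packings for all graphs of treewidth at most `t`. -/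
theorem packable_of_ext {t k : ℕ} (_ht : 1 ≤ t) (_hk : t < k) {V : Type*} (hext : Ext V t k)
    {G : SimpleGraph V} (h : Pack.TreewidthLE G t) : Pack.Packable G k := by
  classical
  obtain ⟨D⟩ := h
  intro L hL
  let _ := D.fin
  have hne : Nonempty D.node := D.isTree.connected.nonempty
  obtain ⟨n, hn⟩ : ∃ n, Fintype.card D.node = n + 1 := by
    have := Fintype.card_pos_iff.2 hne
    exact ⟨Fintype.card D.node - 1, by omega⟩
  obtain ⟨c, hcL, hcG⟩ := good_tree hext hL n D.node D.fin D.tree
    D.isTree D.bag (fun v => (D.conn v).preconnected) D.card_le hn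
  refine ⟨fun i v => c v i, fun i v => hcL v i, ?_, ?_⟩
  · intro i u v huv
    obtain ⟨j, hu, hv⟩ := D.edge u v huv
    exact (hcG j).conf u hu v hv huv.ne i
  · intro i j v hij he
    obtain ⟨x⟩ := (D.conn v).nonempty
    exact hij ((hcG x.1).inj v x.2 he)

end Pool.Agent.H42.Pack6
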