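import Pool.Agent.H42.Pack6.Label
import Pool.Agent.H42.Pack6.Hall
import Pool.Agent.H42.Pack6.Tree

set_option autoImplicit false

/-!
# Graphs of treewidth at most four have packings for lists of six colours
-/

namespace Pool.Agent.H42.Pack6

open Finset Function

theorem part_ext (P : Fin 4 → Fin 6 → ℕ → Prop) (hP : Part P) (L : Finset ℕ) (hL : L.card = 6) :
    ∃ w : Fin 6 → ℕ, Injective w ∧ (∀ i, w i ∈ L) ∧ (∀ u i, ¬ P u i (w i)) ∧
      ∀ o : Fin 4, ∀ (S : Finset (Fin 6)) (D : Finset ℕ), S.Nonempty → S.card + D.card = 7 →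
        ¬ ∀ i ∈ S, ∀ d ∈ D, w i = d ∨ ∃ u, u ≠ o ∧ P u i d := by
  by_contra hno
  obtain ⟨w0, h1, h2, h3⟩ := hall6 hP L hL
  refine part_ext' hP L hL w0 h1 h2 h3 ?_
  intro w g1 g2 g3
  by_contra g4
  exact hno ⟨w, g1, g2, g3, fun o S D hS hSD hc => g4 ⟨o, S, D, hS, hSD, hc⟩⟩

theorem packable_six {V : Type} {G : SimpleGraph V} (h : Pack.TreewidthLE G 4) :
    Pack.Packable G 6 :=
  packable_of_ext (by norm_num) (by norm_num) (ext_of_part part_ext V) h

end Pool.Agent.H42.Pack6
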