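import Pool.Agent.H42.Pack6.Link
import Pool.Agent.H42.Pack6.DB
import Pool.Agent.H42.Pack6.DC
import Pool.Agent.H42.Pack6.DO

set_option autoImplicit false

/-!
# The three labelled starting positions
-/

namespace Pool.Agent.H42.Pack6

open Finset Function

variable {P : Fin 4 → Fin 6 → ℕ → Prop}

lemma perm4 (x0 x1 x2 x3 : Fin 6) (h01 : x0 ≠ x1) (h02 : x0 ≠ x2) (h03 : x0 ≠ x3) (h12 : x1 ≠ x2)
    (h13 : x1 ≠ x3) (h23 : x2 ≠ x3) :
    ∃ ρ : Equiv.Perm (Fin 6), ρ 0 = x0 ∧ ρ 1 = x1 ∧ ρ 2 = x2 ∧ ρ 3 = x3 := by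
  have hf : Set.InjOn (fun i : Fin 6 => if i = 0 then x0 else if i = 1 then x1 else
      if i = 2 then x2 else x3) ((({0, 1, 2, 3} : Finset (Fin 6)) : Set (Fin 6))) := by
    intro a ha b hb hab
    simp only [coe_insert, coe_singleton, Set.mem_insert_iff, Set.mem_singleton_iff] at ha hb
    rcases ha with rfl | rfl | rfl | rfl <;> rcases hb with rfl | rfl | rfl | rfl <;>
      first
        | rfl
        | (simp at hab; first | exact absurd hab h01 | exact absurd hab.symm h01
                              | exact absurd hab h02 | exact absurd hab.symm h02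
                              | exact absurd hab h03 | exact absurd hab.symm h03
                              | exact absurd hab h12 | exact absurd hab.symm h12
                              | exact absurd hab h13 | exact absurd hab.symm h13
                              | exact absurd hab h23 | exact absurd hab.symm h23)
  obtain ⟨g, hg⟩ := Finset.exists_equiv_extend_of_card_eq (α := Fin 6) (β := Fin 6) (t := univ)
    (by simp) (s := {0, 1, 2, 3}) (subset_univ _) hf
  refine ⟨g.trans (Equiv.subtypeUnivEquiv (fun x => mem_univ x)), ?_, ?_, ?_, ?_⟩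
  · have := hg 0 (by simp)
    simpa using this
  · have := hg 1 (by simp)
    simpa using this
  · have := hg 2 (by simp)
    simpa using this
  · have := hg 3 (by simp)
    simpa using this

lemma tau4 (a b c o : Fin 4) (h1 : a ≠ b) (h2 : a ≠ c) (h3 : a ≠ o) (h4 : b ≠ c) (h5 : b ≠ o)
    (h6 : c ≠ o) : Injective ![a, b, c, o] := by
  intro i j hij
  fin_cases i <;> fin_cases j <;>
    first
      | rfl
      | (simp at hij; first | exact absurd hij h1 | exact absurd hij.symm h1
                            | exact absurd hij h2 | exact absurd hij.symm h2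
                            | exact absurd hij h3 | exact absurd hij.symm h3
                            | exact absurd hij h4 | exact absurd hij.symm h4
                            | exact absurd hij h5 | exact absurd hij.symm h5
                            | exact absurd hij h6 | exact absurd hij.symm h6)

lemma sat_init {X : ℕ → ℕ → ℕ → Prop} {N : ℕ}
    (h : ∀ u < 4, ∀ c < 36, N.testBit (36 * u + c) = true → ¬ X u (c / 6) (c % 6)) : Sat X 0 N :=
  fun u hu c hc => ⟨fun h0 => by simp at h0, h u hu c hc⟩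

/-- the free diagonal -/
def ND : ℕ := Nat.mul 34630287489 324518553663149093266094385266689

lemma nd_fin : ∀ (u : Fin 4) (c : Fin 36),
    (!(tb ND (36 * u.val + c.val)) || Nat.beq (c.val / 6) (c.val % 6)) = true := by
  decide +kernel

lemma no_fin : ∀ (u : Fin 4) (c : Fin 36),
    (!(tb 11238170808869328306100496254472387764961471 (36 * u.val + c.val)) ||
      (Nat.beq (c.val / 6) (c.val % 6) || (Nat.blt u.val 3 && Nat.beq (c.val / 6) u.val))) = true := by
  decide +kernel

lemma rb_fin : ∀ (c : Fin 36), (!(tb 45902 c.val) ||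
    (Nat.blt (c.val / 6) 3 && (Nat.blt (c.val % 6) 4 && !(Nat.beq (c.val / 6) (c.val % 6))))) = true := by
  decide +kernel

lemma rc_fin : ∀ (c : Fin 36), (!(tb 1847622 c.val) ||
    (Nat.blt (c.val / 6) 4 && (Nat.blt (c.val % 6) 3 && !(Nat.beq (c.val / 6) (c.val % 6))))) = true := by
  decide +kernel

lemma ro_fin : ∀ (c : Fin 36), (!(tb 12614 c.val) ||
    (Nat.blt (c.val / 6) 3 && (Nat.blt (c.val % 6) 3 && !(Nat.beq (c.val / 6) (c.val % 6))))) = true := by
  decide +kernel

/-- the perfect matching is the diagonal -/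
lemma diag_free {τ : Fin 4 → Fin 4} {ρ : Equiv.Perm (Fin 6)} {w0 : Fin 6 → ℕ}
    (hav : ∀ u i, ¬ P u i (w0 i)) : ∀ u j, ¬ XX P τ ρ w0 u j j := by
  intro u j hx
  obtain ⟨h1, h2, h3, h4⟩ := hx
  exact hav _ _ h4

lemma sat_diag {τ : Fin 4 → Fin 4} {ρ : Equiv.Perm (Fin 6)} {w0 : Fin 6 → ℕ}
    (hav : ∀ u i, ¬ P u i (w0 i)) : Sat (XX P τ ρ w0) 0 ND := by
  apply sat_init
  intro u hu c hc h
  have h0 := nd_fin ⟨u, hu⟩ ⟨c, hc⟩
  rw [tb_eq, h, Bool.not_true, Bool.false_or] at h0
  have h1 : c / 6 = c % 6 := Nat.eq_of_beq_eq_true h0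
  rw [← h1]
  exact diag_free hav u (c / 6)

/-- required cells -/
lemma req_of {τ : Fin 4 → Fin 4} (hτ : Surjective τ) {ρ : Equiv.Perm (Fin 6)} {w0 : Fin 6 → ℕ}
    {o : Fin 4} (ho : τ 3 = o) {i d : Fin 6} (h : ∃ u, u ≠ o ∧ P u (ρ i) (w0 (ρ d))) :
    ∃ u < 3, XX P τ ρ w0 u i.val d.val := by
  subst ho
  obtain ⟨u, hu, huo, hx⟩ := cov_XX hτ h
  have : ((3 : Fin 4) : ℕ) = 3 := rfl
  exact ⟨u, by omega, hx⟩

lemma mk_XX {τ : Fin 4 → Fin 4} {ρ : Equiv.Perm (Fin 6)} {w0 : Fin 6 → ℕ} (u : Fin 4)
    (i d : Fin 6) (h : P (τ u) (ρ i) (w0 (ρ d))) : XX P τ ρ w0 u.val i.val d.val :=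
  ⟨u.isLt, i.isLt, d.isLt, h⟩

theorem part_ext' (hP : Part P) (L : Finset ℕ) (hL : L.card = 6) (w0 : Fin 6 → ℕ)
    (hw0 : Injective w0) (hwL : ∀ i, w0 i ∈ L) (hav : ∀ u i, ¬ P u i (w0 i))
    (hbad : AllBad P L) : False := by
  classical
  obtain ⟨o, S, D, hS, hSD, hcov⟩ := hbad w0 hw0 hwL hav
  rcases formA hP hw0 hS hSD hcov with ⟨A, hA, hb, d, hd1, hd2⟩ | ⟨A, hA, hb, q, hq1, hq2⟩
  · obtain ⟨i0, i1, i2, h01, h02, h12, rfl⟩ := card_eq_three.1 hA
    have m0 : i0 ∈ ({i0, i1, i2} : Finset (Fin 6)) := by simp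
    have m1 : i1 ∈ ({i0, i1, i2} : Finset (Fin 6)) := by simp
    have m2 : i2 ∈ ({i0, i1, i2} : Finset (Fin 6)) := by simp
    by_cases hdL : d ∈ L
    · -- the fourth colour is in the list
      obtain ⟨e, he⟩ : ∃ e, w0 e = d := by
        have h1 : univ.image w0 = L := by
          apply eq_of_subset_of_card_le
          · intro x hx
            obtain ⟨i, -, rfl⟩ := mem_image.1 hx
            exact hwL i
          · rw [card_image_of_injective _ hw0, hL]; simp
        rw [← h1, mem_image] at hdL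
        obtain ⟨i, -, hi⟩ := hdL
        exact ⟨i, hi⟩
      subst he
      have e0 : i0 ≠ e := by rintro rfl; exact hd1 _ m0 rfl
      have e1 : i1 ≠ e := by rintro rfl; exact hd1 _ m1 rfl
      have e2 : i2 ≠ e := by rintro rfl; exact hd1 _ m2 rfl
      obtain ⟨ρ, r0, r1, r2, r3⟩ := perm4 i0 i1 i2 e h01 h02 e0 h12 e1 e2
      obtain ⟨a, ha, pa⟩ := hb i0 m0 i1 m1 h01.symm
      obtain ⟨b, hb', pb⟩ := hb i0 m0 i2 m2 h02.symm
      obtain ⟨c, hc, pc'⟩ := hd2 i0 m0
      have hab : a ≠ b := by
        rintro rfl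
        exact h12 (hw0 (hP.fn _ _ _ _ pa pb))
      have hac : a ≠ c := by
        rintro rfl
        exact e1 (hw0 (hP.fn _ _ _ _ pa pc'))
      have hbc : b ≠ c := by
        rintro rfl
        exact e2 (hw0 (hP.fn _ _ _ _ pb pc'))
      have hτ := tau4 a b c o hab hac ha hbc hb' hc
      have hτs : Surjective ![a, b, c, o] := Finite.surjective_of_injective hτ
      have hX := hyp_XX (ρ := ρ) hP hL hbad hτ hw0 hwL
      have s0 := sat_diag (τ := ![a, b, c, o]) (ρ := ρ) hav
      have s1 := sat_yes hX s0 (by norm_num : 0 < 4) (by norm_num : 1 < 36)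
        (mk_XX (0 : Fin 4) 0 1 (by rw [r0, r1]; exact pa))
      have s2 := sat_yes hX s1 (by norm_num : 1 < 4) (by norm_num : 2 < 36)
        (mk_XX (1 : Fin 4) 0 2 (by rw [r0, r2]; exact pb))
      have s3 := sat_yes hX s2 (by norm_num : 2 < 4) (by norm_num : 3 < 36)
        (mk_XX (2 : Fin 4) 0 3 (by rw [r0, r3]; exact pc'))
      refine chk_sound (RT := 45902) hX ?_ trB _ _ s3 ?_
      · intro c' hc' h
        have h0 := rb_fin ⟨c', hc'⟩
        rw [tb_eq, h, Bool.not_true, Bool.false_or, Bool.and_eq_true, Bool.and_eq_true,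
          Bool.not_eq_true'] at h0
        obtain ⟨g1, g2, g3⟩ := h0
        have g1' : c' / 6 < 3 := Nat.le_of_ble_eq_true g1
        have g2' : c' % 6 < 4 := Nat.le_of_ble_eq_true g2
        have g3' : c' / 6 ≠ c' % 6 := Nat.ne_of_beq_eq_false g3
        generalize c' / 6 = i at *
        generalize c' % 6 = j at *
        interval_cases i <;> interval_cases j <;> first
          | exact absurd rfl g3'
          | exact req_of hτs rfl (i := 0) (d := 1) (by rw [r0, r1]; exact hb _ m0 _ m1 h01.symm)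
          | exact req_of hτs rfl (i := 0) (d := 2) (by rw [r0, r2]; exact hb _ m0 _ m2 h02.symm)
          | exact req_of hτs rfl (i := 1) (d := 0) (by rw [r1, r0]; exact hb _ m1 _ m0 h01)
          | exact req_of hτs rfl (i := 1) (d := 2) (by rw [r1, r2]; exact hb _ m1 _ m2 h12.symm)
          | exact req_of hτs rfl (i := 2) (d := 0) (by rw [r2, r0]; exact hb _ m2 _ m0 h02)
          | exact req_of hτs rfl (i := 2) (d := 1) (by rw [r2, r1]; exact hb _ m2 _ m1 h12)
          | exact req_of hτs rfl (i := 0) (d := 3) (by rw [r0, r3]; exact hd2 _ m0)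
          | exact req_of hτs rfl (i := 1) (d := 3) (by rw [r1, r3]; exact hd2 _ m1)
          | exact req_of hτs rfl (i := 2) (d := 3) (by rw [r2, r3]; exact hd2 _ m2)
      · exact chkB
    · -- the fourth colour is outside the list
      obtain ⟨x, hx⟩ : ∃ x : Fin 6, x ∉ ({i0, i1, i2} : Finset (Fin 6)) := by
        by_contra hcon
        push Not at hcon
        have h1 : ({i0, i1, i2} : Finset (Fin 6)) = univ := eq_univ_iff_forall.2 hcon
        rw [h1] at hA
        simp at hA
      have e0 : i0 ≠ x := by rintro rfl; exact hx m0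
      have e1 : i1 ≠ x := by rintro rfl; exact hx m1
      have e2 : i2 ≠ x := by rintro rfl; exact hx m2
      obtain ⟨ρ, r0, r1, r2, r3⟩ := perm4 i0 i1 i2 x h01 h02 e0 h12 e1 e2
      obtain ⟨a, ha, pa⟩ := hd2 i0 m0
      obtain ⟨b, hb', pb⟩ := hd2 i1 m1
      obtain ⟨c, hc, pc'⟩ := hd2 i2 m2
      have hab : a ≠ b := by
        rintro rfl
        exact h01 (hP.inj _ _ _ _ pa pb)
      have hac : a ≠ c := by
        rintro rfl
        exact h02 (hP.inj _ _ _ _ pa pc')
      have hbc : b ≠ c := by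
        rintro rfl
        exact h12 (hP.inj _ _ _ _ pb pc')
      have hτ := tau4 a b c o hab hac ha hbc hb' hc
      have hτs : Surjective ![a, b, c, o] := Finite.surjective_of_injective hτ
      have hX := hyp_XX (ρ := ρ) hP hL hbad hτ hw0 hwL
      have s0 : Sat (XX P ![a, b, c, o] ρ w0) 0 11238170808869328306100496254472387764961471 := by
        apply sat_init
        intro u hu c' hc' h
        have h0 := no_fin ⟨u, hu⟩ ⟨c', hc'⟩
        rw [tb_eq, h, Bool.not_true, Bool.false_or, Bool.or_eq_true, Bool.and_eq_true] at h0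
        rcases h0 with h0 | ⟨h0, h1⟩
        · have h1 : c' / 6 = c' % 6 := Nat.eq_of_beq_eq_true h0
          rw [← h1]
          exact diag_free hav u (c' / 6)
        · have h0' : u < 3 := Nat.le_of_ble_eq_true h0
          have h1' : c' / 6 = u := Nat.eq_of_beq_eq_true h1
          rw [h1']
          rintro ⟨g1, g2, g3, g4⟩
          apply hdL
          have key : ∀ y : Fin 4, ∀ i : Fin 6, P y i d → P y i (w0 (ρ ⟨c' % 6, g3⟩)) → d ∈ L := by
            intro y i k1 k2
            rw [hP.fn _ _ _ _ k1 k2]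
            exact hwL _
          interval_cases u
          · refine key a i0 pa ?_
            have : ρ ⟨0, g2⟩ = i0 := r0
            rw [this] at g4; exact g4
          · refine key b i1 pb ?_
            have : ρ ⟨1, g2⟩ = i1 := r1
            rw [this] at g4; exact g4
          · refine key c i2 pc' ?_
            have : ρ ⟨2, g2⟩ = i2 := r2
            rw [this] at g4; exact g4
      refine chk_sound (RT := 12614) hX ?_ trO _ _ s0 chkO
      intro c' hc' h
      have h0 := ro_fin ⟨c', hc'⟩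
      rw [tb_eq, h, Bool.not_true, Bool.false_or, Bool.and_eq_true, Bool.and_eq_true,
        Bool.not_eq_true'] at h0
      obtain ⟨g1, g2, g3⟩ := h0
      have g1' : c' / 6 < 3 := Nat.le_of_ble_eq_true g1
      have g2' : c' % 6 < 3 := Nat.le_of_ble_eq_true g2
      have g3' : c' / 6 ≠ c' % 6 := Nat.ne_of_beq_eq_false g3
      generalize c' / 6 = i at *
      generalize c' % 6 = j at *
      interval_cases i <;> interval_cases j <;> first
        | exact absurd rfl g3'
        | exact req_of hτs rfl (i := 0) (d := 1) (by rw [r0, r1]; exact hb _ m0 _ m1 h01.symm)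
        | exact req_of hτs rfl (i := 0) (d := 2) (by rw [r0, r2]; exact hb _ m0 _ m2 h02.symm)
        | exact req_of hτs rfl (i := 1) (d := 0) (by rw [r1, r0]; exact hb _ m1 _ m0 h01)
        | exact req_of hτs rfl (i := 1) (d := 2) (by rw [r1, r2]; exact hb _ m1 _ m2 h12.symm)
        | exact req_of hτs rfl (i := 2) (d := 0) (by rw [r2, r0]; exact hb _ m2 _ m0 h02)
        | exact req_of hτs rfl (i := 2) (d := 1) (by rw [r2, r1]; exact hb _ m2 _ m1 h12)
  · obtain ⟨i0, i1, i2, h01, h02, h12, rfl⟩ := card_eq_three.1 hA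
    have m0 : i0 ∈ ({i0, i1, i2} : Finset (Fin 6)) := by simp
    have m1 : i1 ∈ ({i0, i1, i2} : Finset (Fin 6)) := by simp
    have m2 : i2 ∈ ({i0, i1, i2} : Finset (Fin 6)) := by simp
    have e0 : i0 ≠ q := by rintro rfl; exact hq1 m0
    have e1 : i1 ≠ q := by rintro rfl; exact hq1 m1
    have e2 : i2 ≠ q := by rintro rfl; exact hq1 m2
    obtain ⟨ρ, r0, r1, r2, r3⟩ := perm4 i0 i1 i2 q h01 h02 e0 h12 e1 e2
    obtain ⟨a, ha, pa⟩ := hb i1 m1 i0 m0 h01
    obtain ⟨b, hb', pb⟩ := hb i2 m2 i0 m0 h02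
    obtain ⟨c, hc, pc'⟩ := hq2 i0 m0
    have hab : a ≠ b := by
      rintro rfl
      exact h12 (hP.inj _ _ _ _ pa pb)
    have hac : a ≠ c := by
      rintro rfl
      exact e1 (hP.inj _ _ _ _ pa pc')
    have hbc : b ≠ c := by
      rintro rfl
      exact e2 (hP.inj _ _ _ _ pb pc')
    have hτ := tau4 a b c o hab hac ha hbc hb' hc
    have hτs : Surjective ![a, b, c, o] := Finite.surjective_of_injective hτ
    have hX := hyp_XX (ρ := ρ) hP hL hbad hτ hw0 hwL
    have s0 := sat_diag (τ := ![a, b, c, o]) (ρ := ρ) hav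
    have s1 := sat_yes hX s0 (by norm_num : 0 < 4) (by norm_num : 6 < 36)
      (mk_XX (0 : Fin 4) 1 0 (by rw [r0, r1]; exact pa))
    have s2 := sat_yes hX s1 (by norm_num : 1 < 4) (by norm_num : 12 < 36)
      (mk_XX (1 : Fin 4) 2 0 (by rw [r0, r2]; exact pb))
    have s3 := sat_yes hX s2 (by norm_num : 2 < 4) (by norm_num : 18 < 36)
      (mk_XX (2 : Fin 4) 3 0 (by rw [r0, r3]; exact pc'))
    refine chk_sound (RT := 1847622) hX ?_ trC _ _ s3 ?_
    · intro c' hc' h
      have h0 := rc_fin ⟨c', hc'⟩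
      rw [tb_eq, h, Bool.not_true, Bool.false_or, Bool.and_eq_true, Bool.and_eq_true,
        Bool.not_eq_true'] at h0
      obtain ⟨g1, g2, g3⟩ := h0
      have g1' : c' / 6 < 4 := Nat.le_of_ble_eq_true g1
      have g2' : c' % 6 < 3 := Nat.le_of_ble_eq_true g2
      have g3' : c' / 6 ≠ c' % 6 := Nat.ne_of_beq_eq_false g3
      generalize c' / 6 = i at *
      generalize c' % 6 = j at *
      interval_cases i <;> interval_cases j <;> first
        | exact absurd rfl g3'
        | exact req_of hτs rfl (i := 0) (d := 1) (by rw [r0, r1]; exact hb _ m0 _ m1 h01.symm)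
        | exact req_of hτs rfl (i := 0) (d := 2) (by rw [r0, r2]; exact hb _ m0 _ m2 h02.symm)
        | exact req_of hτs rfl (i := 1) (d := 0) (by rw [r1, r0]; exact hb _ m1 _ m0 h01)
        | exact req_of hτs rfl (i := 1) (d := 2) (by rw [r1, r2]; exact hb _ m1 _ m2 h12.symm)
        | exact req_of hτs rfl (i := 2) (d := 0) (by rw [r2, r0]; exact hb _ m2 _ m0 h02)
        | exact req_of hτs rfl (i := 2) (d := 1) (by rw [r2, r1]; exact hb _ m2 _ m1 h12)
        | exact req_of hτs rfl (i := 3) (d := 0) (by rw [r3, r0]; exact hq2 _ m0)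
        | exact req_of hτs rfl (i := 3) (d := 1) (by rw [r3, r1]; exact hq2 _ m1)
        | exact req_of hτs rfl (i := 3) (d := 2) (by rw [r3, r2]; exact hq2 _ m2)
    · exact chkC

end Pool.Agent.H42.Pack6
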