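import Pool.Agent.H42.Pack6.Sem
import Pool.Agent.H42.Pack6.Defs

set_option autoImplicit false

/-!
# From partial packings to the grid
-/

namespace Pool.Agent.H42.Pack6

open Finset Function

variable {P : Fin 4 → Fin 6 → ℕ → Prop}

lemma formA (hP : Part P) {w : Fin 6 → ℕ} (hw : Injective w) {o : Fin 4}
    {S : Finset (Fin 6)} {D : Finset ℕ} (hS : S.Nonempty) (hSD : S.card + D.card = 7)
    (hc : ∀ i ∈ S, ∀ d ∈ D, w i = d ∨ ∃ u, u ≠ o ∧ P u i d) :
    (∃ A : Finset (Fin 6), A.card = 3 ∧ (∀ i ∈ A, ∀ j ∈ A, j ≠ i → ∃ u, u ≠ o ∧ P u i (w j)) ∧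
      ∃ d, (∀ i ∈ A, w i ≠ d) ∧ ∀ i ∈ A, ∃ u, u ≠ o ∧ P u i d) ∨
    (∃ A : Finset (Fin 6), A.card = 3 ∧ (∀ i ∈ A, ∀ j ∈ A, j ≠ i → ∃ u, u ≠ o ∧ P u i (w j)) ∧
      ∃ q, q ∉ A ∧ ∀ i ∈ A, ∃ u, u ≠ o ∧ P u q (w i)) := by
  classical
  have hex : ∀ i d, ∃ u : Fin 4, i ∈ S → d ∈ D → (w i = d ∧ u = o) ∨ (w i ≠ d ∧ u ≠ o ∧ P u i d) := by
    intro i d
    by_cases h : i ∈ S ∧ d ∈ D
    · rcases hc i h.1 d h.2 with h1 | ⟨u, hu, hp⟩
      · exact ⟨o, fun _ _ => Or.inl ⟨h1, rfl⟩⟩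
      · by_cases h2 : w i = d
        · exact ⟨o, fun _ _ => Or.inl ⟨h2, rfl⟩⟩
        · exact ⟨u, fun _ _ => Or.inr ⟨h2, hu, hp⟩⟩
    · exact ⟨o, fun h1 h2 => absurd ⟨h1, h2⟩ h⟩
  choose g hg using hex
  have hS6 : S.card ≤ 6 := by
    have := card_le_univ S
    simpa using this
  have hDne : D.Nonempty := by rw [← card_pos]; omega
  have hinjS : ∀ d ∈ D, Set.InjOn (fun i => g i d) (S : Set (Fin 6)) := by
    intro d hd i hi i' hi' he
    have he' : g i d = g i' d := he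
    rcases hg i d hi hd with ⟨h1, h2⟩ | ⟨h1, h2, h3⟩ <;>
      rcases hg i' d hi' hd with ⟨h1', h2'⟩ | ⟨h1', h2', h3'⟩
    · exact hw (h1.trans h1'.symm)
    · exact absurd (he'.symm.trans h2) h2'
    · exact absurd (he'.trans h2') h2
    · rw [← he'] at h3'
      exact hP.inj _ _ _ _ h3 h3'
  have hinjD : ∀ i ∈ S, Set.InjOn (fun d => g i d) (D : Set ℕ) := by
    intro i hi d hd d' hd' he
    have he' : g i d = g i d' := he
    rcases hg i d hi hd with ⟨h1, h2⟩ | ⟨h1, h2, h3⟩ <;>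
      rcases hg i d' hi hd' with ⟨h1', h2'⟩ | ⟨h1', h2', h3'⟩
    · exact h1.symm.trans h1'
    · exact absurd (he'.symm.trans h2) h2'
    · exact absurd (he'.trans h2') h2
    · rw [← he'] at h3'
      exact hP.fn _ _ _ _ h3 h3'
  have hcs : ∀ d ∈ D, (S.image (fun i => g i d)).card = S.card := fun d hd =>
    card_image_of_injOn (hinjS d hd)
  have hcd : ∀ i ∈ S, (D.image (fun d => g i d)).card = D.card := fun i hi =>
    card_image_of_injOn (hinjD i hi)
  have hle4 : ∀ s : Finset (Fin 4), s.card ≤ 4 := by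
    intro s
    have := card_le_univ s
    simpa using this
  obtain ⟨d0, hd0⟩ := hDne
  obtain ⟨i0, hi0⟩ := hS
  have hS4 : S.card ≤ 4 := by rw [← hcs d0 hd0]; exact hle4 _
  have hD4 : D.card ≤ 4 := by rw [← hcd i0 hi0]; exact hle4 _
  have hfull : ∀ s : Finset (Fin 4), s.card = 4 → o ∈ s := by
    intro s hs
    have : s = univ := by
      apply eq_univ_of_card
      simpa using hs
    rw [this]; exact mem_univ _
  rcases (by omega : (S.card = 3 ∧ D.card = 4) ∨ (S.card = 4 ∧ D.card = 3)) with ⟨h3, h4⟩ | ⟨h4, h3⟩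
  · left
    have hwD : ∀ i ∈ S, w i ∈ D := by
      intro i hi
      have h1 := hfull _ ((hcd i hi).trans h4)
      obtain ⟨d, hd, he⟩ := mem_image.1 h1
      rcases hg i d hi hd with ⟨a1, -⟩ | ⟨-, a2, -⟩
      · rw [a1]; exact hd
      · exact absurd he a2
    refine ⟨S, h3, ?_, ?_⟩
    · intro i hi j hj hji
      rcases hc i hi (w j) (hwD j hj) with h | h
      · exact absurd (hw h).symm hji
      · exact h
    · have h1 : (D \ S.image w).Nonempty := by
        rw [← card_pos]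
        have h2 := le_card_sdiff (S.image w) D
        have h3' : (S.image w).card ≤ S.card := card_image_le
        omega
      obtain ⟨d, hd⟩ := h1
      rw [mem_sdiff, mem_image] at hd
      have hd2 : ∀ i ∈ S, w i ≠ d := fun i hi he => hd.2 ⟨i, hi, he⟩
      refine ⟨d, hd2, fun i hi => ?_⟩
      rcases hc i hi d hd.1 with h | h
      · exact absurd h (hd2 i hi)
      · exact h
  · right
    have hwD : ∀ d ∈ D, ∃ i ∈ S, w i = d := by
      intro d hd
      have h1 := hfull _ ((hcs d hd).trans h4)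
      obtain ⟨i, hi, he⟩ := mem_image.1 h1
      rcases hg i d hi hd with ⟨a1, -⟩ | ⟨-, a2, -⟩
      · exact ⟨i, hi, a1⟩
      · exact absurd he a2
    have hA : ((S.filter (fun i => w i ∈ D)).image w) = D := by
      ext d
      rw [mem_image]
      constructor
      · rintro ⟨i, hi, rfl⟩
        exact (mem_filter.1 hi).2
      · intro hd
        obtain ⟨i, hi, he⟩ := hwD d hd
        exact ⟨i, mem_filter.2 ⟨hi, by rw [he]; exact hd⟩, he⟩
    have hA3 : (S.filter (fun i => w i ∈ D)).card = 3 := by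
      rw [← card_image_of_injective _ hw, hA, h3]
    refine ⟨S.filter (fun i => w i ∈ D), hA3, ?_, ?_⟩
    · intro i hi j hj hji
      rcases hc i (mem_filter.1 hi).1 (w j) (mem_filter.1 hj).2 with h | h
      · exact absurd (hw h).symm hji
      · exact h
    · have h1 : (S \ S.filter (fun i => w i ∈ D)).Nonempty := by
        rw [← card_pos]
        have h2 := le_card_sdiff (S.filter (fun i => w i ∈ D)) S
        omega
      obtain ⟨q, hq⟩ := h1
      rw [mem_sdiff] at hq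
      refine ⟨q, hq.2, fun i hi => ?_⟩
      rcases hc q hq.1 (w i) (mem_filter.1 hi).2 with h | h
      · have := hw h
        rw [this] at hq
        exact absurd hi hq.2
      · exact h

/-- the labelled relation -/
def XX (P : Fin 4 → Fin 6 → ℕ → Prop) (τ : Fin 4 → Fin 4) (ρ : Equiv.Perm (Fin 6))
    (w0 : Fin 6 → ℕ) (u i d : ℕ) : Prop :=
  ∃ (hu : u < 4) (hi : i < 6) (hd : d < 6), P (τ ⟨u, hu⟩) (ρ ⟨i, hi⟩) (w0 (ρ ⟨d, hd⟩))

lemma cov_XX {τ : Fin 4 → Fin 4} (hτ : Surjective τ) {ρ : Equiv.Perm (Fin 6)} {w0 : Fin 6 → ℕ}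
    {o : Fin 4} {i d : Fin 6} (h : ∃ u, u ≠ τ o ∧ P u (ρ i) (w0 (ρ d))) :
    Cov (XX P τ ρ w0) o.val i.val d.val := by
  obtain ⟨u, hu, hp⟩ := h
  obtain ⟨u', rfl⟩ := hτ u
  refine ⟨u'.val, u'.isLt, fun he => hu (by rw [Fin.ext he]), u'.isLt, i.isLt, d.isLt, hp⟩

lemma trs_all : ∀ A ∈ (range 6).powersetCard 3, ∃ t ∈ trs, A = {t.1, t.2.1, t.2.2} := by
  decide +kernel

lemma trs_ne : ∀ t ∈ trs, t.1 ≠ t.2.1 ∧ t.1 ≠ t.2.2 ∧ t.2.1 ≠ t.2.2 := by decide

lemma thr_of {X : ℕ → ℕ → ℕ → Prop} {p : ℕ → ℕ} {o : ℕ} {A : Finset ℕ} (hA : A ⊆ range 6)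
    (hA3 : A.card = 3) (h1 : ∀ r ∈ A, ∀ q ∈ A, q ≠ r → Cov X o r (p q))
    (h2 : (∃ d < 6, (∀ r ∈ A, d ≠ p r) ∧ ∀ r ∈ A, Cov X o r d) ∨
      (∃ q < 6, q ∉ A ∧ ∀ r ∈ A, Cov X o q (p r)) ∨ (∀ r ∈ A, Out X o r)) : Thr X p o := by
  obtain ⟨t, ht, he⟩ := trs_all A (mem_powersetCard.2 ⟨hA, hA3⟩)
  obtain ⟨n1, n2, n3⟩ := trs_ne t ht
  have m1 : t.1 ∈ A := by rw [he]; simp
  have m2 : t.2.1 ∈ A := by rw [he]; simp
  have m3 : t.2.2 ∈ A := by rw [he]; simp
  refine ⟨t, ht, h1 _ m1 _ m2 n1.symm, h1 _ m1 _ m3 n2.symm, h1 _ m2 _ m1 n1,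
    h1 _ m2 _ m3 n3.symm, h1 _ m3 _ m1 n2, h1 _ m3 _ m2 n3, ?_⟩
  rcases h2 with ⟨d, hd, hdn, hdc⟩ | ⟨q, hq, hqn, hqc⟩ | h
  · exact Or.inl ⟨d, hd, hdn _ m1, hdn _ m2, hdn _ m3, hdc _ m1, hdc _ m2, hdc _ m3⟩
  · refine Or.inr (Or.inl ⟨q, hq, ?_, ?_, ?_, hqc _ m1, hqc _ m2, hqc _ m3⟩)
    · rintro rfl; exact hqn m1
    · rintro rfl; exact hqn m2
    · rintro rfl; exact hqn m3
  · exact Or.inr (Or.inr ⟨h _ m1, h _ m2, h _ m3⟩)

/-- every perfect matching is bad -/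
def AllBad (P : Fin 4 → Fin 6 → ℕ → Prop) (L : Finset ℕ) : Prop :=
  ∀ w : Fin 6 → ℕ, Injective w → (∀ i, w i ∈ L) → (∀ u i, ¬ P u i (w i)) →
    ∃ o : Fin 4, ∃ (S : Finset (Fin 6)) (D : Finset ℕ), S.Nonempty ∧ S.card + D.card = 7 ∧
      ∀ i ∈ S, ∀ d ∈ D, w i = d ∨ ∃ u, u ≠ o ∧ P u i d

lemma hyp_XX (hP : Part P) {L : Finset ℕ} (hL : L.card = 6) (hbad : AllBad P L)
    {τ : Fin 4 → Fin 4} (hτ : Injective τ) {ρ : Equiv.Perm (Fin 6)} {w0 : Fin 6 → ℕ}
    (hw0 : Injective w0) (hwL : ∀ i, w0 i ∈ L) : Hyp (XX P τ ρ w0) := by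
  classical
  have hτs : Surjective τ := Finite.surjective_of_injective hτ
  have hLs : ∀ d ∈ L, ∃ e : Fin 6, w0 (ρ e) = d := by
    have h1 : univ.image w0 = L := by
      apply eq_of_subset_of_card_le
      · intro d hd
        obtain ⟨i, -, rfl⟩ := mem_image.1 hd
        exact hwL i
      · rw [card_image_of_injective _ hw0, hL]; simp
    intro d hd
    rw [← h1, mem_image] at hd
    obtain ⟨i, -, hi⟩ := hd
    exact ⟨ρ.symm i, by rw [Equiv.apply_symm_apply, hi]⟩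
  refine ⟨?_, ?_, ?_, ?_, ?_⟩
  · intro u i d d' hx hx'
    obtain ⟨hu, hi, hd, h⟩ := hx
    obtain ⟨hu', hi', hd', h'⟩ := hx'
    have h1 := ρ.injective (hw0 (hP.fn _ _ _ _ h h'))
    exact congrArg Fin.val h1
  · intro u i i' d hx hx'
    obtain ⟨hu, hi, hd, h⟩ := hx
    obtain ⟨hu', hi', hd', h'⟩ := hx'
    have h1 := ρ.injective (hP.inj _ _ _ _ h h')
    exact congrArg Fin.val h1
  · intro u v i d hx hx'
    obtain ⟨hu, hi, hd, h⟩ := hx
    obtain ⟨hv, hi', hd', h'⟩ := hx'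
    have h1 := hτ (hP.dis _ _ _ _ h h')
    exact congrArg Fin.val h1
  · intro S D hS hD hSne hSD hcov
    have hSlt : ∀ i ∈ S, i < 6 := fun i hi => mem_range.1 (hS hi)
    have hDlt : ∀ i ∈ D, i < 6 := fun i hi => mem_range.1 (hD hi)
    let S' : Finset (Fin 6) := S.attach.image (fun i => ρ ⟨i.1, hSlt i.1 i.2⟩)
    let D' : Finset ℕ := D.attach.image (fun d => w0 (ρ ⟨d.1, hDlt d.1 d.2⟩))
    have hS' : S'.card = S.card := by
      rw [card_image_of_injective, card_attach]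
      intro a b hab
      have := congrArg Fin.val (ρ.injective hab)
      exact Subtype.ext this
    have hD' : D'.card = D.card := by
      rw [card_image_of_injective, card_attach]
      intro a b hab
      have := congrArg Fin.val (ρ.injective (hw0 hab))
      exact Subtype.ext this
    refine hP.good S' D' ?_ (by rw [hS', hD']; exact hSD) ?_
    · rw [← card_pos, hS', card_pos]; exact hSne
    · intro i hi d hd
      obtain ⟨i', -, rfl⟩ := mem_image.1 hi
      obtain ⟨d', -, rfl⟩ := mem_image.1 hd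
      obtain ⟨u, hu, hx⟩ := hcov i'.1 i'.2 d'.1 d'.2
      obtain ⟨h1, h2, h3, h⟩ := hx
      exact ⟨_, h⟩
  · intro p hp hpi hav
    let π : Fin 6 → Fin 6 := fun i => ⟨p i.val, hp i.val i.isLt⟩
    have hπ : Injective π := by
      intro i j hij
      have h1 : p i.val = p j.val := congrArg Fin.val hij
      exact Fin.ext (hpi _ i.isLt _ j.isLt h1)
    let w : Fin 6 → ℕ := fun j => w0 (ρ (π (ρ.symm j)))
    have hwinj : Injective w := hw0.comp (ρ.injective.comp (hπ.comp ρ.symm.injective))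
    have hwρ : ∀ i, w (ρ i) = w0 (ρ (π i)) := by
      intro i
      simp only [w, Equiv.symm_apply_apply]
    obtain ⟨o, S, D, hSne, hSD, hcov⟩ := hbad w hwinj (fun i => hwL _) (by
      intro u j hpj
      obtain ⟨u', rfl⟩ := hτs u
      obtain ⟨i, rfl⟩ := ρ.surjective j
      rw [hwρ] at hpj
      exact hav i.val i.isLt u'.val u'.isLt ⟨u'.isLt, i.isLt, hp i.val i.isLt, hpj⟩)
    obtain ⟨o', rfl⟩ := hτs o
    refine ⟨o'.val, o'.isLt, ?_⟩
    have hidx : ∀ A : Finset (Fin 6), A.card = 3 →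
        (∀ i ∈ A, ∀ j ∈ A, j ≠ i → ∃ u, u ≠ τ o' ∧ P u i (w j)) →
        (A.image (fun j => (ρ.symm j).val)) ⊆ range 6 ∧
        (A.image (fun j => (ρ.symm j).val)).card = 3 ∧
        (∀ r ∈ A.image (fun j => (ρ.symm j).val), ∀ q ∈ A.image (fun j => (ρ.symm j).val), q ≠ r →
          Cov (XX P τ ρ w0) o'.val r (p q)) := by
      intro A hA hb
      refine ⟨?_, ?_, ?_⟩
      · intro r hr
        obtain ⟨j, -, rfl⟩ := mem_image.1 hr
        exact mem_range.2 (Fin.isLt _)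
      · rw [card_image_of_injective, hA]
        intro a b hab
        exact ρ.symm.injective (Fin.ext hab)
      · intro r hr q hq hqr
        obtain ⟨j, hj, rfl⟩ := mem_image.1 hr
        obtain ⟨l, hl, rfl⟩ := mem_image.1 hq
        have h1 : l ≠ j := by rintro rfl; exact hqr rfl
        have h2 := hb j hj l hl h1
        have h3 : ρ (ρ.symm j) = j := Equiv.apply_symm_apply _ _
        have h4 : w l = w0 (ρ (π (ρ.symm l))) := rfl
        rw [h4, ← h3] at h2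
        exact cov_XX hτs h2
    rcases formA hP hwinj hSne hSD hcov with ⟨A, hA, hb, d, hd1, hd2⟩ | ⟨A, hA, hb, q, hq1, hq2⟩
    · obtain ⟨c1, c2, c3⟩ := hidx A hA hb
      refine thr_of c1 c2 c3 ?_
      by_cases hdL : d ∈ L
      · obtain ⟨e, he⟩ := hLs d hdL
        refine Or.inl ⟨e.val, e.isLt, ?_, ?_⟩
        · intro r hr he2
          obtain ⟨j, hj, rfl⟩ := mem_image.1 hr
          have h1 : e = π (ρ.symm j) := Fin.ext he2
          exact hd1 j hj (by rw [← he, h1])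
        · intro r hr
          obtain ⟨j, hj, rfl⟩ := mem_image.1 hr
          have h2 := hd2 j hj
          rw [← he, ← Equiv.apply_symm_apply ρ j] at h2
          have h3 := cov_XX (P := P) hτs h2
          simpa using h3
      · refine Or.inr (Or.inr ?_)
        intro r hr
        obtain ⟨j, hj, rfl⟩ := mem_image.1 hr
        obtain ⟨u, hu, hpu⟩ := hd2 j hj
        obtain ⟨u', rfl⟩ := hτs u
        refine ⟨u'.val, u'.isLt, fun he => hu (by rw [Fin.ext he]), ?_⟩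
        intro e he0 hx
        obtain ⟨h1, h2, h3, h4⟩ := hx
        have h5 : ρ ⟨(ρ.symm j).val, h2⟩ = j := by
          have : (⟨(ρ.symm j).val, h2⟩ : Fin 6) = ρ.symm j := Fin.ext rfl
          rw [this, Equiv.apply_symm_apply]
        rw [h5] at h4
        have h6 := hP.fn _ _ _ _ h4 hpu
        exact hdL (h6 ▸ hwL _)
    · obtain ⟨c1, c2, c3⟩ := hidx A hA hb
      refine thr_of c1 c2 c3 (Or.inr (Or.inl ⟨(ρ.symm q).val, Fin.isLt _, ?_, ?_⟩))
      · intro hq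
        obtain ⟨j, hj, he⟩ := mem_image.1 hq
        have : j = q := ρ.symm.injective (Fin.ext he)
        exact hq1 (this ▸ hj)
      · intro r hr
        obtain ⟨j, hj, rfl⟩ := mem_image.1 hr
        have h2 := hq2 j hj
        have h4 : w j = w0 (ρ (π (ρ.symm j))) := rfl
        rw [h4, ← Equiv.apply_symm_apply ρ q] at h2
        have h3 := cov_XX (P := P) hτs h2
        simpa using h3

end Pool.Agent.H42.Pack6
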