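import Pool.Agent.H42.Pack6.Chk

set_option autoImplicit false

/-!
# Soundness of the checker
-/

namespace Pool.Agent.H42.Pack6

open Finset

variable {X : ℕ → ℕ → ℕ → Prop}

/-- some vertex different from `o` has the colour `d` in the row `i` -/
def Cov (X : ℕ → ℕ → ℕ → Prop) (o i d : ℕ) : Prop := ∃ u < 4, u ≠ o ∧ X u i d

/-- some vertex different from `o` has no colour of the list in the row `i` -/
def Out (X : ℕ → ℕ → ℕ → Prop) (o i : ℕ) : Prop := ∃ u < 4, u ≠ o ∧ ∀ d < 6, ¬ X u i d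

/-- the permutation `p` has three cells which may be completed by the vertices different from `o` -/
def Thr (X : ℕ → ℕ → ℕ → Prop) (p : ℕ → ℕ) (o : ℕ) : Prop :=
  ∃ t ∈ trs, Cov X o t.1 (p t.2.1) ∧ Cov X o t.1 (p t.2.2) ∧ Cov X o t.2.1 (p t.1) ∧
    Cov X o t.2.1 (p t.2.2) ∧ Cov X o t.2.2 (p t.1) ∧ Cov X o t.2.2 (p t.2.1) ∧
    ((∃ d < 6, d ≠ p t.1 ∧ d ≠ p t.2.1 ∧ d ≠ p t.2.2 ∧ Cov X o t.1 d ∧ Cov X o t.2.1 d ∧
        Cov X o t.2.2 d) ∨
      (∃ q < 6, q ≠ t.1 ∧ q ≠ t.2.1 ∧ q ≠ t.2.2 ∧ Cov X o q (p t.1) ∧ Cov X o q (p t.2.1) ∧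
        Cov X o q (p t.2.2)) ∨
      (Out X o t.1 ∧ Out X o t.2.1 ∧ Out X o t.2.2))

structure Hyp (X : ℕ → ℕ → ℕ → Prop) : Prop where
  fn : ∀ u i d d', X u i d → X u i d' → d = d'
  inj : ∀ u i i' d, X u i d → X u i' d → i = i'
  dis : ∀ u v i d, X u i d → X v i d → u = v
  good : ∀ S D : Finset ℕ, S ⊆ range 6 → D ⊆ range 6 → S.Nonempty → S.card + D.card = 7 →
    ¬ ∀ i ∈ S, ∀ d ∈ D, ∃ u < 4, X u i d
  bad : ∀ p : ℕ → ℕ, (∀ i < 6, p i < 6) → (∀ i < 6, ∀ j < 6, p i = p j → i = j) →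
    (∀ i < 6, ∀ u < 4, ¬ X u i (p i)) → ∃ o < 4, Thr X p o

def Sat (X : ℕ → ℕ → ℕ → Prop) (Y N : ℕ) : Prop :=
  ∀ u < 4, ∀ c < 36, (Y.testBit (36 * u + c) = true → X u (c / 6) (c % 6)) ∧
    (N.testBit (36 * u + c) = true → ¬ X u (c / 6) (c % 6))

lemma tb_eq (m n : ℕ) : tb m n = m.testBit n := by
  unfold tb
  change Nat.beq ((m >>> n) &&& 1) 1 = m.testBit n
  rw [Nat.testBit, Nat.and_comm]
  have h : (1 &&& m >>> n) = 0 ∨ (1 &&& m >>> n) = 1 := by
    have := Nat.and_le_left (n := 1) (m := m >>> n)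
    omega
  rcases h with h | h <;> rw [h] <;> rfl

lemma tb_prt (N u c : ℕ) : tb (prt N u) c = (decide (c < 36) && N.testBit (36 * u + c)) := by
  rw [tb_eq]
  change ((N >>> (36 * u)) % 68719476736).testBit c = _
  rw [show 68719476736 = 2 ^ 36 by norm_num, Nat.testBit_mod_two_pow, Nat.testBit_shiftRight]

lemma tb_land (a b c : ℕ) : tb (Nat.land a b) c = (tb a c && tb b c) := by
  rw [tb_eq, tb_eq, tb_eq]
  exact Nat.testBit_and a b c

lemma nt_sound {Y N o c : ℕ} (hs : Sat X Y N) (ho : o < 4) (h : tb (nt N o) c = true) :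
    c < 36 ∧ ∀ u < 4, u ≠ o → ¬ X u (c / 6) (c % 6) := by
  interval_cases o <;> simp only [nt, tb_land, tb_prt, Bool.and_eq_true, decide_eq_true_eq] at h <;>
    refine ⟨h.1.1, fun u hu huo => ?_⟩ <;> interval_cases u <;>
    first
      | exact absurd rfl huo
      | exact (hs _ (by norm_num) c h.1.1).2 h.1.2
      | exact (hs _ (by norm_num) c h.1.1).2 h.2.1.2
      | exact (hs _ (by norm_num) c h.1.1).2 h.2.2.2

lemma not_cov {Y N o i d : ℕ} (hs : Sat X Y N) (ho : o < 4) (hi : i < 6) (hd : d < 6)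
    (h : tb (nt N o) (Nat.add (Nat.mul 6 i) d) = true) : ¬ Cov X o i d := by
  rintro ⟨u, hu, huo, hx⟩
  have h1 := (nt_sound hs ho h).2 u hu huo
  have h2 : (Nat.add (Nat.mul 6 i) d) / 6 = i := by
    change (6 * i + d) / 6 = i; omega
  have h3 : (Nat.add (Nat.mul 6 i) d) % 6 = d := by
    change (6 * i + d) % 6 = d; omega
  rw [h2, h3] at h1
  exact h1 hx

lemma yr_sound {Y N u i : ℕ} (hs : Sat X Y N) (hu : u < 4) (hi : i < 6) (h : yr Y u i = true) :
    ∃ d < 6, X u i d := by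
  unfold yr at h
  have h0 : ((Y >>> (36 * u + 6 * i)) % 64) ≠ 0 := by
    intro h0
    have : (!(Nat.beq ((Y >>> (36 * u + 6 * i)) % 64) 0)) = true := h
    rw [h0] at this
    exact absurd this (by decide)
  obtain ⟨d, hd⟩ := Nat.exists_testBit_of_ne_zero h0
  rw [show 64 = 2 ^ 6 by norm_num, Nat.testBit_mod_two_pow, Nat.testBit_shiftRight,
    Bool.and_eq_true, decide_eq_true_eq] at hd
  refine ⟨d, hd.1, ?_⟩
  have h1 := (hs u hu (6 * i + d) (by omega)).1 (by
    rw [show 36 * u + (6 * i + d) = 36 * u + 6 * i + d by ring]; exact hd.2)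
  rwa [show (6 * i + d) / 6 = i by omega, show (6 * i + d) % 6 = d by omega] at h1

lemma zr_sound {Y N o i : ℕ} (hs : Sat X Y N) (ho : o < 4) (hi : i < 6) (h : zr Y i o = true) :
    ¬ Out X o i := by
  rintro ⟨u, hu, huo, hx⟩
  have h1 : yr Y u i = true := by
    interval_cases o <;> simp only [zr, Bool.and_eq_true] at h <;> interval_cases u <;>
      first
        | exact absurd rfl huo
        | exact h.1
        | exact h.2.1
        | exact h.2.2
  obtain ⟨d, hd, hxd⟩ := yr_sound hs hu hi h1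
  exact hx d hd hxd

lemma trs_lt : ∀ t ∈ trs, t.1 < 6 ∧ t.2.1 < 6 ∧ t.2.2 < 6 := by decide

lemma chkT_sound {Y N o p i j l : ℕ} (hs : Sat X Y N) (ho : o < 4) (hi : i < 6) (hj : j < 6)
    (hl : l < 6) (hp : ∀ r < 6, dg p r < 6) (h : chkT p (nt N o) Y o i j l = true)
    (h1 : Cov X o i (dg p j)) (h2 : Cov X o i (dg p l)) (h3 : Cov X o j (dg p i))
    (h4 : Cov X o j (dg p l)) (h5 : Cov X o l (dg p i)) (h6 : Cov X o l (dg p j))
    (h7 : (∃ d < 6, d ≠ dg p i ∧ d ≠ dg p j ∧ d ≠ dg p l ∧ Cov X o i d ∧ Cov X o j d ∧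
        Cov X o l d) ∨
      (∃ q < 6, q ≠ i ∧ q ≠ j ∧ q ≠ l ∧ Cov X o q (dg p i) ∧ Cov X o q (dg p j) ∧
        Cov X o q (dg p l)) ∨
      (Out X o i ∧ Out X o j ∧ Out X o l)) : False := by
  unfold chkT at h
  simp only [Bool.or_eq_true, Bool.and_eq_true] at h
  rcases h with h | h | h | h | h | h | ⟨hE, hQ, hZ⟩
  · exact not_cov hs ho hi (hp j hj) h h1
  · exact not_cov hs ho hi (hp l hl) h h2
  · exact not_cov hs ho hj (hp i hi) h h3
  · exact not_cov hs ho hj (hp l hl) h h4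
  · exact not_cov hs ho hl (hp i hi) h h5
  · exact not_cov hs ho hl (hp j hj) h h6
  · rcases h7 with ⟨d, hd, hdi, hdj, hdl, a1, a2, a3⟩ | ⟨q, hq, hqi, hqj, hql, a1, a2, a3⟩ |
      ⟨a1, a2, a3⟩
    · unfold okE at hE
      rw [List.all_eq_true] at hE
      have hE := hE d (by interval_cases d <;> decide)
      simp only [Bool.or_eq_true] at hE
      rcases hE with h | h | h | h | h | h
      · exact hdi (Nat.eq_of_beq_eq_true h).symm
      · exact hdj (Nat.eq_of_beq_eq_true h).symm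
      · exact hdl (Nat.eq_of_beq_eq_true h).symm
      · exact not_cov hs ho hi hd h a1
      · exact not_cov hs ho hj hd h a2
      · exact not_cov hs ho hl hd h a3
    · unfold okQ at hQ
      rw [List.all_eq_true] at hQ
      have hQ := hQ q (by interval_cases q <;> decide)
      simp only [Bool.or_eq_true] at hQ
      rcases hQ with h | h | h | h | h | h
      · exact hqi (Nat.eq_of_beq_eq_true h).symm
      · exact hqj (Nat.eq_of_beq_eq_true h).symm
      · exact hql (Nat.eq_of_beq_eq_true h).symm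
      · exact not_cov hs ho hq (hp i hi) h a1
      · exact not_cov hs ho hq (hp j hj) h a2
      · exact not_cov hs ho hq (hp l hl) h a3
    · rcases hZ with h | h | h
      · exact zr_sound hs ho hi h a1
      · exact zr_sound hs ho hj h a2
      · exact zr_sound hs ho hl h a3

lemma isP_sound {p : ℕ} (h : isP p = true) :
    (∀ i < 6, dg p i < 6) ∧ ∀ i < 6, ∀ j < 6, dg p i = dg p j → i = j := by
  have h0 : (1 <<< dg p 0 ||| (1 <<< dg p 1 ||| (1 <<< dg p 2 ||| (1 <<< dg p 3 |||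
      (1 <<< dg p 4 ||| 1 <<< dg p 5))))) = 63 := Nat.eq_of_beq_eq_true h
  have hsurj : ∀ d < 6, ∃ i < 6, dg p i = d := by
    intro d hd
    have h1 : Nat.testBit 63 d = true := by interval_cases d <;> decide
    rw [← h0] at h1
    have hsh : ∀ a, Nat.testBit (1 <<< a) d = true → a = d := by
      intro a ha
      rw [Nat.one_shiftLeft, Nat.testBit_two_pow, decide_eq_true_eq] at ha
      exact ha
    simp only [Nat.testBit_or, Bool.or_eq_true] at h1
    rcases h1 with h | h | h | h | h | h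
    · exact ⟨0, by norm_num, hsh _ h⟩
    · exact ⟨1, by norm_num, hsh _ h⟩
    · exact ⟨2, by norm_num, hsh _ h⟩
    · exact ⟨3, by norm_num, hsh _ h⟩
    · exact ⟨4, by norm_num, hsh _ h⟩
    · exact ⟨5, by norm_num, hsh _ h⟩
  have hsub : range 6 ⊆ (range 6).image (dg p) := by
    intro d hd
    obtain ⟨i, hi, h1⟩ := hsurj d (mem_range.1 hd)
    exact mem_image.2 ⟨i, mem_range.2 hi, h1⟩
  have hcard : ((range 6).image (dg p)).card ≤ (range 6).card := card_image_le
  have heq : range 6 = (range 6).image (dg p) := eq_of_subset_of_card_le hsub hcard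
  constructor
  · intro i hi
    have : dg p i ∈ range 6 := by rw [heq]; exact mem_image_of_mem _ (mem_range.2 hi)
    exact mem_range.1 this
  · have hinj : Set.InjOn (dg p) (range 6 : Finset ℕ) := by
      rw [← card_image_iff, ← heq]
    intro i hi j hj hij
    exact hinj (by simpa using hi) (by simpa using hj) hij

lemma leaf_sound {Y N p : ℕ} (hX : Hyp X) (hs : Sat X Y N) (h : leafOK p Y N = true) : False := by
  unfold leafOK at h
  rw [Bool.and_eq_true, Bool.and_eq_true] at h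
  obtain ⟨⟨h1, h2⟩, h3⟩ := h
  obtain ⟨hp, hpi⟩ := isP_sound h1
  rw [List.all_eq_true] at h2 h3
  obtain ⟨o, ho, t, ht, a1, a2, a3, a4, a5, a6, a7⟩ := hX.bad (dg p) hp hpi (by
    intro i hi u hu hx
    have h4 := h2 i (by interval_cases i <;> decide)
    rw [tb_land, Bool.and_eq_true] at h4
    have h5 := nt_sound hs (by norm_num : 0 < 4) h4.2
    have e1 : (Nat.add (Nat.mul 6 i) (dg p i)) / 6 = i := by
      change (6 * i + dg p i) / 6 = i
      have := hp i hi
      omega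
    have e2 : (Nat.add (Nat.mul 6 i) (dg p i)) % 6 = dg p i := by
      change (6 * i + dg p i) % 6 = dg p i
      have := hp i hi
      omega
    by_cases hu0 : u = 0
    · subst hu0
      have h6 := h4.1
      rw [tb_prt, Bool.and_eq_true, decide_eq_true_eq] at h6
      have h7 := (hs 0 (by norm_num) _ h6.1).2 h6.2
      rw [e1, e2] at h7
      exact h7 hx
    · have h7 := h5.2 u hu hu0
      rw [e1, e2] at h7
      exact h7 hx)
  have h5 := h3 o (by interval_cases o <;> decide)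
  rw [List.all_eq_true] at h5
  obtain ⟨b1, b2, b3⟩ := trs_lt t ht
  exact chkT_sound hs ho b1 b2 b3 hp (h5 t ht) a1 a2 a3 a4 a5 a6 a7

lemma pc_eq (a : ℕ) : pc a = ((range 6).filter (fun i => tb a i = true)).card := by
  rw [card_filter]
  simp only [sum_range_succ, sum_range_zero]
  unfold pc
  ring

lemma rect_sound {Y N a b : ℕ} (hX : Hyp X) (hs : Sat X Y N) (h : rect a b Y = true) : False := by
  unfold rect at h
  rw [Bool.and_eq_true, Bool.and_eq_true] at h
  obtain ⟨h1, h2, h3⟩ := h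
  have h1' : pc a + pc b = 7 := Nat.eq_of_beq_eq_true h1
  have h2' : 1 ≤ pc a := Nat.le_of_ble_eq_true h2
  rw [pc_eq, pc_eq] at h1'
  rw [pc_eq] at h2'
  refine hX.good _ _ (filter_subset _ _) (filter_subset _ _) (card_pos.1 h2') h1' ?_
  intro i hi d hd
  rw [mem_filter, mem_range] at hi hd
  rw [List.all_eq_true] at h3
  have h4 := h3 i (by have := hi.1; interval_cases i <;> decide)
  rw [Bool.or_eq_true] at h4
  rcases h4 with h4 | h4
  · rw [hi.2] at h4
    exact absurd h4 (by decide)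
  rw [List.all_eq_true] at h4
  have h5 := h4 d (by have := hd.1; interval_cases d <;> decide)
  rw [Bool.or_eq_true] at h5
  rcases h5 with h5 | h5
  · rw [hd.2] at h5
    exact absurd h5 (by decide)
  have key : ∀ u < 4, Y.testBit (36 * u + (6 * i + d)) = true → ∃ u < 4, X u i d := by
    intro u hu hy
    have h6 := (hs u hu (6 * i + d) (by omega)).1 hy
    rw [show (6 * i + d) / 6 = i by omega, show (6 * i + d) % 6 = d by omega] at h6
    exact ⟨u, hu, h6⟩
  simp only [Bool.or_eq_true, tb_eq] at h5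
  rcases h5 with h5 | h5 | h5 | h5
  · exact key 0 (by norm_num) (by
      rw [show 36 * 0 + (6 * i + d) = 6 * i + d by ring]; exact h5)
  · exact key 1 (by norm_num) h5
  · exact key 2 (by norm_num) h5
  · exact key 3 (by norm_num) h5

lemma msk_fin : ∀ (u : Fin 4) (c : Fin 36) (v : Fin 4) (e : Fin 36),
    (!(tb (msk u.val c.val) (36 * v.val + e.val)) ||
      ((Nat.beq v.val u.val && (!(Nat.beq e.val c.val) &&
        (Nat.beq (e.val / 6) (c.val / 6) || Nat.beq (e.val % 6) (c.val % 6)))) ||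
      (!(Nat.beq v.val u.val) && Nat.beq e.val c.val))) = true := by
  decide +kernel

lemma msk_fact (u : ℕ) (hu : u < 4) (c : ℕ) (hc : c < 36) (v : ℕ) (hv : v < 4) (e : ℕ)
    (he : e < 36) (h : tb (msk u c) (36 * v + e) = true) :
    (v = u ∧ e ≠ c ∧ (e / 6 = c / 6 ∨ e % 6 = c % 6)) ∨ (v ≠ u ∧ e = c) := by
  have h0 := msk_fin ⟨u, hu⟩ ⟨c, hc⟩ ⟨v, hv⟩ ⟨e, he⟩
  simp only [h, Bool.not_true, Bool.false_or, Bool.or_eq_true, Bool.and_eq_true,
    Bool.not_eq_true'] at h0
  rcases h0 with ⟨h1, h2, h3⟩ | ⟨h1, h2⟩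
  · refine Or.inl ⟨Nat.eq_of_beq_eq_true h1, Nat.ne_of_beq_eq_false h2, ?_⟩
    rcases h3 with h3 | h3
    · exact Or.inl (Nat.eq_of_beq_eq_true h3)
    · exact Or.inr (Nat.eq_of_beq_eq_true h3)
  · exact Or.inr ⟨Nat.ne_of_beq_eq_false h1, Nat.eq_of_beq_eq_true h2⟩

lemma sat_yes {Y N u c : ℕ} (hX : Hyp X) (hs : Sat X Y N) (hu : u < 4) (hc : c < 36)
    (hx : X u (c / 6) (c % 6)) :
    Sat X (Nat.lor Y (Nat.shiftLeft 1 (Nat.add (Nat.mul 36 u) c))) (Nat.lor N (msk u c)) := by
  intro v hv e he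
  obtain ⟨h1, h2⟩ := hs v hv e he
  constructor
  · intro h
    have h' : (Y ||| 1 <<< (36 * u + c)).testBit (36 * v + e) = true := h
    rw [Nat.testBit_or, Bool.or_eq_true] at h'
    rcases h' with h' | h'
    · exact h1 h'
    · rw [Nat.one_shiftLeft, Nat.testBit_two_pow, decide_eq_true_eq] at h'
      have e1 : u = v := by omega
      have e2 : c = e := by omega
      subst e1 e2
      exact hx
  · intro h
    have h' : (N ||| msk u c).testBit (36 * v + e) = true := h
    rw [Nat.testBit_or, Bool.or_eq_true] at h'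
    rcases h' with h' | h'
    · exact h2 h'
    · rw [← tb_eq] at h'
      intro hx'
      rcases msk_fact u hu c hc v hv e he h' with ⟨rfl, hne, h3 | h3⟩ | ⟨hne, rfl⟩
      · rw [h3] at hx'
        have h4 := hX.fn _ _ _ _ hx hx'
        exact hne (by omega)
      · rw [h3] at hx'
        have h4 := hX.inj _ _ _ _ hx hx'
        exact hne (by omega)
      · exact hne (hX.dis _ _ _ _ hx' hx)

lemma sat_no {Y N u c : ℕ} (hs : Sat X Y N) (hu : u < 4) (hc : c < 36)
    (hx : ¬ X u (c / 6) (c % 6)) :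
    Sat X Y (Nat.lor N (Nat.shiftLeft 1 (Nat.add (Nat.mul 36 u) c))) := by
  intro v hv e he
  obtain ⟨h1, h2⟩ := hs v hv e he
  refine ⟨h1, fun h => ?_⟩
  have h' : (N ||| 1 <<< (36 * u + c)).testBit (36 * v + e) = true := h
  rw [Nat.testBit_or, Bool.or_eq_true] at h'
  rcases h' with h' | h'
  · exact h2 h'
  · rw [Nat.one_shiftLeft, Nat.testBit_two_pow, decide_eq_true_eq] at h'
    have e1 : u = v := by omega
    have e2 : c = e := by omega
    subst e1 e2
    exact hx

theorem chk_sound {RT : ℕ} (hX : Hyp X)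
    (hR : ∀ c < 36, RT.testBit c = true → ∃ u < 3, X u (c / 6) (c % 6)) :
    ∀ (t : Tr) (Y N : ℕ), Sat X Y N → chk RT t Y N = true → False := by
  intro t
  induction t with
  | L p =>
    intro Y N hs h
    exact leaf_sound hX hs h
  | R c =>
    intro Y N hs h
    unfold chk at h
    rw [Bool.and_eq_true, Bool.and_eq_true] at h
    obtain ⟨h1, h2, h3⟩ := h
    have h1' : c < 36 := Nat.le_of_ble_eq_true h1
    rw [tb_eq] at h2
    obtain ⟨u, hu, hx⟩ := hR c h1' h2
    exact (nt_sound hs (by norm_num) h3).2 u (by omega) (by omega) hx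
  | B a b =>
    intro Y N hs h
    exact rect_sound hX hs h
  | S u c y n ihy ihn =>
    intro Y N hs h
    unfold chk at h
    rw [Bool.and_eq_true, Bool.and_eq_true, Bool.and_eq_true] at h
    obtain ⟨h1, h2, h3, h4⟩ := h
    have h1' : u < 4 := Nat.le_of_ble_eq_true h1
    have h2' : c < 36 := Nat.le_of_ble_eq_true h2
    by_cases hx : X u (c / 6) (c % 6)
    · exact ihy _ _ (sat_yes hX hs h1' h2' hx) h3
    · exact ihn _ _ (sat_no hs h1' h2' hx) h4

end Pool.Agent.H42.Pack6
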